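import Pool.Agent.Lib.P913.MDef

/-!
# Universality of the recursion (M)
-/

set_option autoImplicit false

namespace P913

/-- the recursion (M) is universal -/
def MUniv : Prop :=
  ∀ f : ℕ →. ℕ, Nat.Partrec f → ∃ (S : MSys) (I : List ℕ → Prop) (q : ℕ → List ℕ), S.Inv I ∧ Computable q ∧
    ∀ v : ℕ, I (q v) ∧ (S.Halts (q v) ↔ (f v).Dom)

end P913
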