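import Pool.Agent.Lib.P913.YSim
import Pool.Agent.Lib.P913.MUniv

/-!
# The system Y' is universal if the recursion (M) is universal
-/

set_option autoImplicit false

namespace P913

variable (S : MSys)

/-- one block more -/
def MSys.blk (p : ℕ) (s : ℕ × List Bool) (y : ℕ) : ℕ × List Bool :=
  (y, s.2 ++ (cl (hx (S.B p)) ++ List.replicate (8 * (S.γ + y - s.1)) false))

/-- the data ring of a queue of letters -/
def MSys.enc (p : ℕ) (q : List ℕ) : List Bool :=
  (q.tail.foldl (S.blk p) (q.head?.getD 0,
    List.replicate (4 * (3 * S.γ + S.R + 2 * q.head?.getD 0 - q.reverse.head?.getD 0)) false)).2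

namespace YUniAux

theorem dl_rep (n : ℕ) : dl (List.replicate n (false, false)) = List.replicate (4 * n) false := by
  induction n with
  | zero => rfl
  | succ n ih =>
    have e1 : dl (List.replicate (n + 1) (false, false)) =
        [false, false, false, false] ++ dl (List.replicate n (false, false)) := rfl
    rw [e1, ih, show 4 * (n + 1) = 4 + 4 * n by ring, List.replicate_add]
    rfl

theorem fold_TR (p : ℕ) (ys : List ℕ) : ∀ (x : ℕ) (acc : List Bool),
    ∃ Q', (ys.foldl (S.blk p) (x, acc)).2 = acc ++ Q' ∧ S.TR p x ys Q' := by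
  induction ys with
  | nil => intro x acc; exact ⟨[], by simp, rfl⟩
  | cons y ys ih =>
    intro x acc
    obtain ⟨Q', h1, h2⟩ := ih y (acc ++ (cl (hx (S.B p)) ++ List.replicate (8 * (S.γ + y - x)) false))
    refine ⟨cl (hx (S.B p)) ++ (List.replicate (8 * (S.γ + y - x)) false ++ Q'), ?_, ?_⟩
    · rw [List.foldl_cons]
      show (ys.foldl (S.blk p) (y, acc ++ (cl (hx (S.B p)) ++ List.replicate (8 * (S.γ + y - x)) false))).2 = _
      rw [h1]
      simp only [List.append_assoc]
    · refine ⟨List.replicate (2 * (S.γ + y - x)) (false, false), Q', by simp, ?_, h2⟩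
      rw [dl_rep, show 4 * (2 * (S.γ + y - x)) = 8 * (S.γ + y - x) by ring]

theorem enc_QR (p : ℕ) (q : List ℕ) (hq : q ≠ []) : S.QR p q (S.enc p q) := by
  cases q with
  | nil => exact absurd rfl hq
  | cons x ys =>
    obtain ⟨Q', h1, h2⟩ := fold_TR S p ys x (List.replicate (4 * (3 * S.γ + S.R + 2 * x - (x :: ys).reverse.head?.getD 0)) false)
    refine ⟨List.replicate (3 * S.γ + S.R + 2 * x - (x :: ys).getLastD 0) (false, false), Q', by simp, ?_, h2⟩
    have e : (x :: ys).getLastD 0 = (x :: ys).reverse.head?.getD 0 := by
      rw [List.head?_reverse, List.getLastD_eq_getLast?]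
    rw [dl_rep, e]
    exact h1

theorem repl_prim : Primrec fun x : ℕ => List.replicate x false := by
  have h : Primrec fun x : ℕ => (List.range x).map fun _ => false :=
    Primrec.list_map Primrec.list_range ((Primrec.const false).to₂)
  refine h.of_eq fun x => ?_
  simp

theorem flat_prim (f : Bool → List Bool) : Primrec fun l : List Bool => l.flatMap f :=
  Primrec.list_flatMap Primrec.id ((Primrec.dom_finite f).comp Primrec.snd).to₂

theorem t_prim : Primrec S.t := by
  have h : Primrec fun c : ℕ => 3 * S.γ + 3 * S.R + 1 + c :=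
    Primrec.nat_add.comp (Primrec.const _) Primrec.id
  exact h

theorem B_prim : Primrec S.B := by
  have h : Primrec fun c : ℕ => List.replicate (S.t c) false ++ (tz S.h (S.L false).length ++
      (List.replicate (2 * S.γ + S.t c - S.P false) false ++ (tz S.h (S.L true).length ++
        List.replicate (S.γ - S.P true) false))) := by
    refine Primrec.list_append.comp (repl_prim.comp (t_prim S)) ?_
    refine Primrec.list_append.comp (Primrec.const _) ?_
    refine Primrec.list_append.comp (repl_prim.comp ?_) (Primrec.const _)
    exact Primrec.nat_sub.comp (Primrec.nat_add.comp (Primrec.const _) (t_prim S)) (Primrec.const _)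
  exact h

theorem hx_prim : Primrec fun p : ℕ => cl (hx (S.B p)) :=
  (flat_prim _).comp ((flat_prim _).comp (B_prim S))

theorem enc_prim : Primrec₂ S.enc := by
  have hlast : Primrec fun x : ℕ × List ℕ => x.2.reverse.head?.getD 0 :=
    Primrec.option_getD.comp (Primrec.list_head?.comp (Primrec.list_reverse.comp Primrec.snd)) (Primrec.const 0)
  have hhead : Primrec fun x : ℕ × List ℕ => x.2.head?.getD 0 :=
    Primrec.option_getD.comp (Primrec.list_head?.comp Primrec.snd) (Primrec.const 0)
  have hinit : Primrec fun x : ℕ × List ℕ => (x.2.head?.getD 0,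
      List.replicate (4 * (3 * S.γ + S.R + 2 * x.2.head?.getD 0 - x.2.reverse.head?.getD 0)) false) := by
    refine Primrec.pair hhead (repl_prim.comp ?_)
    refine Primrec.nat_mul.comp (Primrec.const 4) ?_
    refine Primrec.nat_sub.comp ?_ hlast
    exact Primrec.nat_add.comp (Primrec.const _) (Primrec.nat_mul.comp (Primrec.const 2) hhead)
  have hstep : Primrec₂ fun (x : ℕ × List ℕ) (s : (ℕ × List Bool) × ℕ) => S.blk x.1 s.1 s.2 := by
    refine Primrec.pair (Primrec.snd.comp Primrec.snd) ?_
    refine Primrec.list_append.comp (Primrec.snd.comp (Primrec.fst.comp Primrec.snd)) ?_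
    refine Primrec.list_append.comp ((hx_prim S).comp (Primrec.fst.comp Primrec.fst)) ?_
    refine repl_prim.comp (Primrec.nat_mul.comp (Primrec.const 8) ?_)
    refine Primrec.nat_sub.comp ?_ (Primrec.fst.comp (Primrec.fst.comp Primrec.snd))
    exact Primrec.nat_add.comp (Primrec.const _) (Primrec.snd.comp Primrec.snd)
  have h : Primrec fun x : ℕ × List ℕ => (x.2.tail.foldl (S.blk x.1) (x.2.head?.getD 0,
      List.replicate (4 * (3 * S.γ + S.R + 2 * x.2.head?.getD 0 - x.2.reverse.head?.getD 0)) false)).2 :=
    Primrec.snd.comp (Primrec.list_foldl (Primrec.list_tail.comp Primrec.snd) hinit hstep)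
  exact h

theorem lap_prim (c : Bool) : Primrec fun p : ℕ => S.lap p c := by
  have h : Primrec fun p : ℕ => tp (S.B p) ++ S.gz c :=
    Primrec.list_append.comp ((flat_prim _).comp (B_prim S)) (Primrec.const _)
  exact h

theorem ring_length (p : ℕ) : ((S.lap p false ++ S.lap p true).tail).length =
    (24 * S.γ + 16 * (3 * S.γ + 3 * S.R + 1) + (S.gz false).length + (S.gz true).length - 1) + 16 * p := by
  rw [List.length_tail]
  unfold MSys.lap
  simp only [List.length_append, tp_length, S.B_length, MSys.t]
  omega

theorem ring_cons (p : ℕ) : S.lap p false ++ S.lap p true = true :: (S.lap p false ++ S.lap p true).tail := by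
  have h1 : S.B p = false :: (S.B p).tail := by
    unfold MSys.B MSys.t
    rw [show 3 * S.γ + 3 * S.R + 1 + p = (3 * S.γ + 3 * S.R + p) + 1 by omega, List.replicate_succ]
    rfl
  have h2 : tp (S.B p) = true :: ([false, true, false] ++ tp (S.B p).tail) := by
    conv_lhs => rw [h1]
    rfl
  unfold MSys.lap
  rw [h2]
  rfl

end YUniAux

open YUniAux

/-- The system Y' is universal. -/
theorem YT_univ (h : MUniv) : YT.Univ .A false := by
  intro f hf
  obtain ⟨S, I, q, hI, hq, hv⟩ := h f hf
  refine ⟨fun c => (S.lap c false ++ S.lap c true).tail, fun c => S.enc c (q c), fun n =>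
    (n - (24 * S.γ + 16 * (3 * S.γ + 3 * S.R + 1) + (S.gz false).length + (S.gz true).length - 1)) / 16, ?_, ?_, ?_, ?_⟩
  · exact (Primrec.list_tail.comp (Primrec.list_append.comp (lap_prim S false) (lap_prim S true))).to_comp
  · exact (enc_prim S).to_comp.comp Computable.id hq
  · exact (Primrec.nat_div.comp (Primrec.nat_sub.comp Primrec.id (Primrec.const _)) (Primrec.const 16)).to_comp
  · intro c
    obtain ⟨h1, h2⟩ := hv c
    have h3 := hI.two _ h1
    have hne : q c ≠ [] := by
      intro h
      rw [h] at h3
      simp at h3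
    have hQR := enc_QR S c (q c) hne
    refine ⟨?_, ?_, ?_⟩
    · intro h
      cases hqc : q c with
      | nil => exact hne hqc
      | cons x ys =>
        have h' : S.enc c (q c) = [] := h
        rw [hqc] at hQR h'
        obtain ⟨J, Q', hJ, hQ, _⟩ := hQR
        rw [h'] at hQ
        have h4 := congrArg List.length hQ
        rw [List.length_append, dl_length] at h4
        have h5 := S.P_le false
        have h6 : (x :: ys).getLastD 0 ≤ S.R := by
          apply hI.le _ (hqc ▸ h1)
          rw [List.getLastD_eq_getLast?, List.getLast?_eq_getLast_of_ne_nil (List.cons_ne_nil x ys)]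
          exact List.getLast_mem (List.cons_ne_nil x ys)
        have h7 : 10 ≤ S.h := by
          unfold MSys.h
          omega
        simp only [List.length_nil] at h4
        omega
    · show (((S.lap c false ++ S.lap c true).tail).length - _) / 16 = c
      rw [ring_length]
      omega
    · rw [← h2, ← S.sim hI c (q c) h1 _ hQR]
      rw [ring_cons S c]
      rfl

/-- The machine `U28` with 2 states and 8 symbols is universal if the recursion (M) is universal. -/
theorem universal28_of_MUniv (h : MUniv) : Universal U28 := universal28_of (YT_univ h)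

end P913
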