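import Pool.Agent.Lib.P913.MCnt
import Pool.Agent.Lib.P913.MUniv
import Pool.Agent.Lib.P913.YUni

/-!
# The recursion (M) is universal, the machine `U28` with 2 states and 8 symbols is universal
-/

set_option autoImplicit false

namespace P913

/-- the codes of the initial word without the marker -/
def tl0 (N q a b : ℕ) : List ℕ :=
  List.replicate a (8 * N + 8 * q + 1) ++ (List.replicate b (8 * N + 8 * q + 2) ++ [8 * N + 8 * q])

section

variable {N : ℕ} {P : ℕ → CI ℕ} {hP : ∀ i, (P i).zt ≤ (P i).pt ∧ (P i).pt < N}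

theorem cnt_rep (k n M : ℕ) : cnt N k (List.replicate n M) = if unt N M = k then n else 0 := by
  unfold cnt
  rw [List.countP_replicate]
  by_cases h : unt N M = k <;> simp [h]

theorem ctR_init (q a b q' : ℕ) (hq : q < N) (hgo : P q = .go q') :
    CtR N P hP (q, a, b, 0) ((mdat N P hP).stg (mdat N P hP).t (8 * q :: tl0 N q a b)) := by
  have e : exec (P q) (a, b, 0) = (false, a, b, 0) := by
    rw [hgo]
    rfl
  have u0 : unt N (8 * N + 8 * q) = 0 := by
    have := unt_lett (N := N) (2 * q) 0 (by omega) (by norm_num)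
    rwa [show 8 * N + 4 * (2 * q) + 0 = 8 * N + 8 * q by ring] at this
  have u1 : unt N (8 * N + 8 * q + 1) = 1 := by
    have := unt_lett (N := N) (2 * q) 1 (by omega) (by norm_num)
    rwa [show 8 * N + 4 * (2 * q) + 1 = 8 * N + 8 * q + 1 by ring] at this
  have u2 : unt N (8 * N + 8 * q + 2) = 2 := by
    have := unt_lett (N := N) (2 * q) 2 (by omega) (by norm_num)
    rwa [show 8 * N + 4 * (2 * q) + 2 = 8 * N + 8 * q + 2 by ring] at this
  refine ⟨tl0 N q a b, ?_, rfl, ?_⟩
  · show (mdat N P hP).Wd q (2 * q + (exec (P q) (a, b, 0)).1.toNat) (tl0 N q a b)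
    rw [e]
    refine ⟨hq, Or.inl (by simp), ?_, ?_⟩
    · intro u hu
      have hr : (mdat N P hP).r = 16 * N := rfl
      have hN : (mdat N P hP).N = N := rfl
      rw [hr, hN]
      unfold tl0 at hu
      simp only [List.mem_append, List.mem_replicate, List.mem_singleton] at hu
      rcases hu with ⟨_, rfl⟩ | ⟨_, rfl⟩ | rfl <;> omega
    · refine ⟨List.replicate a (8 * N + 8 * q + 1) ++ List.replicate b (8 * N + 8 * q + 2), ?_⟩
      have e2 : 8 * (mdat N P hP).N + 4 * (2 * q + (false, a, b, 0).1.toNat) = 8 * N + 8 * q := by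
        show 8 * N + 4 * (2 * q + 0) = _
        ring
      rw [e2]
      unfold tl0
      rw [List.append_assoc]
  · intro x
    show cnt N x.num (tl0 N q a b) = x.get (exec (P q) (a, b, 0)).2
    rw [e]
    unfold tl0
    rw [cnt_append, cnt_append, cnt_rep, cnt_rep, cnt_cons, u0, u1, u2]
    cases x <;> simp [Ct.num, Ct.get, cnt]

end

theorem primrec_rep2 {α : Type} [Primcodable α] {f g : α → ℕ} (hf : Primrec f) (hg : Primrec g) :
    Primrec fun x => List.replicate (f x) (g x) := by
  have h : Primrec fun x => (List.range (f x)).map fun _ => g x :=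
    Primrec.list_map (Primrec.list_range.comp hf) (hg.comp Primrec.fst).to₂
  refine h.of_eq fun x => ?_
  simp

theorem tl0_prim (N : ℕ) : Primrec fun x : ℕ × ℕ × ℕ => tl0 N x.1 x.2.1 x.2.2 := by
  have h8 : Primrec fun x : ℕ × ℕ × ℕ => 8 * N + 8 * x.1 :=
    Primrec.nat_add.comp (Primrec.const _) (Primrec.nat_mul.comp (Primrec.const 8) Primrec.fst)
  unfold tl0
  refine Primrec.list_append.comp (primrec_rep2 (Primrec.fst.comp Primrec.snd) ?_) ?_
  · exact Primrec.nat_add.comp h8 (Primrec.const 1)
  · refine Primrec.list_append.comp (primrec_rep2 (Primrec.snd.comp Primrec.snd) ?_) ?_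
    · exact Primrec.nat_add.comp h8 (Primrec.const 2)
    · exact Primrec.list_cons.comp h8 (Primrec.const [])

theorem stg_prim (D : MDat) (j : ℕ) : Primrec (D.stg j) := by
  have h : Primrec fun cs : List ℕ => (cs.flatMap fun β => (List.range (2 ^ j)).map fun J =>
      2 ^ j * β + D.E * D.r * J).map fun v => D.Z j + v := by
    refine Primrec.list_map (Primrec.list_flatMap Primrec.id ?_) ?_
    · have h1 : Primrec fun x : List ℕ × ℕ => (List.range (2 ^ j)).map fun J => 2 ^ j * x.2 + D.E * D.r * J := by
        refine Primrec.list_map (Primrec.const _) ?_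
        have h2 : Primrec fun y : (List ℕ × ℕ) × ℕ => 2 ^ j * y.1.2 + D.E * D.r * y.2 :=
          Primrec.nat_add.comp (Primrec.nat_mul.comp (Primrec.const _) (Primrec.snd.comp Primrec.fst))
            (Primrec.nat_mul.comp (Primrec.const _) Primrec.snd)
        exact h2.to₂
      exact h1.to₂
    · have h3 : Primrec fun y : List ℕ × ℕ => D.Z j + y.2 := Primrec.nat_add.comp (Primrec.const _) Primrec.snd
      exact h3.to₂
  exact h

/-- The recursion (M) is universal. -/
theorem muniv : MUniv := by
  intro f hf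
  obtain ⟨N, P, ini, inp, hinp, hP, hini, hv⟩ := exists_ord f hf
  obtain ⟨S, hR, hT, hH⟩ := (mdat N P hP).exists_sys
  have hfam := (mdat N P hP).fam S hR hT hH
  refine ⟨S, _, fun v => (mdat N P hP).stg (mdat N P hP).t
    (8 * ini (inp v).2.1 :: tl0 N (ini (inp v).2.1) (inp v).1 (inp v).2.2), hfam.inv, ?_, fun v => ?_⟩
  · have h1 : Computable fun v => ini (inp v).2.1 :=
      (Primrec.dom_finite ini).to_comp.comp (Computable.fst.comp (Computable.snd.comp hinp))
    have h2 : Computable fun v => tl0 N (ini (inp v).2.1) (inp v).1 (inp v).2.2 :=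
      (tl0_prim N).to_comp.comp (Computable.pair h1 (Computable.pair (Computable.fst.comp hinp)
        (Computable.snd.comp (Computable.snd.comp hinp))))
    have h3 : Computable fun v => 8 * ini (inp v).2.1 :=
      (Primrec.nat_mul.comp (Primrec.const 8) Primrec.id).to_comp.comp h1
    exact (stg_prim _ _).to_comp.comp (Computable.list_cons.comp h3 h2)
  · obtain ⟨h1, q', h2⟩ := hini (inp v).2.1
    have h3 := ctR_init (hP := hP) (ini (inp v).2.1) (inp v).1 (inp v).2.2 q' h1 h2
    constructor
    · obtain ⟨tl, hw, e, _⟩ := h3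
      exact hfam.mid _ ⟨_, _, tl, hw, _, le_rfl, e⟩
    · rw [S.halts_iff, StateTransition.tr_eval_dom (ct_resp S hT hH) h3, eval_dom_iff, ← hv v]
      rfl

/-- The machine `U28` with 2 states and 8 symbols is universal. -/
theorem universal28 : Universal U28 := universal28_of_MUniv muniv

end P913
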