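import Mathlib

/-!
# The recursion (M)

Letters are natural numbers `≤ R`.  Two children of the first letter `b` of the queue are appended; the last letter of
the queue is the current state.  All decisions depend on `u = 2 b + R - a` (`a` the current letter): a list of moves
`(k, s)` is executed, `u = k` is increased by `1` (`s = false`) or halts the system (`s = true`).
-/

set_option autoImplicit false

namespace P913

/-- moves -/
def gmv : List (ℕ × Bool) → ℕ → Option ℕ
  | [], u => some u
  | (k, s) :: L, u => if u = k then (if s then none else gmv L (u + 1)) else gmv L u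

/-- the data of a system (M): `L false`, `L true` the moves for the first and the second child -/
structure MSys where
  R : ℕ
  L : Bool → List (ℕ × Bool)
  κ : Bool → ℕ

/-- the new letter -/
def MSys.F (S : MSys) (c : Bool) (a b : ℕ) : Option ℕ :=
  (gmv (S.L c) (2 * b + S.R - a)).map fun v => 2 * b + S.R + S.κ c - v

/-- one step: the first letter is replaced by two new letters at the end -/
def MSys.step (S : MSys) : List ℕ → Option (List ℕ)
  | [] => none
  | b :: r => (S.F false ((b :: r).getLastD 0) b).bind fun x => (S.F true x b).map fun y => r ++ [x, y]

/-- iterated steps (a halting configuration is kept) -/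
def MSys.iter (S : MSys) (n : ℕ) (q : List ℕ) : List ℕ := (fun q => (S.step q).getD q)^[n] q

/-- the system halts -/
def MSys.Halts (S : MSys) (q : List ℕ) : Prop := ∃ n : ℕ, S.step (S.iter n q) = none

/-- the result of the moves stays in the range of the letters -/
def MSys.Good (S : MSys) (c : Bool) (a b : ℕ) : Prop :=
  ∀ v, gmv (S.L c) (2 * b + S.R - a) = some v → v ≤ 2 * b + S.R + S.κ c ∧ 2 * b + S.R + S.κ c ≤ v + S.R

/-- an invariant of the system: at least two letters, all letters are at most `R`, both new letters are in the range -/
structure MSys.Inv (S : MSys) (I : List ℕ → Prop) : Prop where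
  two : ∀ q, I q → 2 ≤ q.length
  le : ∀ q, I q → ∀ x ∈ q, x ≤ S.R
  good0 : ∀ b r, I (b :: r) → S.Good false ((b :: r).getLastD 0) b
  good1 : ∀ b r x, I (b :: r) → S.F false ((b :: r).getLastD 0) b = some x → S.Good true x b
  step : ∀ q q', I q → S.step q = some q' → I q'

end P913
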