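import Pool.Agent.Lib.P913.XY

/-!
# Bit machines and the Cocke-Minsky 2-tag system

A bit machine has finitely many states; a configuration is `(q, l, s, r)`: state, the number coded by the left
half of the tape (the cell next to the head is the lowest bit), the scanned bit, the number coded by the
right half.
-/

set_option autoImplicit false

namespace P913

inductive Act where
  | wr (b : Bool)
  | mr
  | ml

/-- a bit machine -/
abbrev BM (N : ℕ) := Fin N → Bool → Option (Fin N × Act)

/-- configurations -/
abbrev BC (N : ℕ) := Fin N × ℕ × Bool × ℕ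

/-- one step (`none` = the machine halts) -/
def bstep {N : ℕ} (M : BM N) (c : BC N) : Option (BC N) :=
  match M c.1 c.2.2.1 with
  | none => none
  | some (q, Act.wr b) => some (q, c.2.1, b, c.2.2.2)
  | some (q, Act.mr) => some (q, 2 * c.2.1 + c.2.2.1.toNat, c.2.2.2.bodd, c.2.2.2.div2)
  | some (q, Act.ml) => some (q, c.2.1.div2, c.2.1.bodd, 2 * c.2.2.2 + c.2.2.1.toNat)

/-- total version of the step -/
def bst {N : ℕ} (M : BM N) (c : BC N) : BC N := (bstep M c).getD c

/-- the machine halts -/
def BMHalts {N : ℕ} (M : BM N) (c : BC N) : Prop := ∃ n : ℕ, bstep M ((bst M)^[n] c) = none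

/-- the letters of the tag system (`LA q s` is written `A` in the comments, `la q s` is written `a`, and so
on; `LK` is `BB`, `lk` is `bb`) -/
inductive Lt (N : ℕ) where
  | x | eta
  | LA (q : Fin N) (s : Bool) | la (q : Fin N) (s : Bool)
  | LB (q : Fin N) (s : Bool) | lb (q : Fin N) (s : Bool)
  | LC (q : Fin N) | lc (q : Fin N) | LS (q : Fin N) | ls (q : Fin N)
  | LD (i : Bool) (q : Fin N) | ld (i : Bool) (q : Fin N)
  | LT (i : Bool) (q : Fin N) | lt (i : Bool) (q : Fin N)
  | LZ (q : Fin N) | lz (q : Fin N)
  | LE (i : Bool) (q : Fin N) | le (i : Bool) (q : Fin N)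
  | LG (i : Bool) (q : Fin N) | lg (i : Bool) (q : Fin N)
  | LK (q : Fin N) (s : Bool) | lk (q : Fin N) (s : Bool)
  deriving DecidableEq, Fintype

/-- the productions -/
def cm {N : ℕ} (M : BM N) : Lt N → List (Lt N)
  | .x => []
  | .eta => []
  | .LA q s => match M q s with
    | none => [.eta, .x]
    | some (q', Act.wr b) => [.LA q' b, .x]
    | some (q', Act.mr) => if s then [.LC q', .x, .lc q', .x] else [.LC q', .x]
    | some (q', Act.ml) => [.LZ q']
  | .la q s => match M q s with
    | none => []
    | some (q', Act.wr b) => [.la q' b, .x]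
    | some (q', Act.mr) => [.lc q', .x, .lc q', .x]
    | some (q', Act.ml) => [.lz q']
  | .LB q s => match M q s with
    | none => []
    | some (q', Act.wr b) => [.LB q' b, .x]
    | some (q', Act.mr) => [.LS q']
    | some (q', Act.ml) => if s then [.LE true q', .LE false q', .le true q', .le false q']
        else [.LE true q', .LE false q']
  | .lb q s => match M q s with
    | none => []
    | some (q', Act.wr b) => [.lb q' b, .x]
    | some (q', Act.mr) => [.ls q']
    | some (q', Act.ml) => [.le true q', .le false q', .le true q', .le false q']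
  | .LC q => [.LD true q, .LD false q]
  | .lc q => [.ld true q, .ld false q]
  | .LS q => [.LT true q, .LT false q]
  | .ls q => [.lt true q, .lt false q]
  | .LD true q => [.LA q true, .x]
  | .LD false q => [.x, .LA q false, .x]
  | .ld i q => [.la q i, .x]
  | .LT i q => [.LB q i, .x]
  | .lt i q => [.lb q i, .x]
  | .LZ q => [.LG true q, .LG false q]
  | .lz q => [.lg true q, .lg false q]
  | .LE true q => [.LK q true, .x]
  | .LE false q => [.x, .LK q false, .x]
  | .le i q => [.lk q i, .x]
  | .LG i q => [.LA q i, .x]
  | .lg i q => [.la q i, .x]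
  | .LK q s => [.LB q s, .x]
  | .lk q s => [.lb q s, .x]

/-- `n` copies of the word `[u, v]` -/
def pw {α : Type} (n : ℕ) (u v : α) : List α := (List.replicate n [u, v]).flatten

/-- the word of a configuration -/
def cw {N : ℕ} (c : BC N) : List (Lt N) :=
  [.LA c.1 c.2.2.1, .x] ++ pw c.2.1 (.la c.1 c.2.2.1) .x ++ [.LB c.1 c.2.2.1, .x] ++
    pw c.2.2.2 (.lb c.1 c.2.2.1) .x

/-- `n` steps of the tag system lead from `w` to `w'`, and before there was no word beginning with `η` -/
def TR {α : Type} (pr : α → List α) (η : α) (n : ℕ) (w w' : List α) : Prop :=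
  (tstep pr)^[n] w = w' ∧ ∀ j < n, ((tstep pr)^[j] w).head? ≠ some η

end P913
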