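import Pool.Agent.Lib.P913.TagBlk

/-!
# Module CML: the step `move left` of the tag system
-/

set_option autoImplicit false

namespace P913

variable {N : ℕ} (M : BM N)

namespace CMLaux

variable {α : Type} {pr : α → List α} {η : α}

theorem pw_succ (n : ℕ) (u v : α) : pw (n + 1) u v = u :: v :: pw n u v := by
  simp [pw, List.replicate_succ]

theorem pw_zero (u v : α) : pw 0 u v = [] := by
  simp [pw]

theorem blk {a u : α} (b v : α) (n : ℕ) (w : List α) (ha : a ≠ η) (hu : u ≠ η) :
    TR pr η (n + 1) (a :: b :: (pw n u v ++ w))
      (w ++ (pr a ++ (List.replicate n (pr u)).flatten)) := by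
  have h1 := TR_one (pr := pr) (η := η) b (pw n u v ++ w) ha
  have h2 := TR_pw (pr := pr) (η := η) v n (w ++ pr a) hu
  have h3 := TR.trans h1 (by simpa only [List.append_assoc] using h2)
  rw [Nat.add_comm n 1]
  simpa only [List.append_assoc] using h3

theorem shift {p q : α} (y : α) (n : ℕ) (hq : q ≠ η) : ∀ (z : α) (w : List α), z ≠ η →
    TR pr η (n + 1) (z :: (pw n p q ++ (y :: w)))
      (w ++ (pr z ++ (List.replicate n (pr q)).flatten)) := by
  induction n with
  | zero =>
    intro z w hz
    have h := TR_one (pr := pr) (η := η) y w hz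
    simpa [pw_zero] using h
  | succ n ih =>
    intro z w hz
    rw [pw_succ]
    have h1 := TR_one (pr := pr) (η := η) p (q :: (pw n p q ++ (y :: w))) hz
    have h2 := ih q (w ++ pr z) hq
    have h3 := TR.trans h1 (by simpa only [List.append_assoc, List.cons_append] using h2)
    rw [Nat.add_comm (n + 1) 1]
    simpa only [List.append_assoc, List.cons_append, List.replicate_succ, List.flatten_cons]
      using h3

theorem flat1 (n : ℕ) (u : α) : (List.replicate n [u]).flatten = List.replicate n u := by
  induction n with
  | zero => rfl
  | succ n ih => rw [List.replicate_succ, List.flatten_cons, ih, List.replicate_succ]; rfl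

theorem flat2 (n : ℕ) (u v : α) : (List.replicate n [u, v]).flatten = pw n u v := rfl

theorem flat4 (n : ℕ) (u v : α) :
    (List.replicate n [u, v, u, v]).flatten = pw (2 * n) u v := by
  induction n with
  | zero => rfl
  | succ n ih =>
    rw [List.replicate_succ, List.flatten_cons, ih, show 2 * (n + 1) = 2 * n + 1 + 1 by ring,
      pw_succ, pw_succ]
    rfl

theorem pair_nil (u v : α) (k : ℕ) (s : Bool) (X : List α) :
    (if s then X ++ [u, v] else X) ++ pw (2 * k) u v = X ++ pw (2 * k + s.toNat) u v := by
  cases s
  · simp
  · simp [pw_succ]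

end CMLaux

open CMLaux

theorem cm_ml (q q' : Fin N) (l : ℕ) (s : Bool) (r : ℕ) (h : M q s = some (q', Act.ml)) :
    ∃ n, TR (cm M) Lt.eta (n + 1) (cw (q, l, s, r))
      (cw (q', l.div2, l.bodd, 2 * r + s.toNat)) := by
  -- first pass
  set k := 2 * r + s.toNat with hk
  have hA : cm M (Lt.LA q s) = [.LZ q'] := by simp [cm, h]
  have ha : cm M (Lt.la q s) = [.lz q'] := by simp [cm, h]
  have hB : cm M (Lt.LB q s) = if s then [.LE true q', .LE false q'] ++ [.le true q', .le false q']
        else [.LE true q', .LE false q'] := by simp [cm, h]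
  have hb : cm M (Lt.lb q s) = [.le true q', .le false q', .le true q', .le false q'] := by
    simp [cm, h]
  have p1 : TR (cm M) Lt.eta ((l + 1) + (r + 1)) (cw (q, l, s, r))
      (.LZ q' :: (List.replicate l (.lz q') ++ (.LE true q' :: .LE false q' ::
        (pw k (.le true q') (.le false q'))))) := by
    have h1 := blk (pr := cm M) (η := Lt.eta) (a := Lt.LA q s) (u := Lt.la q s) .x .x l
      (.LB q s :: .x :: pw r (.lb q s) .x) (by simp) (by simp)
    have h2 := blk (pr := cm M) (η := Lt.eta) (a := Lt.LB q s) (u := Lt.lb q s) .x .x r
      (cm M (Lt.LA q s) ++ (List.replicate l (cm M (Lt.la q s))).flatten) (by simp) (by simp)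
    have h3 := TR.trans h1 (by simpa only [List.append_assoc, List.cons_append] using h2)
    rw [hA, ha, hB, hb, flat1, flat4, pair_nil, ← hk] at h3
    have e : cw (q, l, s, r) = Lt.LA q s :: Lt.x :: (pw l (Lt.la q s) Lt.x ++
        Lt.LB q s :: Lt.x :: pw r (Lt.lb q s) Lt.x) := by
      simp [cw]
    rw [e]
    simpa using h3
  -- reading the `Z` block
  rcases Nat.even_or_odd' l with ⟨m, hm | hm⟩
  · -- even
    have hbo : l.bodd = false := by rw [hm]; simp
    have hdv : l.div2 = m := by rw [hm]; simp [Nat.div2_val]
    rw [hbo, hdv]
    -- second pass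
    have p2 : TR (cm M) Lt.eta (m + 1) (.LZ q' :: (List.replicate l (.lz q') ++ (.LE true q' ::
        .LE false q' :: (pw k (.le true q') (.le false q')))))
        (.LE false q' :: (pw k (.le true q') (.le false q') ++ (.LG true q' :: (.LG false q' ::
          pw m (.lg true q') (.lg false q'))))) := by
      rcases Nat.eq_zero_or_pos m with h0 | h0
      · subst h0
        have : l = 0 := by omega
        subst this
        have h1 := TR_one (pr := cm M) (η := Lt.eta) (a := Lt.LZ q') (.LE true q')
          (.LE false q' :: (pw k (.le true q') (.le false q'))) (by simp)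
        simpa [cm, pw_zero] using h1
      · obtain ⟨m', rfl⟩ : ∃ m', m = m' + 1 := ⟨m - 1, by omega⟩
        have hl : l = 2 * m' + 1 + 1 := by omega
        rw [hl, List.replicate_succ]
        have h1 := TR_one (pr := cm M) (η := Lt.eta) (a := Lt.LZ q') (.lz q')
          (List.replicate (2 * m' + 1) (.lz q') ++ (.LE true q' :: .LE false q' ::
            (pw k (.le true q') (.le false q')))) (by simp)
        have h2 := TR_rep_odd (pr := cm M) (η := Lt.eta) (u := Lt.lz q') m' (.LE true q')
          (.LE false q' :: (pw k (.le true q') (.le false q')) ++ cm M (Lt.LZ q')) (by simp)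
        have h3 := TR.trans h1 (by simpa only [List.append_assoc, List.cons_append] using h2)
        rw [show m' + 1 + 1 = 1 + (m' + 1) by ring]
        have e1 : cm M (Lt.LZ q') = [.LG true q', .LG false q'] := rfl
        have e2 : cm M (Lt.lz q') = [.lg true q', .lg false q'] := rfl
        rw [e1, e2, flat2] at h3
        simpa [Nat.add_comm 1 m'] using h3
    -- third pass: the `E` block
    have p3 := shift (pr := cm M) (η := Lt.eta) (p := Lt.le true q') (q := Lt.le false q')
      (.LG true q') k (by simp) (.LE false q') (.LG false q' ::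
          pw m (.lg true q') (.lg false q')) (by simp)
    have e3 : cm M (Lt.LE false q') = [.x, .LK q' false, .x] := rfl
    have e4 : cm M (Lt.le false q') = [.lk q' false, .x] := rfl
    rw [e3, e4, flat2] at p3
    -- fourth pass: the `G` block
    have p4 := shift (pr := cm M) (η := Lt.eta) (p := Lt.lg true q') (q := Lt.lg false q')
      (.x) m (by simp) (.LG false q') (.LK q' false :: .x :: pw k (.lk q' false) .x) (by simp)
    have e5 : cm M (Lt.LG false q') = [.LA q' false, .x] := rfl
    have e6 : cm M (Lt.lg false q') = [.la q' false, .x] := rfl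
    rw [e5, e6, flat2] at p4
    -- fifth pass
    have p5 := blk (pr := cm M) (η := Lt.eta) (a := Lt.LK q' false) (u := Lt.lk q' false) .x .x k
      ([.LA q' false, .x] ++ pw m (.la q' false) .x) (by simp) (by simp)
    have e7 : cm M (Lt.LK q' false) = [.LB q' false, .x] := rfl
    have e8 : cm M (Lt.lk q' false) = [.lb q' false, .x] := rfl
    rw [e7, e8, flat2] at p5
    have c1 := TR.trans p1 p2
    have c2 := TR.trans c1 p3
    have c3 := TR.trans c2 (by simpa only [List.append_assoc, List.cons_append, List.nil_append]
      using p4)
    have c4 := TR.trans c3 (by simpa only [List.append_assoc, List.cons_append, List.nil_append]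
      using p5)
    refine ⟨(l + 1) + (r + 1) + (m + 1) + (k + 1) + (m + 1) + k, ?_⟩
    have e : cw (q', m, false, k) = [.LA q' false, .x] ++ pw m (.la q' false) .x ++
      ([.LB q' false, .x] ++ pw k (.lb q' false) .x) := by
      simp [cw]
    rw [e, Nat.add_assoc _ k 1]
    simpa only [List.append_assoc, List.cons_append, List.nil_append] using c4
  · -- odd
    have hbo : l.bodd = true := by rw [hm]; simp
    have hdv : l.div2 = m := by rw [hm, Nat.div2_val]; omega
    rw [hbo, hdv]
    have p2 : TR (cm M) Lt.eta (1 + m) (.LZ q' :: (List.replicate l (.lz q') ++ (.LE true q' ::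
        .LE false q' :: (pw k (.le true q') (.le false q')))))
        (.LE true q' :: .LE false q' :: (pw k (.le true q') (.le false q') ++
          (.LG true q' :: .LG false q' :: pw m (.lg true q') (.lg false q')))) := by
      rw [hm, List.replicate_succ]
      have h1 := TR_one (pr := cm M) (η := Lt.eta) (a := Lt.LZ q') (.lz q')
          (List.replicate (2 * m) (.lz q') ++ (.LE true q' :: .LE false q' ::
            (pw k (.le true q') (.le false q')))) (by simp)
      have h2 := TR_rep (pr := cm M) (η := Lt.eta) (u := Lt.lz q') m
          (.LE true q' :: .LE false q' :: (pw k (.le true q') (.le false q')) ++ cm M (Lt.LZ q'))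
          (by simp)
      have h3 := TR.trans h1 (by simpa only [List.append_assoc, List.cons_append] using h2)
      have e1 : cm M (Lt.LZ q') = [.LG true q', .LG false q'] := rfl
      have e2 : cm M (Lt.lz q') = [.lg true q', .lg false q'] := rfl
      rw [e1, e2, flat2] at h3
      simpa using h3
    have p3 := blk (pr := cm M) (η := Lt.eta) (a := Lt.LE true q') (u := Lt.le true q')
      (.LE false q') (.le false q') k (.LG true q' :: .LG false q' ::
          pw m (.lg true q') (.lg false q')) (by simp) (by simp)
    have e3 : cm M (Lt.LE true q') = [.LK q' true, .x] := rfl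
    have e4 : cm M (Lt.le true q') = [.lk q' true, .x] := rfl
    rw [e3, e4, flat2] at p3
    have p4 := blk (pr := cm M) (η := Lt.eta) (a := Lt.LG true q') (u := Lt.lg true q')
      (.LG false q') (.lg false q') m ([.LK q' true, .x] ++ pw k (.lk q' true) .x)
      (by simp) (by simp)
    have e5 : cm M (Lt.LG true q') = [.LA q' true, .x] := rfl
    have e6 : cm M (Lt.lg true q') = [.la q' true, .x] := rfl
    rw [e5, e6, flat2] at p4
    have p5 := blk (pr := cm M) (η := Lt.eta) (a := Lt.LK q' true) (u := Lt.lk q' true) .x .x k
      ([.LA q' true, .x] ++ pw m (.la q' true) .x) (by simp) (by simp)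
    have e7 : cm M (Lt.LK q' true) = [.LB q' true, .x] := rfl
    have e8 : cm M (Lt.lk q' true) = [.lb q' true, .x] := rfl
    rw [e7, e8, flat2] at p5
    have c1 := TR.trans p1 p2
    have c2 := TR.trans c1 p3
    have c3 := TR.trans c2 (by simpa only [List.append_assoc, List.cons_append, List.nil_append]
      using p4)
    have c4 := TR.trans c3 (by simpa only [List.append_assoc, List.cons_append, List.nil_append]
      using p5)
    refine ⟨(l + 1) + (r + 1) + (1 + m) + (k + 1) + (m + 1) + k, ?_⟩
    have e : cw (q', m, true, k) = [.LA q' true, .x] ++ pw m (.la q' true) .x ++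
      ([.LB q' true, .x] ++ pw k (.lb q' true) .x) := by
      simp [cw]
    rw [e, Nat.add_assoc _ k 1]
    simpa only [List.append_assoc, List.cons_append, List.nil_append] using c4

end P913
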