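import Pool.Agent.Lib.P913.CMW
import Pool.Agent.Lib.P913.CMR
import Pool.Agent.Lib.P913.CML

/-!
# Module CMFin: the tag system simulates the bit machine

PROOFS.  `cm_step`: cases of `M c.1 c.2.2.1` (`cm_wr`, `cm_mr`, `cm_ml`).  `cm_halts`: (if) by induction on the
number `n` of steps in `BMHalts` (generalize `c`): `bstep M c = none`: `cm_none`; otherwise `cm_step` and
`TagHalts` of the later word.  (only if) contraposition: if the machine does not halt, for every `n` there is a `c'` and
`m ≥ n` with `TR m (cw c) (cw c')` (and `c'` does not halt), so no word before time `n` begins with `eta`.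
`bm_to_tag`: `e : Lt N ≃ Fin K` (`Fintype.equivFin`), `pr k = (cm M (e.symm k)).map e`, `η = e eta`,
`wd p = (cw (q0, p)).map e`; `tstep` commutes with `List.map e`.  Computability of `wd`: the word is a concatenation of
constants and of `pw n u v` (`n` a component of the argument, `u`, `v` depend on the bit `s`: `Computable.cond`);
`fun n => pw n u v` is `List.flatMap` of `List.range n` with a constant function (`Primrec.list_flatMap`,
`Primrec.list_range`), or `Primrec.nat_rec`.
-/

set_option autoImplicit false

namespace P913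

theorem cm_step {N : ℕ} (M : BM N) (c c' : BC N) (h : bstep M c = some c') :
    ∃ n, TR (cm M) Lt.eta (n + 1) (cw c) (cw c') := by
  obtain ⟨q, l, s, r⟩ := c
  unfold bstep at h
  simp only at h
  rcases hM : M q s with _ | ⟨q', a⟩
  · rw [hM] at h
    simp at h
  · rw [hM] at h
    cases a with
    | wr b =>
      simp only [Option.some.injEq] at h
      subst h
      exact cm_wr M q q' l s b r hM
    | mr =>
      simp only [Option.some.injEq] at h
      subst h
      exact cm_mr M q q' l s r hM
    | ml =>
      simp only [Option.some.injEq] at h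
      subst h
      exact cm_ml M q q' l s r hM

namespace CMFinAux

theorem halt_none {N : ℕ} (M : BM N) (c : BC N) (h : bstep M c = none) :
    TagHalts (cm M) Lt.eta (cw c) := by
  obtain ⟨q, l, s, r⟩ := c
  have hM : M q s = none := by
    unfold bstep at h
    simp only at h
    rcases hM : M q s with _ | ⟨q', a⟩
    · rfl
    · rw [hM] at h
      cases a <;> simp at h
  obtain ⟨n, hn⟩ := cm_none M q l s r hM
  refine ⟨n, ?_⟩
  rw [hn.1]
  rfl

theorem halt_back {α : Type} {pr : α → List α} {η : α} {n : ℕ} {w w' : List α}
    (h : TR pr η n w w') (h' : TagHalts pr η w') : TagHalts pr η w := by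
  obtain ⟨m, hm⟩ := h'
  refine ⟨m + n, ?_⟩
  rw [Function.iterate_add_apply, h.1]
  exact hm

theorem halts_mpr {N : ℕ} (M : BM N) (n : ℕ) : ∀ c : BC N,
    bstep M ((bst M)^[n] c) = none → TagHalts (cm M) Lt.eta (cw c) := by
  induction n with
  | zero =>
    intro c h
    exact halt_none M c h
  | succ n ih =>
    intro c h
    rcases hc : bstep M c with _ | c'
    · exact halt_none M c hc
    · have e : bst M c = c' := by
        unfold bst
        rw [hc]
        rfl
      rw [Function.iterate_succ_apply, e] at h
      obtain ⟨k, hk⟩ := cm_step M c c' hc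
      exact halt_back hk (ih c' h)

theorem halts_mp {N : ℕ} (M : BM N) (n : ℕ) : ∀ c : BC N,
    ((tstep (cm M))^[n] (cw c)).head? = some Lt.eta → BMHalts M c := by
  induction n using Nat.strong_induction_on with
  | _ n ih =>
    intro c h
    rcases hc : bstep M c with _ | c'
    · exact ⟨0, hc⟩
    · have e : bst M c = c' := by
        unfold bst
        rw [hc]
        rfl
      obtain ⟨k, hk⟩ := cm_step M c c' hc
      have hkn : k + 1 ≤ n := by
        by_contra hlt
        exact hk.2 n (by omega) h
      obtain ⟨m, hm⟩ : ∃ m, n = m + (k + 1) := ⟨n - (k + 1), by omega⟩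
      rw [hm, Function.iterate_add_apply, hk.1] at h
      obtain ⟨j, hj⟩ := ih m (by omega) c' h
      refine ⟨j + 1, ?_⟩
      rw [Function.iterate_succ_apply, e]
      exact hj

theorem tstep_map {α β : Type} (e : α ≃ β) (pr : α → List α) (w : List α) :
    tstep (fun k => (pr (e.symm k)).map e) (w.map e) = (tstep pr w).map e := by
  cases w with
  | nil => rfl
  | cons a w =>
    simp only [List.map_cons, tstep, Equiv.symm_apply_apply]
    rw [← List.map_append, ← List.map_tail]

theorem iter_map {α β : Type} (e : α ≃ β) (pr : α → List α) (n : ℕ) : ∀ w : List α,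
    (tstep (fun k => (pr (e.symm k)).map e))^[n] (w.map e) = ((tstep pr)^[n] w).map e := by
  induction n with
  | zero => intro w; rfl
  | succ n ih =>
    intro w
    rw [Function.iterate_succ_apply, Function.iterate_succ_apply, tstep_map, ih]

theorem halts_map {α β : Type} (e : α ≃ β) (pr : α → List α) (η : α) (w : List α) :
    TagHalts (fun k => (pr (e.symm k)).map e) (e η) (w.map e) ↔ TagHalts pr η w := by
  unfold TagHalts
  refine exists_congr fun n => ?_
  rw [iter_map, List.head?_map]
  constructor
  · intro h
    rcases ho : ((tstep pr)^[n] w).head? with _ | a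
    · rw [ho] at h
      simp at h
    · rw [ho] at h
      simp only [Option.map_some, Option.some.injEq, EmbeddingLike.apply_eq_iff_eq] at h
      rw [h]
  · intro h
    rw [h]
    rfl

theorem pw_map {α β : Type} (e : α → β) (n : ℕ) (u v : α) :
    (pw n u v).map e = pw n (e u) (e v) := by
  unfold pw
  rw [List.map_flatten, List.map_replicate]
  rfl

theorem pw_prim {α σ : Type} [Primcodable α] [Primcodable σ] {f : α → ℕ} {u v : α → σ}
    (hf : Primrec f) (hu : Primrec u) (hv : Primrec v) :
    Primrec fun a => pw (f a) (u a) (v a) := by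
  have h : (fun a => pw (f a) (u a) (v a)) =
      fun a => ((List.range (f a)).map fun _ => [u a, v a]).flatten := by
    funext a
    unfold pw
    congr 1
    rw [List.map_const', List.length_range]
  rw [h]
  refine Primrec.list_flatten.comp (Primrec.list_map (Primrec.list_range.comp hf) ?_)
  exact (Primrec.list_cons.comp (hu.comp Primrec.fst)
    (Primrec.list_cons.comp (hv.comp Primrec.fst) (Primrec.const []))).to₂

end CMFinAux

theorem cm_halts {N : ℕ} (M : BM N) (c : BC N) : TagHalts (cm M) Lt.eta (cw c) ↔ BMHalts M c := by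
  constructor
  · rintro ⟨n, hn⟩
    exact CMFinAux.halts_mp M n c hn
  · rintro ⟨n, hn⟩
    exact CMFinAux.halts_mpr M n c hn

theorem bm_to_tag (N : ℕ) (M : BM N) (q0 : Fin N) :
    ∃ (K : ℕ) (pr : Fin K → List (Fin K)) (η : Fin K) (wd : ℕ × Bool × ℕ → List (Fin K)),
      Computable wd ∧ ∀ p, TagHalts pr η (wd p) ↔ BMHalts M (q0, p) := by
  classical
  let e : Lt N ≃ Fin (Fintype.card (Lt N)) := Fintype.equivFin (Lt N)
  refine ⟨Fintype.card (Lt N), fun k => (cm M (e.symm k)).map e, e Lt.eta,
    fun p => (cw (q0, p)).map e, ?_, ?_⟩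
  · have h : (fun p : ℕ × Bool × ℕ => (cw (q0, p)).map e) = fun p =>
        ((([e (Lt.LA q0 p.2.1), e Lt.x] ++ pw p.1 (e (Lt.la q0 p.2.1)) (e Lt.x)) ++
          [e (Lt.LB q0 p.2.1), e Lt.x]) ++ pw p.2.2 (e (Lt.lb q0 p.2.1)) (e Lt.x)) := by
      funext p
      unfold cw
      simp only [List.map_append, CMFinAux.pw_map, List.map_cons, List.map_nil]
    rw [h]
    have hs : Primrec fun p : ℕ × Bool × ℕ => p.2.1 := Primrec.fst.comp Primrec.snd
    have hfin : ∀ f : Bool → Fin (Fintype.card (Lt N)),
        Primrec fun p : ℕ × Bool × ℕ => f p.2.1 := fun f => (Primrec.dom_finite f).comp hs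
    have hx : Primrec fun _ : ℕ × Bool × ℕ => e Lt.x := Primrec.const _
    refine Primrec.to_comp ?_
    refine Primrec.list_append.comp (Primrec.list_append.comp (Primrec.list_append.comp ?_ ?_) ?_) ?_
    · exact Primrec.list_cons.comp (hfin fun s => e (Lt.LA q0 s))
        (Primrec.list_cons.comp hx (Primrec.const []))
    · exact CMFinAux.pw_prim Primrec.fst (hfin fun s => e (Lt.la q0 s)) hx
    · exact Primrec.list_cons.comp (hfin fun s => e (Lt.LB q0 s))
        (Primrec.list_cons.comp hx (Primrec.const []))
    · exact CMFinAux.pw_prim (Primrec.snd.comp Primrec.snd) (hfin fun s => e (Lt.lb q0 s)) hx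
  · intro p
    rw [CMFinAux.halts_map]
    exact cm_halts M (q0, p)

end P913
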