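import Pool.Agent.Lib.P913.TagBlk

/-!
# Module CMW: the writing step and the halting step of the tag system

PROOFS.  `cm_wr`: `cw c = A x (a x)^l B x (b x)^r` is read in `1 + l + 1 + r` steps (`TR_one`, `TR_pw`), the output is
`A' x (a' x)^l B' x (b' x)^r`.  `cm_none`: the same number of steps gives `[eta, x]` (all other productions are empty).
-/

set_option autoImplicit false

namespace P913

variable {N : ℕ} (M : BM N)

namespace CMWaux

variable {α : Type} {pr : α → List α} {η : α}

theorem blk {a u : α} (b v : α) (n : ℕ) (w : List α) (ha : a ≠ η) (hu : u ≠ η) :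
    TR pr η (n + 1) (a :: b :: (pw n u v ++ w))
      (w ++ (pr a ++ (List.replicate n (pr u)).flatten)) := by
  have h1 := TR_one (pr := pr) (η := η) b (pw n u v ++ w) ha
  have h2 := TR_pw (pr := pr) (η := η) v n (w ++ pr a) hu
  have h3 := TR.trans h1 (by simpa only [List.append_assoc] using h2)
  rw [Nat.add_comm n 1]
  simpa only [List.append_assoc] using h3

theorem flat0 (n : ℕ) : (List.replicate n ([] : List α)).flatten = [] := by
  induction n with
  | zero => rfl
  | succ n ih => rw [List.replicate_succ, List.flatten_cons, ih]; rfl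

theorem two (q : Fin N) (l : ℕ) (s : Bool) (r : ℕ) :
    TR (cm M) Lt.eta ((l + 1) + (r + 1)) (cw (q, l, s, r))
      ((cm M (Lt.LA q s) ++ (List.replicate l (cm M (Lt.la q s))).flatten) ++
        (cm M (Lt.LB q s) ++ (List.replicate r (cm M (Lt.lb q s))).flatten)) := by
  have h1 := blk (pr := cm M) (η := Lt.eta) (a := Lt.LA q s) (u := Lt.la q s) .x .x l
    (.LB q s :: .x :: pw r (.lb q s) .x) (by simp) (by simp)
  have h2 := blk (pr := cm M) (η := Lt.eta) (a := Lt.LB q s) (u := Lt.lb q s) .x .x r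
    (cm M (Lt.LA q s) ++ (List.replicate l (cm M (Lt.la q s))).flatten) (by simp) (by simp)
  have h3 := TR.trans h1 (by simpa only [List.append_assoc, List.cons_append] using h2)
  have e : cw (q, l, s, r) = Lt.LA q s :: Lt.x :: (pw l (Lt.la q s) Lt.x ++
      Lt.LB q s :: Lt.x :: pw r (Lt.lb q s) Lt.x) := by
    simp [cw]
  rw [e, List.append_assoc]
  exact h3

end CMWaux

open CMWaux

theorem cm_wr (q q' : Fin N) (l : ℕ) (s b : Bool) (r : ℕ) (h : M q s = some (q', Act.wr b)) :
    ∃ n, TR (cm M) Lt.eta (n + 1) (cw (q, l, s, r)) (cw (q', l, b, r)) := by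
  have h1 := two M q l s r
  have hA : cm M (Lt.LA q s) = [.LA q' b, .x] := by simp [cm, h]
  have ha : cm M (Lt.la q s) = [.la q' b, .x] := by simp [cm, h]
  have hB : cm M (Lt.LB q s) = [.LB q' b, .x] := by simp [cm, h]
  have hb : cm M (Lt.lb q s) = [.lb q' b, .x] := by simp [cm, h]
  rw [hA, ha, hB, hb] at h1
  refine ⟨l + 1 + r, ?_⟩
  have e : cw (q', l, b, r) = ([.LA q' b, .x] ++ (List.replicate l [.la q' b, .x]).flatten) ++
      ([.LB q' b, .x] ++ (List.replicate r [.lb q' b, .x]).flatten) := by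
    simp [cw, pw]
  rw [e, Nat.add_assoc]
  exact h1

theorem cm_none (q : Fin N) (l : ℕ) (s : Bool) (r : ℕ) (h : M q s = none) :
    ∃ n, TR (cm M) Lt.eta n (cw (q, l, s, r)) [Lt.eta, Lt.x] := by
  have h1 := two M q l s r
  have hA : cm M (Lt.LA q s) = [.eta, .x] := by simp [cm, h]
  have ha : cm M (Lt.la q s) = [] := by simp [cm, h]
  have hB : cm M (Lt.LB q s) = [] := by simp [cm, h]
  have hb : cm M (Lt.lb q s) = [] := by simp [cm, h]
  rw [hA, ha, hB, hb, flat0, flat0] at h1
  refine ⟨(l + 1) + (r + 1), ?_⟩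
  simpa using h1

end P913
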