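import Pool.Agent.Lib.P913.Chain2

/-!
# Module Chain1: from a TM1 machine to a TM0 machine over `Bool`

PROOF.  From `exists_TM1`.  `Turing.TM1to1.exists_enc_dec : ∃ n, ∃ enc : Γ → List.Vector Bool n, ∃ dec,
enc default = List.Vector.replicate n false ∧ ∀ a, dec (enc a) = a`.  Machine `M' = Turing.TM1to1.tr enc dec M` over
`Bool`; `Turing.TM1to1.tr_respects` and `StateTransition.tr_eval_dom`: the initial configuration of
`TM1.init l` is mapped to `⟨some default, default, trTape enc0 (Tape.mk₁ l)⟩`, and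
`trTape enc0 (Tape.mk₁ l) = Tape.mk₁ (l.flatMap fun a => (enc a).toList)`: `Tape.mk₁ l = Tape.mk₂ [] l =
Tape.mk' (ListBlank.mk []) (ListBlank.mk l)`, `Turing.TM1to1.trTape_mk'`, `ListBlank.flatMap_mk`.  The label type
of `M'` has the default `Λ'.normal default`.  Support: `Turing.TM1to1.tr_supports`.
Then `Turing.TM1to0.tr_eval : TM0.eval (TM1to0.tr M') l = TM1.eval M' l` and `Turing.TM1to0.tr_supports`.
`e0 = (enc a0).toList`, `e1 = (enc a1).toList`, `(List.replicate v a1).flatMap .. = (List.replicate v e1).flatten`.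
-/

set_option autoImplicit false

namespace P913

namespace Chain1Aux

open Turing

lemma trTape_mk1 {Γ : Type} [Inhabited Γ] {n : ℕ} {enc : Γ → List.Vector Bool n}
    (enc0 : enc default = List.Vector.replicate n false) (l : List Γ) :
    TM1to1.trTape enc0 (Tape.mk₁ l) = Tape.mk₁ (l.flatMap fun a => (enc a).toList) := by
  rw [Tape.mk₁, Tape.mk₂, TM1to1.trTape_mk', TM1to1.trTape', Tape.mk₁, Tape.mk₂]
  rw [ListBlank.flatMap_mk, ListBlank.flatMap_mk]
  simp

lemma flatMap_rep {Γ : Type} {n : ℕ} (enc : Γ → List.Vector Bool n) (a0 a1 : Γ) (v : ℕ) :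
    ((a0 :: List.replicate v a1).flatMap fun a => (enc a).toList) =
      (enc a0).toList ++ (List.replicate v (enc a1).toList).flatten := by
  rw [List.flatMap_cons]
  congr 1
  induction v with
  | zero => simp
  | succ v ih => rw [List.replicate_succ, List.flatMap_cons, ih, List.replicate_succ,
      List.flatten_cons]

end Chain1Aux

theorem exists_TM0 (f : ℕ →. ℕ) (hf : Nat.Partrec f) :
    ∃ (Λ : Type) (_ : Inhabited Λ) (M : Turing.TM0.Machine Bool Λ) (S : Finset Λ) (e0 e1 : List Bool),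
      Turing.TM0.Supports M (S : Set Λ) ∧
      ∀ v : ℕ, (Turing.TM0.eval M (e0 ++ (List.replicate v e1).flatten)).Dom ↔ (f v).Dom := by
  classical
  obtain ⟨Γ, Λ, σ, iΓ, fΓ, iΛ, iσ, fσ, M, S, a0, a1, hS, hM⟩ := exists_TM1 f hf
  obtain ⟨n, enc, dec, enc0, encdec⟩ := Turing.TM1to1.exists_enc_dec (Γ := Γ)
  have hsup := Turing.TM1to1.tr_supports (enc := enc) (dec := dec) (M := M) hS
  refine ⟨Turing.TM1to0.Λ' (Turing.TM1to1.tr enc dec M), inferInstance,
    Turing.TM1to0.tr (Turing.TM1to1.tr enc dec M),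
    Turing.TM1to0.trStmts (Turing.TM1to1.tr enc dec M) (Turing.TM1to1.trSupp M S),
    (enc a0).toList, (enc a1).toList,
    Turing.TM1to0.tr_supports (Turing.TM1to1.tr enc dec M) hsup, ?_⟩
  intro v
  rw [Turing.TM1to0.tr_eval, ← hM v]
  have key := StateTransition.tr_eval_dom
    (Turing.TM1to1.tr_respects (enc0 := enc0) dec M encdec)
    (a₁ := Turing.TM1.init (a0 :: List.replicate v a1))
    (a₂ := Turing.TM1.init ((enc a0).toList ++ (List.replicate v (enc a1).toList).flatten))
    (by
      simp only [Turing.TM1.init, Turing.TM1to1.trCfg, Chain1Aux.trTape_mk1,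
        Chain1Aux.flatMap_rep]
      rfl)
  simpa [Turing.TM1.eval] using key

end P913
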