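import Pool.Agent.Lib.P913.PRCode

/-!
# Module Chain2: the 4-stack machine as a one tape machine (TM1 of Mathlib) with finitely many labels

PROOF.  `K' = Turing.PartrecToTM2.K'` has decidable equality; a `Fintype` instance is easy (4 elements).
Let `i : Inhabited Λ' := ⟨trNormal c Cont'.halt⟩` (a local instance; beware of the global instance
`Λ'.instInhabited`: use `@` or `letI` everywhere).  `M = Turing.TM2to1.tr PartrecToTM2.tr`.
`TM2.init K'.main (trList [2 ^ v - 1]) = PartrecToTM2.init c [2 ^ v - 1]` (`default : Option Γ'` is `none`;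
`K'.elim_update_main`).  `TM2.eval` is a `Part.map` of `eval (TM2.step _) (TM2.init _ _)`, so its `Dom` is the same.
`Turing.TM2to1.tr_eval_dom`.  `trList [n] = trNat n ++ [Γ'.cons]`, `trNat_ones`, so
`TM2to1.trInit K'.main (List.replicate v bit1 ++ [cons]) = a0 :: List.replicate v a1` where
`a0 = (true, update (fun _ => none) K'.main (some cons))`, `a1 = (false, update (fun _ => none) K'.main (some bit1))`.
Support: `Turing.PartrecToTM2.tr_supports c Cont'.halt`, `Turing.TM2to1.tr_supports`.
-/

set_option autoImplicit false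

namespace P913

namespace Chain2Aux

open Turing

/-- the four stacks are finitely many -/
def fintypeK : Fintype PartrecToTM2.K' where
  elems := {.main, .rev, .aux, .stack}
  complete := by intro x; cases x <;> simp

theorem init_eq (c : ToPartrec.Code) (L : List ℕ) :
    @TM2.init PartrecToTM2.K' (fun _ => PartrecToTM2.Γ') PartrecToTM2.Λ' (Option PartrecToTM2.Γ')
      ⟨PartrecToTM2.trNormal c PartrecToTM2.Cont'.halt⟩ _ _ PartrecToTM2.K'.main
      (PartrecToTM2.trList L) = PartrecToTM2.init c L := by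
  unfold TM2.init PartrecToTM2.init
  have h : (Function.update (fun _ : PartrecToTM2.K' => ([] : List PartrecToTM2.Γ'))
      PartrecToTM2.K'.main (PartrecToTM2.trList L))
      = PartrecToTM2.K'.elim (PartrecToTM2.trList L) [] [] [] := by
    funext k
    cases k <;> rfl
  rw [h]
  rfl

theorem trInit_eq (v : ℕ) :
    TM2to1.trInit (Γ := fun _ : PartrecToTM2.K' => PartrecToTM2.Γ') PartrecToTM2.K'.main
      (PartrecToTM2.trList [2 ^ v - 1])
      = (true, Function.update (fun _ => none) PartrecToTM2.K'.main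
          (some PartrecToTM2.Γ'.cons)) ::
        List.replicate v (false, Function.update (fun _ => none) PartrecToTM2.K'.main
          (some PartrecToTM2.Γ'.bit1)) := by
  have h : PartrecToTM2.trList [2 ^ v - 1]
      = List.replicate v PartrecToTM2.Γ'.bit1 ++ [PartrecToTM2.Γ'.cons] := by
    rw [PartrecToTM2.trList, PartrecToTM2.trList, trNat_ones]
  rw [h]
  unfold TM2to1.trInit
  rw [List.reverse_append, List.reverse_singleton, List.reverse_replicate]
  refine congrArg₂ List.cons rfl ?_
  exact List.map_replicate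

end Chain2Aux

open Chain2Aux in
theorem exists_TM1 (f : ℕ →. ℕ) (hf : Nat.Partrec f) :
    ∃ (Γ Λ σ : Type) (_ : Inhabited Γ) (_ : Fintype Γ) (_ : Inhabited Λ) (_ : Inhabited σ) (_ : Fintype σ)
      (M : Λ → Turing.TM1.Stmt Γ Λ σ) (S : Finset Λ) (a0 a1 : Γ),
      Turing.TM1.Supports M S ∧
      ∀ v : ℕ, (Turing.TM1.eval M (a0 :: List.replicate v a1)).Dom ↔ (f v).Dom := by
  obtain ⟨c, hc⟩ := exists_prog f hf
  letI iK : Fintype Turing.PartrecToTM2.K' := fintypeK
  letI iL : Inhabited Turing.PartrecToTM2.Λ' :=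
    ⟨Turing.PartrecToTM2.trNormal c Turing.PartrecToTM2.Cont'.halt⟩
  refine ⟨Turing.TM2to1.Γ' Turing.PartrecToTM2.K' (fun _ => Turing.PartrecToTM2.Γ'),
    Turing.TM2to1.Λ' Turing.PartrecToTM2.K' (fun _ => Turing.PartrecToTM2.Γ')
      Turing.PartrecToTM2.Λ' (Option Turing.PartrecToTM2.Γ'),
    Option Turing.PartrecToTM2.Γ', inferInstance,
    @Turing.TM2to1.Γ'.fintype _ _ _ iK _,
    @Turing.TM2to1.Λ'.inhabited _ _ _ _ iL, inferInstance, inferInstance,
    Turing.TM2to1.tr Turing.PartrecToTM2.tr,
    Turing.TM2to1.trSupp Turing.PartrecToTM2.tr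
      (Turing.PartrecToTM2.codeSupp c Turing.PartrecToTM2.Cont'.halt),
    (true, Function.update (fun _ => none) Turing.PartrecToTM2.K'.main
          (some Turing.PartrecToTM2.Γ'.cons)),
    (false, Function.update (fun _ => none) Turing.PartrecToTM2.K'.main
          (some Turing.PartrecToTM2.Γ'.bit1)), ?_, ?_⟩
  · exact @Turing.TM2to1.tr_supports _ _ _ _ _ _ iL _
      (Turing.PartrecToTM2.tr_supports c Turing.PartrecToTM2.Cont'.halt)
  · intro v
    have key : ∀ L, Turing.TM2to1.trInit (Γ := fun _ : Turing.PartrecToTM2.K' =>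
          Turing.PartrecToTM2.Γ') Turing.PartrecToTM2.K'.main
          (Turing.PartrecToTM2.trList [2 ^ v - 1]) = L →
        ((@Turing.TM1.eval _ _ _ (@Turing.TM2to1.Λ'.inhabited _ _ _ _ iL) _ _
          (Turing.TM2to1.tr Turing.PartrecToTM2.tr) L).Dom ↔ (f v).Dom) := by
      rintro _ rfl
      refine (@Turing.TM2to1.tr_eval_dom _ _ _ _ _ Turing.PartrecToTM2.tr iL _
        Turing.PartrecToTM2.K'.main (Turing.PartrecToTM2.trList [2 ^ v - 1])).trans ?_
      refine Iff.trans ?_ (hc v)
      rw [← init_eq c [2 ^ v - 1]]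
      rfl
    exact key _ (trInit_eq v)

end P913
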