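import Pool.Agent.Lib.P913.Raw

/-!
# Module CodeUniq: every output has exactly one code

PROOFS.  `list_eq_of_getD`: two lists of natural numbers without `0` at the end and with the same values `getD i 0` are
equal: induction on both lists (the head by `i = 0`, the tails by `i + 1`; a list `a :: l` without `0` at the end has a
nonzero value: if `l = []` then `a ≠ 0`), or compare the lengths by the last elements.  `isCode_unique`: both
components.  `output_code`: existence by `Rel_init`, `Rel_iter`, `isCode_of_Rel` (Module Raw) for the halting time.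
-/

set_option autoImplicit false

namespace P913

private theorem eq_nil_of_zero (l : List ℕ) (h : l.getLast? ≠ some 0)
    (e : ∀ i : ℕ, l.getD i 0 = 0) : l = [] := by
  by_contra hl
  apply h
  rw [List.getLast?_eq_some_getLast hl, List.getLast_eq_getElem]
  have h1 := e (l.length - 1)
  have h2 : l.length - 1 < l.length := by
    have := List.length_pos_of_ne_nil hl
    omega
  rw [List.getD_eq_getElem _ _ h2] at h1
  rw [h1]

private theorem getLast?_tail {a : ℕ} {l : List ℕ} (h : (a :: l).getLast? ≠ some 0) :
    l.getLast? ≠ some 0 := by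
  cases l with
  | nil => simp
  | cons b l => simpa [List.getLast?_cons_cons] using h

theorem list_eq_of_getD (l l' : List ℕ) (h : l.getLast? ≠ some 0) (h' : l'.getLast? ≠ some 0)
    (e : ∀ i : ℕ, l.getD i 0 = l'.getD i 0) : l = l' := by
  induction l generalizing l' with
  | nil => exact (eq_nil_of_zero l' h' fun i => by rw [← e i]; simp).symm
  | cons a l ih =>
    cases l' with
    | nil => exact eq_nil_of_zero (a :: l) h fun i => by rw [e i]; simp
    | cons b l' =>
      have h0 : a = b := by simpa using e 0
      rw [h0, ih l' (getLast?_tail h) (getLast?_tail h') fun i => by simpa using e (i + 1)]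

theorem isCode_unique {n : ℕ} [NeZero n] {T : ℤ → Fin n} {w w' : List ℕ × List ℕ} (h : IsCode w T)
    (h' : IsCode w' T) : w = w' := by
  refine Prod.ext ?_ ?_
  · exact list_eq_of_getD _ _ h.2.2.1 h'.2.2.1 fun i => by rw [← h.2.1 i, ← h'.2.1 i]
  · exact list_eq_of_getD _ _ h.2.2.2 h'.2.2.2 fun i => by rw [← h.1 i, ← h'.1 i]

theorem output_code {k n : ℕ} [NeZero k] [NeZero n] (M : TM k n) (x : List (Fin n)) (T : ℤ → Fin n)
    (h : Output M x T) : ∃! w : List ℕ × List ℕ, IsCode w T := by
  obtain ⟨t, _, rfl⟩ := h
  exact ⟨_, isCode_of_Rel _ _ (Rel_iter M _ _ (Rel_init x) t), fun w hw =>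
    isCode_unique hw (isCode_of_Rel _ _ (Rel_iter M _ _ (Rel_init x) t))⟩

end P913
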