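import Pool.Agent.Lib.P913.LineF

/-!
# Module CycL: cycles of the queue system

PROOFS.  `cyc_append`: induction on `ks` (`v = b :: v'`; `rd k (b :: (v' ++ D)) = v' ++ (D ++ out k b)`;
`rdv (k :: ks) (b :: v') = out k b ++ rdv ks v'`).  `cyc_lines`: `bits l2 = v2 ++ [false]` (`bits_last`); the
word `false :: (bits l1 ++ v2)` has the length of `kss` (`len_bits`, `len_row`); `rdv_append`, `rdv_zero`;
`rdv (row true) (v2 ++ [false]) = rdv (row true).dropLast v2` since `row true` ends with `0` (`rdv_append`).
`cyc_drop`: split `D = D.take _ ++ D.drop _`.  `Alive_step`, `XYHalts_step`: `Function.iterate_succ`.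
`mis`: strong induction on the length of `L` for both statements.  `L = l1 :: l2 :: L'`: one cycle by
`cyc_lines` (with `E` enlarged) and the step lemmas.  `L = []` and `L = [l]`: the queue after one cycle begins
with the bit number `8 KA + 42` (counted from 0) of the queue (`cyc_drop`, `len_kss`), which is
one of the ones of `bits str` (`(8 KA + 42) - (7 KA + 33) = KA + 9 < 4 KA + 20` in both cases).
All queues here are longer than `8 KA + 44`.
-/

set_option autoImplicit false

namespace P913

theorem cyc_append (ks : List ℕ) (v D : List Bool) (h : ks.length = v.length) :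
    cyc ks (v ++ D) = D ++ rdv ks v := by
  induction ks generalizing v D with
  | nil =>
    have hv : v = [] := List.length_eq_zero_iff.1 h.symm
    subst hv
    simp [cyc, rdv]
  | cons k ks ih =>
    cases v with
    | nil => simp at h
    | cons b v =>
      have h' : ks.length = v.length := by simpa using h
      have h1 : cyc (k :: ks) (b :: v ++ D) = cyc ks (v ++ (D ++ out k b)) := by
        show cyc ks (rd k (b :: v ++ D)) = _
        rw [List.cons_append]
        show cyc ks (v ++ D ++ out k b) = _
        rw [List.append_assoc]
      have h2 : rdv (k :: ks) (b :: v) = out k b ++ rdv ks v := rfl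
      rw [h1, ih v (D ++ out k b) h', h2, List.append_assoc]

theorem cyc_drop (ks : List ℕ) (D : List Bool) (h : ks.length ≤ D.length) :
    ∃ X : List Bool, cyc ks D = D.drop ks.length ++ X := by
  refine ⟨rdv ks (D.take ks.length), ?_⟩
  have h1 : ks.length = (D.take ks.length).length := by
    rw [List.length_take]
    omega
  have h2 := cyc_append ks (D.take ks.length) (D.drop ks.length) h1
  rw [List.take_append_drop] at h2
  exact h2

theorem Alive_step {ks : List ℕ} {D : List Bool} (h : D.head? = some false → ks.length + 2 ≤ D.length)
    (h' : D.head? = some false → Alive ks (cyc ks D)) : Alive ks D := by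
  intro n hn
  have h0 : D.head? = some false := hn 0 (Nat.zero_le n)
  cases n with
  | zero => exact h h0
  | succ n =>
    rw [Function.iterate_succ_apply]
    apply h' h0 n
    intro j hj
    have := hn (j + 1) (by omega)
    rwa [Function.iterate_succ_apply] at this

theorem XYHalts_step {ks : List ℕ} {D : List Bool} (h : XYHalts ks (cyc ks D)) : XYHalts ks D := by
  obtain ⟨n, hn⟩ := h
  exact ⟨n + 1, by rw [Function.iterate_succ_apply]; exact hn⟩

namespace CycLAux

theorem alive_true {ks : List ℕ} {D : List Bool} (h : D.head? = some true) : Alive ks D := by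
  intro n hn
  have h0 : D.head? = some false := hn 0 (Nat.zero_le n)
  rw [h] at h0
  simp at h0

theorem get_ons (P T : List Bool) (a i : ℕ) (h1 : P.length ≤ i) (h2 : i < P.length + a) :
    (P ++ (ons a ++ T))[i]? = some true := by
  rw [List.getElem?_append_right h1]
  rw [List.getElem?_append_left (by simp; omega)]
  rw [List.getElem?_replicate, if_pos (by omega)]

theorem both {ks : List ℕ} {D P T : List Bool} (a : ℕ) (hD : D = P ++ (ons a ++ T))
    (h1 : P.length ≤ ks.length) (h2 : ks.length < P.length + a)
    (h3 : ks.length + 2 ≤ D.length) : Alive ks D ∧ XYHalts ks D := by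
  obtain ⟨X, hX⟩ := cyc_drop ks D (by omega)
  have h4 : (cyc ks D).head? = some true := by
    rw [hX, List.head?_append, List.head?_drop, hD, get_ons P T a ks.length h1 h2]
    rfl
  exact ⟨Alive_step (fun _ => h3) (fun _ => alive_true h4), ⟨1, h4⟩⟩

end CycLAux

section

variable {K : ℕ} (pr : Fin K → List (Fin K)) (η : Fin K)

theorem len_kss : (kss pr η).length = 8 * KA pr η + 42 := by
  unfold kss
  rw [List.length_cons, List.length_append, List.length_dropLast, len_row, len_row]
  omega

theorem cyc_lines (l1 l2 : Ln K) (D : List Bool) :
    cyc (kss pr η) (false :: (bits pr η l1 ++ bits pr η l2 ++ D)) =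
      false :: (D ++ rdv (row pr η false) (bits pr η l1) ++ rdv (row pr η true) (bits pr η l2)) := by
  obtain ⟨v2, hv2⟩ := bits_last pr η l2
  have hlen2 : v2.length = 4 * KA pr η + 20 := by
    have := len_bits pr η l2
    rw [hv2, List.length_append, List.length_singleton] at this
    omega
  have hrow : ∃ X, row pr η true = X ++ [0] := ⟨_, rfl⟩
  obtain ⟨X, hX⟩ := hrow
  have hXlen : X.length = 4 * KA pr η + 20 := by
    have := len_row pr η true
    rw [hX, List.length_append, List.length_singleton] at this
    omega
  have h1 : (false :: (bits pr η l1 ++ bits pr η l2 ++ D)) =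
      (false :: (bits pr η l1 ++ v2)) ++ (false :: D) := by
    rw [hv2]
    simp
  have h2 : (kss pr η).length = (false :: (bits pr η l1 ++ v2)).length := by
    rw [len_kss, List.length_cons, List.length_append, len_bits, hlen2]
    omega
  rw [h1, cyc_append _ _ _ h2]
  have h3 : kss pr η = 0 :: (row pr η false ++ X) := by
    unfold kss
    rw [hX, List.dropLast_concat]
  have h4 : rdv (kss pr η) (false :: (bits pr η l1 ++ v2)) =
      rdv (row pr η false) (bits pr η l1) ++ rdv X v2 := by
    rw [h3]
    have h5 : rdv (0 :: (row pr η false ++ X)) (false :: (bits pr η l1 ++ v2)) =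
        [] ++ rdv (row pr η false ++ X) (bits pr η l1 ++ v2) := rfl
    rw [h5, List.nil_append, rdv_append (by rw [len_row, len_bits])]
  have h6 : rdv (row pr η true) (bits pr η l2) = rdv X v2 := by
    rw [hX, hv2, rdv_append (by rw [hXlen, hlen2]), rdv_zero, List.append_nil]
  rw [h4, h6]
  simp

theorem mis (L : List (Ln K)) (E : List Bool) :
    Alive (kss pr η) (false :: (lbits pr η L ++ (ons (3 * KA pr η + 10) ++ [false]) ++
        lbits pr η [Ln.str, Ln.str] ++ E)) ∧
      XYHalts (kss pr η) (false :: (lbits pr η L ++ (ons (3 * KA pr η + 10) ++ [false]) ++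
        lbits pr η [Ln.str, Ln.str] ++ E)) := by
  have key : ∀ (n : ℕ) (L : List (Ln K)) (E : List Bool), L.length ≤ n →
      Alive (kss pr η) (false :: (lbits pr η L ++ (ons (3 * KA pr η + 10) ++ [false]) ++
        lbits pr η [Ln.str, Ln.str] ++ E)) ∧
      XYHalts (kss pr η) (false :: (lbits pr η L ++ (ons (3 * KA pr η + 10) ++ [false]) ++
        lbits pr η [Ln.str, Ln.str] ++ E)) := by
    intro n
    induction n using Nat.strong_induction_on with
    | _ n ih =>
    intro L E hL
    have hstr : lbits pr η [Ln.str, Ln.str] =
        (ons (4 * KA pr η + 20) ++ [false]) ++ (ons (4 * KA pr η + 20) ++ [false]) := by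
      simp [lbits, bits]
    match L, hL with
    | [], _ =>
      have hD : (false :: (lbits pr η [] ++ (ons (3 * KA pr η + 10) ++ [false]) ++
          lbits pr η [Ln.str, Ln.str] ++ E)) =
          (false :: ((ons (3 * KA pr η + 10) ++ [false]) ++ (ons (4 * KA pr η + 20) ++ [false]))) ++
          (ons (4 * KA pr η + 20) ++ ([false] ++ E)) := by
        rw [hstr]
        simp [lbits]
      refine CycLAux.both _ hD ?_ ?_ ?_
      · rw [len_kss]
        simp only [List.length_cons, List.length_append, List.length_replicate, List.length_nil]
        omega
      · rw [len_kss]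
        simp only [List.length_cons, List.length_append, List.length_replicate, List.length_nil]
        omega
      · rw [len_kss, hD]
        simp only [List.length_cons, List.length_append, List.length_replicate, List.length_nil]
        omega
    | [l], _ =>
      have hD : (false :: (lbits pr η [l] ++ (ons (3 * KA pr η + 10) ++ [false]) ++
          lbits pr η [Ln.str, Ln.str] ++ E)) =
          (false :: (bits pr η l ++ (ons (3 * KA pr η + 10) ++ [false]))) ++
          (ons (4 * KA pr η + 20) ++ ([false] ++ (ons (4 * KA pr η + 20) ++ [false]) ++ E)) := by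
        rw [hstr]
        simp [lbits]
      refine CycLAux.both _ hD ?_ ?_ ?_
      · rw [len_kss]
        simp only [List.length_cons, List.length_append, List.length_replicate, List.length_nil,
          len_bits]
        omega
      · rw [len_kss]
        simp only [List.length_cons, List.length_append, List.length_replicate, List.length_nil,
          len_bits]
        omega
      · rw [len_kss, hD]
        simp only [List.length_cons, List.length_append, List.length_replicate, List.length_nil,
          len_bits]
        omega
    | l1 :: l2 :: L', hL =>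
      have hD : (false :: (lbits pr η (l1 :: l2 :: L') ++ (ons (3 * KA pr η + 10) ++ [false]) ++
          lbits pr η [Ln.str, Ln.str] ++ E)) =
          false :: (bits pr η l1 ++ bits pr η l2 ++ (lbits pr η L' ++
            (ons (3 * KA pr η + 10) ++ [false]) ++ lbits pr η [Ln.str, Ln.str] ++ E)) := by
        simp [lbits]
      have hc : cyc (kss pr η) (false :: (lbits pr η (l1 :: l2 :: L') ++
          (ons (3 * KA pr η + 10) ++ [false]) ++ lbits pr η [Ln.str, Ln.str] ++ E)) =
          false :: (lbits pr η L' ++ (ons (3 * KA pr η + 10) ++ [false]) ++
            lbits pr η [Ln.str, Ln.str] ++ (E ++ rdv (row pr η false) (bits pr η l1) ++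
              rdv (row pr η true) (bits pr η l2))) := by
        rw [hD, cyc_lines]
        simp only [List.append_assoc]
      have hI := ih L'.length (by simp only [List.length_cons] at hL; omega) L'
        (E ++ rdv (row pr η false) (bits pr η l1) ++ rdv (row pr η true) (bits pr η l2)) le_rfl
      rw [← hc] at hI
      refine ⟨Alive_step (fun _ => ?_) (fun _ => hI.1), XYHalts_step hI.2⟩
      rw [len_kss, hD]
      simp only [List.length_cons, List.length_append, List.length_replicate, List.length_nil,
          len_bits]
      omega
  exact key L.length L E le_rfl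

end

end P913
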