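import Mathlib

/-!
# Module DGen: a total computable function from a partial recursive function and a certificate

PROOF.  The partial function `p ↦ if check p then F p.1 else Part.some default` is partial recursive
(`Partrec.cond` with the computable Boolean condition, `hF.comp Computable.fst`) and total by `h`.  The total function
`d p := (..).get _` is computable (`Computable d` means `Partrec (d : α →. β)`; `Partrec.of_eq`, `Part.some_get`).
-/

set_option autoImplicit false

namespace P913

theorem exists_dmap {β : Type} [Primcodable β] [Inhabited β] (F : ℕ →. β) (hF : Partrec F)
    (check : ℕ × ℕ → Bool) (hc : Computable check) (h : ∀ c N : ℕ, check (c, N) = true → (F c).Dom) :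
    ∃ d : ℕ × ℕ → β, Computable d ∧ ∀ c N : ℕ, check (c, N) = true → d (c, N) ∈ F c := by
  have h1 : Partrec (fun p : ℕ × ℕ => bif check p then F p.1 else Part.some (default : β)) :=
    Partrec.cond hc (hF.comp Computable.fst) (Partrec.const' (Part.some default))
  have h2 : ∀ p : ℕ × ℕ, (bif check p then F p.1 else Part.some (default : β)).Dom := by
    rintro ⟨c, N⟩
    cases hx : check (c, N) with
    | true => simpa [hx] using h c N hx
    | false => simp
  refine ⟨fun p => (bif check p then F p.1 else Part.some (default : β)).get (h2 p), ?_, ?_⟩
  · exact Partrec.of_eq h1 fun p => (Part.some_get (h2 p)).symm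
  · intro c N hx
    have h3 := Part.get_mem (h2 (c, N))
    simp only [hx, cond_true] at h3 ⊢
    exact h3

end P913
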