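import Pool.Agent.Lib.P913.XY

/-!
# Module DMap: cycles of the queue system are computable

`hn ks N D` says that the queue system halts after at most `N` cycles.

PROOFS.  `Primrec` of `out` (`List.replicate k true = (List.range k).map fun _ => true`),
of `rd` (`Primrec.list_casesOn`), of `cyc` (`ks` is a constant list: `cyc ks D = ks.foldl ..`, `Primrec.list_foldl` or
induction on `ks` with `Primrec.comp`), of the iterates (`Primrec.nat_iterate`).
`hn_prim`: `hn ks N D = (List.range (N + 1)).any ..`; for example by a recursion on `N` (`List.range_succ`,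
`List.any_append`, `Primrec.nat_rec`), or a fold.
-/

set_option autoImplicit false

namespace P913

/-- the queue system halts after at most `N` cycles -/
def hn (ks : List ℕ) (N : ℕ) (D : List Bool) : Bool :=
  (List.range (N + 1)).any fun m => decide (((cyc ks)^[m] D).head? = some true)

private theorem rd_prim (k : ℕ) : Primrec (rd k) := by
  have h1 : Primrec (out k) := Primrec.dom_finite _
  have h2 : Primrec₂ fun (_ : List Bool) (q : Bool × List Bool) => q.2 ++ out k q.1 :=
    Primrec.list_append.comp (Primrec.snd.comp Primrec.snd)
      (h1.comp (Primrec.fst.comp Primrec.snd))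
  refine (Primrec.list_casesOn Primrec.id (Primrec.const []) h2).of_eq fun D => ?_
  cases D <;> rfl

private theorem cyc_prim (ks : List ℕ) : Primrec (cyc ks) := by
  induction ks with
  | nil => exact Primrec.id
  | cons k ks ih => exact ih.comp (rd_prim k)

theorem iter_cyc_prim (ks : List ℕ) : Primrec fun p : ℕ × List Bool => (cyc ks)^[p.1] p.2 :=
  Primrec.nat_iterate Primrec.fst Primrec.snd ((cyc_prim ks).comp Primrec.snd).to₂

theorem hn_prim (ks : List ℕ) : Primrec fun p : ℕ × List Bool => hn ks p.1 p.2 := by
  classical
  have h1 : Primrec fun p : ℕ × List Bool => ((cyc ks)^[p.1] p.2).head? :=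
    Primrec.list_head?.comp (iter_cyc_prim ks)
  have h2 : PrimrecRel fun (m : ℕ) (D : List Bool) => ((cyc ks)^[m] D).head? = some true :=
    Primrec.eq.comp h1 (Primrec.const (some true))
  have h3 : PrimrecPred fun p : ℕ × List Bool =>
      ∃ x ∈ List.range (p.1 + 1), ((cyc ks)^[x] p.2).head? = some true :=
    h2.exists_mem_list.comp (Primrec.list_range.comp (Primrec.succ.comp Primrec.fst)) Primrec.snd
  refine h3.decide.of_eq fun p => ?_
  rw [hn, Bool.eq_iff_iff]
  simp only [decide_eq_true_eq, List.any_eq_true]

end P913
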