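import Mathlib

/-!
# Turing machines with `k` states and `n` symbols, universal machines (conventions of MP_913c58_lc)
-/

set_option autoImplicit false

namespace P913

/-- A Turing machine with state set `Fin k` and symbol set `Fin n`: `M q s = (s', d, q')` means: write `s'`,
move right if `d = true` and left if `d = false`, enter state `q'`, where `none` is the halting state `H`. -/
abbrev TM (k n : ℕ) := Fin k → Fin n → Fin n × Bool × Option (Fin k)

/-- a configuration: tape, head position, state (`none` is the halting state) -/
@[ext] structure Cfg (k n : ℕ) where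
  tape : ℤ → Fin n
  pos : ℤ
  st : Option (Fin k)

section run

variable {k n : ℕ}

/-- one step; nothing happens in the halting state -/
def step (M : TM k n) (c : Cfg k n) : Cfg k n :=
  match c.st with
  | none => c
  | some q =>
    ⟨Function.update c.tape c.pos (M q (c.tape c.pos)).1,
      if (M q (c.tape c.pos)).2.1 then c.pos + 1 else c.pos - 1,
      (M q (c.tape c.pos)).2.2⟩

/-- the tape with the word `x` written on the cells `0, 1, 2, ...` and blanks (symbol `0`) elsewhere -/
def wordTape [NeZero n] (x : List (Fin n)) : ℤ → Fin n := fun i =>
  if 0 ≤ i then x.getD i.toNat 0 else 0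

/-- the initial configuration on input `x`: the head is on the leftmost symbol of `x`, state `q_1` (= `0`) -/
def init [NeZero k] [NeZero n] (x : List (Fin n)) : Cfg k n := ⟨wordTape x, 0, some 0⟩

/-- the machine `M` halts on the input `x` with tape content `T` -/
def Output [NeZero k] [NeZero n] (M : TM k n) (x : List (Fin n)) (T : ℤ → Fin n) : Prop :=
  ∃ t : ℕ, ((step M)^[t] (init x)).st = none ∧ ((step M)^[t] (init x)).tape = T

/-- the machine `M` halts on the input `x` -/
def Halts [NeZero k] [NeZero n] (M : TM k n) (x : List (Fin n)) : Prop :=
  ∃ t : ℕ, ((step M)^[t] (init x)).st = none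

/-- `w = (l, r)` is the code of the tape content `T`: the cells `0, 1, 2, ...` contain the list `r` (and blanks
after it), the cells `-1, -2, -3, ...` contain the list `l` (and blanks after it), and both lists do not end with
a blank -/
def IsCode [NeZero n] (w : List ℕ × List ℕ) (T : ℤ → Fin n) : Prop :=
  (∀ i : ℕ, ((T i : Fin n) : ℕ) = w.2.getD i 0) ∧ (∀ i : ℕ, ((T (-(i : ℤ) - 1) : Fin n) : ℕ) = w.1.getD i 0) ∧
    w.1.getLast? ≠ some 0 ∧ w.2.getLast? ≠ some 0

/-- the code of a machine: number of states, number of symbols, table (row by row: the entry for the state `q` and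
the symbol `s` has the number `q * n + s`); `0` stands for the halting state and `j + 1` for the state `j` -/
def mcode (M : TM k n) : ℕ × ℕ × List (ℕ × Bool × ℕ) :=
  (k, n, List.ofFn fun i : Fin (k * n) =>
    (((M i.divNat i.modNat).1 : ℕ), (M i.divNat i.modNat).2.1,
      match (M i.divNat i.modNat).2.2 with
      | none => 0
      | some q => (q : ℕ) + 1))

/-- Universal machines: there are total computable maps `e` (from pairs of a machine and an input to inputs
of `U`) and `d` (from tape contents to tape contents) such that `U` halts on `e (M, x)` if and only if `M`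
halts on `x`, and then `d` maps the output of `U` to the output of `M`. -/
def Universal [NeZero k] [NeZero n] (U : TM k n) : Prop :=
  ∃ (e : (ℕ × ℕ × List (ℕ × Bool × ℕ)) × List ℕ → List (Fin n))
    (d : List ℕ × List ℕ → List ℕ × List ℕ),
    Computable e ∧ Computable d ∧
    ∀ (k' n' : ℕ) [NeZero k'] [NeZero n'] (M : TM k' n') (x : List (Fin n')),
      (Halts U (e (mcode M, x.map fun s : Fin n' => (s : ℕ))) ↔ Halts M x) ∧
      ∀ (T : ℤ → Fin n) (T' : ℤ → Fin n'),
        Output U (e (mcode M, x.map fun s : Fin n' => (s : ℕ))) T → Output M x T' →
          ∃ w w' : List ℕ × List ℕ, IsCode w T ∧ IsCode w' T' ∧ d w = w'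

end run

end P913
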