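import Pool.Agent.Lib.P913.Defs

/-!
# Embedding of machines: universal machines in larger classes
-/

set_option autoImplicit false

namespace P913

section

variable {k n k' n' : ℕ} (hk : k ≤ k') (hn : n ≤ n')

/-- the machine `U` with additional states and symbols; the new entries of the table halt -/
def embU (U : TM k n) : TM k' n' := fun q s =>
  if h : (q : ℕ) < k ∧ (s : ℕ) < n then
    (Fin.castLE hn (U ⟨q, h.1⟩ ⟨s, h.2⟩).1, (U ⟨q, h.1⟩ ⟨s, h.2⟩).2.1, (U ⟨q, h.1⟩ ⟨s, h.2⟩).2.2.map (Fin.castLE hk))
  else (s, true, none)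

/-- the configuration of the larger machine -/
def embC (c : Cfg k n) : Cfg k' n' := ⟨fun i => Fin.castLE hn (c.tape i), c.pos, c.st.map (Fin.castLE hk)⟩

theorem embU_cast (U : TM k n) (q : Fin k) (s : Fin n) : embU hk hn U (Fin.castLE hk q) (Fin.castLE hn s) =
    (Fin.castLE hn (U q s).1, (U q s).2.1, (U q s).2.2.map (Fin.castLE hk)) := by
  have h : ((Fin.castLE hk q : Fin k') : ℕ) < k ∧ ((Fin.castLE hn s : Fin n') : ℕ) < n := ⟨q.2, s.2⟩
  unfold embU
  rw [dif_pos h]
  rfl

theorem step_embC (U : TM k n) (c : Cfg k n) : step (embU hk hn U) (embC hk hn c) = embC hk hn (step U c) := by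
  obtain ⟨T, x, st⟩ := c
  cases st with
  | none => rfl
  | some q =>
    simp only [step, embC, Option.map_some, embU_cast]
    ext1
    · funext i
      by_cases hi : i = x
      · subst hi
        simp
      · simp [hi]
    · rfl
    · rfl

theorem iter_embC (U : TM k n) (c : Cfg k n) (t : ℕ) :
    (step (embU hk hn U))^[t] (embC hk hn c) = embC hk hn ((step U)^[t] c) := by
  induction t with
  | zero => rfl
  | succ t ih => rw [Function.iterate_succ_apply', Function.iterate_succ_apply', ih, step_embC]

variable [NeZero k] [NeZero n] [NeZero k'] [NeZero n']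

theorem init_embC (x : List (Fin n)) : init (k := k') (x.map (Fin.castLE hn)) = embC hk hn (init (k := k) x) := by
  have h0 : Fin.castLE hn (0 : Fin n) = (0 : Fin n') := by
    apply Fin.ext
    simp
  have h0' : Fin.castLE hk (0 : Fin k) = (0 : Fin k') := by
    apply Fin.ext
    simp
  unfold init embC
  ext1
  · funext i
    simp only [wordTape]
    split
    · rw [List.getD_eq_getElem?_getD, List.getD_eq_getElem?_getD, List.getElem?_map]
      cases x[i.toNat]? with
      | none => simpa using h0.symm
      | some s => simp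
    · exact h0.symm
  · rfl
  · simp [h0']

/-- A universal machine with additional states and symbols is universal. -/
theorem universal_embU (U : TM k n) (h : Universal U) : Universal (embU hk hn U) := by
  obtain ⟨e, d, he, hd, hU⟩ := h
  have hm : Primrec fun l : List (Fin n) => l.map (Fin.castLE hn) :=
    Primrec.list_map Primrec.id ((Primrec.dom_finite (Fin.castLE hn)).comp Primrec.snd).to₂
  refine ⟨fun p => (e p).map (Fin.castLE hn), d, hm.to_comp.comp he, hd, ?_⟩
  intro k1 n1 _ _ M x
  obtain ⟨h1, h2⟩ := hU k1 n1 M x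
  have key : ∀ (w : List (Fin n)) (t : ℕ), (step (embU hk hn U))^[t] (init (w.map (Fin.castLE hn))) =
      embC hk hn ((step U)^[t] (init w)) := by
    intro w t
    rw [init_embC hk hn, iter_embC]
  have hst : ∀ c : Cfg k n, (embC hk hn c).st = none ↔ c.st = none := by
    intro c
    simp [embC]
  refine ⟨?_, ?_⟩
  · rw [← h1]
    unfold Halts
    simp only [key, hst]
  · intro T T' hT hT'
    obtain ⟨t, ht1, ht2⟩ := hT
    rw [key] at ht1 ht2
    rw [hst] at ht1
    obtain ⟨w, w', hw, hw', hd'⟩ := h2 _ T' ⟨t, ht1, rfl⟩ hT'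
    refine ⟨w, w', ?_, hw', hd'⟩
    rw [← ht2]
    exact ⟨fun i => hw.1 i, fun i => hw.2.1 i, hw.2.2.1, hw.2.2.2⟩

/-- Classes with more states and symbols contain universal machines, too. -/
theorem exists_universal_of_le (U : TM k n) (h : Universal U) (hk : k ≤ k') (hn : n ≤ n') :
    ∃ V : TM k' n', Universal V := ⟨embU hk hn U, universal_embU hk hn U h⟩

end

end P913
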