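import Pool.Agent.Lib.P913.CMDef

/-!
# Module EvDom: domains of `StateTransition.eval` and iteration

PROOFS.  `eval_dom_iff`: `Part.dom_iff_mem`, `StateTransition.mem_eval : b ∈ eval f a ↔ Reaches f a b ∧ f b = none`.
(→) induction on `Reaches` (`Relation.ReflTransGen.head_induction_on`): if `f a = some a'` and `n` is good for `a'`
then `n + 1` is good for `a` (`Function.iterate_succ_apply`, `(f a).getD a = a'`).  (←) induction on `n`
(generalize `a`): for `n + 1` and `f a = none` take `b = a`; for `f a = some a'` use `Relation.ReflTransGen.head`.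
`BMHalts_iff`: the case `f = bstep B`.
-/

set_option autoImplicit false

namespace P913

theorem eval_dom_iff {σ : Type} (f : σ → Option σ) (a : σ) :
    (StateTransition.eval f a).Dom ↔ ∃ n : ℕ, f ((fun x => (f x).getD x)^[n] a) = none := by
  rw [Part.dom_iff_mem]
  constructor
  · rintro ⟨b, hb⟩
    obtain ⟨hr, hn⟩ := StateTransition.mem_eval.mp hb
    clear hb
    induction hr using Relation.ReflTransGen.head_induction_on with
    | refl => exact ⟨0, hn⟩
    | head h _ ih =>
      obtain ⟨n, hn'⟩ := ih
      refine ⟨n + 1, ?_⟩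
      rw [Function.iterate_succ_apply]
      have h' : f _ = some _ := h
      simpa [h'] using hn'
  · rintro ⟨n, hn⟩
    induction n generalizing a with
    | zero => exact ⟨a, StateTransition.mem_eval.mpr ⟨Relation.ReflTransGen.refl, hn⟩⟩
    | succ n ih =>
      rcases hfa : f a with _ | a'
      · exact ⟨a, StateTransition.mem_eval.mpr ⟨Relation.ReflTransGen.refl, hfa⟩⟩
      · rw [Function.iterate_succ_apply, hfa] at hn
        obtain ⟨b, hb⟩ := ih a' hn
        obtain ⟨hr, hbn⟩ := StateTransition.mem_eval.mp hb
        exact ⟨b, StateTransition.mem_eval.mpr ⟨Relation.ReflTransGen.head hfa hr, hbn⟩⟩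

theorem BMHalts_iff {N : ℕ} (B : BM N) (c : BC N) : BMHalts B c ↔ (StateTransition.eval (bstep B) c).Dom := by
  rw [eval_dom_iff]
  rfl

end P913
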