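import Pool.Agent.Lib.P913.URun

/-!
# Evaluation of local computations

`zrun U t l q r` evaluates the machine on a window: `l` the cells left of the head (nearest first), `r` the cells from
the head to the right, until the head leaves the window or the machine halts.
-/

set_option autoImplicit false

namespace P913

/-- results of local computations: the head leaves the window to the right / left, the machine halts, no result -/
inductive ZO (k n : ℕ) where
  | R (q : Fin k) (l : List (Fin n))
  | L (q : Fin k) (r : List (Fin n))
  | H (x : List (Fin n))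
  | F
  deriving DecidableEq

section

variable {k n : ℕ}

/-- evaluation of a local computation -/
def zrun (U : TM k n) : ℕ → List (Fin n) → Fin k → List (Fin n) → ZO k n
  | 0, _, _, _ => .F
  | _ + 1, l, q, [] => .R q l
  | t + 1, l, q, a :: r =>
    match U q a with
    | (w, true, some q') => zrun U t (w :: l) q' r
    | (w, false, some q') =>
      match l with
      | [] => .L q' (w :: r)
      | b :: l' => zrun U t l' q' (b :: w :: r)
    | (w, _, none) => .H (l.reverse ++ w :: r)

/-- evaluation, the head is on the last cell of the word (`l` is the reversed word) -/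
def zrunL (U : TM k n) (t : ℕ) (l : List (Fin n)) (q : Fin k) : ZO k n :=
  match l with
  | [] => .F
  | a :: l' => zrun U t l' q [a]

variable [NeZero n] {U : TM k n}

theorem AL_of_ne (l : List (Fin n)) (hl : l ≠ []) (b : Fin n) (q : Fin k) (r : List (Fin n)) :
    ∃ l', l = l.headD b :: l' ∧ AL l q r = AR l' q (l.headD b :: r) := by
  cases l with
  | nil => exact absurd rfl hl
  | cons a l => exact ⟨l, rfl, AL_cons a l q r⟩

theorem step_left (l : List (Fin n)) (hl : l ≠ []) (q q' : Fin k) (a w : Fin n) (r : List (Fin n))
    (h : U q a = (w, false, some q')) : step U (AR l q (a :: r)) = AL l q' (w :: r) := by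
  cases l with
  | nil => exact absurd rfl hl
  | cons b l => rw [AR_step_left b l q q' a w r h, AL_cons]

theorem zrun_R (t : ℕ) : ∀ (l : List (Fin n)) (q : Fin k) (r : List (Fin n)) (q' : Fin k) (l' : List (Fin n)),
    zrun U t l q r = .R q' l' → ∀ l0 r0 : List (Fin n), Rn U (AR (l ++ l0) q (r ++ r0)) (AR (l' ++ l0) q' r0) := by
  induction t with
  | zero => intro l q r q' l' h; simp [zrun] at h
  | succ t ih =>
    intro l q r q' l' h l0 r0
    cases r with
    | nil =>
      simp only [zrun, ZO.R.injEq] at h
      obtain ⟨rfl, rfl⟩ := h
      exact Rn.refl _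
    | cons a r =>
      rcases hU : U q a with ⟨w, d, s⟩
      cases s with
      | none =>
        cases d <;> simp [zrun, hU] at h
      | some q1 =>
        cases d with
        | true =>
          simp only [zrun, hU] at h
          exact Rn.head (AR_step_right (l ++ l0) q q1 a w (r ++ r0) hU) (ih _ _ _ _ _ h l0 r0)
        | false =>
          cases l with
          | nil => simp [zrun, hU] at h
          | cons b l =>
            simp only [zrun, hU] at h
            exact Rn.head (AR_step_left b (l ++ l0) q q1 a w (r ++ r0) hU) (ih _ _ _ _ _ h l0 r0)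

theorem zrun_L (t : ℕ) : ∀ (l : List (Fin n)) (q : Fin k) (r : List (Fin n)) (q' : Fin k) (r' : List (Fin n)),
    zrun U t l q r = .L q' r' → ∀ l0 r0 : List (Fin n), l0 ≠ [] →
      Rn U (AR (l ++ l0) q (r ++ r0)) (AL l0 q' (r' ++ r0)) := by
  induction t with
  | zero => intro l q r q' l' h; simp [zrun] at h
  | succ t ih =>
    intro l q r q' r' h l0 r0 hl0
    cases r with
    | nil => simp [zrun] at h
    | cons a r =>
      rcases hU : U q a with ⟨w, d, s⟩
      cases s with
      | none =>
        cases d <;> simp [zrun, hU] at h
      | some q1 =>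
        cases d with
        | true =>
          simp only [zrun, hU] at h
          exact Rn.head (AR_step_right (l ++ l0) q q1 a w (r ++ r0) hU) (ih _ _ _ _ _ h l0 r0 hl0)
        | false =>
          cases l with
          | nil =>
            simp only [zrun, hU, ZO.L.injEq] at h
            obtain ⟨rfl, rfl⟩ := h
            exact ⟨1, step_left l0 hl0 q q1 a w (r ++ r0) hU⟩
          | cons b l =>
            simp only [zrun, hU] at h
            exact Rn.head (AR_step_left b (l ++ l0) q q1 a w (r ++ r0) hU) (ih _ _ _ _ _ h l0 r0 hl0)

theorem zrun_H (t : ℕ) : ∀ (l : List (Fin n)) (q : Fin k) (r x : List (Fin n)),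
    zrun U t l q r = .H x → ∀ l0 r0 : List (Fin n), ∃ s : ℕ,
      ((step U)^[s] (AR (l ++ l0) q (r ++ r0))).st = none ∧
      ((step U)^[s] (AR (l ++ l0) q (r ++ r0))).tape = wordTape (l0.reverse ++ (x ++ r0)) := by
  induction t with
  | zero => intro l q r x h; simp [zrun] at h
  | succ t ih =>
    intro l q r x h l0 r0
    cases r with
    | nil => simp [zrun] at h
    | cons a r =>
      rcases hU : U q a with ⟨w, d, s⟩
      cases s with
      | none =>
        have hx : x = l.reverse ++ w :: r := by
          cases d <;> simp only [zrun, hU, ZO.H.injEq] at h <;> exact h.symm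
        obtain ⟨h1, h2⟩ := AR_step_halt (U := U) (l ++ l0) q a w d (r ++ r0) hU
        refine ⟨1, h1, ?_⟩
        rw [Function.iterate_one, List.cons_append, h2, hx]
        simp
      | some q1 =>
        cases d with
        | true =>
          simp only [zrun, hU] at h
          obtain ⟨s, h1, h2⟩ := ih _ _ _ _ h l0 r0
          refine ⟨s + 1, ?_, ?_⟩
          · rw [Function.iterate_succ_apply, List.cons_append, AR_step_right (l ++ l0) q q1 a w (r ++ r0) hU]
            exact h1
          · rw [Function.iterate_succ_apply, List.cons_append, AR_step_right (l ++ l0) q q1 a w (r ++ r0) hU]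
            exact h2
        | false =>
          cases l with
          | nil => simp [zrun, hU] at h
          | cons b l =>
            simp only [zrun, hU] at h
            obtain ⟨s, h1, h2⟩ := ih _ _ _ _ h l0 r0
            have e := AR_step_left b (l ++ l0) q q1 a w (r ++ r0) hU
            refine ⟨s + 1, ?_, ?_⟩
            · rw [Function.iterate_succ_apply, List.cons_append, List.cons_append, e]
              exact h1
            · rw [Function.iterate_succ_apply, List.cons_append, List.cons_append, e]
              exact h2

/-- at least one step is made if the window contains the head -/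
theorem zrun_Rp {t : ℕ} {l : List (Fin n)} {q : Fin k} {r : List (Fin n)} {q' : Fin k} {l' : List (Fin n)}
    (hr : r ≠ []) (h : zrun U t l q r = .R q' l') (l0 r0 : List (Fin n)) :
    Rp U (AR (l ++ l0) q (r ++ r0)) (AR (l' ++ l0) q' r0) := by
  cases t with
  | zero => simp [zrun] at h
  | succ t =>
    cases r with
    | nil => exact absurd rfl hr
    | cons a r =>
      rcases hU : U q a with ⟨w, d, s⟩
      cases s with
      | none =>
        cases d <;> simp [zrun, hU] at h
      | some q1 =>
        cases d with
        | true =>
          simp only [zrun, hU] at h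
          exact Rp.trans_rn ⟨0, AR_step_right (l ++ l0) q q1 a w (r ++ r0) hU⟩ (zrun_R t _ _ _ _ _ h l0 r0)
        | false =>
          cases l with
          | nil => simp [zrun, hU] at h
          | cons b l =>
            simp only [zrun, hU] at h
            exact Rp.trans_rn ⟨0, AR_step_left b (l ++ l0) q q1 a w (r ++ r0) hU⟩
              (zrun_R t _ _ _ _ _ h l0 r0)

theorem zrun_Lp {t : ℕ} {l : List (Fin n)} {q : Fin k} {r : List (Fin n)} {q' : Fin k} {r' : List (Fin n)}
    (h : zrun U t l q r = .L q' r') (l0 r0 : List (Fin n)) (hl0 : l0 ≠ []) :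
    Rp U (AR (l ++ l0) q (r ++ r0)) (AL l0 q' (r' ++ r0)) := by
  cases t with
  | zero => simp [zrun] at h
  | succ t =>
    cases r with
    | nil => simp [zrun] at h
    | cons a r =>
      rcases hU : U q a with ⟨w, d, s⟩
      cases s with
      | none =>
        cases d <;> simp [zrun, hU] at h
      | some q1 =>
        cases d with
        | true =>
          simp only [zrun, hU] at h
          exact Rp.trans_rn ⟨0, AR_step_right (l ++ l0) q q1 a w (r ++ r0) hU⟩
            (zrun_L t _ _ _ _ _ h l0 r0 hl0)
        | false =>
          cases l with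
          | nil =>
            simp only [zrun, hU, ZO.L.injEq] at h
            obtain ⟨rfl, rfl⟩ := h
            exact ⟨0, step_left l0 hl0 q q1 a w (r ++ r0) hU⟩
          | cons b l =>
            simp only [zrun, hU] at h
            exact Rp.trans_rn ⟨0, AR_step_left b (l ++ l0) q q1 a w (r ++ r0) hU⟩
              (zrun_L t _ _ _ _ _ h l0 r0 hl0)

theorem zrunL_Rp {t : ℕ} {l : List (Fin n)} {q : Fin k} {q' : Fin k} {l' : List (Fin n)}
    (h : zrunL U t l q = .R q' l') (l0 r0 : List (Fin n)) :
    Rp U (AL (l ++ l0) q r0) (AR (l' ++ l0) q' r0) := by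
  cases l with
  | nil => simp [zrunL] at h
  | cons a l =>
    have := zrun_Rp (r := [a]) (by simp) h l0 r0
    rw [List.cons_append, AL_cons]
    exact this

theorem zrunL_Lp {t : ℕ} {l : List (Fin n)} {q : Fin k} {q' : Fin k} {r' : List (Fin n)}
    (h : zrunL U t l q = .L q' r') (l0 r0 : List (Fin n)) (hl0 : l0 ≠ []) :
    Rp U (AL (l ++ l0) q r0) (AL l0 q' (r' ++ r0)) := by
  cases l with
  | nil => simp [zrunL] at h
  | cons a l =>
    have := zrun_Lp (r := [a]) h l0 r0 hl0
    rw [List.cons_append, AL_cons]
    exact this

omit [NeZero n] in
theorem Rp.to_rn {a b : Cfg k n} (h : Rp U a b) : Rn U a b := by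
  obtain ⟨t, ht⟩ := h
  exact ⟨t + 1, ht⟩

theorem wordTape_zeros (x : List (Fin n)) (z : ℕ) : wordTape (x ++ List.replicate z 0) = wordTape x := by
  funext i
  unfold wordTape
  split
  · rcases Nat.lt_or_ge i.toNat x.length with h | h
    · rw [List.getD_append _ _ _ _ h]
    · rw [List.getD_append_right _ _ _ _ h, List.getD_eq_default _ _ h, List.getD_eq_getElem?_getD,
        List.getElem?_replicate]
      split <;> rfl
  · rfl

theorem AR_zeros (l : List (Fin n)) (q : Fin k) (r : List (Fin n)) (z : ℕ) :
    AR l q (r ++ List.replicate z 0) = AR l q r := by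
  unfold AR
  rw [← List.append_assoc, wordTape_zeros]

theorem AL_zeros (l : List (Fin n)) (q : Fin k) (r : List (Fin n)) (z : ℕ) :
    AL l q (r ++ List.replicate z 0) = AL l q r := by
  unfold AL
  rw [← List.append_assoc, wordTape_zeros]

end

end P913
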