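import Pool.Agent.Lib.P913.GSim
import Pool.Agent.Lib.P913.KZip

/-!
# A checker for machines which execute a two-ring system

All conditions of `GLoc` follow from finitely many evaluations of local computations; every field of `GOk` can be
proved by `decide`.
-/

set_option autoImplicit false

namespace P913

/-- the words and states of a machine which executes a two-ring system -/
structure GData (G : Type) (k n : ℕ) where
  qR : Bool → Fin k
  qL : Bool → Fin k
  cr : Bool → List (Fin n)
  cl : Bool → List (Fin n)
  E : List (Fin n)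
  S : List (Fin n)
  h0 : Bool
  g0 : G
  o : ℕ
  W : G → List (Fin n)
  /-- the halting glyph and bit -/
  gH : G
  hH : Bool
  FH : List (Fin n)
  /-- length of the cells -/
  m : ℕ
  /-- number of cells at the beginning of the final glyph -/
  s : ℕ
  /-- bound for the number of steps of the local computations -/
  t : ℕ
  /-- number of blanks read at the right end -/
  z : ℕ

/-- the result of a local computation of a glyph -/
def GData.res {G : Type} {k n : ℕ} (D : GData G k n) (g' : G) (s w : Bool) : ZO k n :=
  if s then .R (D.qR w) (D.W g').reverse else .L (D.qL w) (D.W g')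

/-- the local computation of the glyph `g` for the bit `h` -/
def GData.run {G : Type} {k n : ℕ} (U : TM k n) (T : GTab G) (D : GData G k n) (g : G) (h : Bool) : ZO k n :=
  if T.wp g then zrun U D.t [] (D.qR h) (D.W g) else zrunL U D.t (D.W g).reverse (D.qL h)

/-- the local computation of the glyph `g` for the bit `h` is correct -/
def GData.ok {G : Type} [DecidableEq G] {k n : ℕ} (U : TM k n) (T : GTab G) (D : GData G k n) (g : G) (h : Bool) :
    Bool :=
  match T.F g h with
  | none => decide (g = D.gH ∧ h = D.hH)
  | some (g', s, w) => decide (D.run U T g h = D.res g' s w)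

/-- the local computations are correct -/
structure GOk {G : Type} [DecidableEq G] {k n : ℕ} [NeZero k] [NeZero n] (T : GTab G) (U : TM k n)
    (D : GData G k n) : Prop where
  m_pos : 0 < D.m
  cl_len : ∀ b, (D.cl b).length = D.m
  FH_cells : ∀ i < D.s, ∃ b, chk 0 D.m D.FH i = D.cl b
  FH_stop : ∀ b, chk 0 D.m D.FH D.s ≠ D.cl b
  FH_len : D.m * (D.s + 1) ≤ D.FH.length
  cr_nz : ∀ b, ∃ s ∈ D.cr b, s ≠ 0
  E_ne : D.E ≠ []
  ho : D.o ≤ D.E.length
  g0_wp : T.wp D.g0 = true
  passR : ∀ h c, zrun U D.t [] (D.qR h) (D.cr c) = .R (D.qR h) (D.cl c).reverse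
  passL : ∀ h c, zrunL U D.t (D.cl c).reverse (D.qL h) = .L (D.qL c) (D.cr h)
  lend : ∀ h, zrunL U D.t D.E.reverse (D.qL h) = .R (D.qR (xor T.a h)) D.E.reverse
  start : zrun U D.t (List.replicate D.o 0) 0 D.S = .R (D.qR D.h0) D.E.reverse
  rend : ∀ w, zrun U D.t [] (D.qR w) (List.replicate D.z 0) =
    .L (D.qL (T.gc w)) ((T.gw w).flatMap D.cr ++ List.replicate (D.z - ((T.gw w).flatMap D.cr).length) 0)
  ok : ∀ g h, D.ok U T g h = true
  halt : D.run U T D.gH D.hH = .H D.FH
  W_ne : ∀ g, T.wp g = true → D.W g ≠ []

section

variable {G : Type} [DecidableEq G] {k n : ℕ} [NeZero k] [NeZero n] {T : GTab G} {U : TM k n}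

private theorem GOk.run_eq {D : GData G k n} (h : GOk T U D) {g : G} {b : Bool} {g' : G} {s w : Bool}
    (hF : T.F g b = some (g', s, w)) : D.run U T g b = D.res g' s w := by
  have h1 := h.ok g b
  unfold GData.ok at h1
  rw [hF] at h1
  exact of_decide_eq_true h1

private theorem zrunL_H {t : ℕ} {l : List (Fin n)} {q : Fin k} {x : List (Fin n)}
    (h : zrunL U t l q = .H x) (l0 r0 : List (Fin n)) : ∃ s : ℕ,
      ((step U)^[s] (AL (l ++ l0) q r0)).st = none ∧
      ((step U)^[s] (AL (l ++ l0) q r0)).tape = wordTape (l0.reverse ++ (x ++ r0)) := by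
  cases l with
  | nil => simp [zrunL] at h
  | cons a l =>
    have := zrun_H _ _ _ [a] _ h l0 r0
    rw [List.cons_append, AL_cons]
    exact this

/-- a machine with correct local computations executes the two-ring system -/
def GOk.loc {D : GData G k n} (h : GOk T U D) : GLoc T U where
  qR := D.qR
  qL := D.qL
  cr := D.cr
  cl := D.cl
  E := D.E
  S := D.S
  h0 := D.h0
  g0 := D.g0
  g0_wp := h.g0_wp
  W := D.W
  gH := D.gH
  hH := D.hH
  halt_only := fun g b hF => by
    have h1 := h.ok g b
    unfold GData.ok at h1
    rw [hF] at h1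
    exact of_decide_eq_true h1
  FH := D.FH
  m := D.m
  m_pos := h.m_pos
  cl_len := h.cl_len
  s := D.s
  FH_cells := h.FH_cells
  FH_stop := h.FH_stop
  FH_len := h.FH_len
  cr_nz := h.cr_nz
  E_ne := h.E_ne
  o := D.o
  ho := h.ho
  passR := fun b c l r _ => by
    simpa using zrun_R _ _ _ _ _ _ (h.passR b c) l r
  passL := fun b c l r hl => (zrunL_Lp (h.passL b c) l r hl).to_rn
  lend := fun b r => by
    have := (zrunL_Rp (h.lend b) [] r).to_rn
    simpa using this
  start := fun r => by
    have := zrun_R _ _ _ _ _ _ h.start [] r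
    simpa using this
  rend := fun w l hl => by
    have := zrun_L _ _ _ _ _ _ (h.rend w) l [] hl
    rw [List.append_nil, List.nil_append, List.append_nil, AL_zeros] at this
    rw [← AR_zeros l (D.qR w) [] D.z]
    exact this
  fA := fun g b g' w hg hF l r _ => by
    have h1 := h.run_eq hF
    simp only [GData.run, hg, GData.res, if_true] at h1
    simpa using zrun_Rp (h.W_ne g hg) h1 l r
  fB := fun g b g' w hg hF l r hl => by
    have h1 := h.run_eq hF
    simp only [GData.run, hg, GData.res, if_true, Bool.false_eq_true, if_false] at h1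
    simpa using zrun_Lp h1 l r hl
  fR := fun g b g' w hg hF l r _ => by
    have h1 := h.run_eq hF
    simp only [GData.run, hg, GData.res, if_true, Bool.false_eq_true, if_false] at h1
    exact zrunL_Rp h1 l r
  fL := fun g b g' w hg hF l r hl => by
    have h1 := h.run_eq hF
    simp only [GData.run, hg, GData.res, Bool.false_eq_true, if_false] at h1
    exact zrunL_Lp h1 l r hl
  halt := fun l r _ => by
    have h1 := h.halt
    cases hg : T.wp D.gH with
    | true =>
      simp only [GData.run, hg, if_true] at h1 ⊢
      obtain ⟨t, h2, h3⟩ := zrun_H _ _ _ _ _ h1 l r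
      exact ⟨t, by simpa using h2, by simpa using h3⟩
    | false =>
      simp only [GData.run, hg, Bool.false_eq_true, if_false] at h1 ⊢
      exact zrunL_H h1 l r

/-- a machine with correct local computations executes the two-ring system -/
theorem GOk.sim {D : GData G k n} (h : GOk T U D) : SimG T U D.g0 D.h0 := simG_of_loc h.loc

end

end P913
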