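import Pool.Agent.Lib.P913.GUni

/-!
# A machine with 2 states and 8 symbols and the two-ring system which it executes
-/

set_option autoImplicit false

namespace P913

/-- the glyphs of the system Y' -/
inductive YG
  | A
  | X
  | P
  | Q
  deriving DecidableEq, Fintype

/-- the glyph waits for a bit of the program ring -/
def YG.wp : YG → Bool
  | .A => true
  | .X => true
  | .P => false
  | .Q => false

/-- the table of the system Y' -/
def YG.F : YG → Bool → Option (YG × Bool × Bool)
  | .A, false => some (.P, true, true)
  | .A, true => some (.Q, true, false)
  | .X, false => some (.P, true, true)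
  | .X, true => none
  | .P, false => some (.A, false, true)
  | .P, true => some (.P, true, false)
  | .Q, false => some (.A, false, false)
  | .Q, true => some (.X, false, false)

/-- the system Y' : the bit `w` is appended to the data ring as `0 w`; the bits of the program ring are complemented at
the left end -/
def YT : GTab YG where
  wp := YG.wp
  F := YG.F
  gc := fun _ => false
  gw := fun w => [w]
  a := true
  hD := by
    intro g h g' w hF
    cases g <;> cases h <;> simp [YG.F] at hF <;> obtain ⟨rfl, _⟩ := hF <;> rfl
  hP := by
    intro g h g' w hF
    cases g <;> cases h <;> simp [YG.F] at hF <;> obtain ⟨rfl, _⟩ := hF <;> rfl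

/-- The machine with 2 states and 8 symbols.  Symbols: `0` (blank), `1` the bits (l-form), `2`, `3` the bits
(r-form); `4`, `5`, `6`, `7` the glyphs `A`, `X`, `P`, `Q`; the left end is the word `6 6`. -/
def U28 : TM 2 8 := ![
  ![(2, false, some 0), (2, false, some 1), (0, true, some 0), (1, true, some 0),
    (6, true, some 1), (6, true, some 1), (4, false, some 1), (4, false, some 0)],
  ![(3, false, some 0), (3, false, some 1), (0, true, some 1), (1, true, some 1),
    (7, true, some 0), (5, true, none), (6, true, some 0), (5, false, some 0)]]

/-- the words of `U28` -/
def D28 : GData YG 2 8 where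
  qR := fun b => if b then 1 else 0
  qL := fun b => if b then 1 else 0
  cr := fun b => if b then [3] else [2]
  cl := fun b => if b then [1] else [0]
  E := [6, 6]
  S := [4, 6]
  h0 := false
  g0 := .A
  o := 0
  W := fun
    | .A => [4]
    | .X => [5]
    | .P => [6]
    | .Q => [7]
  gH := .X
  hH := true
  FH := [5]
  m := 1
  s := 0
  t := 8
  z := 1

theorem ok28 : GOk YT U28 D28 where
  m_pos := by decide
  cl_len := by decide
  FH_cells := by decide
  FH_stop := by decide
  FH_len := by decide
  cr_nz := by decide
  E_ne := by decide
  ho := by decide
  g0_wp := by decide
  passR := by decide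
  passL := by decide
  lend := by decide
  start := by decide
  rend := by decide
  ok := by decide
  halt := by decide
  W_ne := by decide

theorem simG28 : SimG YT U28 .A false := ok28.sim

/-- the glyphs as numbers -/
def YG.equiv : YG ≃ Fin 4 where
  toFun := fun
    | .A => 0
    | .X => 1
    | .P => 2
    | .Q => 3
  invFun := ![.A, .X, .P, .Q]
  left_inv := by intro g; cases g <;> rfl
  right_inv := by intro i; fin_cases i <;> rfl

instance : Primcodable YG := Primcodable.ofEquiv (Fin 4) YG.equiv

theorem pot28 : YT.Pot (fun g => if g.wp then 1 else 0) 1 where
  grow := by intro w; simp [YT]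
  le := by intro g; cases g <;> decide
  lt := by
    intro g h g' w hF
    cases g <;> cases h <;> simp [YT, YG.F] at hF <;> obtain ⟨rfl, _⟩ := hF <;> decide

/-- The machine `U28` is universal if the system Y' is universal. -/
theorem universal28_of (h : YT.Univ .A false) : Universal U28 := universal_of_simG pot28 simG28 h

end P913
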