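import Pool.Agent.Lib.P913.GInst28

/-!
# A machine with 2 states and 8 symbols and the two-ring system V which it executes
-/

set_option autoImplicit false

namespace P913

/-- the table of the system V -/
def YG.FV : YG → Bool → Option (YG × Bool × Bool)
  | .A, false => some (.P, true, true)
  | .A, true => some (.Q, true, false)
  | .X, false => none
  | .X, true => some (.A, false, false)
  | .P, false => some (.A, false, true)
  | .P, true => some (.P, true, false)
  | .Q, false => some (.A, false, false)
  | .Q, true => some (.X, false, false)

/-- the system V : the bit `w` is appended to the data ring as `0 w`; the bits of the program ring are complemented at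
the left end -/
def VT : GTab YG where
  wp := YG.wp
  F := YG.FV
  gc := fun _ => false
  gw := fun w => [w]
  a := true
  hD := by
    intro g h g' w hF
    cases g <;> cases h <;> simp [YG.FV] at hF <;> obtain ⟨rfl, _⟩ := hF <;> rfl
  hP := by
    intro g h g' w hF
    cases g <;> cases h <;> simp [YG.FV] at hF <;> obtain ⟨rfl, _⟩ := hF <;> rfl

/-- The machine with 2 states and 8 symbols for the system V.  Symbols: `0` (blank), `1` the bits (l-form), `2`, `3` the
bits (r-form); `4`, `5`, `6`, `7` the glyphs `A`, `X`, `P`, `Q`; the left end is the word `6 6`. -/
def U28V : TM 2 8 := ![
  ![(2, false, some 0), (2, false, some 1), (0, true, some 0), (1, true, some 0),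
    (6, true, some 1), (5, true, none), (4, false, some 1), (4, false, some 0)],
  ![(3, false, some 0), (3, false, some 1), (0, true, some 1), (1, true, some 1),
    (7, true, some 0), (4, false, some 0), (6, true, some 0), (5, false, some 0)]]

/-- the words of `U28V` -/
def D28V : GData YG 2 8 := { D28 with hH := false }

theorem ok28V : GOk VT U28V D28V where
  m_pos := by decide
  cl_len := by decide
  FH_cells := by decide
  FH_stop := by decide
  FH_len := by decide
  cr_nz := by decide
  E_ne := by decide
  ho := by decide
  g0_wp := by decide
  passR := by decide
  passL := by decide
  lend := by decide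
  start := by decide
  rend := by decide
  ok := by decide
  halt := by decide
  W_ne := by decide

theorem simG28V : SimG VT U28V .A false := ok28V.sim

/-- the potential of the glyphs -/
def potV : YG → ℕ
  | .A => 2
  | .X => 1
  | .P => 0
  | .Q => 0

theorem pot28V : VT.Pot potV 2 where
  grow := by intro w; simp [VT]
  le := by intro g; cases g <;> decide
  lt := by
    intro g h g' w hF
    cases g <;> cases h <;> simp [VT, YG.FV] at hF <;> obtain ⟨rfl, _⟩ := hF <;> decide

/-- The machine `U28V` is universal if the system V is universal. -/
theorem universal28V_of (h : VT.Univ .A false) : Universal U28V := universal_of_simG pot28V simG28V h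

end P913
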