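import Pool.Agent.Lib.P913.KMach

/-!
# Machines whose head carries the bit `1` after the start
-/

set_option autoImplicit false

namespace P913

/-- as `KSim`, for programs which end with the number `2` and first queues which end with the bit `0` -/
def KSimT {k n : ℕ} [NeZero k] [NeZero n] (U : TM k n) : Prop :=
  ∃ (inp : List ℕ → List Bool → List (Fin n)) (dec0 : List ℕ → ℕ), Computable₂ inp ∧ Computable dec0 ∧
    ∀ (ks : List ℕ) (v : List Bool), 2 ≤ (kflat ks).length → 2 ≤ v.length → (∃ ks', ks = ks' ++ [2]) →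
      (∃ v', v = v' ++ [false]) →
      (Halts U (inp ks v) ↔ KHalts ks (v ++ [true, true])) ∧
      ∀ T : ℤ → Fin n, Output U (inp ks v) T → ∃ w : List ℕ × List ℕ, IsCode w T ∧
        dec0 w.2 = (kflat ks).length - 1 ∧
          ∃ m ≤ w.2.length, (kround ks)^[m] (some (v ++ [true, true])) = none

namespace KUniTAux

open KExiAux

private theorem slot_two {N : ℕ} (P : Fin N → CI (Fin N)) (t : Fin N) : ∃ ks', slot P t = ks' ++ [2] := by
  have h1 : ∀ (N h D w u2 u3 u4 v2 v3 v4 : ℕ), ∃ ks', seg1 N h D w u2 u3 u4 v2 v3 v4 = ks' ++ [2] := by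
    intro N h D w u2 u3 u4 v2 v3 v4
    exact ⟨(seg1 N h D w u2 u3 u4 v2 v3 v4).dropLast, rfl⟩
  have h2 : ∀ (a b : List ℕ) (N h D w u2 u3 u4 v2 v3 v4 : ℕ),
      ∃ ks', a ++ (b ++ seg1 N h D w u2 u3 u4 v2 v3 v4) = ks' ++ [2] := by
    intro a b N h D w u2 u3 u4 v2 v3 v4
    obtain ⟨ks', e⟩ := h1 N h D w u2 u3 u4 v2 v3 v4
    exact ⟨a ++ (b ++ ks'), by rw [e]; simp⟩
  unfold slot
  rcases P t with q | ⟨x, q⟩ | ⟨x, q0, q1⟩ | _
  · exact h1 _ _ _ _ _ _ _ _ _ _
  · cases x <;> exact h1 _ _ _ _ _ _ _ _ _ _
  · cases x <;> exact h2 _ _ _ _ _ _ _ _ _ _ _ _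
  · exact h1 _ _ _ _ _ _ _ _ _ _

private theorem slots_two {N : ℕ} (P : Fin N → CI (Fin N)) (l : List (Fin N)) (hl : l ≠ []) :
    ∃ ks', l.flatMap (slot P) = ks' ++ [2] := by
  obtain ⟨l', t, rfl⟩ : ∃ l' t, l = l' ++ [t] := ⟨l.dropLast, l.getLast hl, (List.dropLast_append_getLast hl).symm⟩
  obtain ⟨ks', e⟩ := slot_two P t
  exact ⟨l'.flatMap (slot P) ++ ks', by rw [List.flatMap_append]; simp [e]⟩

private theorem nops_two (ks : List ℕ) (h : ∃ ks', ks = ks' ++ [2]) (c : ℕ) :
    ∃ ks', ks ++ (List.replicate c nop).flatten = ks' ++ [2] := by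
  cases c with
  | zero =>
    obtain ⟨ks', rfl⟩ := h
    exact ⟨ks', by simp⟩
  | succ c =>
    refine ⟨ks ++ ((List.replicate c nop).flatten ++ [7, 6, 5, 4, 3]), ?_⟩
    rw [List.replicate_succ']
    simp [nop]

theorem exists_kkT (f : ℕ →. ℕ) (hf : Nat.Partrec f) :
    ∃ (ks : List ℕ) (D : ℕ → List Bool), 2 ≤ (kflat ks).length ∧ Computable D ∧ (∃ ks', ks = ks' ++ [2]) ∧
      ∀ v c : ℕ, 2 ≤ (D v).length ∧ (∃ v', D v = v' ++ [false]) ∧
        (KHalts (ks ++ (List.replicate c nop).flatten) (D v ++ [true, true]) ↔ (f v).Dom) := by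
  obtain ⟨Nb, B, q0, inp, hinp, hB⟩ := exists_bm f hf
  obtain ⟨m, P, ini, hP⟩ := bm_to_ct B
  refine ⟨(List.finRange (m + 1)).flatMap (slot P),
    fun v => DD (m + 1) (2 * gg (m + 1) + 3 * (m + 1) + 3)
      ((ini q0 (inp v).2.1 : ℕ), (inp v).1, (inp v).2.2), ?_, ?_, ?_, fun v c => ⟨DD_len _ _ _, ?_, ?_⟩⟩
  · refine le_trans ?_ (kflat_len _)
    rw [List.finRange_succ, List.flatMap_cons, List.length_append]
    have := slot_len P 0
    omega
  · refine (DD_prim _ _).to_comp.comp ?_
    refine Computable.pair ?_ (Computable.pair (Computable.fst.comp hinp) ?_)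
    · exact (Primrec.dom_finite (fun b : Bool => (ini q0 b : ℕ))).to_comp.comp
        (Computable.fst.comp (Computable.snd.comp hinp))
    · exact Computable.snd.comp (Computable.snd.comp hinp)
  · apply slots_two
    rw [List.finRange_succ]
    simp
  · refine ⟨(List.replicate (2 * gg (m + 1) + 3 * (m + 1) + 3) false ++ [true, true]) ++
      ((List.replicate (gg (m + 1) + 3 * (ini q0 (inp v).2.1 : ℕ)) false ++ [true, true]) ++
      ((List.replicate (gg (m + 1) + 3 * (inp v).1) false ++ [true, true]) ++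
      ((List.replicate (gg (m + 1) + 3 * (inp v).2.2) false ++ [true, true]) ++
        ((List.replicate (gg (m + 1)) false ++ [true, true]) ++
          List.replicate (gg (m + 1) + 99) false)))), ?_⟩
    have e : List.replicate (gg (m + 1) + 100) false = List.replicate (gg (m + 1) + 99) false ++ [false] := by
      rw [show gg (m + 1) + 100 = gg (m + 1) + 99 + 1 by omega, List.replicate_succ']
    simp only [DD, e, List.append_assoc]
  · rw [DD_eq, ← hB v]
    have h1 := hP q0 (inp v).1 (inp v).2.1 (inp v).2.2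
    have h2 := kprog_halts P c (2 * gg (m + 1) + 3 * (m + 1) + 3)
      (ini q0 (inp v).2.1, (inp v).1, (inp v).2.2, 0) (Nat.le_add_right _ _)
    rw [← h1, ← h2]
    rfl

private theorem kround_none (ks : List ℕ) (n : ℕ) : (kround ks)^[n] none = none := by
  induction n with
  | zero => rfl
  | succ n ih =>
    rw [Function.iterate_succ_apply]
    exact ih

end KUniTAux

open KUniTAux in
theorem universal_of_ksimT {k n : ℕ} [NeZero k] [NeZero n] (U : TM k n) (h : KSimT U) : Universal U := by
  refine universal_of_simF U fun F hF => ?_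
  have hf : Partrec (fun c : ℕ => (F c).map fun _ => (0 : ℕ)) :=
    hF.map (Computable.const 0).to₂
  obtain ⟨ks, D, hlen, hD, hks, hv⟩ := exists_kkT _ (Partrec.nat_iff.mp hf)
  obtain ⟨inp, dec0, hinp, hdec0, hsim⟩ := h
  have hR : Computable fun c : ℕ => ks ++ (List.replicate c nop).flatten :=
    (Primrec.list_append.comp (Primrec.const ks) nops_prim).to_comp
  have hdom : ∀ c, KHalts (ks ++ (List.replicate c nop).flatten) (D c ++ [true, true]) ↔
      (F c).Dom := fun c => (hv c c).2.2
  have hD2 : Computable fun c : ℕ => D c ++ [true, true] :=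
    Computable.list_append.comp hD (Computable.const [true, true])
  have hdiv : Primrec fun a : ℕ => (a + 1 - (kflat ks).length) / 33 :=
    Primrec.nat_div.comp (Primrec.nat_sub.comp Primrec.succ (Primrec.const _))
      (Primrec.const 33)
  refine ⟨fun c => inp (ks ++ (List.replicate c nop).flatten) (D c),
    fun w => (dec0 w.2 + 1 - (kflat ks).length) / 33,
    fun p => ((kround (ks ++ (List.replicate p.1 nop).flatten))^[p.2]
      (some (D p.1 ++ [true, true]))).isNone, hinp.comp hR hD,
    hdiv.to_comp.comp (hdec0.comp Computable.snd),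
    rounds_prim.to_comp.comp (Computable.pair (hR.comp Computable.fst)
      (Computable.pair Computable.snd (hD2.comp Computable.fst))), ?_, ?_⟩
  · intro c N hc
    exact (hdom c).mp ⟨N, Option.isNone_iff_eq_none.mp hc⟩
  · intro c
    have hlenR := kflat_nops ks c
    obtain ⟨h1, h2⟩ := hsim (ks ++ (List.replicate c nop).flatten) (D c) (by omega) (hv c c).1
      (nops_two ks hks c) (hv c c).2.1
    refine ⟨h1.trans (hdom c), fun T hT => ?_⟩
    obtain ⟨w, hw, hdw, m, hm, hnone⟩ := h2 T hT
    refine ⟨w, hw, ?_, ?_⟩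
    · change (dec0 w.2 + 1 - (kflat ks).length) / 33 = c
      rw [hdw, hlenR]
      omega
    · change ((kround (ks ++ (List.replicate c nop).flatten))^[w.2.length]
        (some (D c ++ [true, true]))).isNone = true
      have h3 : w.2.length = (w.2.length - m) + m := by omega
      rw [h3, Function.iterate_add_apply, hnone, kround_none]
      rfl

namespace KUniTAux

private theorem yiter_add (m n : ℕ) (c : YC) : yiter (m + n) c = yiter m (yiter n c) :=
  Function.iterate_add_apply _ m n c

private theorem two_steps (p d : List Bool) : yiter 2 ⟨Gl.A1, true, false :: p, false :: d⟩ =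
    ⟨Gl.A1, false, p ++ [true], d ++ [false]⟩ := rfl

end KUniTAux

open KUniTAux KMachAux in
theorem ksimT_of_simY {k n : ℕ} [NeZero k] [NeZero n] {U : TM k n} (h : SimY U true) : KSimT U := by
  obtain ⟨inp, dec, hinp, hdec, hU⟩ := h
  have hd : Primrec fun l : List Bool => l.dropLast := by
    have h1 : Primrec fun l : List Bool => l.reverse.tail.reverse :=
      Primrec.list_reverse.comp (Primrec.list_tail.comp Primrec.list_reverse)
    refine h1.of_eq fun l => ?_
    simp
  refine ⟨fun ks v => inp (false :: (kflat ks).dropLast.dropLast) (false :: v.dropLast), dec, ?_, hdec, ?_⟩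
  · exact hinp.comp
      (Primrec.list_cons.comp (Primrec.const false) (hd.comp (hd.comp (kflat_prim.comp Primrec.fst)))).to_comp
      (Primrec.list_cons.comp (Primrec.const false) (hd.comp Primrec.snd)).to_comp
  · intro ks v hks hv ⟨ks', hks'⟩ ⟨v', hv'⟩
    have hne : ks ≠ [] := by
      rintro rfl
      simp at hks'
    have e1 : (kflat ks).dropLast.dropLast ++ [true] = (kflat ks).dropLast := by
      have : kflat ks = ((kflat ks' ++ [true]) ++ [true]) ++ [false] := by
        rw [hks']
        simp [kflat, List.flatMap_append]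
      rw [this, List.dropLast_concat, List.dropLast_concat]
    have e2 : v.dropLast ++ [false] = v := by
      rw [hv', List.dropLast_concat]
    have e3 := two_steps (kflat ks).dropLast.dropLast v.dropLast
    rw [e1, e2] at e3
    obtain ⟨h1, h2⟩ := hU (false :: (kflat ks).dropLast.dropLast) (false :: v.dropLast) (by simp)
    have h3 : ∀ N, yiter (N + 2) ⟨Gl.A1, true, false :: (kflat ks).dropLast.dropLast, false :: v.dropLast⟩ =
        yiter N ⟨Gl.A1, false, (kflat ks).dropLast, v⟩ := by
      intro N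
      rw [yiter_add, e3]
    have h4 : ∀ N, ystep (yiter N ⟨Gl.A1, true, false :: (kflat ks).dropLast.dropLast,
        false :: v.dropLast⟩) = none → ∃ N', N = N' + 2 := by
      intro N hN
      match N with
      | 0 => exact absurd hN (by simp [yiter, ystep, yF])
      | 1 => exact absurd hN (by simp [yiter, ystep, yF, growq, popq])
      | N' + 2 => exact ⟨N', rfl⟩
    refine ⟨h1.trans ?_, ?_⟩
    · rw [← Yhalts_iff ks hne v]
      constructor
      · rintro ⟨N, hN⟩
        obtain ⟨N', rfl⟩ := h4 N hN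
        rw [h3] at hN
        exact ⟨N', hN⟩
      · rintro ⟨N, hN⟩
        refine ⟨N + 2, ?_⟩
        rw [h3]
        exact hN
    · intro T hT
      obtain ⟨N, w, h5, h6, h7, h8⟩ := h2 T hT
      obtain ⟨N', rfl⟩ := h4 N h5
      rw [h3] at h5 h8
      obtain ⟨m, hm1, hm2⟩ := Yhalts_bound ks hne v N' h5
      refine ⟨w, h6, ?_, m, le_trans hm1 h8, hm2⟩
      rw [h7, List.length_cons, List.length_dropLast, List.length_dropLast]
      omega

/-- Machines with the local computations are universal. -/
theorem universal_of_loc' {k n : ℕ} [NeZero k] [NeZero n] {U : TM k n} (L : KLoc U) : Universal U := by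
  cases h : L.h0 with
  | false => exact universal_of_ksim U (ksim_of_loc L h)
  | true => exact universal_of_ksimT U (ksimT_of_simY (h ▸ simY_of_loc L))

end P913
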