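import Pool.Agent.Lib.P913.GCheck
import Pool.Agent.Lib.P913.KUniT

/-!
# The system K as a two-ring system
-/

set_option autoImplicit false

namespace P913

instance : Fintype Gl := ⟨{.A1, .P0, .P1, .A0}, by intro g; cases g <;> simp⟩

/-- the system K as a two-ring system -/
def KT : GTab Gl where
  wp := Gl.wp
  F := yF
  gc := fun w => w
  gw := fun w => if w then [true] else []
  a := false
  hD := by
    intro g h g' w hF
    cases g <;> cases h <;> simp [yF] at hF <;> obtain ⟨rfl, _⟩ := hF <;> rfl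
  hP := by
    intro g h g' w hF
    cases g <;> cases h <;> simp [yF] at hF <;> obtain ⟨rfl, _⟩ := hF <;> rfl

namespace GKAux

theorem grow_eq (w : Bool) : KT.grow w = growq w := by
  cases w <;> rfl

/-- configurations of the system K -/
def of (c : YC) : GC Gl := ⟨c.g, c.h, c.p, c.d⟩

theorem step_of (c : YC) : KT.step (of c) = (ystep c).map of := by
  obtain ⟨g, h, p, d⟩ := c
  have e : KT.F g h = yF g h := rfl
  unfold GTab.step ystep of
  simp only [grow_eq, e]
  rcases hF : yF g h with _ | ⟨g', s, w⟩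
  · rfl
  · cases s
    · simp [KT]
    · simp

theorem iter_of (n : ℕ) (c : YC) : KT.iter n (of c) = of (yiter n c) := by
  induction n with
  | zero => rfl
  | succ n ih =>
    rw [GTab.iter_succ', yiter_succ', ih, step_of]
    cases ystep (yiter n c) <;> rfl

end GKAux

open GKAux in
theorem simY_of_simG {k n : ℕ} [NeZero k] [NeZero n] {U : TM k n} {h0 : Bool} (h : SimG KT U .A1 h0) :
    SimY U h0 := by
  obtain ⟨inp, dec, h1, h2, h3⟩ := h
  refine ⟨inp, dec, h1, h2, fun p d hd => ?_⟩
  obtain ⟨h4, h5⟩ := h3 p d hd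
  have key : ∀ N, KT.step (KT.iter N ⟨Gl.A1, h0, p, d⟩) = none ↔ ystep (yiter N ⟨Gl.A1, h0, p, d⟩) = none := by
    intro N
    have e : (⟨Gl.A1, h0, p, d⟩ : GC Gl) = of ⟨Gl.A1, h0, p, d⟩ := rfl
    rw [e, iter_of, step_of, Option.map_eq_none_iff]
  refine ⟨h4.trans ⟨?_, ?_⟩, fun X hX => ?_⟩
  · rintro ⟨N, hN⟩
    exact ⟨N, (key N).mp hN⟩
  · rintro ⟨N, hN⟩
    exact ⟨N, (key N).mpr hN⟩
  · obtain ⟨N, w, h6, h7, h8, h9⟩ := h5 X hX
    refine ⟨N, w, (key N).mp h6, h7, h8, ?_⟩
    have e : (⟨Gl.A1, h0, p, d⟩ : GC Gl) = of ⟨Gl.A1, h0, p, d⟩ := rfl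
    rw [e, iter_of] at h9
    exact h9

theorem universal_of_simY {k n : ℕ} [NeZero k] [NeZero n] {U : TM k n} {h0 : Bool} (h : SimY U h0) :
    Universal U := by
  cases h0 with
  | false => exact universal_of_ksim U (ksim_of_simY h)
  | true => exact universal_of_ksimT U (ksimT_of_simY h)

/-- A machine with correct local computations for the system K is universal. -/
theorem universal_of_gk {k n : ℕ} [NeZero k] [NeZero n] {U : TM k n} {D : GData Gl k n} (h : GOk KT U D)
    (hg : D.g0 = .A1) : Universal U := by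
  have h1 := h.sim
  rw [hg] at h1
  exact universal_of_simY (simY_of_simG h1)

end P913
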