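import Pool.Agent.Lib.P913.GTwo

/-!
# Machines with the local computations execute the two-ring system
-/

set_option autoImplicit false

namespace P913

section

variable {k n : ℕ} [NeZero k] [NeZero n] {G : Type} {T : GTab G} {U : TM k n} (L : GLoc T U)

theorem GLoc.lw_ne (p : List Bool) : L.lw p ≠ [] := by
  simp [GLoc.lw, L.E_ne]

/-- right pass over many cells -/
theorem GLoc.passRs (h : Bool) (cs : List Bool) : ∀ (l r : List (Fin n)), l ≠ [] →
    Rn U (AR l (L.qR h) (cs.flatMap L.cr ++ r)) (AR ((cs.flatMap L.cl).reverse ++ l) (L.qR h) r) := by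
  induction cs with
  | nil =>
    intro l r _
    exact Rn.refl _
  | cons c cs ih =>
    intro l r hl
    have h1 := L.passR h c l (cs.flatMap L.cr ++ r) hl
    have h2 := ih ((L.cl c).reverse ++ l) r (by simp [hl])
    have e1 : (c :: cs).flatMap L.cr ++ r = L.cr c ++ (cs.flatMap L.cr ++ r) := by simp
    have e2 : ((c :: cs).flatMap L.cl).reverse ++ l =
        (cs.flatMap L.cl).reverse ++ ((L.cl c).reverse ++ l) := by simp
    rw [e1, e2]
    exact h1.trans h2

/-- left pass over many cells -/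
theorem GLoc.passLs (cs : List Bool) : ∀ (h : Bool) (l r : List (Fin n)), l ≠ [] →
    Rn U (AL ((cs.flatMap L.cl).reverse ++ l) (L.qL h) r)
      (AL l (L.qL (popq (cs ++ [h])).1) ((popq (cs ++ [h])).2.flatMap L.cr ++ r)) := by
  induction cs using List.reverseRecOn with
  | nil =>
    intro h l r _
    exact Rn.refl _
  | append_singleton cs c ih =>
    intro h l r hl
    have h1 := L.passL h c ((cs.flatMap L.cl).reverse ++ l) r (by simp [hl])
    have h2 := ih c l (L.cr h ++ r) hl
    have e1 : ((cs ++ [c]).flatMap L.cl).reverse ++ l =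
        (L.cl c).reverse ++ ((cs.flatMap L.cl).reverse ++ l) := by simp [List.flatMap_append]
    have e2 : popq (cs ++ [c] ++ [h]) = ((popq (cs ++ [c])).1, (popq (cs ++ [c])).2 ++ [h]) :=
      popq_append _ (by simp) _
    rw [e1, e2]
    have e3 : ((popq (cs ++ [c])).2 ++ [h]).flatMap L.cr ++ r =
        (popq (cs ++ [c])).2.flatMap L.cr ++ (L.cr h ++ r) := by simp [List.flatMap_append]
    rw [e3]
    exact h1.trans h2

/-- a bit is pushed to the data ring -/
theorem GLoc.pushD (w : Bool) (d : List Bool) (l : List (Fin n)) (hl : l ≠ []) :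
    Rn U (AR l (L.qR w) (d.flatMap L.cr))
      (AL l (L.qL (popq (d ++ T.grow w)).1) ((popq (d ++ T.grow w)).2.flatMap L.cr)) := by
  have h1 := L.passRs w d l [] hl
  rw [List.append_nil] at h1
  refine h1.trans ?_
  have hl' : (d.flatMap L.cl).reverse ++ l ≠ [] := by simp [hl]
  have h2 := L.passLs d (T.gc w) l ((T.gw w).flatMap L.cr) hl
  refine (L.rend w _ hl').trans ?_
  have e : T.grow w = [T.gc w] ++ T.gw w := rfl
  rw [e, ← List.append_assoc, popq_append (d ++ [T.gc w]) (by simp) (T.gw w)]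
  have e3 : ((popq (d ++ [T.gc w])).2 ++ T.gw w).flatMap L.cr =
      (popq (d ++ [T.gc w])).2.flatMap L.cr ++ (T.gw w).flatMap L.cr := by simp [List.flatMap_append]
  rw [e3]
  exact h2

/-- a bit is pushed to the program ring -/
theorem GLoc.pushP (w : Bool) (p : List Bool) (r : List (Fin n)) :
    Rn U (AL (L.lw p) (L.qL w) r)
      (AR (L.lw (popq (p ++ [w])).2) (L.qR (xor T.a (popq (p ++ [w])).1)) r) := by
  have hE : L.E.reverse ≠ [] := by simp [L.E_ne]
  have h1 := L.passLs p w L.E.reverse r hE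
  have h2 := L.lend (popq (p ++ [w])).1 ((popq (p ++ [w])).2.flatMap L.cr ++ r)
  have h3 := L.passRs (xor T.a (popq (p ++ [w])).1) (popq (p ++ [w])).2 L.E.reverse r hE
  exact h1.trans (h2.trans h3)

/-- one step of the system is executed -/
theorem GLoc.run_step (c c' : GC G) (h : T.step c = some c') : Rp U (L.C c) (L.C c') := by
  obtain ⟨g, b, p, d⟩ := c
  have hlw := L.lw_ne p
  unfold GTab.step at h
  simp only at h
  rcases hF : T.F g b with _ | ⟨g', s, w⟩
  · rw [hF] at h
    simp at h
  · rw [hF] at h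
    cases s with
    | true =>
      have hg' := T.hD g b g' w hF
      simp only [Option.some.injEq] at h
      subst h
      have h2 := L.pushD w d ((L.W g').reverse ++ L.lw p) (by simp [hlw])
      cases hg : T.wp g with
      | true =>
        have h1 := L.fA g b g' w hg hF (L.lw p) (d.flatMap L.cr) hlw
        simpa [GLoc.C, hg, hg'] using h1.trans_rn h2
      | false =>
        have h1 := L.fR g b g' w hg hF (L.lw p) (d.flatMap L.cr) hlw
        simpa [GLoc.C, hg, hg'] using h1.trans_rn h2
    | false =>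
      have hg' := T.hP g b g' w hF
      simp only [Option.some.injEq] at h
      subst h
      have h2 := L.pushP w p (L.W g' ++ d.flatMap L.cr)
      cases hg : T.wp g with
      | true =>
        have h1 := L.fB g b g' w hg hF (L.lw p) (d.flatMap L.cr) hlw
        simpa [GLoc.C, hg, hg'] using h1.trans_rn h2
      | false =>
        have h1 := L.fL g b g' w hg hF (L.lw p) (d.flatMap L.cr) hlw
        simpa [GLoc.C, hg, hg'] using h1.trans_rn h2

theorem GLoc.step_none (c : GC G) (h : T.step c = none) : c.g = L.gH ∧ c.h = L.hH := by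
  apply L.halt_only
  unfold GTab.step at h
  rcases hF : T.F c.g c.h with _ | ⟨g', s, w⟩
  · rfl
  · rw [hF] at h
    cases s <;> simp at h

/-- the halting configuration -/
theorem GLoc.halt_C (c : GC G) (h : T.step c = none) : ∃ t : ℕ, ((step U)^[t] (L.C c)).st = none ∧
    ((step U)^[t] (L.C c)).tape = wordTape (L.final c.p c.d) := by
  obtain ⟨h1, h2⟩ := L.step_none c h
  obtain ⟨t, h3, h4⟩ := L.halt (L.lw c.p) (c.d.flatMap L.cr) (L.lw_ne c.p)
  have e : L.C c = if T.wp L.gH then AR (L.lw c.p) (L.qR L.hH) (L.W L.gH ++ c.d.flatMap L.cr)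
      else AL ((L.W L.gH).reverse ++ L.lw c.p) (L.qL L.hH) (c.d.flatMap L.cr) := by
    simp only [GLoc.C, h1, h2]
  rw [e]
  refine ⟨t, h3, ?_⟩
  rw [h4]
  simp [GLoc.lw, GLoc.final]

/-- the start of the machine -/
theorem GLoc.run_init (p d : List Bool) :
    Rn U (AR (List.replicate L.o 0) 0 (L.input p d)) (L.C ⟨L.g0, L.h0, p, d⟩) := by
  have hE : L.E.reverse ≠ [] := by simp [L.E_ne]
  have h1 := L.start (p.flatMap L.cr ++ (L.W L.g0 ++ d.flatMap L.cr))
  have h2 := L.passRs L.h0 p L.E.reverse (L.W L.g0 ++ d.flatMap L.cr) hE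
  simpa [GLoc.C, GLoc.lw, L.g0_wp, GLoc.input] using h1.trans h2

theorem GTab.iter_succ' (T : GTab G) (N : ℕ) (c : GC G) :
    T.iter (N + 1) c = (T.step (T.iter N c)).getD (T.iter N c) := by
  simp only [GTab.iter, Function.iterate_succ_apply']

theorem GLoc.C_st (c : GC G) : (L.C c).st ≠ none := by
  unfold GLoc.C
  split <;> simp [AR, AL]

theorem GLoc.run_iter (c : GC G) (N : ℕ) : Rn U (L.C c) (L.C (T.iter N c)) := by
  induction N with
  | zero => exact Rn.refl _
  | succ N ih =>
    rw [GTab.iter_succ']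
    cases h : T.step (T.iter N c) with
    | none => exact ih
    | some c' =>
      obtain ⟨t, ht⟩ := L.run_step _ _ h
      exact ih.trans ⟨t + 1, ht⟩

/-- The machine halts if and only if the system halts. -/
theorem GLoc.halts_iff (p d : List Bool) :
    Halts U (L.input p d) ↔ T.Halts ⟨L.g0, L.h0, p, d⟩ := by
  have hst : ∀ t, ((step U)^[t] (init (L.input p d))).st =
      ((step U)^[t] (AR (List.replicate L.o 0) 0 (L.input p d))).st := by
    intro t
    rw [init_tr L.o, iter_tr]
    rfl
  constructor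
  · rintro ⟨t, ht⟩
    rw [hst] at ht
    by_contra hno
    have hs : ∀ N, ∃ c', T.step (T.iter N ⟨L.g0, L.h0, p, d⟩) = some c' := by
      intro N
      rcases h : T.step (T.iter N ⟨L.g0, L.h0, p, d⟩) with _ | c'
      · exact absurd ⟨N, h⟩ hno
      · exact ⟨c', rfl⟩
    have hn := not_halt (U := U) (c := fun N => L.C (T.iter N ⟨L.g0, L.h0, p, d⟩))
      (fun N => by
        obtain ⟨c', hc⟩ := hs N
        have := L.run_step _ _ hc
        simpa [GTab.iter_succ', hc] using this)
      (fun N => L.C_st _)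
    apply hn
    have h0 := Rn_halt_iff (L.run_init p d)
      ((step U)^[t] (AR (List.replicate L.o 0) 0 (L.input p d))).tape
    obtain ⟨t', h1, _⟩ := h0.mp ⟨t, ht, rfl⟩
    exact ⟨t', h1⟩
  · rintro ⟨N, hN⟩
    obtain ⟨t, h1, h2⟩ := L.halt_C _ hN
    have h3 := (L.run_init p d).trans (L.run_iter _ N)
    obtain ⟨t', h4, _⟩ := (Rn_halt_iff h3 _).mpr ⟨t, h1, h2⟩
    refine ⟨t', ?_⟩
    rw [hst]
    exact h4

/-- The output of the machine. -/
theorem GLoc.output (p d : List Bool) (N : ℕ) (hN : T.step (T.iter N ⟨L.g0, L.h0, p, d⟩) = none)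
    (X : ℤ → Fin n) (hX : Output U (L.input p d) X) :
    X = fun i => wordTape (L.final (T.iter N ⟨L.g0, L.h0, p, d⟩).p (T.iter N ⟨L.g0, L.h0, p, d⟩).d)
      (i + L.o) := by
  obtain ⟨t, h1, h2⟩ := L.halt_C _ hN
  have h3 := (L.run_init p d).trans (L.run_iter _ N)
  obtain ⟨t', h4, h5⟩ := (Rn_halt_iff h3 _).mpr ⟨t, h1, h2⟩
  have h6 : ∃ t : ℕ, ((step U)^[t] (init (L.input p d))).st = none ∧
      ((step U)^[t] (init (L.input p d))).tape =
        fun i => wordTape (L.final (T.iter N ⟨L.g0, L.h0, p, d⟩).p (T.iter N ⟨L.g0, L.h0, p, d⟩).d)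
          (i + L.o) := by
    refine ⟨t', ?_, ?_⟩
    · rw [init_tr L.o, iter_tr]
      exact h4
    · rw [init_tr L.o, iter_tr, ← h5]
      rfl
  exact halt_unique hX h6

end

end P913
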