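import Pool.Agent.Lib.P913.GRun

/-!
# Machines with the local computations for a two-ring system: input, decoding of the final tape
-/

set_option autoImplicit false

namespace P913

/-- The machine `U` executes the two-ring system `T`: `inp p d` is the input word of the rings `p`, `d` (the first bit
given to the glyph `g0` is `h0`); the length of the program ring can be computed from the code of the final tape; the
final tape is at least as long as the final data ring. -/
def SimG {G : Type} (T : GTab G) {k n : ℕ} [NeZero k] [NeZero n] (U : TM k n) (g0 : G) (h0 : Bool) : Prop :=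
  ∃ (inp : List Bool → List Bool → List (Fin n)) (dec : List ℕ → ℕ),
    Computable₂ inp ∧ Computable dec ∧
    ∀ p d : List Bool, d ≠ [] →
      (Halts U (inp p d) ↔ T.Halts ⟨g0, h0, p, d⟩) ∧
      ∀ X : ℤ → Fin n, Output U (inp p d) X →
        ∃ (N : ℕ) (w : List ℕ × List ℕ), T.step (T.iter N ⟨g0, h0, p, d⟩) = none ∧ IsCode w X ∧
          dec w.2 = p.length ∧ (T.iter N ⟨g0, h0, p, d⟩).d.length ≤ w.2.length

namespace GSimAux

/-- a list of numbers without its zeros at the end -/
private theorem exists_trim (l : List ℕ) : ∃ l' : List ℕ, l'.getLast? ≠ some 0 ∧ ∀ i, l'.getD i 0 = l.getD i 0 := by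
  induction l using List.reverseRecOn with
  | nil => exact ⟨[], by simp, fun i => rfl⟩
  | append_singleton l a ih =>
    by_cases ha : a = 0
    · subst ha
      obtain ⟨l', h1, h2⟩ := ih
      refine ⟨l', h1, fun i => ?_⟩
      rw [h2]
      rcases Nat.lt_or_ge i l.length with hi | hi
      · rw [List.getD_append _ _ _ _ hi]
      · rw [List.getD_append_right _ _ _ _ hi, List.getD_eq_default _ _ hi]
        cases h : i - l.length with
        | zero => simp
        | succ m => simp
    · exact ⟨l ++ [a], by simpa using ha, fun i => rfl⟩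

private theorem isCode_word {n : ℕ} [NeZero n] (x : List (Fin n)) (o : ℕ) :
    ∃ v w : List ℕ, IsCode ((v, w) : List ℕ × List ℕ) (fun i => wordTape x (i + o)) ∧
      ∀ i, w.getD i 0 = ((x.drop o).map fun s : Fin n => (s : ℕ)).getD i 0 := by
  obtain ⟨v, hv1, hv2⟩ := exists_trim ((List.range o).map fun i => ((x.getD (o - 1 - i) 0 : Fin n) : ℕ))
  obtain ⟨w, hw1, hw2⟩ := exists_trim ((x.drop o).map fun s : Fin n => (s : ℕ))
  refine ⟨v, w, ⟨?_, ?_, hv1, hw1⟩, hw2⟩
  · intro i
    rw [hw2]
    have h0 : (0 : ℤ) ≤ (i : ℤ) + (o : ℤ) := by omega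
    simp only [wordTape, if_pos h0]
    have e : ((i : ℤ) + (o : ℤ)).toNat = o + i := by omega
    rw [e, List.getD_eq_getElem?_getD, List.getD_eq_getElem?_getD, List.getElem?_map, List.getElem?_drop]
    cases x[o + i]? with
    | none => simp
    | some s => simp
  · intro i
    rw [hv2]
    simp only [wordTape]
    rcases Nat.lt_or_ge i o with hi | hi
    · rw [if_pos (by omega)]
      have e : (-(i : ℤ) - 1 + (o : ℤ)).toNat = o - 1 - i := by omega
      rw [e, List.getD_eq_getElem?_getD (l := (List.range o).map _), List.getElem?_map, List.getElem?_range hi]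
      rfl
    · rw [if_neg (by omega), List.getD_eq_default _ _ (by simpa using hi)]
      rfl

private theorem flatMap_length_le {α β : Type*} (f : α → List β) (hf : ∀ a, f a ≠ []) (g : List α) :
    g.length ≤ (g.flatMap f).length := by
  induction g with
  | nil => simp
  | cons a g ih =>
    have h1 : 1 ≤ (f a).length := List.length_pos_iff.mpr (hf a)
    rw [List.flatMap_cons, List.length_append, List.length_cons]
    omega

private theorem getD_flatMap {β : Type} (f : Bool → List β) (m : ℕ) (hf : ∀ b, (f b).length = m) (x : β)
    (j : ℕ) (hj : j < m) : ∀ (p : List Bool) (i : ℕ) (hi : i < p.length) (v : List β),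
    (p.flatMap f ++ v).getD (m * i + j) x = (f p[i]).getD j x := by
  intro p
  induction p with
  | nil => intro i hi; simp at hi
  | cons b p ih =>
    intro i hi v
    rw [List.flatMap_cons, List.append_assoc]
    cases i with
    | zero =>
      rw [List.getD_append _ _ _ _ (by rw [hf b]; simpa using hj)]
      simp
    | succ i =>
      rw [List.getD_append_right _ _ _ _ (by rw [hf b]; nlinarith)]
      have e : m * (i + 1) + j - (f b).length = m * i + j := by
        rw [hf b]
        have : m * (i + 1) = m * i + m := by ring
        omega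
      rw [e, ih i (by simpa using hi)]
      simp

private theorem flat_len {β : Type} (f : Bool → List β) (m : ℕ) (hf : ∀ b, (f b).length = m) (p : List Bool) :
    (p.flatMap f).length = m * p.length := by
  induction p with
  | nil => simp
  | cons b p ih =>
    rw [List.flatMap_cons, List.length_append, hf, ih, List.length_cons]
    ring

private theorem chk_self {β : Type} (x : β) (l : List β) : (List.range l.length).map (fun t => l.getD t x) = l := by
  apply List.ext_getElem
  · simp
  · intro i h1 h2
    simp [h2]

private theorem chk_flat {β : Type} (x : β) (f : Bool → List β) (m : ℕ) (hf : ∀ b, (f b).length = m)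
    (p : List Bool) (i : ℕ) (hi : i < p.length) (v : List β) : chk x m (p.flatMap f ++ v) i = f p[i] := by
  have e := chk_self x (f p[i])
  rw [hf] at e
  rw [← e]
  unfold chk
  apply List.map_congr_left
  intro t ht
  rw [List.mem_range] at ht
  exact getD_flatMap f m hf x t ht p i hi v

private theorem chk_right {β : Type} (x : β) (f : Bool → List β) (m : ℕ) (hf : ∀ b, (f b).length = m)
    (p : List Bool) (i s : ℕ) (hi : i ≤ s) (u v : List β) (hu : m * (s + 1) ≤ u.length) :
    chk x m (p.flatMap f ++ (u ++ v)) (p.length + i) = chk x m u i := by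
  unfold chk
  apply List.map_congr_left
  intro t ht
  rw [List.mem_range] at ht
  have hl := flat_len f m hf p
  have e1 : m * (p.length + i) = m * p.length + m * i := by ring
  rw [List.getD_append_right _ _ _ _ (by omega)]
  have e2 : m * (p.length + i) + t - (p.flatMap f).length = m * i + t := by omega
  rw [e2]
  have h3 : m * i + t < u.length := by
    have : m * (i + 1) ≤ m * (s + 1) := Nat.mul_le_mul_left _ (by omega)
    have e3 : m * (i + 1) = m * i + m := by ring
    omega
  rw [List.getD_append _ _ _ _ h3]

private theorem chk_map {n : ℕ} [NeZero n] (m : ℕ) (l : List (Fin n)) (i : ℕ) :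
    chk 0 m (l.map fun s : Fin n => (s : ℕ)) i = (chk 0 m l i).map fun s : Fin n => (s : ℕ) := by
  unfold chk
  rw [List.map_map]
  apply List.map_congr_left
  intro t _
  simp only [Function.comp]
  rw [List.getD_eq_getElem?_getD, List.getD_eq_getElem?_getD, List.getElem?_map]
  cases l[m * i + t]? with
  | none => simp
  | some s => simp

private theorem map_inj {n : ℕ} {l l' : List (Fin n)}
    (h : (l.map fun s : Fin n => (s : ℕ)) = l'.map fun s : Fin n => (s : ℕ)) : l = l' :=
  List.map_injective_iff.mpr Fin.val_injective h

private theorem lead_count : ∀ (N : ℕ) (B : List Bool), (∀ i < N, B[i]? = some true) → B[N]? = some false →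
    B.foldr (fun b a => if b then a + 1 else 0) 0 = N := by
  intro N
  induction N with
  | zero =>
    intro B _ h
    cases B with
    | nil => simp at h
    | cons b B =>
      simp only [List.getElem?_cons_zero, Option.some.injEq] at h
      subst h
      simp
  | succ N ih =>
    intro B h1 h2
    cases B with
    | nil => simp at h2
    | cons b B =>
      have hb := h1 0 (by omega)
      simp only [List.getElem?_cons_zero, Option.some.injEq] at hb
      subst hb
      rw [List.getElem?_cons_succ] at h2
      have h3 := ih B (fun i hi => by simpa using h1 (i + 1) (by omega)) h2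
      rw [List.foldr_cons, h3]
      simp

section

variable {k n : ℕ} [NeZero k] [NeZero n] {G : Type} {T : GTab G} {U : TM k n} (L : GLoc T U)

private theorem cl_nil (b : Bool) : L.cl b ≠ [] := by
  have h := L.cl_len b
  have h' := L.m_pos
  intro e
  rw [e] at h
  simp at h
  omega

private theorem cr_nil (b : Bool) : L.cr b ≠ [] := by
  obtain ⟨s, hs, _⟩ := L.cr_nz b
  intro e
  rw [e] at hs
  simp at hs

private theorem drop_final (p d : List Bool) : (L.final p d).drop L.o =
    L.E.drop L.o ++ (p.flatMap L.cl ++ (L.FH ++ d.flatMap L.cr)) := by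
  unfold GLoc.final
  rw [List.drop_append_of_le_length L.ho]

private theorem chk_congr (m : ℕ) (l l' : List ℕ) (a : ℕ) (h : ∀ i, l'.getD i 0 = l.getD i 0) (i : ℕ) :
    chk 0 m (l'.drop a) i = chk 0 m (l.drop a) i := by
  unfold chk
  apply List.map_congr_left
  intro t _
  have h1 := h (a + (m * i + t))
  simp only [List.getD_eq_getElem?_getD, List.getElem?_drop] at h1 ⊢
  exact h1

private theorem dec_final (p d : List Bool) (w : List ℕ)
    (hw : ∀ i, w.getD i 0 = (((L.final p d).drop L.o).map fun s : Fin n => (s : ℕ)).getD i 0)
    (hlen : p.length + L.s < w.length) :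
    L.dec0 w = p.length := by
  have hdrop : (((L.final p d).drop L.o).map fun s : Fin n => (s : ℕ)).drop (L.E.length - L.o) =
      (p.flatMap L.cl ++ (L.FH ++ d.flatMap L.cr)).map fun s : Fin n => (s : ℕ) := by
    rw [drop_final, ← List.map_drop]
    congr 1
    have h := L.ho
    rw [List.drop_append_of_le_length (by rw [List.length_drop])]
    simp only [List.drop_drop]
    rw [List.drop_eq_nil_of_le (by omega), List.nil_append]
  have hck : ∀ i, chk 0 L.m (w.drop (L.E.length - L.o)) i =
      chk 0 L.m ((p.flatMap L.cl ++ (L.FH ++ d.flatMap L.cr)).map fun s : Fin n => (s : ℕ)) i := by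
    intro i
    rw [chk_congr L.m _ w (L.E.length - L.o) hw i, hdrop]
  have hc : ((List.range w.length).map fun i =>
    decide (chk 0 L.m (w.drop (L.E.length - L.o)) i = (L.cl true).map (fun s : Fin n => (s : ℕ)) ∨
      chk 0 L.m (w.drop (L.E.length - L.o)) i = (L.cl false).map (fun s : Fin n => (s : ℕ)))).foldr
    (fun b a => if b then a + 1 else 0) 0 = p.length + L.s := by
    apply lead_count
    · intro i hi
      rw [List.getElem?_map, List.getElem?_range (by omega)]
      simp only [Option.map_some, Option.some.injEq, decide_eq_true_eq]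
      rw [hck, chk_map]
      have hex : ∃ b, chk 0 L.m (p.flatMap L.cl ++ (L.FH ++ d.flatMap L.cr)) i = L.cl b := by
        rcases Nat.lt_or_ge i p.length with h | h
        · exact ⟨p[i], chk_flat 0 L.cl L.m L.cl_len p i h _⟩
        · obtain ⟨i', rfl⟩ := Nat.exists_eq_add_of_le h
          obtain ⟨b, hb⟩ := L.FH_cells i' (by omega)
          exact ⟨b, by rw [chk_right 0 L.cl L.m L.cl_len p i' L.s (by omega) L.FH _ L.FH_len, hb]⟩
      obtain ⟨b, hb⟩ := hex
      cases b with
      | true => exact Or.inl (by rw [hb])
      | false => exact Or.inr (by rw [hb])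
    · rw [List.getElem?_map, List.getElem?_range hlen]
      simp only [Option.map_some, Option.some.injEq, decide_eq_false_iff_not]
      rw [hck, chk_map, chk_right 0 L.cl L.m L.cl_len p L.s L.s le_rfl L.FH _ L.FH_len]
      rintro (h | h)
      · exact L.FH_stop true (map_inj h)
      · exact L.FH_stop false (map_inj h)
  unfold GLoc.dec0
  rw [hc]
  omega

/-- the trimmed code of the final tape is long -/
private theorem len_final (p d : List Bool) (hd : d ≠ []) (w : List ℕ)
    (hw : ∀ i, w.getD i 0 = (((L.final p d).drop L.o).map fun s : Fin n => (s : ℕ)).getD i 0) :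
    p.length + L.s < w.length ∧ d.length ≤ w.length := by
  obtain ⟨d', b, rfl⟩ : ∃ d' b, d = d' ++ [b] := ⟨d.dropLast, d.getLast hd, (List.dropLast_append_getLast hd).symm⟩
  obtain ⟨s, hs, h0⟩ := L.cr_nz b
  obtain ⟨j, hj, hjs⟩ := List.getElem_of_mem hs
  have h1 := flat_len L.cl L.m L.cl_len p
  have h2 := flatMap_length_le L.cr (cr_nil L) d'
  have h3 : p.length ≤ L.m * p.length := Nat.le_mul_of_pos_left _ L.m_pos
  have h4 : L.s + 1 ≤ L.m * (L.s + 1) := Nat.le_mul_of_pos_left _ L.m_pos
  have h5 := L.FH_len
  have e : (L.final p (d' ++ [b])).drop L.o =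
      (L.E.drop L.o ++ (p.flatMap L.cl ++ (L.FH ++ d'.flatMap L.cr))) ++ L.cr b := by
    rw [drop_final]
    simp [List.flatMap_append]
  have hg := hw ((L.E.drop L.o ++ (p.flatMap L.cl ++ (L.FH ++ d'.flatMap L.cr))).length + j)
  have hg2 : (((L.final p (d' ++ [b])).drop L.o).map fun s : Fin n => (s : ℕ)).getD
      ((L.E.drop L.o ++ (p.flatMap L.cl ++ (L.FH ++ d'.flatMap L.cr))).length + j) 0 = (s : ℕ) := by
    rw [e, List.getD_eq_getElem?_getD, List.getElem?_map, List.getElem?_append_right (by omega),
      Nat.add_sub_cancel_left, List.getElem?_eq_getElem hj, hjs]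
    rfl
  have hne : (s : ℕ) ≠ 0 := by
    intro h
    exact h0 (Fin.ext (by simpa using h))
  have hlt : (L.E.drop L.o ++ (p.flatMap L.cl ++ (L.FH ++ d'.flatMap L.cr))).length + j < w.length := by
    by_contra hc
    rw [List.getD_eq_default _ _ (by omega)] at hg
    rw [hg2] at hg
    exact hne hg.symm
  simp only [List.length_append] at hlt
  simp only [List.length_append, List.length_singleton]
  omega

private theorem input_comp : Computable₂ L.input := by
  have hp : Primrec fun x : List Bool × List Bool => x.1.flatMap L.cr :=
    Primrec.list_flatMap Primrec.fst ((Primrec.dom_finite L.cr).comp Primrec.snd).to₂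
  have hd : Primrec fun x : List Bool × List Bool => x.2.flatMap L.cr :=
    Primrec.list_flatMap Primrec.snd ((Primrec.dom_finite L.cr).comp Primrec.snd).to₂
  have h : Primrec fun x : List Bool × List Bool => L.input x.1 x.2 := by
    show Primrec fun x : List Bool × List Bool =>
      L.S ++ (x.1.flatMap L.cr ++ (L.W L.g0 ++ x.2.flatMap L.cr))
    exact Primrec.list_append.comp (Primrec.const _)
      (Primrec.list_append.comp hp (Primrec.list_append.comp (Primrec.const _) hd))
  exact h.to_comp

private theorem getD_drop (l : List ℕ) (a i : ℕ) : (l.drop a).getD i 0 = l.getD (a + i) 0 := by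
  rw [List.getD_eq_getElem?_getD, List.getD_eq_getElem?_getD, List.getElem?_drop]

private theorem dec_comp : Computable L.dec0 := by
  have hchk : Primrec₂ fun (w : List ℕ) (i : ℕ) => chk 0 L.m (w.drop (L.E.length - L.o)) i := by
    have h1 : Primrec₂ fun (x : List ℕ × ℕ) (t : ℕ) => x.1.getD (L.E.length - L.o + (L.m * x.2 + t)) 0 := by
      refine (Primrec.list_getD 0).comp (Primrec.fst.comp Primrec.fst) ?_
      exact Primrec.nat_add.comp (Primrec.const _)
        (Primrec.nat_add.comp (Primrec.nat_mul.comp (Primrec.const _) (Primrec.snd.comp Primrec.fst))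
          Primrec.snd)
    have h2 : Primrec fun x : List ℕ × ℕ =>
        (List.range L.m).map fun t => x.1.getD (L.E.length - L.o + (L.m * x.2 + t)) 0 :=
      Primrec.list_map (Primrec.const _) h1
    refine h2.of_eq fun x => ?_
    unfold chk
    apply List.map_congr_left
    intro t _
    rw [getD_drop]
  have hp : PrimrecPred fun x : List ℕ × ℕ =>
      chk 0 L.m (x.1.drop (L.E.length - L.o)) x.2 = (L.cl true).map (fun s : Fin n => (s : ℕ)) ∨
      chk 0 L.m (x.1.drop (L.E.length - L.o)) x.2 = (L.cl false).map (fun s : Fin n => (s : ℕ)) :=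
    PrimrecPred.or (Primrec.eq.comp hchk (Primrec.const _)) (Primrec.eq.comp hchk (Primrec.const _))
  have hm : Primrec fun w : List ℕ => (List.range w.length).map fun i =>
      decide (chk 0 L.m (w.drop (L.E.length - L.o)) i = (L.cl true).map (fun s : Fin n => (s : ℕ)) ∨
        chk 0 L.m (w.drop (L.E.length - L.o)) i = (L.cl false).map (fun s : Fin n => (s : ℕ))) :=
    Primrec.list_map (Primrec.list_range.comp Primrec.list_length) hp.decide.to₂
  have hf : Primrec fun w : List ℕ => (((List.range w.length).map fun i =>
      decide (chk 0 L.m (w.drop (L.E.length - L.o)) i = (L.cl true).map (fun s : Fin n => (s : ℕ)) ∨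
        chk 0 L.m (w.drop (L.E.length - L.o)) i = (L.cl false).map (fun s : Fin n => (s : ℕ)))).foldr
      (fun b a => if b then a + 1 else 0) 0 : ℕ) := by
    have h3 : Primrec₂ fun (_ : List ℕ) (x : Bool × ℕ) => (if x.1 then x.2 + 1 else 0 : ℕ) :=
      Primrec.ite (Primrec.eq.comp (Primrec.fst.comp Primrec.snd) (Primrec.const true))
        (Primrec.succ.comp (Primrec.snd.comp Primrec.snd)) (Primrec.const 0)
    exact Primrec.list_foldr hm (Primrec.const 0) h3
  have h : Primrec L.dec0 := Primrec.nat_sub.comp hf (Primrec.const L.s)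
  exact h.to_comp

end

section

variable {G : Type} (T : GTab G)

theorem step_d (c c' : GC G) (h : T.step c = some c') (hd : c.d ≠ []) : c'.d ≠ [] := by
  have h2 : ∀ w, (popq (c.d ++ T.grow w)).2 ≠ [] := by
    intro w
    rw [popq_append _ hd]
    simp [GTab.grow]
  unfold GTab.step at h
  rcases hF : T.F c.g c.h with _ | ⟨g', s, w⟩
  · rw [hF] at h
    simp at h
  · rw [hF] at h
    cases s with
    | true =>
      simp only [Option.some.injEq] at h
      subst h
      exact h2 w
    | false =>
      simp only [Option.some.injEq] at h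
      subst h
      exact hd

theorem iter_d (c : GC G) (hd : c.d ≠ []) (N : ℕ) : (T.iter N c).d ≠ [] := by
  induction N with
  | zero => exact hd
  | succ N ih =>
    rw [GTab.iter_succ']
    cases h : T.step (T.iter N c) with
    | none => exact ih
    | some c' => exact step_d T _ _ h ih

theorem step_p (c c' : GC G) (h : T.step c = some c') : c'.p.length = c.p.length := by
  have h2 : ∀ w, (popq (c.p ++ [w])).2.length = c.p.length := by
    intro w
    cases c.p <;> simp [popq]
  unfold GTab.step at h
  rcases hF : T.F c.g c.h with _ | ⟨g', s, w⟩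
  · rw [hF] at h
    simp at h
  · rw [hF] at h
    cases s with
    | true =>
      simp only [Option.some.injEq] at h
      subst h
      rfl
    | false =>
      simp only [Option.some.injEq] at h
      subst h
      exact h2 w

theorem iter_p (c : GC G) (N : ℕ) : (T.iter N c).p.length = c.p.length := by
  induction N with
  | zero => rfl
  | succ N ih =>
    rw [GTab.iter_succ']
    cases h : T.step (T.iter N c) with
    | none => exact ih
    | some c' => exact (step_p T _ _ h).trans ih

end

end GSimAux

open GSimAux in
/-- Machines with the local computations execute the two-ring system. -/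
theorem simG_of_loc {k n : ℕ} [NeZero k] [NeZero n] {G : Type} {T : GTab G} {U : TM k n} (L : GLoc T U) :
    SimG T U L.g0 L.h0 := by
  refine ⟨L.input, L.dec0, input_comp L, dec_comp L, ?_⟩
  intro p d hd
  refine ⟨L.halts_iff p d, ?_⟩
  intro X hX
  have hH : Halts U (L.input p d) := by
    obtain ⟨t, h1, _⟩ := hX
    exact ⟨t, h1⟩
  obtain ⟨N, hN⟩ := (L.halts_iff p d).mp hH
  have e := L.output p d N hN X hX
  obtain ⟨v, w, hv, hw⟩ := isCode_word
    (L.final (T.iter N ⟨L.g0, L.h0, p, d⟩).p (T.iter N ⟨L.g0, L.h0, p, d⟩).d) L.o
  have hl := len_final L _ _ (iter_d T ⟨L.g0, L.h0, p, d⟩ hd N) w hw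
  refine ⟨N, (v, w), hN, ?_, ?_, hl.2⟩
  · rw [e]
    exact hv
  · show L.dec0 w = p.length
    rw [dec_final L _ _ w hw hl.1]
    exact iter_p T ⟨L.g0, L.h0, p, d⟩ N

end P913
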