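import Pool.Agent.Lib.P913.KLoc

/-!
# Machines with the local computations execute the system K
-/

set_option autoImplicit false

namespace P913

theorem popq_append (q : List Bool) (hq : q ≠ []) (v : List Bool) :
    popq (q ++ v) = ((popq q).1, (popq q).2 ++ v) := by
  cases q with
  | nil => exact absurd rfl hq
  | cons a q => rfl

section

variable {k n : ℕ} [NeZero k] [NeZero n] {U : TM k n} (L : KLoc U)

theorem KLoc.lw_ne (p : List Bool) : L.lw p ≠ [] := by
  simp [KLoc.lw, L.E_ne]

/-- right pass over many cells -/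
theorem KLoc.passRs (h : Bool) (cs : List Bool) : ∀ (l r : List (Fin n)), l ≠ [] →
    Rn U (AR l (L.qR h) (cs.flatMap L.cr ++ r)) (AR ((cs.flatMap L.cl).reverse ++ l) (L.qR h) r) := by
  induction cs with
  | nil =>
    intro l r _
    exact Rn.refl _
  | cons c cs ih =>
    intro l r hl
    have h1 := L.passR h c l (cs.flatMap L.cr ++ r) hl
    have h2 := ih ((L.cl c).reverse ++ l) r (by simp [hl])
    have e1 : (c :: cs).flatMap L.cr ++ r = L.cr c ++ (cs.flatMap L.cr ++ r) := by simp
    have e2 : ((c :: cs).flatMap L.cl).reverse ++ l =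
        (cs.flatMap L.cl).reverse ++ ((L.cl c).reverse ++ l) := by simp
    rw [e1, e2]
    exact h1.trans h2

/-- left pass over many cells -/
theorem KLoc.passLs (cs : List Bool) : ∀ (h : Bool) (l r : List (Fin n)), l ≠ [] →
    Rn U (AL ((cs.flatMap L.cl).reverse ++ l) (L.qL h) r)
      (AL l (L.qL (popq (cs ++ [h])).1) ((popq (cs ++ [h])).2.flatMap L.cr ++ r)) := by
  induction cs using List.reverseRecOn with
  | nil =>
    intro h l r _
    exact Rn.refl _
  | append_singleton cs c ih =>
    intro h l r hl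
    have h1 := L.passL h c ((cs.flatMap L.cl).reverse ++ l) r (by simp [hl])
    have h2 := ih c l (L.cr h ++ r) hl
    have e1 : ((cs ++ [c]).flatMap L.cl).reverse ++ l =
        (L.cl c).reverse ++ ((cs.flatMap L.cl).reverse ++ l) := by simp [List.flatMap_append]
    have e2 : popq (cs ++ [c] ++ [h]) = ((popq (cs ++ [c])).1, (popq (cs ++ [c])).2 ++ [h]) :=
      popq_append _ (by simp) _
    rw [e1, e2]
    have e3 : ((popq (cs ++ [c])).2 ++ [h]).flatMap L.cr ++ r =
        (popq (cs ++ [c])).2.flatMap L.cr ++ (L.cr h ++ r) := by simp [List.flatMap_append]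
    rw [e3]
    exact h1.trans h2

/-- a bit is pushed to the data ring -/
theorem KLoc.pushD (w : Bool) (d : List Bool) (l : List (Fin n)) (hl : l ≠ []) :
    Rn U (AR l (L.qR w) (d.flatMap L.cr))
      (AL l (L.qL (popq (d ++ growq w)).1) ((popq (d ++ growq w)).2.flatMap L.cr)) := by
  have h1 := L.passRs w d l [] hl
  rw [List.append_nil] at h1
  refine h1.trans ?_
  have hl' : (d.flatMap L.cl).reverse ++ l ≠ [] := by simp [hl]
  cases w with
  | false =>
    have h2 := L.passLs d false l [] hl
    rw [List.append_nil] at h2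
    exact (L.rend0 _ hl').trans h2
  | true =>
    have h2 := L.passLs d true l (L.cr true) hl
    refine (L.rend1 _ hl').trans ?_
    have e : growq true = [true] ++ [true] := rfl
    rw [e, ← List.append_assoc, popq_append (d ++ [true]) (by simp) [true]]
    have e3 : ((popq (d ++ [true])).2 ++ [true]).flatMap L.cr =
        (popq (d ++ [true])).2.flatMap L.cr ++ L.cr true := by simp [List.flatMap_append]
    rw [e3]
    exact h2

/-- a bit is pushed to the program ring -/
theorem KLoc.pushP (w : Bool) (p : List Bool) (r : List (Fin n)) :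
    Rn U (AL (L.lw p) (L.qL w) r) (AR (L.lw (popq (p ++ [w])).2) (L.qR (popq (p ++ [w])).1) r) := by
  have hE : L.E.reverse ≠ [] := by simp [L.E_ne]
  have h1 := L.passLs p w L.E.reverse r hE
  have h2 := L.lend (popq (p ++ [w])).1 ((popq (p ++ [w])).2.flatMap L.cr ++ r)
  have h3 := L.passRs (popq (p ++ [w])).1 (popq (p ++ [w])).2 L.E.reverse r hE
  exact h1.trans (h2.trans h3)

/-- one step of the system K is executed -/
theorem KLoc.run_step (c c' : YC) (h : ystep c = some c') : Rp U (L.C c) (L.C c') := by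
  obtain ⟨g, b, p, d⟩ := c
  have hlw := L.lw_ne p
  unfold ystep at h
  simp only at h
  rcases hF : yF g b with _ | ⟨g', s, w⟩
  · rw [hF] at h
    simp at h
  · rw [hF] at h
    cases hg : g.wp with
    | true =>
      have hs : s = true ∧ g'.wp = false := by
        cases g <;> cases b <;> simp [yF, Gl.wp] at hF hg ⊢ <;> (obtain ⟨rfl, rfl, rfl⟩ := hF; simp)
      obtain ⟨rfl, hg'⟩ := hs
      simp only [Option.some.injEq] at h
      subst h
      have h1 := L.fA g b g' w hg hF (L.lw p) (d.flatMap L.cr) hlw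
      have h2 := L.pushD w d ((L.F g').reverse ++ L.lw p) (by simp [hlw])
      simpa [KLoc.C, hg, hg'] using h1.trans_rn h2
    | false =>
      cases s with
      | true =>
        have hg' : g'.wp = false := by
          cases g <;> cases b <;> simp [yF, Gl.wp] at hF hg ⊢ <;> (obtain ⟨rfl, rfl⟩ := hF; simp)
        simp only [Option.some.injEq] at h
        subst h
        have h1 := L.fR g b g' w hg hF (L.lw p) (d.flatMap L.cr) hlw
        have h2 := L.pushD w d ((L.F g').reverse ++ L.lw p) (by simp [hlw])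
        simpa [KLoc.C, hg, hg'] using h1.trans_rn h2
      | false =>
        have hg' : g'.wp = true := by
          cases g <;> cases b <;> simp [yF, Gl.wp] at hF hg ⊢ <;> (obtain ⟨rfl, rfl⟩ := hF; simp)
        simp only [Option.some.injEq] at h
        subst h
        have h1 := L.fL g b g' w hg hF (L.lw p) (d.flatMap L.cr) hlw
        have h2 := L.pushP w p (L.F g' ++ d.flatMap L.cr)
        simpa [KLoc.C, hg, hg'] using h1.trans_rn h2

theorem ystep_none (c : YC) (h : ystep c = none) : c.g = Gl.A0 ∧ c.h = false := by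
  obtain ⟨g, b, p, d⟩ := c
  cases g <;> cases b <;> simp [ystep, yF] at h ⊢

/-- the halting configuration -/
theorem KLoc.halt_C (c : YC) (h : ystep c = none) : ∃ t : ℕ, ((step U)^[t] (L.C c)).st = none ∧
    ((step U)^[t] (L.C c)).tape = wordTape (L.final c.p c.d) := by
  obtain ⟨h1, h2⟩ := ystep_none c h
  obtain ⟨t, h3, h4⟩ := L.halt (L.lw c.p) (c.d.flatMap L.cr) (L.lw_ne c.p)
  have e : L.C c = AR (L.lw c.p) (L.qR false) (L.F Gl.A0 ++ c.d.flatMap L.cr) := by
    simp [KLoc.C, h1, h2, Gl.wp]
  rw [e]
  refine ⟨t, h3, ?_⟩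
  rw [h4]
  simp [KLoc.lw, KLoc.final]

/-- translation of a configuration -/
def tr (o : ℕ) (c : Cfg k n) : Cfg k n := ⟨fun i => c.tape (i + o), c.pos - o, c.st⟩

omit [NeZero k] [NeZero n] in
theorem step_tr (o : ℕ) (c : Cfg k n) : step U (tr o c) = tr o (step U c) := by
  obtain ⟨T, x, st⟩ := c
  cases st with
  | none => rfl
  | some q =>
    simp only [step, tr, Int.sub_add_cancel]
    ext1
    · funext i
      simp only [Function.update_apply]
      by_cases hi : i = x - o
      · subst hi
        simp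
      · have : i + o ≠ x := fun h => hi (by omega)
        simp [hi, this]
    · by_cases hd : (U q (T x)).2.1 = true
      · simp [hd]
        ring
      · simp [hd]
        ring
    · rfl

omit [NeZero k] [NeZero n] in
theorem iter_tr (o : ℕ) (c : Cfg k n) (t : ℕ) : (step U)^[t] (tr o c) = tr o ((step U)^[t] c) := by
  induction t with
  | zero => rfl
  | succ t ih => rw [Function.iterate_succ_apply', Function.iterate_succ_apply', ih, step_tr]

theorem init_tr (o : ℕ) (x : List (Fin n)) :
    init (k := k) x = tr o (AR (List.replicate o 0) 0 x) := by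
  unfold init tr AR
  ext1
  · funext i
    simp only [wordTape, List.reverse_replicate]
    by_cases hi : 0 ≤ i
    · rw [if_pos hi, if_pos (by omega), List.getD_append_right _ _ _ _ (by simp; omega)]
      congr 1
      simp only [List.length_replicate]
      omega
    · rw [if_neg hi]
      by_cases hi' : 0 ≤ i + (o : ℤ)
      · rw [if_pos hi', List.getD_append _ _ _ _ (by simp; omega)]
        rw [List.getD_eq_getElem?_getD, List.getElem?_replicate]
        split <;> rfl
      · rw [if_neg hi']
  · simp
  · rfl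

/-- the start of the machine -/
theorem KLoc.run_init (p d : List Bool) :
    Rn U (AR (List.replicate L.o 0) 0 (L.input p d)) (L.C ⟨Gl.A1, L.h0, p, d⟩) := by
  have hE : L.E.reverse ≠ [] := by simp [L.E_ne]
  have h1 := L.start (p.flatMap L.cr ++ (L.F Gl.A1 ++ d.flatMap L.cr))
  have h2 := L.passRs L.h0 p L.E.reverse (L.F Gl.A1 ++ d.flatMap L.cr) hE
  simpa [KLoc.C, KLoc.lw, Gl.wp, KLoc.input] using h1.trans h2

theorem yiter_succ' (N : ℕ) (c : YC) : yiter (N + 1) c = (ystep (yiter N c)).getD (yiter N c) := by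
  simp only [yiter, Function.iterate_succ_apply']

theorem KLoc.C_st (c : YC) : (L.C c).st ≠ none := by
  unfold KLoc.C
  split <;> simp [AR, AL]

theorem KLoc.run_iter (c : YC) (N : ℕ) : Rn U (L.C c) (L.C (yiter N c)) := by
  induction N with
  | zero => exact Rn.refl _
  | succ N ih =>
    rw [yiter_succ']
    cases h : ystep (yiter N c) with
    | none => exact ih
    | some c' =>
      obtain ⟨t, ht⟩ := L.run_step _ _ h
      exact ih.trans ⟨t + 1, ht⟩

/-- The machine halts if and only if the system K halts. -/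
theorem KLoc.halts_iff (p d : List Bool) :
    Halts U (L.input p d) ↔ YHalts ⟨Gl.A1, L.h0, p, d⟩ := by
  have hst : ∀ t, ((step U)^[t] (init (L.input p d))).st =
      ((step U)^[t] (AR (List.replicate L.o 0) 0 (L.input p d))).st := by
    intro t
    rw [init_tr L.o, iter_tr]
    rfl
  constructor
  · rintro ⟨t, ht⟩
    rw [hst] at ht
    by_contra hno
    have hs : ∀ N, ∃ c', ystep (yiter N ⟨Gl.A1, L.h0, p, d⟩) = some c' := by
      intro N
      rcases h : ystep (yiter N ⟨Gl.A1, L.h0, p, d⟩) with _ | c'
      · exact absurd ⟨N, h⟩ hno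
      · exact ⟨c', rfl⟩
    have hn := not_halt (U := U) (c := fun N => L.C (yiter N ⟨Gl.A1, L.h0, p, d⟩))
      (fun N => by
        obtain ⟨c', hc⟩ := hs N
        have := L.run_step _ _ hc
        simpa [yiter_succ', hc] using this)
      (fun N => L.C_st _)
    apply hn
    have h0 := Rn_halt_iff (L.run_init p d)
      ((step U)^[t] (AR (List.replicate L.o 0) 0 (L.input p d))).tape
    obtain ⟨t', h1, _⟩ := h0.mp ⟨t, ht, rfl⟩
    exact ⟨t', h1⟩
  · rintro ⟨N, hN⟩
    obtain ⟨t, h1, h2⟩ := L.halt_C _ hN
    have h3 := (L.run_init p d).trans (L.run_iter _ N)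
    obtain ⟨t', h4, _⟩ := (Rn_halt_iff h3 _).mpr ⟨t, h1, h2⟩
    refine ⟨t', ?_⟩
    rw [hst]
    exact h4

/-- The output of the machine. -/
theorem KLoc.output (p d : List Bool) (N : ℕ) (hN : ystep (yiter N ⟨Gl.A1, L.h0, p, d⟩) = none)
    (T : ℤ → Fin n) (hT : Output U (L.input p d) T) :
    T = fun i => wordTape (L.final (yiter N ⟨Gl.A1, L.h0, p, d⟩).p (yiter N ⟨Gl.A1, L.h0, p, d⟩).d)
      (i + L.o) := by
  obtain ⟨t, h1, h2⟩ := L.halt_C _ hN
  have h3 := (L.run_init p d).trans (L.run_iter _ N)
  obtain ⟨t', h4, h5⟩ := (Rn_halt_iff h3 _).mpr ⟨t, h1, h2⟩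
  have h6 : ∃ t : ℕ, ((step U)^[t] (init (L.input p d))).st = none ∧
      ((step U)^[t] (init (L.input p d))).tape =
        fun i => wordTape (L.final (yiter N ⟨Gl.A1, L.h0, p, d⟩).p (yiter N ⟨Gl.A1, L.h0, p, d⟩).d)
          (i + L.o) := by
    refine ⟨t', ?_, ?_⟩
    · rw [init_tr L.o, iter_tr]
      exact h4
    · rw [init_tr L.o, iter_tr, ← h5]
      rfl
  exact halt_unique hT h6

end

end P913
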