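import Pool.Agent.Lib.P913.URun
import Pool.Agent.Lib.P913.KRun

/-!
# General two-ring systems and the machines which execute them

A configuration: a glyph `g`, a held bit `h` and two queues `p` (program ring) and `d` (data ring).  Every glyph waits
for a bit of one of the rings.  `F g h = some (g', s, w)`: the new glyph is `g'`, the bit `w` is pushed to the data ring
(`s = true`) or to the program ring (`s = false`), and the front bit of this ring is the new held bit (complemented for
the program ring if `a = true`).  The word `gc w :: gw w` is appended to the data ring for a pushed bit `w`.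
-/

set_option autoImplicit false

namespace P913

/-- the table of a two-ring system -/
structure GTab (G : Type) where
  /-- the glyph waits for a bit of the program ring -/
  wp : G → Bool
  /-- new glyph, ring of the pushed bit (`true`: data ring), pushed bit; `none`: halt -/
  F : G → Bool → Option (G × Bool × Bool)
  /-- the first bit appended to the data ring -/
  gc : Bool → Bool
  /-- the following bits appended to the data ring -/
  gw : Bool → List Bool
  /-- the bits of the program ring are complemented at the left end -/
  a : Bool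
  hD : ∀ g h g' w, F g h = some (g', true, w) → wp g' = false
  hP : ∀ g h g' w, F g h = some (g', false, w) → wp g' = true

/-- a configuration of a two-ring system -/
@[ext] structure GC (G : Type) where
  g : G
  h : Bool
  p : List Bool
  d : List Bool

section

variable {G : Type} (S : GTab G)

/-- the word appended to the data ring -/
def GTab.grow (w : Bool) : List Bool := S.gc w :: S.gw w

/-- one step; `none`: the system halts -/
def GTab.step (c : GC G) : Option (GC G) :=
  match S.F c.g c.h with
  | none => none
  | some (g', true, w) => some ⟨g', (popq (c.d ++ S.grow w)).1, c.p, (popq (c.d ++ S.grow w)).2⟩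
  | some (g', false, w) => some ⟨g', xor S.a (popq (c.p ++ [w])).1, (popq (c.p ++ [w])).2, c.d⟩

/-- `n` steps (a halting configuration is kept) -/
def GTab.iter (n : ℕ) (c : GC G) : GC G := (fun c => (S.step c).getD c)^[n] c

/-- the system halts -/
def GTab.Halts (c : GC G) : Prop := ∃ n : ℕ, S.step (S.iter n c) = none

end

/-- A machine with local computations which execute the two-ring system. -/
structure GLoc {k n : ℕ} [NeZero k] [NeZero n] {G : Type} (T : GTab G) (U : TM k n) where
  /-- right passes carrying a bit -/
  qR : Bool → Fin k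
  /-- left passes carrying a bit -/
  qL : Bool → Fin k
  /-- bit cell, the head is on its left -/
  cr : Bool → List (Fin n)
  /-- bit cell, the head is on its right -/
  cl : Bool → List (Fin n)
  /-- left end -/
  E : List (Fin n)
  /-- the word which is read at the start and becomes the left end -/
  S : List (Fin n)
  /-- the bit carried after the start -/
  h0 : Bool
  /-- the first glyph -/
  g0 : G
  g0_wp : T.wp g0 = true
  /-- the glyphs -/
  W : G → List (Fin n)
  /-- the halting glyph and bit -/
  gH : G
  hH : Bool
  halt_only : ∀ g h, T.F g h = none → g = gH ∧ h = hH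
  /-- the glyph after the halting computation -/
  FH : List (Fin n)
  /-- the length of a cell in the l-form -/
  m : ℕ
  m_pos : 0 < m
  cl_len : ∀ b, (cl b).length = m
  /-- the final glyph begins with `s` cells, then something else follows -/
  s : ℕ
  FH_cells : ∀ i < s, ∃ b, chk 0 m FH i = cl b
  FH_stop : ∀ b, chk 0 m FH s ≠ cl b
  FH_len : m * (s + 1) ≤ FH.length
  cr_nz : ∀ b, ∃ s ∈ cr b, s ≠ 0
  E_ne : E ≠ []
  passR : ∀ (h c : Bool) (l r : List (Fin n)), l ≠ [] →
    Rn U (AR l (qR h) (cr c ++ r)) (AR ((cl c).reverse ++ l) (qR h) r)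
  passL : ∀ (h c : Bool) (l r : List (Fin n)), l ≠ [] →
    Rn U (AL ((cl c).reverse ++ l) (qL h) r) (AL l (qL c) (cr h ++ r))
  lend : ∀ (h : Bool) (r : List (Fin n)), Rn U (AL E.reverse (qL h) r) (AR E.reverse (qR (xor T.a h)) r)
  /-- the number of cells of the left end which are left of the input word -/
  o : ℕ
  ho : o ≤ E.length
  start : ∀ r : List (Fin n), Rn U (AR (List.replicate o 0) 0 (S ++ r)) (AR E.reverse (qR h0) r)
  rend : ∀ (w : Bool) (l : List (Fin n)), l ≠ [] →
    Rn U (AR l (qR w) []) (AL l (qL (T.gc w)) ((T.gw w).flatMap cr))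
  fA : ∀ (g : G) (h : Bool) (g' : G) (w : Bool), T.wp g = true → T.F g h = some (g', true, w) →
    ∀ l r : List (Fin n), l ≠ [] → Rp U (AR l (qR h) (W g ++ r)) (AR ((W g').reverse ++ l) (qR w) r)
  fB : ∀ (g : G) (h : Bool) (g' : G) (w : Bool), T.wp g = true → T.F g h = some (g', false, w) →
    ∀ l r : List (Fin n), l ≠ [] → Rp U (AR l (qR h) (W g ++ r)) (AL l (qL w) (W g' ++ r))
  fR : ∀ (g : G) (h : Bool) (g' : G) (w : Bool), T.wp g = false → T.F g h = some (g', true, w) →
    ∀ l r : List (Fin n), l ≠ [] →
      Rp U (AL ((W g).reverse ++ l) (qL h) r) (AR ((W g').reverse ++ l) (qR w) r)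
  fL : ∀ (g : G) (h : Bool) (g' : G) (w : Bool), T.wp g = false → T.F g h = some (g', false, w) →
    ∀ l r : List (Fin n), l ≠ [] →
      Rp U (AL ((W g).reverse ++ l) (qL h) r) (AL l (qL w) (W g' ++ r))
  halt : ∀ l r : List (Fin n), l ≠ [] → ∃ t : ℕ,
    ((P913.step U)^[t] (if T.wp gH then AR l (qR hH) (W gH ++ r) else AL ((W gH).reverse ++ l) (qL hH) r)).st = none ∧
    ((P913.step U)^[t] (if T.wp gH then AR l (qR hH) (W gH ++ r) else AL ((W gH).reverse ++ l) (qL hH) r)).tape =
      wordTape (l.reverse ++ (FH ++ r))

section

variable {k n : ℕ} [NeZero k] [NeZero n] {G : Type} {T : GTab G} {U : TM k n} (L : GLoc T U)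

/-- the cells left of the glyph -/
def GLoc.lw (p : List Bool) : List (Fin n) := (p.flatMap L.cl).reverse ++ L.E.reverse

/-- the configuration of the machine when the glyph receives the bit -/
def GLoc.C (c : GC G) : Cfg k n :=
  if T.wp c.g then AR (L.lw c.p) (L.qR c.h) (L.W c.g ++ c.d.flatMap L.cr)
  else AL ((L.W c.g).reverse ++ L.lw c.p) (L.qL c.h) (c.d.flatMap L.cr)

/-- the input word -/
def GLoc.input (p d : List Bool) : List (Fin n) :=
  L.S ++ (p.flatMap L.cr ++ (L.W L.g0 ++ d.flatMap L.cr))

/-- the number of program cells can be read from the final tape -/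
def GLoc.dec0 (w : List ℕ) : ℕ :=
  ((List.range w.length).map fun i =>
    decide (chk 0 L.m (w.drop (L.E.length - L.o)) i = (L.cl true).map (fun s : Fin n => (s : ℕ)) ∨
      chk 0 L.m (w.drop (L.E.length - L.o)) i = (L.cl false).map (fun s : Fin n => (s : ℕ)))).foldr
    (fun b a => if b then a + 1 else 0) 0 - L.s

/-- the cells of the final tape -/
def GLoc.final (p d : List Bool) : List (Fin n) :=
  L.E ++ (p.flatMap L.cl ++ (L.FH ++ d.flatMap L.cr))

end

end P913
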