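import Pool.Agent.Lib.P913.RawFin
import Pool.Agent.Lib.P913.DGen

/-!
# Module UniGen: a sufficient condition for universality

PROOF.  `exists_F` gives `F`; `h F` gives `enc`, `dec`, `check`; `exists_dmap` gives `d'`.
`e p = enc (Encodable.encode p)`, `d w = d' (dec w, w.2.length)` (`Computable.encode`, `Computable.comp`,
`Primrec.list_length`).  Halting: `Halts U (enc c) ↔ (F c).Dom ↔ Halts M x`.  Output: given `Output U _ T` and
`Output M x T'`, the last part of `SimF` gives `w` with `IsCode w T`, `dec w = c`, `check (c, w.2.length) = true`; so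
`d w ∈ F c` and `IsCode (d w) T'` by `exists_F`.
-/

set_option autoImplicit false

namespace P913

/-- the machine `U` computes the domain of the partial function `F`; the argument `c` and a certificate for
`(F c).Dom` can be computed from the final tape -/
def SimF {k n : ℕ} [NeZero k] [NeZero n] {β : Type} (U : TM k n) (F : ℕ →. β) : Prop :=
  ∃ (enc : ℕ → List (Fin n)) (dec : List ℕ × List ℕ → ℕ) (check : ℕ × ℕ → Bool),
    Computable enc ∧ Computable dec ∧ Computable check ∧
    (∀ c N : ℕ, check (c, N) = true → (F c).Dom) ∧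
    ∀ c : ℕ, (Halts U (enc c) ↔ (F c).Dom) ∧
      ∀ T : ℤ → Fin n, Output U (enc c) T →
        ∃ w : List ℕ × List ℕ, IsCode w T ∧ dec w = c ∧ check (c, w.2.length) = true

theorem universal_of_simF {k n : ℕ} [NeZero k] [NeZero n] (U : TM k n)
    (h : ∀ F : ℕ →. List ℕ × List ℕ, Partrec F → SimF U F) : Universal U := by
  obtain ⟨F, hF, hM⟩ := exists_F
  obtain ⟨enc, dec, check, henc, hdec, hcheck, hdom, hsim⟩ := h F hF
  obtain ⟨d', hd', hdF⟩ := exists_dmap F hF check hcheck hdom
  refine ⟨fun p => enc (Encodable.encode p), fun w => d' (dec w, w.2.length),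
    henc.comp Computable.encode,
    hd'.comp (Computable.pair hdec (Computable.list_length.comp Computable.snd)), ?_⟩
  intro k' n' _ _ M x
  obtain ⟨hD, hV⟩ := hM k' n' M x
  obtain ⟨hH, hO⟩ := hsim (Encodable.encode (mcode M, x.map fun s : Fin n' => (s : ℕ)))
  refine ⟨hH.trans hD, ?_⟩
  intro T T' hT hT'
  obtain ⟨w, hw, hdw, hcw⟩ := hO T hT
  refine ⟨w, d' (dec w, w.2.length), hw, ?_, rfl⟩
  rw [hdw]
  exact hV _ (hdF _ _ hcw) T' hT'

end P913
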