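import Pool.Agent.Lib.P913.GCheck
import Pool.Agent.Lib.P913.UniGen

/-!
# Universality of two-ring systems and of machines which execute them
-/

set_option autoImplicit false

namespace P913

/-- universality of a two-ring system: the domain of every partial recursive function `f` is described by the halting
problem of the system; the argument can be computed from the length of the program ring -/
def GTab.Univ {G : Type} (T : GTab G) (g0 : G) (h0 : Bool) : Prop :=
  ∀ f : ℕ →. ℕ, Nat.Partrec f → ∃ (p d : ℕ → List Bool) (dl : ℕ → ℕ), Computable p ∧ Computable d ∧ Computable dl ∧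
    ∀ c : ℕ, d c ≠ [] ∧ dl (p c).length = c ∧ (T.Halts ⟨g0, h0, p c, d c⟩ ↔ (f c).Dom)

section

variable {G : Type} (T : GTab G)

/-- configurations as tuples -/
def GC.tup (c : GC G) : G × Bool × List Bool × List Bool := (c.g, c.h, c.p, c.d)

/-- one step for tuples -/
def GTab.stepT (c : G × Bool × List Bool × List Bool) : Option (G × Bool × List Bool × List Bool) :=
  (T.F c.1 c.2.1).map fun x =>
    if x.2.1 then (x.1, (popq (c.2.2.2 ++ T.grow x.2.2)).1, c.2.2.1, (popq (c.2.2.2 ++ T.grow x.2.2)).2)
    else (x.1, xor T.a (popq (c.2.2.1 ++ [x.2.2])).1, (popq (c.2.2.1 ++ [x.2.2])).2, c.2.2.2)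

theorem GTab.stepT_tup (c : GC G) : T.stepT c.tup = (T.step c).map GC.tup := by
  unfold GTab.stepT GTab.step GC.tup
  rcases hF : T.F c.g c.h with _ | ⟨g', s, w⟩
  · simp
  · cases s <;> simp

/-- iterated steps for tuples -/
def GTab.iterT (n : ℕ) (c : G × Bool × List Bool × List Bool) : G × Bool × List Bool × List Bool :=
  (fun c => (T.stepT c).getD c)^[n] c

theorem GTab.iterT_tup (n : ℕ) (c : GC G) : T.iterT n c.tup = (T.iter n c).tup := by
  induction n with
  | zero => rfl
  | succ n ih =>
    rw [GTab.iter_succ']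
    unfold GTab.iterT at ih ⊢
    rw [Function.iterate_succ_apply', ih, GTab.stepT_tup]
    cases T.step (T.iter n c) <;> rfl

theorem GTab.isNone_iff (n : ℕ) (c : GC G) : (T.stepT (T.iterT n c.tup)).isNone = true ↔ T.step (T.iter n c) = none := by
  rw [GTab.iterT_tup, GTab.stepT_tup, Option.isNone_iff_eq_none, Option.map_eq_none_iff]

theorem GTab.none_mono (c : GC G) (N : ℕ) (h : T.step (T.iter N c) = none) (m : ℕ) :
    T.iter (N + m) c = T.iter N c := by
  induction m with
  | zero => rfl
  | succ m ih =>
    rw [← Nat.add_assoc, GTab.iter_succ', ih, h]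
    rfl

/-- a bound for the number of consecutive pushes to the program ring: `ν` increases at each of them -/
structure GTab.Pot (ν : G → ℕ) (m : ℕ) : Prop where
  grow : ∀ w, T.gw w ≠ []
  le : ∀ g, ν g ≤ m
  lt : ∀ g h g' w, T.F g h = some (g', false, w) → ν g < ν g'

variable {T} {ν : G → ℕ} {m : ℕ}

theorem GTab.Pot.step (P : T.Pot ν m) (c c' : GC G) (h : T.step c = some c') :
    (m + 1) * c.d.length + ν c.g + 1 ≤ (m + 1) * c'.d.length + ν c'.g := by
  unfold GTab.step at h
  rcases hF : T.F c.g c.h with _ | ⟨g', s, w⟩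
  · rw [hF] at h
    simp at h
  · rw [hF] at h
    cases s with
    | true =>
      simp only [Option.some.injEq] at h
      subst h
      have h1 : 1 ≤ (T.gw w).length := List.length_pos_iff.mpr (P.grow w)
      have h2 : (popq (c.d ++ T.grow w)).2.length + 1 = (c.d ++ T.grow w).length := by
        have : 0 < (c.d ++ T.grow w).length := by simp [GTab.grow]
        simp only [popq, List.length_tail]
        omega
      have h3 : (c.d ++ T.grow w).length = c.d.length + 1 + (T.gw w).length := by
        simp [GTab.grow]
        omega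
      have h4 := P.le c.g
      have h5 : (m + 1) * (c.d.length + 1) ≤ (m + 1) * (popq (c.d ++ T.grow w)).2.length :=
        Nat.mul_le_mul_left _ (by omega)
      have h6 : (m + 1) * (c.d.length + 1) = (m + 1) * c.d.length + (m + 1) := by ring
      simp only
      omega
    | false =>
      have h4 := P.lt _ _ _ _ hF
      simp only [Option.some.injEq] at h
      subst h
      simp only
      omega

theorem GTab.Pot.exists_small (P : T.Pot ν m) (c : GC G) (N : ℕ) :
    ∃ N' ≤ (m + 1) * (T.iter N c).d.length + ν (T.iter N c).g, T.iter N' c = T.iter N c := by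
  induction N with
  | zero => exact ⟨0, Nat.zero_le _, rfl⟩
  | succ N ih =>
    obtain ⟨N', h1, h2⟩ := ih
    rcases h : T.step (T.iter N c) with _ | c'
    · refine ⟨N', ?_, ?_⟩
      · rw [GTab.iter_succ', h]
        exact h1
      · rw [GTab.iter_succ', h]
        exact h2
    · have h3 := P.step _ _ h
      refine ⟨N' + 1, ?_, ?_⟩
      · rw [GTab.iter_succ', h]
        simp only [Option.getD_some]
        omega
      · rw [GTab.iter_succ', GTab.iter_succ', h2]

theorem GTab.Pot.none_bound (P : T.Pot ν m) (c : GC G) (N M : ℕ)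
    (hN : T.step (T.iter N c) = none) (hM : (T.iter N c).d.length ≤ M) :
    T.step (T.iter ((m + 1) * M + m) c) = none := by
  obtain ⟨N', h1, h2⟩ := P.exists_small c N
  have h3 : N' ≤ (m + 1) * M + m := by
    have h4 : (m + 1) * (T.iter N c).d.length ≤ (m + 1) * M := Nat.mul_le_mul_left _ hM
    have h5 := P.le (T.iter N c).g
    omega
  obtain ⟨k, hk⟩ := Nat.exists_eq_add_of_le h3
  rw [hk, T.none_mono c N' (by rw [h2]; exact hN), h2]
  exact hN

variable (T)
variable [Finite G] [Primcodable G]

theorem GTab.stepT_prim : Primrec T.stepT := by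
  have hpop1 : Primrec fun q : List Bool => (popq q).1 := by
    refine ((Primrec.option_getD.comp Primrec.list_head? (Primrec.const false)) :
      Primrec fun q : List Bool => q.head?.getD false).of_eq fun q => ?_
    cases q <;> rfl
  have hpop2 : Primrec fun q : List Bool => (popq q).2 := Primrec.list_tail
  have hF : Primrec fun c : G × Bool × List Bool × List Bool => T.F c.1 c.2.1 :=
    (Primrec.dom_finite fun x : G × Bool => T.F x.1 x.2).comp
      (Primrec.pair Primrec.fst (Primrec.fst.comp Primrec.snd))
  refine Primrec.option_map hF ?_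
  have hs : Primrec₂ fun (c : G × Bool × List Bool × List Bool) (x : G × Bool × Bool) => x.2.1 :=
    (Primrec.fst.comp (Primrec.snd.comp Primrec.snd)).to₂
  have hgr : Primrec₂ fun (c : G × Bool × List Bool × List Bool) (x : G × Bool × Bool) => c.2.2.2 ++ T.grow x.2.2 :=
    Primrec.list_append.comp (Primrec.snd.comp (Primrec.snd.comp (Primrec.snd.comp Primrec.fst)))
      ((Primrec.dom_finite T.grow).comp (Primrec.snd.comp (Primrec.snd.comp Primrec.snd)))
  have hpp : Primrec₂ fun (c : G × Bool × List Bool × List Bool) (x : G × Bool × Bool) => c.2.2.1 ++ [x.2.2] :=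
    Primrec.list_append.comp (Primrec.fst.comp (Primrec.snd.comp (Primrec.snd.comp Primrec.fst)))
      (Primrec.list_cons.comp (Primrec.snd.comp (Primrec.snd.comp Primrec.snd)) (Primrec.const []))
  refine Primrec.ite (Primrec.eq.comp hs (Primrec.const true)) ?_ ?_
  · exact Primrec.pair (Primrec.fst.comp Primrec.snd) (Primrec.pair (hpop1.comp hgr)
      (Primrec.pair (Primrec.fst.comp (Primrec.snd.comp (Primrec.snd.comp Primrec.fst))) (hpop2.comp hgr)))
  · exact Primrec.pair (Primrec.fst.comp Primrec.snd)
      (Primrec.pair ((Primrec.dom_finite (xor T.a)).comp (hpop1.comp hpp))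
      (Primrec.pair (hpop2.comp hpp) (Primrec.snd.comp (Primrec.snd.comp (Primrec.snd.comp Primrec.fst)))))

theorem GTab.iterT_prim : Primrec₂ T.iterT := by
  have h : Primrec₂ fun (_ : ℕ × (G × Bool × List Bool × List Bool)) (c : G × Bool × List Bool × List Bool) =>
      (T.stepT c).getD c :=
    Primrec.option_getD.comp (T.stepT_prim.comp Primrec.snd) Primrec.snd
  exact Primrec.nat_iterate Primrec.fst Primrec.snd h

variable {T}

/-- A machine which executes a universal two-ring system with a strictly growing data ring is universal. -/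
theorem universal_of_simG (P : T.Pot ν m)
    {k n : ℕ} [NeZero k] [NeZero n] {U : TM k n} {g0 : G} {h0 : Bool} (h : SimG T U g0 h0)
    (hT : T.Univ g0 h0) : Universal U := by
  refine universal_of_simF U fun F hF => ?_
  have hf : Partrec (fun c : ℕ => (F c).map fun _ => (0 : ℕ)) :=
    hF.map (Computable.const 0).to₂
  obtain ⟨p, d, dl, hp, hd, hdl, hv⟩ := hT _ (Partrec.nat_iff.mp hf)
  obtain ⟨inp, dec0, hinp, hdec0, hsim⟩ := h
  have hdom : ∀ c, T.Halts ⟨g0, h0, p c, d c⟩ ↔ (F c).Dom := fun c => (hv c).2.2
  refine ⟨fun c => inp (p c) (d c), fun w => dl (dec0 w.2),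
    fun x => (T.stepT (T.iterT ((m + 1) * x.2 + m) (GC.tup ⟨g0, h0, p x.1, d x.1⟩))).isNone, hinp.comp hp hd,
    hdl.comp (hdec0.comp Computable.snd), ?_, ?_, ?_⟩
  · have h1 : Computable fun x : ℕ × ℕ => (T.iterT ((m + 1) * x.2 + m) (GC.tup ⟨g0, h0, p x.1, d x.1⟩)) := by
      refine T.iterT_prim.to_comp.comp ?_ ?_
      · exact (Primrec.nat_add.comp (Primrec.nat_mul.comp (Primrec.const (m + 1)) Primrec.snd)
          (Primrec.const m)).to_comp
      · exact Computable.pair (Computable.const g0) (Computable.pair (Computable.const h0)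
          (Computable.pair (hp.comp Computable.fst) (hd.comp Computable.fst)))
    have h2 : Primrec fun x : Option (G × Bool × List Bool × List Bool) => x.isNone := by
      have h3 : Primrec fun x : Option (G × Bool × List Bool × List Bool) => (!x.isSome) :=
        Primrec.not.comp Primrec.option_isSome
      refine h3.of_eq fun x => ?_
      cases x <;> rfl
    exact h2.to_comp.comp (T.stepT_prim.to_comp.comp h1)
  · intro c N hc
    exact (hdom c).mp ⟨_, (T.isNone_iff _ _).mp hc⟩
  · intro c
    obtain ⟨h1, h2⟩ := hsim (p c) (d c) (hv c).1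
    refine ⟨h1.trans (hdom c), fun X hX => ?_⟩
    obtain ⟨N, w, hN, hw', hdw, hlen⟩ := h2 X hX
    refine ⟨w, hw', ?_, ?_⟩
    · show dl (dec0 w.2) = c
      rw [hdw]
      exact (hv c).2.1
    · exact (T.isNone_iff _ _).mpr (P.none_bound _ N _ hN hlen)

end

end P913
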