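import Pool.Agent.Lib.P913.KBMDef
import Pool.Agent.Lib.P913.EvDom

/-!
# Module KBM: bit machines are simulated by counter machines with three counters

Doubling and halving loops: the counters `a`, `b` contain the two halves of the tape, `c` is an auxiliary counter.
-/

set_option autoImplicit false
set_option linter.unusedSimpArgs false

namespace P913

namespace KBMAux

open StateTransition Relation

/-- the labels: `d = true` for a move to the right (push on `a`, pop from `b`) -/
inductive Lb (N : ℕ) where
  | st (q : Fin N) (s : Bool)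
  | A (d s : Bool) (q : Fin N)
  | A2 (d s : Bool) (q : Fin N)
  | A3 (d s : Bool) (q : Fin N)
  | As (d : Bool) (q : Fin N)
  | B (d : Bool) (q : Fin N)
  | B2 (d : Bool) (q : Fin N)
  | C1 (d : Bool) (q : Fin N)
  | C2 (d : Bool) (q : Fin N)
  | C3 (d : Bool) (q : Fin N)
  | E (d s : Bool) (q : Fin N)
  | E2 (d s : Bool) (q : Fin N)
  deriving DecidableEq, Fintype

/-- the counter on which the scanned bit is pushed -/
def px : Bool → Ct
  | true => .a
  | false => .b

/-- the counter from which the new scanned bit is popped -/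
def py : Bool → Ct
  | true => .b
  | false => .a

/-- the program -/
def prog {N : ℕ} (M : BM N) : Lb N → CI (Lb N)
  | .st q s => match M q s with
    | none => .halt
    | some (q', Act.wr b) => .go (.st q' b)
    | some (q', Act.mr) => .go (.A true s q')
    | some (q', Act.ml) => .go (.A false s q')
  | .A d s q => .dec (px d) (if s then .As d q else .B d q) (.A2 d s q)
  | .A2 d s q => .inc .c (.A3 d s q)
  | .A3 d s q => .inc .c (.A d s q)
  | .As d q => .inc .c (.B d q)
  | .B d q => .dec .c (.C1 d q) (.B2 d q)
  | .B2 d q => .inc (px d) (.B d q)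
  | .C1 d q => .dec (py d) (.E d false q) (.C2 d q)
  | .C2 d q => .dec (py d) (.E d true q) (.C3 d q)
  | .C3 d q => .inc .c (.C1 d q)
  | .E d s q => .dec .c (.st q s) (.E2 d s q)
  | .E2 d s q => .inc (py d) (.E d s q)

/-- the counters, `x` is the push counter and `y` the pop counter -/
def vec (d : Bool) (x y z : ℕ) : ℕ × ℕ × ℕ := if d then (x, y, z) else (y, x, z)

variable {N : ℕ} (M : BM N)

/-- reachability in the label machine -/
abbrev RR (s t : Lb N × ℕ × ℕ × ℕ) : Prop := Reaches (ctStep (prog M)) s t

theorem st1 {s t u : Lb N × ℕ × ℕ × ℕ} (h : ctStep (prog M) s = some t) (h' : RR M t u) : RR M s u :=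
  ReflTransGen.head h h'

theorem loopA (d s : Bool) (q : Fin N) (x y z : ℕ) :
    RR M (.A d s q, vec d x y z) (if s then .As d q else .B d q, vec d 0 y (z + 2 * x)) := by
  induction x generalizing z with
  | zero =>
    refine st1 M ?_ ReflTransGen.refl
    cases d <;> simp [ctStep, prog, px, vec, Ct.get]
  | succ x ih =>
    refine st1 M (t := (.A2 d s q, vec d x y z)) ?_ (st1 M (t := (.A3 d s q, vec d x y (z + 1))) ?_
      (st1 M (t := (.A d s q, vec d x y (z + 2))) ?_ ?_))
    · cases d <;> simp [ctStep, prog, px, vec, Ct.get, Ct.upd]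
    · cases d <;> simp [ctStep, prog, px, vec, Ct.get, Ct.upd]
    · cases d <;> simp [ctStep, prog, px, vec, Ct.get, Ct.upd]
    · have := ih (z + 2)
      rwa [show z + 2 + 2 * x = z + 2 * (x + 1) by ring] at this

theorem loopB (d : Bool) (q : Fin N) (x y z : ℕ) :
    RR M (.B d q, vec d x y z) (.C1 d q, vec d (x + z) y 0) := by
  induction z generalizing x with
  | zero =>
    refine st1 M ?_ ReflTransGen.refl
    cases d <;> simp [ctStep, prog, px, vec, Ct.get]
  | succ z ih =>
    refine st1 M (t := (.B2 d q, vec d x y z)) ?_ (st1 M (t := (.B d q, vec d (x + 1) y z)) ?_ ?_)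
    · cases d <;> simp [ctStep, prog, px, vec, Ct.get, Ct.upd]
    · cases d <;> simp [ctStep, prog, px, vec, Ct.get, Ct.upd]
    · have := ih (x + 1)
      rwa [show x + 1 + z = x + (z + 1) by ring] at this

theorem loopC (d : Bool) (q : Fin N) (x y z : ℕ) :
    RR M (.C1 d q, vec d x y z) (.E d y.bodd q, vec d x 0 (z + y.div2)) := by
  induction y using Nat.strong_induction_on generalizing z with
  | _ y ih =>
    rcases y with _ | _ | y
    · refine st1 M ?_ ReflTransGen.refl
      cases d <;> simp [ctStep, prog, py, vec, Ct.get]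
    · refine st1 M (t := (.C2 d q, vec d x 0 z)) ?_ (st1 M ?_ ReflTransGen.refl)
      · cases d <;> simp [ctStep, prog, py, vec, Ct.get, Ct.upd]
      · cases d <;> simp [ctStep, prog, py, vec, Ct.get, Ct.upd]
    · refine st1 M (t := (.C2 d q, vec d x (y + 1) z)) ?_ (st1 M (t := (.C3 d q, vec d x y z)) ?_
        (st1 M (t := (.C1 d q, vec d x y (z + 1))) ?_ ?_))
      · cases d <;> simp [ctStep, prog, py, vec, Ct.get, Ct.upd]
      · cases d <;> simp [ctStep, prog, py, vec, Ct.get, Ct.upd]
      · cases d <;> simp [ctStep, prog, py, vec, Ct.get, Ct.upd]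
      · have := ih y (by omega) (z + 1)
        have h1 : (y + 1 + 1).bodd = y.bodd := by simp [Nat.bodd_succ]
        have h2 : z + (y + 1 + 1).div2 = z + 1 + y.div2 := by
          have e1 := Nat.div2_val (y + 1 + 1)
          have e2 := Nat.div2_val y
          omega
        rw [h1, h2]
        exact this

theorem loopE (d s : Bool) (q : Fin N) (x y z : ℕ) :
    RR M (.E d s q, vec d x y z) (.st q s, vec d x (y + z) 0) := by
  induction z generalizing y with
  | zero =>
    refine st1 M ?_ ReflTransGen.refl
    cases d <;> simp [ctStep, prog, py, vec, Ct.get]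
  | succ z ih =>
    refine st1 M (t := (.E2 d s q, vec d x y z)) ?_ (st1 M (t := (.E d s q, vec d x (y + 1) z)) ?_ ?_)
    · cases d <;> simp [ctStep, prog, py, vec, Ct.get, Ct.upd]
    · cases d <;> simp [ctStep, prog, py, vec, Ct.get, Ct.upd]
    · have := ih (y + 1)
      rwa [show y + 1 + z = y + (z + 1) by ring] at this

theorem move (d s : Bool) (q : Fin N) (x y : ℕ) :
    RR M (.A d s q, vec d x y 0) (.st q y.bodd, vec d (2 * x + s.toNat) y.div2 0) := by
  have h1 := loopA M d s q x y 0
  have h2 : RR M (if s then .As d q else .B d q, vec d 0 y (0 + 2 * x)) (.B d q, vec d 0 y (2 * x + s.toNat)) := by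
    cases s
    · simp only [Bool.false_eq_true, if_false, Bool.toNat_false, Nat.zero_add, Nat.add_zero]
      exact ReflTransGen.refl
    · refine st1 M ?_ ReflTransGen.refl
      cases d <;> simp [ctStep, prog, vec, Ct.upd]
  have h3 := loopB M d q 0 y (2 * x + s.toNat)
  have h4 := loopC M d q (0 + (2 * x + s.toNat)) y 0
  have h5 := loopE M d y.bodd q (0 + (2 * x + s.toNat)) 0 (0 + y.div2)
  have h := h1.trans (h2.trans (h3.trans (h4.trans h5)))
  simp only [Nat.zero_add] at h
  exact h

/-- the code of a configuration -/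
def tr (c : BC N) : Lb N × ℕ × ℕ × ℕ := (.st c.1 c.2.2.1, c.2.1, c.2.2.2, 0)

theorem resp1 (c : BC N) (c' : BC N) (h : bstep M c = some c') : Reaches₁ (ctStep (prog M)) (tr c) (tr c') := by
  obtain ⟨q, l, s, r⟩ := c
  unfold bstep at h
  rcases hM : M q s with _ | ⟨q', act⟩
  · simp [hM] at h
  · rcases act with b | _ | _
    · simp only [hM, Option.some.injEq] at h
      subst h
      refine TransGen.single ?_
      simp [ctStep, prog, tr, hM]
    · simp only [hM, Option.some.injEq] at h
      subst h
      refine TransGen.head' (b := (.A true s q', vec true l r 0)) ?_ ?_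
      · simp [ctStep, prog, tr, hM, vec]
      · exact move M true s q' l r
    · simp only [hM, Option.some.injEq] at h
      subst h
      refine TransGen.head' (b := (.A false s q', vec false r l 0)) ?_ ?_
      · simp [ctStep, prog, tr, hM, vec]
      · exact move M false s q' r l

theorem resp0 (c : BC N) (h : bstep M c = none) : ctStep (prog M) (tr c) = none := by
  obtain ⟨q, l, s, r⟩ := c
  unfold bstep at h
  rcases hM : M q s with _ | ⟨q', act⟩
  · simp [ctStep, prog, tr, hM]
  · rcases act with b | _ | _ <;> simp [hM] at h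

/-- transport of instructions -/
def mapCI {Q Q' : Type} (f : Q → Q') : CI Q → CI Q'
  | .go q => .go (f q)
  | .inc x q => .inc x (f q)
  | .dec x q0 q1 => .dec x (f q0) (f q1)
  | .halt => .halt

theorem map_step {Q Q' : Type} (f : Q → Q') (P : Q → CI Q) (P' : Q' → CI Q') (h : ∀ q, P' (f q) = mapCI f (P q))
    (s : Q × ℕ × ℕ × ℕ) : ctStep P' (f s.1, s.2) = (ctStep P s).map fun t => (f t.1, t.2) := by
  unfold ctStep
  simp only [h]
  rcases P s.1 with q | ⟨x, q⟩ | ⟨x, q0, q1⟩ | _
  · simp [mapCI]
  · simp [mapCI]
  · simp only [mapCI]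
    split_ifs <;> simp
  · simp [mapCI]

end KBMAux

open KBMAux StateTransition in
theorem bm_to_ct {N : ℕ} (M : BM N) : ∃ (m : ℕ) (P : Fin (m + 1) → CI (Fin (m + 1)))
    (ini : Fin N → Bool → Fin (m + 1)), ∀ (q : Fin N) (l : ℕ) (s : Bool) (r : ℕ),
      CtHalts P (ini q s, l, r, 0) ↔ BMHalts M (q, l, s, r) := by
  classical
  have hc : Fintype.card (Option (Lb N)) = Fintype.card (Lb N) + 1 := Fintype.card_option
  let e : Option (Lb N) ≃ Fin (Fintype.card (Lb N) + 1) := Fintype.equivFinOfCardEq hc
  let f : Lb N → Fin (Fintype.card (Lb N) + 1) := fun l => e (some l)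
  let P : Fin (Fintype.card (Lb N) + 1) → CI (Fin (Fintype.card (Lb N) + 1)) := fun i =>
    match e.symm i with
    | none => .halt
    | some l => mapCI f (prog M l)
  have hP : ∀ q, P (f q) = mapCI f (prog M q) := by
    intro q
    simp [P, f]
  refine ⟨Fintype.card (Lb N), P, fun q s => f (.st q s), fun q l s r => ?_⟩
  have key := map_step f (prog M) P hP
  have hR : Respects (bstep M) (ctStep P) (fun c t => t = (f (tr c).1, (tr c).2)) := by
    rw [Respects]
    rintro c t rfl
    rcases hb : bstep M c with _ | c'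
    · simp only
      rw [key, resp0 M c hb]
      rfl
    · simp only
      refine ⟨_, rfl, ?_⟩
      have h1 := resp1 M c c' hb
      refine Relation.TransGen.lift (fun t : Lb N × ℕ × ℕ × ℕ => (f t.1, t.2)) ?_ _ _ h1
      intro a b hab
      have hab' : ctStep (prog M) a = some b := hab
      show ctStep P (f a.1, a.2) = some (f b.1, b.2)
      rw [key, hab']
      rfl
  have h2 := tr_eval_dom hR (a₁ := ((q, l, s, r) : BC N)) rfl
  rw [BMHalts_iff, ← h2, eval_dom_iff]
  rfl

end P913
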