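import Mathlib

/-!
# Counter machines with three counters (for the system K of MP_913c58_lc)
-/

set_option autoImplicit false

namespace P913

/-- the names of the three counters -/
inductive Ct | a | b | c
  deriving DecidableEq

/-- instructions of a counter machine with labels `Q`; `dec x q0 q1`: if `x = 0` go to `q0`, otherwise subtract `1`
and go to `q1` -/
inductive CI (Q : Type) where
  | go (q : Q)
  | inc (x : Ct) (q : Q)
  | dec (x : Ct) (q0 q1 : Q)
  | halt

/-- the value of a counter -/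
def Ct.get (v : ℕ × ℕ × ℕ) : Ct → ℕ
  | .a => v.1
  | .b => v.2.1
  | .c => v.2.2

/-- apply `f` to one counter -/
def Ct.upd (f : ℕ → ℕ) (v : ℕ × ℕ × ℕ) : Ct → ℕ × ℕ × ℕ
  | .a => (f v.1, v.2.1, v.2.2)
  | .b => (v.1, f v.2.1, v.2.2)
  | .c => (v.1, v.2.1, f v.2.2)

/-- one step (`none` = the machine halts) -/
def ctStep {Q : Type} (P : Q → CI Q) (s : Q × ℕ × ℕ × ℕ) : Option (Q × ℕ × ℕ × ℕ) :=
  match P s.1 with
  | .halt => none
  | .go q => some (q, s.2)
  | .inc x q => some (q, x.upd (· + 1) s.2)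
  | .dec x q0 q1 => if x.get s.2 = 0 then some (q0, s.2) else some (q1, x.upd (· - 1) s.2)

/-- the counter machine halts -/
def CtHalts {Q : Type} (P : Q → CI Q) (s : Q × ℕ × ℕ × ℕ) : Prop :=
  ∃ n : ℕ, ctStep P ((fun s => (ctStep P s).getD s)^[n] s) = none

end P913
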