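import Pool.Agent.Lib.P913.KSim
import Pool.Agent.Lib.P913.KZip

/-!
# A checker for machines which execute the system K

All conditions of `KLoc` follow from finitely many evaluations of local computations; every field of `KOk` can be
proved by `decide`.
-/

set_option autoImplicit false

namespace P913

/-- the words and states of a machine which executes the system K -/
structure KData (k n : ℕ) where
  qR : Bool → Fin k
  qL : Bool → Fin k
  cr : Bool → List (Fin n)
  cl : Bool → List (Fin n)
  E : List (Fin n)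
  S : List (Fin n)
  h0 : Bool
  o : ℕ
  F : Gl → List (Fin n)
  FH : List (Fin n)
  /-- length of the cells -/
  m : ℕ
  /-- number of cells at the beginning of the final glyph -/
  s : ℕ
  /-- bound for the number of steps of the local computations -/
  T : ℕ
  /-- number of blanks read at the right end -/
  z : ℕ

/-- the local computations are correct -/
structure KOk {k n : ℕ} [NeZero k] [NeZero n] (U : TM k n) (D : KData k n) : Prop where
  m_pos : 0 < D.m
  cl_len : ∀ b, (D.cl b).length = D.m
  FH_cells : ∀ i < D.s, ∃ b, chk 0 D.m D.FH i = D.cl b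
  FH_stop : ∀ b, chk 0 D.m D.FH D.s ≠ D.cl b
  FH_len : D.m * (D.s + 1) ≤ D.FH.length
  cr_last : ∀ b, (D.cr b).getLastD 0 ≠ 0
  E_ne : D.E ≠ []
  ho : D.o ≤ D.E.length
  passR : ∀ h c, zrun U D.T [] (D.qR h) (D.cr c) = .R (D.qR h) (D.cl c).reverse
  passL : ∀ h c, zrunL U D.T (D.cl c).reverse (D.qL h) = .L (D.qL c) (D.cr h)
  lend : ∀ h, zrunL U D.T D.E.reverse (D.qL h) = .R (D.qR h) D.E.reverse
  start : zrun U D.T (List.replicate D.o 0) 0 D.S = .R (D.qR D.h0) D.E.reverse
  rend0 : zrun U D.T [] (D.qR false) (List.replicate D.z 0) = .L (D.qL false) (List.replicate D.z 0)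
  rend1 : zrun U D.T [] (D.qR true) (List.replicate D.z 0) =
    .L (D.qL true) (D.cr true ++ List.replicate (D.z - (D.cr true).length) 0)
  a10 : zrun U D.T [] (D.qR false) (D.F .A1) = .R (D.qR true) (D.F .P0).reverse
  a11 : zrun U D.T [] (D.qR true) (D.F .A1) = .R (D.qR false) (D.F .P1).reverse
  a01 : zrun U D.T [] (D.qR true) (D.F .A0) = .R (D.qR false) (D.F .P1).reverse
  halt : zrun U D.T [] (D.qR false) (D.F .A0) = .H D.FH
  p00 : zrunL U D.T (D.F .P0).reverse (D.qL false) = .R (D.qR false) (D.F .P0).reverse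
  p01 : zrunL U D.T (D.F .P0).reverse (D.qL true) = .L (D.qL false) (D.F .A1)
  p10 : zrunL U D.T (D.F .P1).reverse (D.qL false) = .L (D.qL true) (D.F .A1)
  p11 : zrunL U D.T (D.F .P1).reverse (D.qL true) = .L (D.qL true) (D.F .A0)
  F_ne : D.F .A1 ≠ [] ∧ D.F .A0 ≠ []

section

variable {k n : ℕ} [NeZero k] [NeZero n] {U : TM k n}

private theorem last_of (l : List (Fin n)) (h : l.getLastD 0 ≠ 0) : ∃ s, l.getLast? = some s ∧ s ≠ 0 := by
  cases hl : l.getLast? with
  | none =>
    rw [List.getLast?_eq_none_iff] at hl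
    subst hl
    exact absurd rfl h
  | some s =>
    refine ⟨s, rfl, ?_⟩
    rw [List.getLastD_eq_getLast?, hl] at h
    exact h

/-- a machine with correct local computations executes the system K -/
def KOk.loc {D : KData k n} (h : KOk U D) : KLoc U where
  qR := D.qR
  qL := D.qL
  cr := D.cr
  cl := D.cl
  E := D.E
  S := D.S
  h0 := D.h0
  F := D.F
  FH := D.FH
  m := D.m
  m_pos := h.m_pos
  cl_len := h.cl_len
  s := D.s
  FH_cells := h.FH_cells
  FH_stop := h.FH_stop
  FH_len := h.FH_len
  cr_last := fun b => last_of _ (h.cr_last b)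
  E_ne := h.E_ne
  o := D.o
  ho := h.ho
  passR := fun b c l r _ => by
    simpa using zrun_R _ _ _ _ _ _ (h.passR b c) l r
  passL := fun b c l r hl => (zrunL_Lp (h.passL b c) l r hl).to_rn
  lend := fun b r => by
    have := (zrunL_Rp (h.lend b) [] r).to_rn
    simpa using this
  start := fun r => by
    have := zrun_R _ _ _ _ _ _ h.start [] r
    simpa using this
  rend0 := fun l hl => by
    have := zrun_L _ _ _ _ _ _ h.rend0 l [] hl
    rw [List.append_nil, List.nil_append] at this
    rw [← AR_zeros l (D.qR false) [] D.z, ← AL_zeros l (D.qL false) [] D.z]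
    exact this
  rend1 := fun l hl => by
    have := zrun_L _ _ _ _ _ _ h.rend1 l [] hl
    rw [List.append_nil, List.nil_append, List.append_nil, AL_zeros] at this
    rw [← AR_zeros l (D.qR true) [] D.z]
    exact this
  fA := fun g b g' w hg hF l r _ => by
    have key : ∀ (x : List (Fin n)) (q q' : Fin k) (y : List (Fin n)), x ≠ [] → zrun U D.T [] q x = .R q' y →
        Rp U (AR l q (x ++ r)) (AR (y ++ l) q' r) := fun x q q' y hx hz => by
      simpa using zrun_Rp hx hz l r
    cases g <;> cases b <;> simp [yF, Gl.wp] at hF hg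
    · obtain ⟨rfl, rfl⟩ := hF; exact key _ _ _ _ h.F_ne.1 h.a10
    · obtain ⟨rfl, rfl⟩ := hF; exact key _ _ _ _ h.F_ne.1 h.a11
    · obtain ⟨rfl, rfl⟩ := hF; exact key _ _ _ _ h.F_ne.2 h.a01
  fR := fun g b g' w hg hF l r _ => by
    cases g <;> cases b <;> simp [yF, Gl.wp] at hF hg
    obtain ⟨rfl, rfl⟩ := hF
    exact zrunL_Rp h.p00 l r
  fL := fun g b g' w hg hF l r hl => by
    cases g <;> cases b <;> simp [yF, Gl.wp] at hF hg
    · obtain ⟨rfl, rfl⟩ := hF; exact zrunL_Lp h.p01 l r hl
    · obtain ⟨rfl, rfl⟩ := hF; exact zrunL_Lp h.p10 l r hl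
    · obtain ⟨rfl, rfl⟩ := hF; exact zrunL_Lp h.p11 l r hl
  halt := fun l r _ => by
    obtain ⟨t, h1, h2⟩ := zrun_H _ _ _ _ _ h.halt l r
    exact ⟨t, by simpa using h1, by simpa using h2⟩

end

end P913
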