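import Pool.Agent.Lib.P913.KSys

/-!
# Module KPrim: rounds of the system K are computable

PROOF.  `rotf 0 q` is `(q.drop (i + 1)) ++ List.replicate i false` with `i = q.idxOf true` if `i < q.length`, and `[]`
otherwise (induction on `q` for `rotf s`), `Primrec.list_idxOf`; `fun (k, l) => l.drop k` is primitive recursive:
`l.drop k = List.tail^[k] l` (`Primrec.nat_iterate`, `Primrec.list_tail`); `List.replicate k b =
(List.range k).map fun _ => b`; `Primrec.list_append`, `Primrec.list_getD`.
`brun ks q = ks.foldl (fun o k => o.bind fun q => if khalt k q then none else some (kstep k q)) (some q)` (induction on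
`ks`; `foldl` from `none` is `none`), `Primrec.list_foldl`, `Primrec.option_bind`, `Primrec.ite` or `Primrec.cond`.
`kround`: `Primrec.option_bind`.  Iterates: `Primrec.nat_iterate`.
-/

set_option autoImplicit false

namespace P913

private theorem repl_prim (b : Bool) : Primrec fun k : ℕ => List.replicate k b :=
  (Primrec.list_map Primrec.list_range (Primrec.const b).to₂).of_eq fun k => by
    rw [List.map_const', List.length_range]

private theorem rotf_eq (q : List Bool) : ∀ s : ℕ, rotf s q =
    if q.idxOf true < q.length then
      q.drop (q.idxOf true + 1) ++ List.replicate (s + q.idxOf true) false else [] := by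
  induction q with
  | nil => intro s; simp [rotf]
  | cons b q ih =>
    intro s
    cases b with
    | true => simp [rotf]
    | false =>
      rw [rotf, ih]
      have h1 : (false :: q).idxOf true = q.idxOf true + 1 := by
        rw [List.idxOf_cons_ne]
        decide
      rw [h1, List.length_cons, List.drop_succ_cons]
      by_cases h : q.idxOf true < q.length
      · rw [if_pos h, if_pos (by omega)]
        congr 2
        omega
      · rw [if_neg h, if_neg (by omega)]

private theorem rotf_prim : Primrec fun q : List Bool => rotf 0 q := by
  have hidx : Primrec fun q : List Bool => q.idxOf true :=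
    Primrec.list_idxOf.comp (Primrec.const true) Primrec.id
  refine (Primrec.ite (Primrec.nat_lt.comp hidx Primrec.list_length)
    (Primrec.list_append.comp (Primrec.list_drop.comp (Primrec.succ.comp hidx) Primrec.id)
      ((repl_prim false).comp hidx)) (Primrec.const [])).of_eq fun q => ?_
  rw [rotf_eq q 0, Nat.zero_add]
  rfl

theorem kstep_prim : Primrec₂ kstep := by
  have h : Primrec fun p : ℕ × List Bool =>
      (rotf 0 p.2 ++ List.replicate p.1 false).drop p.1 ++ [true, true] :=
    Primrec.list_append.comp
      (Primrec.list_drop.comp Primrec.fst
        (Primrec.list_append.comp (rotf_prim.comp Primrec.snd)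
          ((repl_prim false).comp Primrec.fst))) (Primrec.const [true, true])
  exact h

theorem khalt_prim : Primrec₂ khalt := by
  have h : Primrec fun p : ℕ × List Bool =>
      (!(p.1 == 0)) && (rotf 0 p.2).getD (p.1 - 1) false :=
    Primrec.and.comp (Primrec.not.comp (Primrec.beq.comp Primrec.fst (Primrec.const 0)))
      ((Primrec.list_getD false).comp (rotf_prim.comp Primrec.snd)
        (Primrec.nat_sub.comp Primrec.fst (Primrec.const 1)))
  refine Primrec.of_eq h fun p => ?_
  rcases p with ⟨_ | k, q⟩
  · simp [khalt]
  · simp [khalt]

/-- one step of the fold -/
private def kfold (o : Option (List Bool)) (k : ℕ) : Option (List Bool) :=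
  o.bind fun q => if khalt k q = true then none else some (kstep k q)

private theorem foldl_none (ks : List ℕ) : ks.foldl kfold none = none := by
  induction ks with
  | nil => rfl
  | cons k ks ih => exact ih

private theorem brun_eq (ks : List ℕ) : ∀ q, brun ks q = ks.foldl kfold (some q) := by
  induction ks with
  | nil => intro q; rfl
  | cons k ks ih =>
    intro q
    rw [brun, List.foldl_cons]
    by_cases h : khalt k q = true
    · have h1 : kfold (some q) k = none := by
        change (if khalt k q = true then none else some (kstep k q)) = none
        rw [if_pos h]
      rw [if_pos h, h1, foldl_none]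
    · have h1 : kfold (some q) k = some (kstep k q) := by
        change (if khalt k q = true then none else some (kstep k q)) = _
        rw [if_neg h]
      rw [if_neg h, h1, ih]

private theorem kfold_prim : Primrec fun s : Option (List Bool) × ℕ => kfold s.1 s.2 := by
  refine Primrec.option_bind Primrec.fst ?_
  refine Primrec.ite (Primrec.eq.comp (khalt_prim.comp (Primrec.snd.comp Primrec.fst)
    Primrec.snd) (Primrec.const true)) (Primrec.const none)
    (Primrec.option_some.comp (kstep_prim.comp (Primrec.snd.comp Primrec.fst) Primrec.snd))

theorem brun_prim : Primrec₂ brun := by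
  have h : Primrec fun p : List ℕ × List Bool =>
      p.1.foldl (fun s b => kfold s b) (some p.2) :=
    Primrec.list_foldl (h := fun (_ : List ℕ × List Bool) s => kfold s.1 s.2) Primrec.fst
      (Primrec.option_some.comp Primrec.snd) (kfold_prim.comp Primrec.snd).to₂
  exact Primrec.of_eq h fun p => (brun_eq p.1 p.2).symm

/-- the system halts after at most `p.2.1` rounds -/
theorem rounds_prim : Primrec fun p : List ℕ × ℕ × List Bool =>
    ((kround p.1)^[p.2.1] (some p.2.2)).isNone := by
  have h1 : Primrec fun x : (List ℕ × ℕ × List Bool) × Option (List Bool) =>
      kround x.1.1 x.2 :=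
    Primrec.option_bind Primrec.snd
      (brun_prim.comp (Primrec.fst.comp (Primrec.fst.comp Primrec.fst)) Primrec.snd).to₂
  have h2 : Primrec fun p : List ℕ × ℕ × List Bool =>
      (kround p.1)^[p.2.1] (some p.2.2) :=
    Primrec.nat_iterate (h := fun (p : List ℕ × ℕ × List Bool) o => kround p.1 o)
      (Primrec.fst.comp Primrec.snd)
      (Primrec.option_some.comp (Primrec.snd.comp Primrec.snd)) h1.to₂
  exact (Primrec.not.comp (Primrec.option_isSome.comp h2)).of_eq fun p => Option.not_isSome _

/-- the word of a program: the number `k` is the word `1^k 0` -/
def kflat (ks : List ℕ) : List Bool := ks.flatMap fun k => List.replicate k true ++ [false]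

theorem kflat_prim : Primrec kflat := by
  have h : Primrec fun ks : List ℕ => ks.flatMap fun k => List.replicate k true ++ [false] :=
    Primrec.list_flatMap Primrec.id
      (Primrec.list_append.comp ((repl_prim true).comp Primrec.snd) (Primrec.const [false])).to₂
  exact h

theorem nops_prim : Primrec fun c : ℕ => (List.replicate c nop).flatten := by
  have h : Primrec fun c : ℕ => (List.range c).flatMap fun _ => nop :=
    Primrec.list_flatMap Primrec.list_range (Primrec.const nop).to₂
  refine h.of_eq fun c => ?_
  rw [List.flatMap_def, List.map_const', List.length_range]

theorem kflat_nops (ks : List ℕ) (c : ℕ) :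
    (kflat (ks ++ (List.replicate c nop).flatten)).length = (kflat ks).length + 33 * c := by
  have h : ∀ c : ℕ, (kflat (List.replicate c nop).flatten).length = 33 * c := by
    intro c
    induction c with
    | zero => rfl
    | succ c ih =>
      rw [List.replicate_succ, List.flatten_cons, kflat, List.flatMap_append, List.length_append]
      change (kflat nop).length + (kflat (List.replicate c nop).flatten).length = _
      rw [ih]
      have h33 : (kflat nop).length = 33 := by decide
      rw [h33]
      ring
  rw [kflat, List.flatMap_append, List.length_append]
  change (kflat ks).length + (kflat (List.replicate c nop).flatten).length = _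
  rw [h]

end P913
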