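import Pool.Agent.Lib.P913.NumTape
import Pool.Agent.Lib.P913.Chain1

/-!
# Module MFin: partial recursive functions are computed by bit machines

PROOF.  `exists_TM0`, `tm0_to_bm` with `l = e0 ++ (List.replicate v e1).flatten`.
`num (l ++ l') = num l + 2 ^ l.length * num l'` (induction on `l`), so `num l = A + C * x v` where
`x v = num (List.replicate v e1).flatten`, `x 0 = 0`, `x (v + 1) = A' + C' * x v` (constants `A, C, A', C'`):
primitive recursive in `v` (`Primrec.nat_rec'` or `Computable.nat_rec`, `Primrec.nat_add`, `Primrec.nat_mul`).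
`inp v = (0, (num l).bodd, (num l).div2)`: `Primrec.nat_bodd`, `Primrec.nat_div2`, `Computable.pair`.
-/

set_option autoImplicit false

namespace P913

namespace MFinAux

theorem num_append (l l' : List Bool) : num (l ++ l') = num l + 2 ^ l.length * num l' := by
  induction l with
  | nil => simp [num]
  | cons b l ih =>
    have h1 : num (b :: l ++ l') = 2 * num (l ++ l') + b.toNat := rfl
    have h2 : num (b :: l) = 2 * num l + b.toNat := rfl
    rw [h1, h2, ih, List.length_cons, pow_succ]
    ring

theorem primrec_rep (e1 : List Bool) :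
    Primrec (fun v : ℕ => num (List.replicate v e1).flatten) := by
  have h : Primrec (fun v : ℕ => Nat.rec (motive := fun _ => ℕ) 0
      (fun _ x => num e1 + 2 ^ e1.length * x) v) := by
    refine Primrec.nat_rec₁ 0 ?_
    exact Primrec.nat_add.comp (Primrec.const _)
      (Primrec.nat_mul.comp (Primrec.const _) Primrec.snd)
  refine h.of_eq fun v => ?_
  induction v with
  | zero => rfl
  | succ v ih =>
    change num e1 + 2 ^ e1.length * _ = _
    rw [List.replicate_succ, List.flatten_cons, num_append, ih]

end MFinAux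

theorem exists_bm (f : ℕ →. ℕ) (hf : Nat.Partrec f) :
    ∃ (N : ℕ) (B : BM N) (q0 : Fin N) (inp : ℕ → ℕ × Bool × ℕ), Computable inp ∧
      ∀ v : ℕ, BMHalts B (q0, inp v) ↔ (f v).Dom := by
  obtain ⟨Λ, iΛ, M, S, e0, e1, hS, hM⟩ := exists_TM0 f hf
  obtain ⟨N, B, q0, hB⟩ := tm0_to_bm M S hS
  set x : ℕ → ℕ := fun v => num (e0 ++ (List.replicate v e1).flatten) with hx
  have hxp : Primrec x := by
    have h1 : Primrec (fun v : ℕ => num e0 + 2 ^ e0.length * num (List.replicate v e1).flatten) :=
      Primrec.nat_add.comp (Primrec.const _)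
        (Primrec.nat_mul.comp (Primrec.const _) (MFinAux.primrec_rep e1))
    refine h1.of_eq fun v => ?_
    rw [hx]
    exact (MFinAux.num_append _ _).symm
  refine ⟨N, B, q0, fun v => (0, (x v).bodd, (x v).div2), ?_, fun v => ?_⟩
  · exact ((Primrec.const 0).pair ((Primrec.nat_bodd.comp hxp).pair
      (Primrec.nat_div2.comp hxp))).to_comp
  · rw [← hM v]
    exact hB _

end P913
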