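import Pool.Agent.Lib.P913.KIff
import Pool.Agent.Lib.P913.KBM
import Pool.Agent.Lib.P913.KPrim
import Pool.Agent.Lib.P913.MFin

/-!
# Module KExi: partial recursive functions are simulated by the system K

PROOF.  `exists_bm f hf` gives `B, q0, inp`; `bm_to_ct B` gives `m, P, ini`; `N = m + 1`.  With
`inp v = (l, s, r)`: `(f v).Dom ↔ BMHalts B (q0, l, s, r) ↔ CtHalts P (ini q0 s, l, r, 0) ↔ KHalts (kprog P c) (rp N Y
(ini q0 s) (l, r, 0))` (`kprog_halts`) with the constant `Y = 2 * gg N + 3 * N + 3`.
`rp .. = D v ++ [true, true]` with `D v` = `qu` of the first five gaps and `List.replicate (gg N + 100) false`.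
`ks = (List.finRange N).flatMap (slot P)`; `N ≥ 1` and every slot has at least 25 entries, so `kflat ks` has
at least 2 bits; `D v` has at least 2 bits (the first `1 1`).
`D` is computable: it is a fixed finite concatenation of constants and of words `List.replicate (A + 3 * g v) false` with
computable `g` (`(ini q0 (inp v).2.1 : ℕ)` is a computable function of a Boolean: `Computable.cond` or
`Primrec.dom_finite`); `Primrec` of `fun x => List.replicate x false`:
`(List.range x).map fun _ => false` (`Primrec.list_map`, `Primrec.list_range`); `Computable.list_append` or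
`Primrec.list_append.to_comp`.
-/

set_option autoImplicit false

namespace P913

namespace KExiAux

theorem repl_prim : Primrec fun x : ℕ => List.replicate x false := by
  have h : Primrec fun x : ℕ => (List.range x).map fun _ => false :=
    Primrec.list_map Primrec.list_range ((Primrec.const false).to₂)
  refine h.of_eq fun x => ?_
  simp

/-- the queue without the last two bits -/
def DD (N Y : ℕ) (x : ℕ × ℕ × ℕ) : List Bool :=
  (List.replicate Y false ++ [true, true]) ++ ((List.replicate (gg N + 3 * x.1) false ++ [true, true]) ++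
    ((List.replicate (gg N + 3 * x.2.1) false ++ [true, true]) ++
      ((List.replicate (gg N + 3 * x.2.2) false ++ [true, true]) ++
        ((List.replicate (gg N) false ++ [true, true]) ++ List.replicate (gg N + 100) false))))

theorem DD_eq (N Y J l r : ℕ) : DD N Y (J, l, r) ++ [true, true] = rp N Y J (l, r, 0) := by
  simp [DD, rp, qu]

theorem DD_prim (N Y : ℕ) : Primrec (DD N Y) := by
  have h3 : Primrec fun k : ℕ => gg N + 3 * k :=
    Primrec.nat_add.comp (Primrec.const _) (Primrec.nat_mul.comp (Primrec.const _) Primrec.id)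
  have hb : ∀ g : ℕ × ℕ × ℕ → ℕ, Primrec g → Primrec fun x : ℕ × ℕ × ℕ =>
      List.replicate (gg N + 3 * g x) false ++ [true, true] := by
    intro g hg
    exact Primrec.list_append.comp (repl_prim.comp (h3.comp hg)) (Primrec.const _)
  unfold DD
  refine Primrec.list_append.comp (Primrec.const _) ?_
  refine Primrec.list_append.comp (hb _ Primrec.fst) ?_
  refine Primrec.list_append.comp (hb _ (Primrec.fst.comp Primrec.snd)) ?_
  refine Primrec.list_append.comp (hb _ (Primrec.snd.comp Primrec.snd)) ?_
  exact Primrec.const _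

theorem DD_len (N Y : ℕ) (x : ℕ × ℕ × ℕ) : 2 ≤ (DD N Y x).length := by
  unfold DD
  simp only [List.length_append, List.length_cons, List.length_nil]
  omega

theorem kflat_len (ks : List ℕ) : ks.length ≤ (kflat ks).length := by
  induction ks with
  | nil => simp
  | cons k ks ih =>
    unfold kflat at ih ⊢
    rw [List.flatMap_cons, List.length_append, List.length_append, List.length_cons]
    simp only [List.length_cons, List.length_nil]
    omega

theorem slot_len {N : ℕ} (P : Fin N → CI (Fin N)) (t : Fin N) : 2 ≤ (slot P t).length := by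
  unfold slot
  rcases P t with q | ⟨x, q⟩ | ⟨x, q0, q1⟩ | _
  · simp [seg1]
  · cases x <;> simp [seg1]
  · cases x <;> simp [seg1]
  · simp [seg1]

end KExiAux

open KExiAux

theorem exists_kk (f : ℕ →. ℕ) (hf : Nat.Partrec f) :
    ∃ (ks : List ℕ) (D : ℕ → List Bool), 2 ≤ (kflat ks).length ∧ Computable D ∧ ∀ v c : ℕ,
      2 ≤ (D v).length ∧
        (KHalts (ks ++ (List.replicate c nop).flatten) (D v ++ [true, true]) ↔ (f v).Dom) := by
  obtain ⟨Nb, B, q0, inp, hinp, hB⟩ := exists_bm f hf
  obtain ⟨m, P, ini, hP⟩ := bm_to_ct B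
  refine ⟨(List.finRange (m + 1)).flatMap (slot P),
    fun v => DD (m + 1) (2 * gg (m + 1) + 3 * (m + 1) + 3)
      ((ini q0 (inp v).2.1 : ℕ), (inp v).1, (inp v).2.2), ?_, ?_, fun v c => ⟨DD_len _ _ _, ?_⟩⟩
  · refine le_trans ?_ (kflat_len _)
    rw [List.finRange_succ, List.flatMap_cons, List.length_append]
    have := slot_len P 0
    omega
  · refine (DD_prim _ _).to_comp.comp ?_
    refine Computable.pair ?_ (Computable.pair (Computable.fst.comp hinp) ?_)
    · exact (Primrec.dom_finite (fun b : Bool => (ini q0 b : ℕ))).to_comp.comp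
        (Computable.fst.comp (Computable.snd.comp hinp))
    · exact Computable.snd.comp (Computable.snd.comp hinp)
  · rw [DD_eq, ← hB v]
    have h1 := hP q0 (inp v).1 (inp v).2.1 (inp v).2.2
    have h2 := kprog_halts P c (2 * gg (m + 1) + 3 * (m + 1) + 3)
      (ini q0 (inp v).2.1, (inp v).1, (inp v).2.2, 0) (Nat.le_add_right _ _)
    rw [← h1, ← h2]
    rfl

end P913
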