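import Pool.Agent.Lib.P913.KSeg

/-!
# Module KRw: the gap calculus

PROOF.  `rotf s (List.replicate x false ++ true :: w) = w ++ List.replicate (s + x) false` (induction on `x`), so
`rotf 0 (qu (x :: t)) = true :: qu t ++ List.replicate x false` and
`rotf 0 (true :: w) = w` (`List.replicate 0 _ = []`).  Then drop `k` elements
(`List.drop_append`, `List.drop_replicate`, `List.length_replicate`; `qu` is a `flatMap`), the zeros which are appended
and the new `1 1` are the last block of `qu` (`qu (t ++ [x]) = qu t ++ List.replicate x false ++ [true, true]`,
`List.flatMap_append`; `List.replicate_append_replicate`).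
The number `getD (k - 1)` is one of the zeros (or a `1` for `bH`): `List.getD_append`, `List.getD_replicate`.
-/

set_option autoImplicit false

namespace P913

namespace KRwAux

theorem rotf_rep (x s : ℕ) (w : List Bool) :
    rotf s (List.replicate x false ++ true :: w) = w ++ List.replicate (s + x) false := by
  induction x generalizing s with
  | zero => rfl
  | succ x ih =>
    rw [List.replicate_succ, List.cons_append]
    show rotf (s + 1) _ = _
    rw [ih]
    congr 2
    omega

theorem qu_cons (x : ℕ) (t : List ℕ) :
    qu (x :: t) = List.replicate x false ++ true :: true :: qu t := by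
  simp [qu]

theorem qu_snoc (x : ℕ) (t : List ℕ) :
    qu (t ++ [x]) = qu t ++ (List.replicate x false ++ [true, true]) := by
  simp [qu]

theorem rotf_qu (x : ℕ) (t : List ℕ) :
    rotf 0 (qu (x :: t)) = true :: qu t ++ List.replicate x false := by
  rw [qu_cons, rotf_rep, Nat.zero_add]

theorem rotf_true (w : List Bool) : rotf 0 (true :: w) = w := by
  show w ++ [] = w
  exact List.append_nil w

theorem kstep_eq {k : ℕ} {q pre suf : List Bool} (hl : pre.length = k)
    (h : rotf 0 q ++ List.replicate k false = pre ++ suf) : kstep k q = suf ++ [true, true] := by
  unfold kstep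
  rw [h, List.drop_left' hl]

theorem khalt_false {k : ℕ} {q a b : List Bool} (h : rotf 0 q = a ++ false :: b)
    (hl : a.length + 1 = k) : khalt k q = false := by
  unfold khalt
  rw [h, List.getD_append_right _ _ _ _ (by omega)]
  have : k - 1 - a.length = 0 := by omega
  rw [this]
  simp

theorem khalt_true {k : ℕ} {q a b : List Bool} (h : rotf 0 q = a ++ true :: b)
    (hl : a.length + 1 = k) : khalt k q = true := by
  unfold khalt
  rw [h, List.getD_append_right _ _ _ _ (by omega)]
  have : k - 1 - a.length = 0 := by omega
  rw [this]
  simp
  omega

theorem brun_cons {k : ℕ} {bs : List ℕ} {q : List Bool} (h : khalt k q = false) :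
    brun (k :: bs) q = brun bs (kstep k q) := by
  rw [brun, h]
  simp

/-- `n` zeros are `i`, one more, and the rest -/
theorem rep_split {n i : ℕ} (h : i + 1 ≤ n) : List.replicate n false =
    List.replicate i false ++ false :: List.replicate (n - (i + 1)) false := by
  conv_lhs => rw [show n = i + ((n - (i + 1)) + 1) by omega]
  rw [← List.replicate_append_replicate, List.replicate_succ]

theorem rep_add {n i : ℕ} (h : i ≤ n) : List.replicate n false =
    List.replicate i false ++ List.replicate (n - i) false := by
  rw [List.replicate_append_replicate]
  congr 1
  omega

end KRwAux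

open KRwAux

/-- the particle moves, its gap is large enough -/
theorem bM (x y k : ℕ) (t bs : List ℕ) (h1 : 2 ≤ k) (h2 : k ≤ y + 1) :
    brun (k :: bs) (qu (x :: y :: t)) = brun bs (qu ((y + 1 - k) :: (t ++ [x + k]))) := by
  have e1 : rotf 0 (qu (x :: y :: t)) =
      true :: (List.replicate y false ++ true :: true :: qu t) ++ List.replicate x false := by
    rw [rotf_qu, qu_cons]
  have hh : khalt k (qu (x :: y :: t)) = false := by
    refine khalt_false (a := true :: List.replicate (k - 2) false)
      (b := List.replicate (y - (k - 2 + 1)) false ++ (true :: true :: qu t ++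
        List.replicate x false)) ?_ ?_
    · rw [e1, rep_split (n := y) (i := k - 2) (by omega)]
      simp
    · simp; omega
  rw [brun_cons hh, kstep_eq (pre := true :: List.replicate (k - 1) false)
    (suf := List.replicate (y + 1 - k) false ++ (true :: true :: qu t ++
      List.replicate (x + k) false))]
  · rw [qu_cons, qu_snoc]
    simp
  · simp; omega
  · rw [e1, rep_add (n := y) (i := k - 1) (by omega), ← List.replicate_append_replicate (n := x)]
    have : y - (k - 1) = y + 1 - k := by omega
    rw [this]
    simp
    rw [← List.append_assoc, List.replicate_append_replicate]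

/-- the particle moves and removes the next particle -/
theorem bP (x y z k : ℕ) (t bs : List ℕ) (h1 : y + 4 ≤ k) (h2 : k ≤ y + 3 + z) :
    brun (k :: bs) (qu (x :: y :: z :: t)) = brun bs (qu ((y + 3 + z - k) :: (t ++ [x + k]))) := by
  have e1 : rotf 0 (qu (x :: y :: z :: t)) =
      true :: (List.replicate y false ++ true :: true ::
        (List.replicate z false ++ true :: true :: qu t)) ++ List.replicate x false := by
    rw [rotf_qu, qu_cons, qu_cons]
  have hh : khalt k (qu (x :: y :: z :: t)) = false := by
    refine khalt_false (a := true :: (List.replicate y false ++ true :: true ::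
        List.replicate (k - y - 4) false))
      (b := List.replicate (z - (k - y - 4 + 1)) false ++ (true :: true :: qu t ++
        List.replicate x false)) ?_ ?_
    · rw [e1, rep_split (n := z) (i := k - y - 4) (by omega)]
      simp
    · simp; omega
  rw [brun_cons hh, kstep_eq (pre := true :: (List.replicate y false ++ true :: true ::
        List.replicate (k - y - 3) false))
    (suf := List.replicate (y + 3 + z - k) false ++ (true :: true :: qu t ++
      List.replicate (x + k) false))]
  · rw [qu_cons, qu_snoc]
    simp
  · simp; omega
  · rw [e1, rep_add (n := z) (i := k - y - 3) (by omega),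
      ← List.replicate_append_replicate (n := x)]
    have : z - (k - y - 3) = y + 3 + z - k := by omega
    rw [this]
    simp
    rw [← List.append_assoc, List.replicate_append_replicate]

/-- the number `0`: the first half of the particle is doubled -/
theorem b0 (x y : ℕ) (t bs : List ℕ) :
    brun (0 :: bs) (qu (x :: y :: t)) = brun bs (true :: qu (y :: (t ++ [x]))) := by
  have hh : khalt 0 (qu (x :: y :: t)) = false := by simp [khalt]
  rw [brun_cons hh]
  unfold kstep
  rw [rotf_qu, qu_cons, qu_cons, qu_snoc]
  simp

/-- the second half moves, the gap is large enough: a new particle -/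
theorem bF (y l : ℕ) (t bs : List ℕ) (h1 : 1 ≤ l) (h2 : l ≤ y) :
    brun (l :: bs) (true :: qu (y :: t)) = brun bs (qu ((y - l) :: (t ++ [l]))) := by
  have e1 : rotf 0 (true :: qu (y :: t)) = List.replicate y false ++ true :: true :: qu t := by
    rw [rotf_true, qu_cons]
  have hh : khalt l (true :: qu (y :: t)) = false := by
    refine khalt_false (a := List.replicate (l - 1) false)
      (b := List.replicate (y - (l - 1 + 1)) false ++ (true :: true :: qu t)) ?_ ?_
    · rw [e1, rep_split (n := y) (i := l - 1) (by omega)]
      simp
    · simp; omega
  rw [brun_cons hh, kstep_eq (pre := List.replicate l false)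
    (suf := List.replicate (y - l) false ++ (true :: true :: qu t ++
      List.replicate l false))]
  · rw [qu_cons, qu_snoc]
    simp
  · simp
  · rw [e1, rep_add (n := y) (i := l) h2]
    simp
    rw [← List.append_assoc, List.replicate_append_replicate]

/-- the second half moves and removes the next particle -/
theorem bC (y z l : ℕ) (t bs : List ℕ) (h1 : y + 3 ≤ l) (h2 : l ≤ y + 2 + z) :
    brun (l :: bs) (true :: qu (y :: z :: t)) = brun bs (qu ((y + 2 + z - l) :: (t ++ [l]))) := by
  have e1 : rotf 0 (true :: qu (y :: z :: t)) = List.replicate y false ++ true :: true ::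
      (List.replicate z false ++ true :: true :: qu t) := by
    rw [rotf_true, qu_cons, qu_cons]
  have hh : khalt l (true :: qu (y :: z :: t)) = false := by
    refine khalt_false (a := List.replicate y false ++ true :: true ::
        List.replicate (l - y - 3) false)
      (b := List.replicate (z - (l - y - 3 + 1)) false ++ (true :: true :: qu t)) ?_ ?_
    · rw [e1, rep_split (n := z) (i := l - y - 3) (by omega)]
      simp
    · simp; omega
  rw [brun_cons hh, kstep_eq (pre := List.replicate y false ++ true :: true ::
        List.replicate (l - y - 2) false)
    (suf := List.replicate (y + 2 + z - l) false ++ (true :: true :: qu t ++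
      List.replicate l false))]
  · rw [qu_cons, qu_snoc]
    simp
  · simp; omega
  · rw [e1, rep_add (n := z) (i := l - y - 2) (by omega)]
    have : z - (l - y - 2) = y + 2 + z - l := by omega
    rw [this]
    simp
    rw [← List.append_assoc, List.replicate_append_replicate]

/-- the second half hits the next particle: the system halts -/
theorem bH (y : ℕ) (t bs : List ℕ) : brun ((y + 2) :: bs) (true :: qu (y :: t)) = none := by
  have hh : khalt (y + 2) (true :: qu (y :: t)) = true := by
    refine khalt_true (a := List.replicate y false ++ [true]) (b := qu t) ?_ ?_
    · rw [rotf_true, qu_cons]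
      simp
    · simp
  rw [brun, hh]
  simp

namespace KRwAux

theorem rotf_length (q : List Bool) : ∀ s, true ∈ q → (rotf s q).length + 1 = q.length + s := by
  induction q with
  | nil => intro s h; simp at h
  | cons a q ih =>
    intro s h
    cases a
    · have h' : true ∈ q := by simpa using h
      have := ih (s + 1) h'
      show (rotf (s + 1) q).length + 1 = _
      rw [List.length_cons]
      omega
    · show (q ++ List.replicate s false).length + 1 = _
      simp
      omega

end KRwAux

/-- every step makes the queue longer by one -/
theorem kstep_length (k : ℕ) (q : List Bool) (h : true ∈ q) : (kstep k q).length = q.length + 1 := by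
  have := rotf_length q 0 h
  unfold kstep
  simp
  omega

theorem mem_kstep (k : ℕ) (q : List Bool) : true ∈ kstep k q := by
  unfold kstep
  simp

theorem brun_append (a b : List ℕ) (q : List Bool) : brun (a ++ b) q = (brun a q).bind (brun b) := by
  induction a generalizing q with
  | nil => rfl
  | cons k a ih =>
    rw [List.cons_append, brun, brun]
    by_cases h : khalt k q = true
    · simp [h]
    · rw [if_neg h, if_neg h, ih]

theorem brun_length (ks : List ℕ) (q q' : List Bool) (h : true ∈ q) (h' : brun ks q = some q') :
    q'.length = q.length + ks.length ∧ true ∈ q' := by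
  induction ks generalizing q with
  | nil =>
    rw [brun, Option.some_inj] at h'
    subst h'
    exact ⟨rfl, h⟩
  | cons k ks ih =>
    rw [brun] at h'
    by_cases hk : khalt k q = true
    · simp [hk] at h'
    · rw [if_neg hk] at h'
      obtain ⟨h1, h2⟩ := ih _ (mem_kstep k q) h'
      refine ⟨?_, h2⟩
      rw [h1, kstep_length k q h, List.length_cons]
      omega

end P913
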