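import Pool.Agent.Lib.P913.KExi
import Pool.Agent.Lib.P913.UniGen

/-!
# Module KUni: machines which simulate the system K are universal

PROOF (compare `universal_of_sim` in UniFin).  `universal_of_simF`: let `F` be partial recursive; `f c = (F c).map fun _ =>
0` is partial recursive with the same domain; `exists_kk` gives `ks`, `D`; the hypothesis gives `inp`, `dec0`.  Put
`R c = ks ++ (List.replicate c nop).flatten`; `enc c = inp (R c) (D c)`
(`Computable₂.comp`, `nops_prim`, `Primrec.list_append`),
`dec w = (dec0 w.2 + 1 - (kflat ks).length) / 33` (`kflat_nops`),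
`check (c, N) = ((kround (R c))^[N] (some (D c ++ [true, true]))).isNone` (`rounds_prim`).  If the iterate is `none` for
`m ≤ N` then also for `N` (`kround ks none = none`).  `check (c, N) = true` implies `KHalts`, so `(F c).Dom`.
-/

set_option autoImplicit false

namespace P913

/-- the machine simulates the system K: the program and the first queue are on the input; the length of the program and
a bound for the number of rounds can be read from the final tape -/
def KSim {k n : ℕ} [NeZero k] [NeZero n] (U : TM k n) : Prop :=
  ∃ (inp : List ℕ → List Bool → List (Fin n)) (dec0 : List ℕ → ℕ), Computable₂ inp ∧ Computable dec0 ∧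
    ∀ (ks : List ℕ) (v : List Bool), 2 ≤ (kflat ks).length → 2 ≤ v.length →
      (Halts U (inp ks v) ↔ KHalts ks (v ++ [true, true])) ∧
      ∀ T : ℤ → Fin n, Output U (inp ks v) T → ∃ w : List ℕ × List ℕ, IsCode w T ∧
        dec0 w.2 = (kflat ks).length - 1 ∧
          ∃ m ≤ w.2.length, (kround ks)^[m] (some (v ++ [true, true])) = none

private theorem kround_none (ks : List ℕ) (n : ℕ) : (kround ks)^[n] none = none := by
  induction n with
  | zero => rfl
  | succ n ih =>
    rw [Function.iterate_succ_apply]
    exact ih

theorem universal_of_ksim {k n : ℕ} [NeZero k] [NeZero n] (U : TM k n) (h : KSim U) : Universal U := by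
  refine universal_of_simF U fun F hF => ?_
  have hf : Partrec (fun c : ℕ => (F c).map fun _ => (0 : ℕ)) :=
    hF.map (Computable.const 0).to₂
  obtain ⟨ks, D, hlen, hD, hv⟩ := exists_kk _ (Partrec.nat_iff.mp hf)
  obtain ⟨inp, dec0, hinp, hdec0, hsim⟩ := h
  have hR : Computable fun c : ℕ => ks ++ (List.replicate c nop).flatten :=
    (Primrec.list_append.comp (Primrec.const ks) nops_prim).to_comp
  have hdom : ∀ c, KHalts (ks ++ (List.replicate c nop).flatten) (D c ++ [true, true]) ↔
      (F c).Dom := fun c => (hv c c).2
  have hD2 : Computable fun c : ℕ => D c ++ [true, true] :=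
    Computable.list_append.comp hD (Computable.const [true, true])
  have hdiv : Primrec fun a : ℕ => (a + 1 - (kflat ks).length) / 33 :=
    Primrec.nat_div.comp (Primrec.nat_sub.comp Primrec.succ (Primrec.const _))
      (Primrec.const 33)
  refine ⟨fun c => inp (ks ++ (List.replicate c nop).flatten) (D c),
    fun w => (dec0 w.2 + 1 - (kflat ks).length) / 33,
    fun p => ((kround (ks ++ (List.replicate p.1 nop).flatten))^[p.2]
      (some (D p.1 ++ [true, true]))).isNone, hinp.comp hR hD,
    hdiv.to_comp.comp (hdec0.comp Computable.snd),
    rounds_prim.to_comp.comp (Computable.pair (hR.comp Computable.fst)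
      (Computable.pair Computable.snd (hD2.comp Computable.fst))), ?_, ?_⟩
  · intro c N hc
    exact (hdom c).mp ⟨N, Option.isNone_iff_eq_none.mp hc⟩
  · intro c
    have hlenR := kflat_nops ks c
    obtain ⟨h1, h2⟩ := hsim (ks ++ (List.replicate c nop).flatten) (D c) (by omega) (hv c c).1
    refine ⟨h1.trans (hdom c), fun T hT => ?_⟩
    obtain ⟨w, hw, hdw, m, hm, hnone⟩ := h2 T hT
    refine ⟨w, hw, ?_, ?_⟩
    · change (dec0 w.2 + 1 - (kflat ks).length) / 33 = c
      rw [hdw, hlenR]
      omega
    · change ((kround (ks ++ (List.replicate c nop).flatten))^[w.2.length]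
        (some (D c ++ [true, true]))).isNone = true
      have h3 : w.2.length = (w.2.length - m) + m := by omega
      rw [h3, Function.iterate_add_apply, hnone, kround_none]
      rfl

end P913
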