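import Pool.Agent.Lib.P913.KSim
import Pool.Agent.Lib.P913.KRw
import Pool.Agent.Lib.P913.KUni

/-!
# From the two rings to the queue system K
-/

set_option autoImplicit false

namespace P913

namespace KMachAux

/-- the glyph receives the front bit of the data ring `q` -/
private def sD (g : Gl) (p q : List Bool) : YC := ⟨g, (popq q).1, p, (popq q).2⟩

/-- the glyph receives the front bit of the program ring `r` -/
private def sP (g : Gl) (r d : List Bool) : YC := ⟨g, (popq r).1, (popq r).2, d⟩

/-- at least one step -/
private def Yp (c c' : YC) : Prop := ∃ n : ℕ, yiter (n + 1) c = c'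

private def Yn (c c' : YC) : Prop := ∃ n : ℕ, yiter n c = c'

private theorem yiter_add (m n : ℕ) (c : YC) : yiter (m + n) c = yiter m (yiter n c) :=
  Function.iterate_add_apply _ m n c

private theorem Yn.refl (c : YC) : Yn c c := ⟨0, rfl⟩

private theorem Yn.trans {a b c : YC} (h : Yn a b) (h' : Yn b c) : Yn a c := by
  obtain ⟨m, rfl⟩ := h
  obtain ⟨n, rfl⟩ := h'
  exact ⟨n + m, yiter_add n m a⟩

private theorem Yn.trans_p {a b c : YC} (h : Yn a b) (h' : Yp b c) : Yp a c := by
  obtain ⟨m, rfl⟩ := h
  obtain ⟨n, rfl⟩ := h'
  refine ⟨n + m, ?_⟩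
  rw [show n + m + 1 = (n + 1) + m by omega]
  exact yiter_add (n + 1) m a

private theorem Yp.trans_n {a b c : YC} (h : Yp a b) (h' : Yn b c) : Yp a c := by
  obtain ⟨m, rfl⟩ := h
  obtain ⟨n, rfl⟩ := h'
  refine ⟨n + m, ?_⟩
  rw [show n + m + 1 = n + (m + 1) by omega]
  exact yiter_add n (m + 1) a

private theorem Yp.n {a b : YC} (h : Yp a b) : Yn a b := by
  obtain ⟨m, rfl⟩ := h
  exact ⟨m + 1, rfl⟩

private theorem Yn_step {a b : YC} (h : ystep a = some b) : Yn a b := by
  refine ⟨1, ?_⟩
  simp [yiter, h]

private theorem Yp_step {a b : YC} (h : ystep a = some b) : Yp a b := by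
  refine ⟨0, ?_⟩
  simp [yiter, h]

private theorem p0f (p q : List Bool) : Yn (sD .P0 p (false :: q)) (sD .P0 p (q ++ [false])) :=
  Yn_step rfl

private theorem p0t (p q : List Bool) : Yp (sD .P0 p (true :: q)) (sP .A1 (p ++ [false]) q) :=
  Yp_step rfl

/-- the first `1` of the queue is found -/
private theorem front (p : List Bool) (q : List Bool) (h : true ∈ q) :
    Yp (sD .P0 p q) (sP .A1 (p ++ [false]) (rotf 0 q)) := by
  have key : ∀ (q : List Bool), true ∈ q → ∀ s : ℕ,
      Yp (sD .P0 p (q ++ List.replicate s false)) (sP .A1 (p ++ [false]) (rotf s q)) := by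
    intro q
    induction q with
    | nil => intro h; simp at h
    | cons b q ih =>
      intro h s
      cases b with
      | true => exact p0t p _
      | false =>
        have h1 := p0f p (q ++ List.replicate s false)
        have h2 := ih (by simpa using h) (s + 1)
        have e : q ++ List.replicate s false ++ [false] = q ++ List.replicate (s + 1) false := by
          rw [List.append_assoc, List.replicate_succ']
        rw [e] at h1
        exact h1.trans_p h2
  have := key q h 0
  simpa using this

/-- one program bit `1` -/
private theorem one (g : Gl) (hg : g = .A1 ∨ g = .A0) (r d : List Bool) :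
    Yn (sP g (true :: r) d)
      (sP (if (popq (d ++ [false])).1 then .A0 else .A1) (r ++ [true]) (popq (d ++ [false])).2) := by
  have h1 : Yn (sP g (true :: r) d) (sD .P1 r (d ++ [false])) := by
    rcases hg with rfl | rfl <;> exact Yn_step rfl
  refine h1.trans ?_
  cases hb : (popq (d ++ [false])).1 with
  | true =>
    apply Yn_step
    simp only [sD, hb, ystep, yF]
    rfl
  | false =>
    apply Yn_step
    simp only [sD, hb, ystep, yF]
    rfl

/-- the program bits `1` of a block -/
private theorem ones : ∀ (k : ℕ) (g : Gl) (_ : g = .A1 ∨ g = .A0) (r d : List Bool),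
    Yn (sP g (List.replicate k true ++ r) d)
      (sP (if k = 0 then g else if d.getD (k - 1) false then .A0 else .A1) (r ++ List.replicate k true)
        ((d ++ List.replicate k false).drop k)) := by
  intro k
  induction k with
  | zero =>
    intro g _ r d
    simp only [List.replicate_zero, List.nil_append, List.append_nil, List.drop_zero, if_true]
    exact Yn.refl _
  | succ k ih =>
    intro g hg r d
    rw [List.replicate_succ, List.cons_append]
    refine (one g hg _ _).trans ?_
    have h2 := ih (if (popq (d ++ [false])).1 then .A0 else .A1) (by split <;> simp) (r ++ [true])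
      (popq (d ++ [false])).2
    rw [← List.append_assoc] at h2
    refine h2.trans ?_
    have e1 : r ++ [true] ++ List.replicate k true = r ++ true :: List.replicate k true := by simp
    have e2 : ((popq (d ++ [false])).2 ++ List.replicate k false).drop k =
        (d ++ List.replicate (k + 1) false).drop (k + 1) := by
      cases d with
      | nil => simp [popq, List.replicate_succ]
      | cons b d => simp [popq, List.replicate_succ]
    rw [e1, e2, if_neg (Nat.succ_ne_zero k)]
    have e3 : (if k = 0 then (if (popq (d ++ [false])).1 then Gl.A0 else Gl.A1) else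
        if (popq (d ++ [false])).2.getD (k - 1) false then Gl.A0 else Gl.A1) =
        if d.getD (k + 1 - 1) false then Gl.A0 else Gl.A1 := by
      cases k with
      | zero =>
        cases d with
        | nil => simp [popq]
        | cons b d => simp [popq]
      | succ k =>
        rw [if_neg (Nat.succ_ne_zero k)]
        cases d with
        | nil =>
          simp [popq]
        | cons b d =>
          simp only [popq, List.cons_append, List.tail_cons, Nat.add_sub_cancel, List.getD_cons_succ]
          rcases Nat.lt_or_ge k d.length with h | h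
          · rw [List.getD_append _ _ _ _ h]
          · rw [List.getD_append_right _ _ _ _ h, List.getD_eq_default _ _ h]
            cases k - d.length with
            | zero => simp
            | succ j => simp
    rw [e3]
    exact Yn.refl _

private theorem kflat_drop (ks : List ℕ) (h : ks ≠ []) : (kflat ks).dropLast ++ [false] = kflat ks := by
  obtain ⟨ks', k, rfl⟩ : ∃ ks' k, ks = ks' ++ [k] :=
    ⟨ks.dropLast, ks.getLast h, (List.dropLast_append_getLast h).symm⟩
  simp only [kflat, List.flatMap_append, List.flatMap_cons, List.flatMap_nil, List.append_nil]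
  rw [← List.append_assoc, List.dropLast_concat]

/-- the configuration at the beginning of a block -/
private def st (ks : List ℕ) (q : List Bool) : YC := sD .P0 (kflat ks).dropLast q

private theorem front_st (ks : List ℕ) (q : List Bool) (hks : ks ≠ []) (h : true ∈ q) :
    Yp (st ks q) (sP .A1 (kflat ks) (rotf 0 q)) := by
  have := front (kflat ks).dropLast q h
  rwa [kflat_drop ks hks] at this

private theorem khalt_iff (k : ℕ) (q : List Bool) :
    khalt k q = true ↔ k ≠ 0 ∧ (rotf 0 q).getD (k - 1) false = true := by
  simp [khalt]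

/-- a block at which the system halts -/
private theorem block_halt (k : ℕ) (ks : List ℕ) (q : List Bool) (h : true ∈ q) (hh : khalt k q = true) :
    ∃ c, Yn (st (k :: ks) q) c ∧ ystep c = none ∧ c.d = (rotf 0 q ++ List.replicate k false).drop k := by
  rw [khalt_iff] at hh
  have h1 := front_st (k :: ks) q (by simp) h
  have e : kflat (k :: ks) = List.replicate k true ++ (false :: kflat ks) := by
    simp [kflat]
  rw [e] at h1
  have h2 := ones k .A1 (Or.inl rfl) (false :: kflat ks) (rotf 0 q)
  rw [if_neg hh.1, hh.2] at h2
  exact ⟨_, h1.n.trans h2, rfl, rfl⟩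

/-- a block at which the system does not halt -/
private theorem block_run (k : ℕ) (ks : List ℕ) (q : List Bool) (h : true ∈ q) (hh : ¬ khalt k q = true) :
    Yp (st (k :: ks) q) (st (ks ++ [k]) (kstep k q)) := by
  rw [khalt_iff] at hh
  have h1 := front_st (k :: ks) q (by simp) h
  have e : kflat (k :: ks) = List.replicate k true ++ (false :: kflat ks) := by
    simp [kflat]
  rw [e] at h1
  have h2 := ones k .A1 (Or.inl rfl) (false :: kflat ks) (rotf 0 q)
  have e2 : (if k = 0 then Gl.A1 else if (rotf 0 q).getD (k - 1) false then .A0 else .A1) = Gl.A1 := by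
    by_cases hk : k = 0
    · rw [if_pos hk]
    · rw [if_neg hk, if_neg (fun h' => hh ⟨hk, h'⟩)]
  rw [e2] at h2
  have h3 : Yn (sP .A1 (false :: kflat ks ++ List.replicate k true) ((rotf 0 q ++ List.replicate k false).drop k))
      (st (ks ++ [k]) (kstep k q)) := by
    apply Yn_step
    have e3 : (kflat (ks ++ [k])).dropLast = kflat ks ++ List.replicate k true := by
      have : kflat (ks ++ [k]) = (kflat ks ++ List.replicate k true) ++ [false] := by
        simp [kflat, List.flatMap_append]
      rw [this, List.dropLast_concat]
    simp only [st, e3, kstep]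
    rfl
  exact h1.trans_n (h2.trans h3)

/-- the blocks of a list -/
private theorem run_list : ∀ (a b : List ℕ) (q : List Bool), true ∈ q →
    (∀ q', brun a q = some q' → Yn (st (a ++ b) q) (st (b ++ a) q') ∧ (a ≠ [] → Yp (st (a ++ b) q) (st (b ++ a) q')) ∧
      true ∈ q' ∧ q'.length = q.length + a.length) ∧
    (brun a q = none → ∃ c, Yn (st (a ++ b) q) c ∧ ystep c = none ∧ q.length ≤ c.d.length + 1) := by
  intro a
  induction a with
  | nil =>
    intro b q hq
    refine ⟨?_, ?_⟩
    · intro q' h
      simp only [brun, Option.some.injEq] at h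
      subst h
      simp only [List.nil_append, List.append_nil]
      exact ⟨Yn.refl _, fun h => absurd rfl h, hq, by simp⟩
    · intro h
      simp [brun] at h
  | cons k a ih =>
    intro b q hq
    by_cases hh : khalt k q = true
    · refine ⟨?_, ?_⟩
      · intro q' h
        simp [brun, hh] at h
      · intro _
        obtain ⟨c, h1, h2, h3⟩ := block_halt k (a ++ b) q hq hh
        refine ⟨c, h1, h2, ?_⟩
        have hl : (kstep k q).length = q.length + 1 := kstep_length k q hq
        have e : (kstep k q).length = c.d.length + 2 := by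
          rw [h3]
          simp [kstep]
        omega
    · have h1 := block_run k (a ++ b) q hq hh
      have h2 := ih (b ++ [k]) (kstep k q) (mem_kstep k q)
      have hl : (kstep k q).length = q.length + 1 := kstep_length k q hq
      have e1 : (a ++ b) ++ [k] = a ++ (b ++ [k]) := by simp
      have e2 : (b ++ [k]) ++ a = b ++ k :: a := by simp
      have e3 : brun (k :: a) q = brun a (kstep k q) := by simp [brun, hh]
      rw [e1] at h1
      rw [e2] at h2
      rw [e3]
      refine ⟨?_, ?_⟩
      · intro q' h
        obtain ⟨h3, _, h5, h6⟩ := h2.1 q' h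
        exact ⟨h1.n.trans h3, fun _ => h1.trans_n h3, h5, by rw [h6, hl, List.length_cons]; omega⟩
      · intro h
        obtain ⟨c, h3, h4, h5⟩ := h2.2 h
        exact ⟨c, h1.n.trans h3, h4, by omega⟩

private theorem halted (c : YC) (h : ystep c = none) (n : ℕ) : yiter n c = c := by
  induction n with
  | zero => rfl
  | succ n ih =>
    rw [yiter_succ', ih, h]
    rfl

private theorem halted_unique (c : YC) (m n : ℕ) (hm : ystep (yiter m c) = none)
    (hn : ystep (yiter n c) = none) : yiter m c = yiter n c := by
  rcases Nat.le_total m n with h | h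
  · obtain ⟨j, rfl⟩ := Nat.exists_eq_add_of_le h
    rw [Nat.add_comm m j, yiter_add, halted _ hm]
  · obtain ⟨j, rfl⟩ := Nat.exists_eq_add_of_le h
    rw [Nat.add_comm n j, yiter_add, halted _ hn]

private theorem kround_none (ks : List ℕ) : kround ks none = none := rfl

/-- rounds which do not halt -/
private theorem rounds (ks : List ℕ) (hks : ks ≠ []) (q : List Bool) (hq : true ∈ q) (m : ℕ) : ∀ q' : List Bool,
    (kround ks)^[m] (some q) = some q' →
      ∃ n, m ≤ n ∧ yiter n (st ks q) = st ks q' ∧ true ∈ q' ∧ q.length + m ≤ q'.length := by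
  induction m with
  | zero =>
    intro q' h
    simp only [Function.iterate_zero, id_eq, Option.some.injEq] at h
    subst h
    exact ⟨0, le_rfl, rfl, hq, by simp⟩
  | succ m ih =>
    intro q' h
    rw [Function.iterate_succ_apply'] at h
    cases hm : (kround ks)^[m] (some q) with
    | none =>
      rw [hm, kround_none] at h
      simp at h
    | some q1 =>
      rw [hm] at h
      obtain ⟨n, hn, e, hq1, hl⟩ := ih q1 hm
      have h' : brun ks q1 = some q' := h
      obtain ⟨_, h3, h4, h5⟩ := (run_list ks [] q1 hq1).1 q' h'
      obtain ⟨n', hn'⟩ := h3 hks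
      rw [List.append_nil, List.nil_append] at hn'
      refine ⟨n' + 1 + n, by omega, ?_, h4, ?_⟩
      · rw [yiter_add, e, hn']
      · have : 1 ≤ ks.length := List.length_pos_iff.mpr hks
        omega

/-- the halting round -/
private theorem halting (ks : List ℕ) (hks : ks ≠ []) (q : List Bool) (hq : true ∈ q) (h : KHalts ks q) :
    ∃ m n : ℕ, (kround ks)^[m] (some q) = none ∧ ystep (yiter n (st ks q)) = none ∧
      q.length + m ≤ (yiter n (st ks q)).d.length + 2 := by
  classical
  have hm := Nat.find_spec h
  have hmin := fun j => Nat.find_min h (m := j)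
  set m := Nat.find h with hmdef
  cases hm0 : m with
  | zero =>
    rw [hm0] at hm
    simp at hm
  | succ m' =>
    rw [hm0] at hm
    have h1 := hmin m' (by omega)
    cases hq1 : (kround ks)^[m'] (some q) with
    | none => exact absurd hq1 h1
    | some q1 =>
      rw [Function.iterate_succ_apply', hq1] at hm
      have hm' : brun ks q1 = none := hm
      obtain ⟨n, _, e, hq1', hl⟩ := rounds ks hks q hq m' q1 hq1
      obtain ⟨c, ⟨n', hn'⟩, h3, h4⟩ := (run_list ks [] q1 hq1').2 hm'
      rw [List.append_nil] at hn'
      have e2 : yiter (n' + n) (st ks q) = c := by rw [yiter_add, e, hn']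
      refine ⟨m' + 1, n' + n, ?_, ?_, ?_⟩
      · rw [Function.iterate_succ_apply', hq1]
        exact hm
      · rw [e2]
        exact h3
      · rw [e2]
        omega

private theorem not_halting (ks : List ℕ) (hks : ks ≠ []) (q : List Bool) (hq : true ∈ q)
    (h : YHalts (st ks q)) : KHalts ks q := by
  by_contra hno
  obtain ⟨N, hN⟩ := h
  cases hr : (kround ks)^[N] (some q) with
  | none => exact hno ⟨N, hr⟩
  | some q' =>
    obtain ⟨n, hn, e, _, _⟩ := rounds ks hks q hq N q' hr
    obtain ⟨j, rfl⟩ := Nat.exists_eq_add_of_le hn
    rw [Nat.add_comm N j, yiter_add, halted _ hN] at e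
    rw [e] at hN
    unfold st sD at hN
    cases hb : (popq q').1 <;> simp [ystep, yF, hb] at hN

private theorem start_st (ks : List ℕ) (v : List Bool) :
    ystep ⟨Gl.A1, false, (kflat ks).dropLast, v⟩ = some (st ks (v ++ [true, true])) := rfl

theorem Yhalts_iff (ks : List ℕ) (hks : ks ≠ []) (v : List Bool) :
    YHalts ⟨Gl.A1, false, (kflat ks).dropLast, v⟩ ↔ KHalts ks (v ++ [true, true]) := by
  have hq : true ∈ v ++ [true, true] := by simp
  have e1 : yiter 1 ⟨Gl.A1, false, (kflat ks).dropLast, v⟩ = st ks (v ++ [true, true]) := rfl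
  constructor
  · rintro ⟨N, hN⟩
    apply not_halting ks hks _ hq
    cases N with
    | zero =>
      simp only [yiter, Function.iterate_zero, id_eq] at hN
      rw [start_st] at hN
      simp at hN
    | succ N =>
      refine ⟨N, ?_⟩
      rw [yiter_add N 1, e1] at hN
      exact hN
  · intro h
    obtain ⟨_, n, _, h2, _⟩ := halting ks hks _ hq h
    exact ⟨n + 1, by rw [yiter_add n 1, e1]; exact h2⟩

theorem Yhalts_bound (ks : List ℕ) (hks : ks ≠ []) (v : List Bool) (N : ℕ)
    (hN : ystep (yiter N ⟨Gl.A1, false, (kflat ks).dropLast, v⟩) = none) :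
    ∃ m ≤ (yiter N ⟨Gl.A1, false, (kflat ks).dropLast, v⟩).d.length,
      (kround ks)^[m] (some (v ++ [true, true])) = none := by
  have hq : true ∈ v ++ [true, true] := by simp
  have e1 : yiter 1 ⟨Gl.A1, false, (kflat ks).dropLast, v⟩ = st ks (v ++ [true, true]) := rfl
  obtain ⟨m, n, h1, h2, h3⟩ := halting ks hks _ hq ((Yhalts_iff ks hks v).mp ⟨N, hN⟩)
  have e2 : yiter (n + 1) ⟨Gl.A1, false, (kflat ks).dropLast, v⟩ = yiter n (st ks (v ++ [true, true])) := by
    rw [yiter_add n 1, e1]
  have e3 := halted_unique _ N (n + 1) hN (by rw [e2]; exact h2)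
  refine ⟨m, ?_, h1⟩
  rw [e3, e2]
  simp only [List.length_append, List.length_cons, List.length_nil] at h3
  omega

end KMachAux

open KMachAux in
/-- Machines which execute the two rings simulate the system K. -/
theorem ksim_of_simY {k n : ℕ} [NeZero k] [NeZero n] {U : TM k n} (h : SimY U false) : KSim U := by
  obtain ⟨inp, dec, hinp, hdec, hU⟩ := h
  refine ⟨fun ks v => inp (kflat ks).dropLast v, dec, ?_, hdec, ?_⟩
  · have hd : Primrec fun l : List Bool => l.dropLast := by
      have h1 : Primrec fun l : List Bool => l.reverse.tail.reverse :=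
        Primrec.list_reverse.comp (Primrec.list_tail.comp Primrec.list_reverse)
      refine h1.of_eq fun l => ?_
      simp
    exact hinp.comp (hd.comp (kflat_prim.comp Primrec.fst)).to_comp Computable.snd
  · intro ks v hks hv
    have hks' : ks ≠ [] := by
      rintro rfl
      simp [kflat] at hks
    have hv' : v ≠ [] := by
      rintro rfl
      simp at hv
    obtain ⟨h1, h2⟩ := hU (kflat ks).dropLast v hv'
    refine ⟨h1.trans (Yhalts_iff ks hks' v), ?_⟩
    intro T hT
    obtain ⟨N, w, h3, h4, h5, h6⟩ := h2 T hT
    obtain ⟨m, hm1, hm2⟩ := Yhalts_bound ks hks' v N h3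
    refine ⟨w, h4, ?_, m, le_trans hm1 h6, hm2⟩
    rw [h5, List.length_dropLast]

/-- Machines with the local computations simulate the system K. -/
theorem ksim_of_loc {k n : ℕ} [NeZero k] [NeZero n] {U : TM k n} (L : KLoc U) (h0 : L.h0 = false) : KSim U :=
  ksim_of_simY (h0 ▸ simY_of_loc L)

end P913
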