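import Pool.Agent.Lib.P913.KInst29
import Pool.Agent.Lib.P913.KMach

/-!
# A universal Turing machine with 2 states and 9 symbols
-/

set_option autoImplicit false

namespace P913

theorem universal29 : Universal U29 := universal_of_ksim U29 (ksim_of_loc ok29.loc rfl)

end P913
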