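import Pool.Agent.Lib.P913.KInst54
import Pool.Agent.Lib.P913.KUniT

/-!
# A universal Turing machine with 5 states and 4 symbols
-/

set_option autoImplicit false

namespace P913

theorem universal54 : Universal U54 := universal_of_loc' ok54.loc

end P913
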