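import Pool.Agent.Lib.P913.KRound

/-!
# Module KIff: the system K simulates counter machines
-/

set_option autoImplicit false

namespace P913

theorem kprog_halts {N : ℕ} (P : Fin N → CI (Fin N)) (c Y : ℕ) (s : Fin N × ℕ × ℕ × ℕ)
    (hY : 2 * gg N + 3 * N + 3 ≤ Y + 3 * s.1) :
    KHalts (kprog P c) (rp N Y s.1 s.2) ↔ CtHalts P s := by
  constructor
  · rintro ⟨m, hm⟩
    induction m generalizing Y s with
    | zero => simp at hm
    | succ m ih =>
      rcases round_run P c Y s hY with ⟨_, h⟩ | ⟨Y', s', j, _, hs', _, hb, hY'⟩
      · exact h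
      · rw [Function.iterate_succ_apply, kround, Option.bind_some, hb] at hm
        obtain ⟨n, hn⟩ := ih Y' s' hY' hm
        refine ⟨n + j, ?_⟩
        rw [Function.iterate_add_apply]
        change ctStep P ((fun s => (ctStep P s).getD s)^[n] ((ctt P)^[j] s)) = none
        rw [hs']
        exact hn
  · rintro ⟨n, hn⟩
    induction n using Nat.strong_induction_on generalizing Y s with
    | _ n ih =>
      rcases round_run P c Y s hY with ⟨h, _⟩ | ⟨Y', s', j, hj, hs', hne, hb, hY'⟩
      · exact ⟨1, by rw [Function.iterate_one, kround, Option.bind_some, h]⟩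
      · have hjn : j ≤ n := by
          by_contra hlt
          exact hne n (by omega) hn
        have hn' : ctStep P ((fun s => (ctStep P s).getD s)^[n - j] s') = none := by
          rw [← hs']
          change ctStep P ((ctt P)^[n - j] ((ctt P)^[j] s)) = none
          rw [← Function.iterate_add_apply, Nat.sub_add_cancel hjn]
          exact hn
        obtain ⟨m, hm⟩ := ih (n - j) (by omega) Y' s' hY' hn'
        exact ⟨m + 1, by rw [Function.iterate_succ_apply, kround, Option.bind_some, hb]; exact hm⟩

end P913
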