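import Pool.Agent.Lib.P913.GK

/-!
# A machine with 12 states and 2 symbols which executes the system K
-/

set_option autoImplicit false

namespace P913

/-- The machine with 12 states and 2 symbols (table of helper62, found with a SAT solver).  Cells have 2 symbols: `10`, `11`; glyphs
have 3 symbols: `A1 = 010`, `P0 = 000`, `P1 = 110`, `A0 = 011`; the left end is the word `000000`. -/
def U122 : TM 12 2 := ![
  ![(0, true, some 7), (1, true, some 2)],
  ![(1, true, some 8), (1, true, some 3)],
  ![(0, true, some 0), (1, true, some 0)],
  ![(0, true, some 1), (1, true, some 1)],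
  ![(0, false, some 6), (0, false, some 5)],
  ![(1, false, some 6), (1, false, some 5)],
  ![(0, true, some 9), (1, false, some 4)],
  ![(0, false, some 10), (0, true, some 11)],
  ![(1, false, some 10), (1, true, some 9)],
  ![(0, true, some 0), (0, false, some 8)],
  ![(0, false, some 4), (1, true, some 5)],
  ![(0, true, some 1), (1, true, none)]]

/-- the words of `U122` -/
def D122 : GData Gl 12 2 where
  qR := fun b => if b then 1 else 0
  qL := fun b => if b then 5 else 4
  cr := fun b => if b then [1, 1] else [1, 0]
  cl := fun b => if b then [1, 1] else [1, 0]
  E := [0, 0, 0, 0, 0, 0]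
  S := [0, 1, 0]
  h0 := true
  g0 := .A1
  o := 3
  W := fun
    | .A1 => [0, 1, 0]
    | .P0 => [0, 0, 0]
    | .P1 => [1, 1, 0]
    | .A0 => [0, 1, 1]
  gH := .A0
  hH := false
  FH := [0, 0, 1]
  m := 2
  s := 0
  t := 12
  z := 4

theorem ok122 : GOk KT U122 D122 where
  m_pos := by decide
  cl_len := by decide
  FH_cells := by decide
  FH_stop := by decide
  FH_len := by decide
  cr_nz := by decide
  E_ne := by decide
  ho := by decide
  g0_wp := by decide
  passR := by decide
  passL := by decide
  lend := by decide
  start := by decide
  rend := by decide
  ok := by decide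
  halt := by decide
  W_ne := by decide

theorem universal122 : Universal U122 := universal_of_gk ok122 rfl

end P913
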