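import Pool.Agent.Lib.P913.KCheck
import Pool.Agent.Lib.P913.KUniT

/-!
# A universal machine with 14 states and 2 symbols
-/

set_option autoImplicit false

namespace P913

/-- The machine with 14 states and 2 symbols.  Symbol `0` is the blank; the bit cells are `0 1` and `1 1` (both
forms), the glyphs are words of length 4; the left end is a part of the word `P0 P0`. -/
def U142 : TM 14 2 := ![
  ![(0, true, some 2), (1, true, some 2)],
  ![(0, true, some 3), (1, true, some 3)],
  ![(0, false, some 4), (1, true, some 0)],
  ![(1, false, some 5), (1, true, some 1)],
  ![(0, false, some 6), (0, true, some 11)],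
  ![(1, false, some 7), (1, true, some 11)],
  ![(0, false, some 9), (1, false, some 8)],
  ![(0, true, some 13), (1, false, some 9)],
  ![(0, false, some 6), (0, false, some 7)],
  ![(1, false, some 6), (1, false, some 7)],
  ![(0, true, some 2), (0, true, some 2)],
  ![(0, true, some 12), (0, true, some 10)],
  ![(1, true, some 3), (0, true, none)],
  ![(1, true, some 2), (0, true, some 6)]]

/-- the words of `U142` -/
def D142 : KData 14 2 where
  qR := fun b => if b then 1 else 0
  qL := fun b => if b then 7 else 6
  cr := fun b => if b then [1, 1] else [0, 1]
  cl := fun b => if b then [1, 1] else [0, 1]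
  E := [0, 1, 1, 0, 0, 1, 1]
  S := [1, 1, 1, 0, 0, 1]
  h0 := true
  o := 1
  F := fun
    | .A1 => [1, 0, 0, 1]
    | .P0 => [0, 0, 1, 1]
    | .P1 => [1, 0, 0, 1]
    | .A0 => [1, 0, 1, 1]
  FH := [0, 0, 0, 1]
  m := 2
  s := 0
  T := 40
  z := 4

theorem ok142 : KOk U142 D142 where
  m_pos := by decide
  cl_len := by decide
  FH_cells := by decide
  FH_stop := by decide
  FH_len := by decide
  cr_last := by decide
  E_ne := by decide
  ho := by decide
  passR := by decide
  passL := by decide
  lend := by decide
  start := by decide
  rend0 := by decide
  rend1 := by decide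
  a10 := by decide
  a11 := by decide
  a01 := by decide
  halt := by decide
  p00 := by decide
  p01 := by decide
  p10 := by decide
  p11 := by decide
  F_ne := by decide

theorem universal142 : Universal U142 := universal_of_loc' ok142.loc

end P913
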