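import Pool.Agent.Lib.P913.KCheck

/-!
# A machine with 2 states and 9 symbols which executes the system K
-/

set_option autoImplicit false

namespace P913

/-- The machine with 2 states and 9 symbols.  Symbols: `0` blank; `1`, `2` the bits (r-form), `3`, `4` the bits
(l-form); `5`, `6`, `7`, `8` the glyphs `P0`, `A1`, `P1`, `A0`; the left end is the word `5 5`. -/
def U29 : TM 2 9 := ![
  ![(0, false, some 0), (3, true, some 0), (4, true, some 0), (1, false, some 0), (1, false, some 1),
    (5, true, some 0), (5, true, some 1), (6, false, some 1), (8, true, none)],
  ![(2, false, some 1), (3, true, some 1), (4, true, some 1), (2, false, some 0), (2, false, some 1),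
    (6, false, some 0), (7, true, some 0), (8, false, some 1), (7, true, some 0)]]

/-- the words of `U29` -/
def D29 : KData 2 9 where
  qR := fun b => if b then 1 else 0
  qL := fun b => if b then 1 else 0
  cr := fun b => if b then [2] else [1]
  cl := fun b => if b then [4] else [3]
  E := [5, 5]
  S := [5, 5]
  h0 := false
  o := 0
  F := fun
    | .A1 => [6]
    | .P0 => [5]
    | .P1 => [7]
    | .A0 => [8]
  FH := [8]
  m := 1
  s := 0
  T := 8
  z := 1

theorem ok29 : KOk U29 D29 where
  m_pos := by decide
  cl_len := by decide
  FH_cells := by decide
  FH_stop := by decide
  FH_len := by decide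
  cr_last := by decide
  E_ne := by decide
  ho := by decide
  passR := by decide
  passL := by decide
  lend := by decide
  start := by decide
  rend0 := by decide
  rend1 := by decide
  a10 := by decide
  a11 := by decide
  a01 := by decide
  halt := by decide
  p00 := by decide
  p01 := by decide
  p10 := by decide
  p11 := by decide
  F_ne := by decide

theorem simY29 : SimY U29 false := simY_of_loc ok29.loc

end P913
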