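import Pool.Agent.Lib.P913.KCheck

/-!
# A machine with 3 states and 7 symbols which executes the system K
-/

set_option autoImplicit false

namespace P913

/-- The machine with 3 states and 7 symbols.  Symbols: `0` blank; bits `1`, `3` (r-form), `2`, `0` (l-form); the left
end is the word `4 4`; the glyphs are the words `1 6`, `2 4`, `5 2`, `1 5`. -/
def U37 : TM 3 7 := ![
  ![(1, false, some 2), (4, false, some 2), (1, false, some 0), (4, false, some 1), (4, true, some 1),
    (3, true, some 0), (4, true, some 0)],
  ![(0, false, some 0), (2, true, some 1), (5, true, some 1), (0, true, some 1), (5, false, some 0),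
    (5, true, none), (4, true, some 2)],
  ![(3, false, some 2), (2, true, some 2), (3, false, some 0), (0, true, some 2), (6, false, some 0),
    (1, false, some 1), (1, false, some 1)]]

/-- the words of `U37` -/
def D37 : KData 3 7 where
  qR := fun b => if b then 2 else 1
  qL := fun b => if b then 2 else 0
  cr := fun b => if b then [3] else [1]
  cl := fun b => if b then [0] else [2]
  E := [3, 4, 4]
  S := [5, 6, 4]
  h0 := false
  o := 0
  F := fun
    | .A1 => [1, 6]
    | .P0 => [2, 4]
    | .P1 => [5, 2]
    | .A0 => [1, 5]
  FH := [2, 5]
  m := 1
  s := 1
  T := 8
  z := 1

theorem ok37 : KOk U37 D37 where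
  m_pos := by decide
  cl_len := by decide
  FH_cells := by decide
  FH_stop := by decide
  FH_len := by decide
  cr_last := by decide
  E_ne := by decide
  ho := by decide
  passR := by decide
  passL := by decide
  lend := by decide
  start := by decide
  rend0 := by decide
  rend1 := by decide
  a10 := by decide
  a11 := by decide
  a01 := by decide
  halt := by decide
  p00 := by decide
  p01 := by decide
  p10 := by decide
  p11 := by decide
  F_ne := by decide

end P913
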