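import Pool.Agent.Lib.P913.KCheck

/-!
# A machine with 4 states and 5 symbols which executes the system K
-/

set_option autoImplicit false

namespace P913

/-- The machine with 4 states and 5 symbols.  Symbols: `0` blank; bits `1`, `2`; glyphs `3`, `4`; the left end is a blank. -/
def U45 : TM 4 5 := ![
  ![(0, false, some 2), (1, true, some 0), (2, true, some 0), (3, true, some 1), (4, true, none)],
  ![(2, false, some 3), (1, true, some 1), (2, true, some 1), (4, true, some 0), (4, true, some 0)],
  ![(0, true, some 0), (1, false, some 2), (1, false, some 3), (3, true, some 0), (3, false, some 3)],
  ![(0, true, some 1), (2, false, some 2), (2, false, some 3), (3, false, some 2), (4, false, some 3)]]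

/-- the words of `U45` -/
def D45 : KData 4 5 where
  qR := fun b => if b then 1 else 0
  qL := fun b => if b then 3 else 2
  cr := fun b => if b then [2] else [1]
  cl := fun b => if b then [2] else [1]
  E := [0]
  S := []
  h0 := false
  o := 1
  F := fun
    | .A1 => [3]
    | .P0 => [3]
    | .P1 => [4]
    | .A0 => [4]
  FH := [4]
  m := 1
  s := 0
  T := 3
  z := 1

theorem ok45 : KOk U45 D45 where
  m_pos := by decide
  cl_len := by decide
  FH_cells := by decide
  FH_stop := by decide
  FH_len := by decide
  cr_last := by decide
  E_ne := by decide
  ho := by decide
  passR := by decide
  passL := by decide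
  lend := by decide
  start := by decide
  rend0 := by decide
  rend1 := by decide
  a10 := by decide
  a11 := by decide
  a01 := by decide
  halt := by decide
  p00 := by decide
  p01 := by decide
  p10 := by decide
  p11 := by decide
  F_ne := by decide

end P913
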