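import Pool.Agent.Lib.P913.KCheck

/-!
# A machine with 5 states and 4 symbols which executes the system K
-/

set_option autoImplicit false

namespace P913

/-- The machine with 5 states and 4 symbols.  Symbols: `0` blank; bits `1`, `3` (r-form), `2`, `0` (l-form); the glyphs
are words of length 2; the left end is the word `0 3 0 3` (two copies of the glyph `P0`), which is made of the input
word `3 2 1` at the start. -/
def U54 : TM 5 4 := ![
  ![(1, false, some 3), (2, false, some 3), (1, false, some 0), (3, true, some 1)],
  ![(0, false, some 0), (2, true, some 1), (0, true, some 4), (0, true, some 1)],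
  ![(3, false, some 3), (2, true, some 2), (2, true, some 3), (0, true, some 2)],
  ![(3, false, some 3), (1, false, some 4), (3, false, some 0), (1, false, some 4)],
  ![(2, false, some 0), (3, true, some 2), (1, true, some 1), (3, true, none)]]

/-- the words of `U54` -/
def D54 : KData 5 4 where
  qR := fun b => if b then 2 else 1
  qL := fun b => if b then 3 else 0
  cr := fun b => if b then [3] else [1]
  cl := fun b => if b then [0] else [2]
  E := [0, 3, 0, 3]
  S := [3, 2, 1]
  h0 := true
  o := 1
  F := fun
    | .A1 => [2, 1]
    | .P0 => [0, 3]
    | .P1 => [1, 2]
    | .A0 => [2, 3]
  FH := [0, 3]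
  m := 1
  s := 1
  T := 20
  z := 2

theorem ok54 : KOk U54 D54 where
  m_pos := by decide
  cl_len := by decide
  FH_cells := by decide
  FH_stop := by decide
  FH_len := by decide
  cr_last := by decide
  E_ne := by decide
  ho := by decide
  passR := by decide
  passL := by decide
  lend := by decide
  start := by decide
  rend0 := by decide
  rend1 := by decide
  a10 := by decide
  a11 := by decide
  a01 := by decide
  halt := by decide
  p00 := by decide
  p01 := by decide
  p10 := by decide
  p11 := by decide
  F_ne := by decide

end P913
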