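import Pool.Agent.Lib.P913.KCheck

/-!
# A machine with 7 states and 3 symbols which executes the system K
-/

set_option autoImplicit false

namespace P913

/-- The machine with 7 states and 3 symbols.  Symbols: `0` blank; bits `1`, `2` (r-form), `2`, `1` (l-form); the left
end is the word `0 1 0`; the glyphs are words of length 3. -/
def U73 : TM 7 3 := ![
  ![(2, false, some 3), (0, false, some 1), (1, true, some 0)],
  ![(0, true, some 4), (1, false, some 3), (1, false, some 1)],
  ![(0, true, some 6), (2, true, some 2), (1, true, some 2)],
  ![(1, false, some 0), (2, false, some 3), (2, false, some 1)],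
  ![(1, true, some 5), (2, true, some 4), (1, true, some 4)],
  ![(0, false, some 0), (0, true, some 2), (0, true, none)],
  ![(0, false, some 0), (2, false, some 1), (1, false, some 2)]]

/-- the words of `U73` -/
def D73 : KData 7 3 where
  qR := fun b => if b then 2 else 4
  qL := fun b => if b then 3 else 1
  cr := fun b => if b then [2] else [1]
  cl := fun b => if b then [1] else [2]
  E := [0, 1, 0]
  S := [1, 1]
  h0 := true
  o := 1
  F := fun
    | .A1 => [1, 0, 1]
    | .P0 => [2, 1, 0]
    | .P1 => [2, 0, 1]
    | .A0 => [1, 0, 2]
  FH := [2, 1, 0]
  m := 1
  s := 2
  T := 9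
  z := 2

theorem ok73 : KOk U73 D73 where
  m_pos := by decide
  cl_len := by decide
  FH_cells := by decide
  FH_stop := by decide
  FH_len := by decide
  cr_last := by decide
  E_ne := by decide
  ho := by decide
  passR := by decide
  passL := by decide
  lend := by decide
  start := by decide
  rend0 := by decide
  rend1 := by decide
  a10 := by decide
  a11 := by decide
  a01 := by decide
  halt := by decide
  p00 := by decide
  p01 := by decide
  p10 := by decide
  p11 := by decide
  F_ne := by decide

end P913
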