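import Pool.Agent.Lib.P913.ULoc

/-!
# Module URun: basic facts about runs, steps of the zipper, determinism

PROOFS.  `Rn.trans`, `Rp.trans_rn`, `Rn.trans_rp`: `Function.iterate_add_apply`.  `AR_step_right`, `AR_step_left`,
`AL_cons`: `AL (p :: l) q r = AR l q (p :: r)` since `(p :: l).reverse ++ r = l.reverse ++ p :: r`; one step updates the
tape at the position `l.length`: `wordTape` of the changed list (`List.getD_append`, `List.getElem?_append`, for
`i < l.length`, `i = l.length`, `i > l.length`).  `AR_nil`: `wordTape (x ++ [0]) = wordTape x`.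
`halt_iter`: induction on the number of steps.  `Rn_halts`, `Rn_output`: a run of a halting machine: if
`c` leads to `c'` then `c` reaches `none` iff `c'` does (compare the numbers of steps; `none` is kept), with the same tape.
`not_halt`: if for every `N` there is a `t ≥ N` with `((step U)^[t] c).st ≠ none`, then there is no halting time.
-/

set_option autoImplicit false

namespace P913

namespace URunAux

theorem wt_at {n : ℕ} [NeZero n] (u : List (Fin n)) (a : Fin n) (r : List (Fin n)) :
    wordTape (u ++ a :: r) (u.length : ℤ) = a := by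
  unfold wordTape
  rw [if_pos (Int.natCast_nonneg _), Int.toNat_natCast, List.getD_append_right _ _ _ _ (le_refl _),
    Nat.sub_self, List.getD_cons_zero]

theorem wt_upd {n : ℕ} [NeZero n] (u : List (Fin n)) (a w : Fin n) (r : List (Fin n)) :
    Function.update (wordTape (u ++ a :: r)) (u.length : ℤ) w = wordTape (u ++ w :: r) := by
  funext i
  by_cases hi : i = (u.length : ℤ)
  · rw [hi, Function.update_self, wt_at]
  · rw [Function.update_of_ne hi]
    unfold wordTape
    by_cases h0 : 0 ≤ i
    · rw [if_pos h0, if_pos h0]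
      obtain ⟨j, rfl⟩ := Int.eq_ofNat_of_zero_le h0
      rw [Int.toNat_natCast]
      have hj : j ≠ u.length := fun h => hi (by rw [h])
      by_cases hlt : j < u.length
      · rw [List.getD_append _ _ _ _ hlt, List.getD_append _ _ _ _ hlt]
      · have hle : u.length ≤ j := Nat.le_of_not_lt hlt
        rw [List.getD_append_right _ _ _ _ hle, List.getD_append_right _ _ _ _ hle]
        obtain ⟨m, hm⟩ : ∃ m, j - u.length = m + 1 := ⟨j - u.length - 1, by omega⟩
        rw [hm, List.getD_cons_succ, List.getD_cons_succ]
    · rw [if_neg h0, if_neg h0]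

end URunAux

open URunAux

section

variable {k n : ℕ} {U : TM k n}

theorem Rn.refl (c : Cfg k n) : Rn U c c := ⟨0, rfl⟩

theorem Rn.trans {a b c : Cfg k n} (h : Rn U a b) (h' : Rn U b c) : Rn U a c := by
  obtain ⟨s, hs⟩ := h
  obtain ⟨t, ht⟩ := h'
  exact ⟨t + s, by rw [Function.iterate_add_apply, hs, ht]⟩

theorem Rn.trans_rp {a b c : Cfg k n} (h : Rn U a b) (h' : Rp U b c) : Rp U a c := by
  obtain ⟨s, hs⟩ := h
  obtain ⟨t, ht⟩ := h'
  refine ⟨t + s, ?_⟩
  rw [show t + s + 1 = (t + 1) + s by omega, Function.iterate_add_apply, hs, ht]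

theorem Rp.trans_rn {a b c : Cfg k n} (h : Rp U a b) (h' : Rn U b c) : Rp U a c := by
  obtain ⟨s, hs⟩ := h
  obtain ⟨t, ht⟩ := h'
  refine ⟨t + s, ?_⟩
  rw [show t + s + 1 = t + (s + 1) by omega, Function.iterate_add_apply, hs, ht]

theorem Rn.head {a b c : Cfg k n} (h : step U a = b) (h' : Rn U b c) : Rn U a c :=
  Rn.trans ⟨1, h⟩ h'

theorem halt_iter {c : Cfg k n} (h : c.st = none) (t : ℕ) : (step U)^[t] c = c := by
  have h1 : step U c = c := by
    unfold step
    rw [h]
  induction t with
  | zero => rfl
  | succ t ih => rw [Function.iterate_succ_apply, h1, ih]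

/-- the set of halting tapes is the same along a run -/
theorem Rn_halt_iff {a b : Cfg k n} (h : Rn U a b) (T : ℤ → Fin n) :
    (∃ t : ℕ, ((step U)^[t] a).st = none ∧ ((step U)^[t] a).tape = T) ↔
      ∃ t : ℕ, ((step U)^[t] b).st = none ∧ ((step U)^[t] b).tape = T := by
  obtain ⟨s, rfl⟩ := h
  constructor
  · rintro ⟨t, h1, h2⟩
    rcases Nat.le_total t s with hts | hts
    · refine ⟨0, ?_⟩
      have e : (step U)^[s] a = (step U)^[t] a := by
        conv_lhs => rw [show s = (s - t) + t by omega, Function.iterate_add_apply]
        exact halt_iter h1 _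
      rw [Function.iterate_zero_apply, e]
      exact ⟨h1, h2⟩
    · refine ⟨t - s, ?_⟩
      rw [← Function.iterate_add_apply, Nat.sub_add_cancel hts]
      exact ⟨h1, h2⟩
  · rintro ⟨t, h1, h2⟩
    refine ⟨t + s, ?_⟩
    rw [Function.iterate_add_apply]
    exact ⟨h1, h2⟩

/-- halting tapes are unique -/
theorem halt_unique {a : Cfg k n} {T T' : ℤ → Fin n}
    (h : ∃ t : ℕ, ((step U)^[t] a).st = none ∧ ((step U)^[t] a).tape = T)
    (h' : ∃ t : ℕ, ((step U)^[t] a).st = none ∧ ((step U)^[t] a).tape = T') : T = T' := by
  obtain ⟨t, h1, h2⟩ := h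
  obtain ⟨t', h3, h4⟩ := h'
  rw [← h2, ← h4]
  rcases Nat.le_total t t' with hle | hle
  · have e : (step U)^[t'] a = (step U)^[t] a := by
      conv_lhs => rw [show t' = (t' - t) + t by omega, Function.iterate_add_apply]
      exact halt_iter h1 _
    rw [e]
  · have e : (step U)^[t] a = (step U)^[t'] a := by
      conv_lhs => rw [show t = (t - t') + t' by omega, Function.iterate_add_apply]
      exact halt_iter h3 _
    rw [e]

/-- an infinite chain of positive runs through non-halting configurations -/
theorem not_halt {c : ℕ → Cfg k n} (h : ∀ N, Rp U (c N) (c (N + 1))) (hs : ∀ N, (c N).st ≠ none) :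
    ¬ ∃ t : ℕ, ((step U)^[t] (c 0)).st = none := by
  rintro ⟨t, ht⟩
  have hN : ∀ N, ∃ s, N ≤ s ∧ (step U)^[s] (c 0) = c N := by
    intro N
    induction N with
    | zero => exact ⟨0, le_refl _, rfl⟩
    | succ N ih =>
      obtain ⟨s, hs1, hs2⟩ := ih
      obtain ⟨r, hr⟩ := h N
      refine ⟨(r + 1) + s, by omega, ?_⟩
      rw [Function.iterate_add_apply, hs2, hr]
  obtain ⟨s, hs1, hs2⟩ := hN t
  apply hs t
  rw [← hs2, show s = (s - t) + t by omega, Function.iterate_add_apply, halt_iter ht]
  exact ht

variable [NeZero n]

theorem AL_cons (p : Fin n) (l : List (Fin n)) (q : Fin k) (r : List (Fin n)) :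
    AL (p :: l) q r = AR l q (p :: r) := by
  unfold AL AR
  rw [List.reverse_cons, List.append_assoc, List.cons_append, List.nil_append, List.length_cons,
    Nat.cast_succ, add_sub_cancel_right]

theorem AR_nil (l : List (Fin n)) (q : Fin k) : AR l q [] = AR l q [0] := by
  unfold AR
  congr 1
  funext i
  unfold wordTape
  by_cases h0 : 0 ≤ i
  · rw [if_pos h0, if_pos h0, List.append_nil]
    obtain ⟨j, rfl⟩ := Int.eq_ofNat_of_zero_le h0
    rw [Int.toNat_natCast]
    by_cases hlt : j < l.reverse.length
    · rw [List.getD_append _ _ _ _ hlt]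
    · have hle : l.reverse.length ≤ j := Nat.le_of_not_lt hlt
      rw [List.getD_append_right _ _ _ _ hle, List.getD_eq_default _ _ hle]
      rcases Nat.eq_zero_or_pos (j - l.reverse.length) with hz | hp
      · rw [hz, List.getD_cons_zero]
      · rw [List.getD_eq_default]
        exact hp
  · rw [if_neg h0, if_neg h0]

theorem AR_step_right (l : List (Fin n)) (q q' : Fin k) (a w : Fin n) (r : List (Fin n))
    (h : U q a = (w, true, some q')) : step U (AR l q (a :: r)) = AR (w :: l) q' r := by
  have h1 : wordTape (l.reverse ++ a :: r) (l.length : ℤ) = a := by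
    have := wt_at l.reverse a r
    rwa [List.length_reverse] at this
  have h2 : Function.update (wordTape (l.reverse ++ a :: r)) (l.length : ℤ) w
      = wordTape (l.reverse ++ w :: r) := by
    have := wt_upd l.reverse a w r
    rwa [List.length_reverse] at this
  unfold step AR
  simp only [h1, h, h2, if_true]
  rw [List.reverse_cons, List.append_assoc, List.cons_append, List.nil_append, List.length_cons,
    Nat.cast_succ]

theorem AR_step_left (b : Fin n) (l : List (Fin n)) (q q' : Fin k) (a w : Fin n) (r : List (Fin n))
    (h : U q a = (w, false, some q')) : step U (AR (b :: l) q (a :: r)) = AR l q' (b :: w :: r) := by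
  have h1 : wordTape ((b :: l).reverse ++ a :: r) ((b :: l).length : ℤ) = a := by
    have := wt_at (b :: l).reverse a r
    rwa [List.length_reverse] at this
  have h2 : Function.update (wordTape ((b :: l).reverse ++ a :: r)) ((b :: l).length : ℤ) w
      = wordTape ((b :: l).reverse ++ w :: r) := by
    have := wt_upd (b :: l).reverse a w r
    rwa [List.length_reverse] at this
  unfold step AR
  simp only [h1, h, h2, if_false, Bool.false_eq_true]
  rw [List.reverse_cons, List.append_assoc, List.cons_append, List.nil_append, List.length_cons,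
    Nat.cast_succ, add_sub_cancel_right]

/-- a halting step -/
theorem AR_step_halt (l : List (Fin n)) (q : Fin k) (a w : Fin n) (d : Bool) (r : List (Fin n))
    (h : U q a = (w, d, none)) : (step U (AR l q (a :: r))).st = none ∧
      (step U (AR l q (a :: r))).tape = wordTape (l.reverse ++ w :: r) := by
  have h1 : wordTape (l.reverse ++ a :: r) (l.length : ℤ) = a := by
    have := wt_at l.reverse a r
    rwa [List.length_reverse] at this
  have h2 : Function.update (wordTape (l.reverse ++ a :: r)) (l.length : ℤ) w
      = wordTape (l.reverse ++ w :: r) := by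
    have := wt_upd l.reverse a w r
    rwa [List.length_reverse] at this
  unfold step AR
  simp only [h1, h, h2, and_self]

end

end P913
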