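import Pool.Agent.Lib.P913.KTwo
import Pool.Agent.Lib.P913.URun

/-!
# Machines which execute the system K: the local computations

All logical cells are words over the tape alphabet.  A right pass carries a bit (state `qR h`) and changes the cells from
the r-form (`cr`, head on the left) to the l-form (`cl`, head on the right); a left pass (state `qL h`) exchanges the
carried bit with the bits of the cells and changes the l-form to the r-form.  The left end `E` and the right end
(blank) reflect the head; the bit `1` appends a cell at the right end.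
-/

set_option autoImplicit false

namespace P913

/-- the block with the number `i` of length `m` of a list -/
def chk {α : Type} (x : α) (m : ℕ) (l : List α) (i : ℕ) : List α := (List.range m).map fun t => l.getD (m * i + t) x

/-- A machine with local computations which execute the system K. -/
structure KLoc {k n : ℕ} [NeZero k] [NeZero n] (U : TM k n) where
  /-- right passes carrying a bit -/
  qR : Bool → Fin k
  /-- left passes carrying a bit -/
  qL : Bool → Fin k
  /-- bit cell, the head is on its left -/
  cr : Bool → List (Fin n)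
  /-- bit cell, the head is on its right -/
  cl : Bool → List (Fin n)
  /-- left end -/
  E : List (Fin n)
  /-- the word which is read at the start and becomes the left end -/
  S : List (Fin n)
  /-- the bit carried after the start -/
  h0 : Bool
  /-- the glyphs -/
  F : Gl → List (Fin n)
  /-- the glyph `A0` after the halting computation -/
  FH : List (Fin n)
  /-- the length of a cell in the l-form -/
  m : ℕ
  m_pos : 0 < m
  cl_len : ∀ b, (cl b).length = m
  /-- the final glyph begins with `s` cells, then something else follows -/
  s : ℕ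
  FH_cells : ∀ i < s, ∃ b, chk 0 m FH i = cl b
  FH_stop : ∀ b, chk 0 m FH s ≠ cl b
  FH_len : m * (s + 1) ≤ FH.length
  cr_last : ∀ b, ∃ s, (cr b).getLast? = some s ∧ s ≠ 0
  E_ne : E ≠ []
  passR : ∀ (h c : Bool) (l r : List (Fin n)), l ≠ [] →
    Rn U (AR l (qR h) (cr c ++ r)) (AR ((cl c).reverse ++ l) (qR h) r)
  passL : ∀ (h c : Bool) (l r : List (Fin n)), l ≠ [] →
    Rn U (AL ((cl c).reverse ++ l) (qL h) r) (AL l (qL c) (cr h ++ r))
  lend : ∀ (h : Bool) (r : List (Fin n)), Rn U (AL E.reverse (qL h) r) (AR E.reverse (qR h) r)
  /-- the number of cells of the left end which are left of the input word -/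
  o : ℕ
  ho : o ≤ E.length
  start : ∀ r : List (Fin n), Rn U (AR (List.replicate o 0) 0 (S ++ r)) (AR E.reverse (qR h0) r)
  rend0 : ∀ l : List (Fin n), l ≠ [] → Rn U (AR l (qR false) []) (AL l (qL false) [])
  rend1 : ∀ l : List (Fin n), l ≠ [] → Rn U (AR l (qR true) []) (AL l (qL true) (cr true))
  /-- the glyphs `A1`, `A0` receive a bit from the left and go to the right -/
  fA : ∀ (g : Gl) (h : Bool) (g' : Gl) (w : Bool), g.wp = true → yF g h = some (g', true, w) →
    ∀ l r : List (Fin n), l ≠ [] → Rp U (AR l (qR h) (F g ++ r)) (AR ((F g').reverse ++ l) (qR w) r)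
  /-- the glyphs `P0`, `P1` receive a bit from the right and go to the right -/
  fR : ∀ (g : Gl) (h : Bool) (g' : Gl) (w : Bool), g.wp = false → yF g h = some (g', true, w) →
    ∀ l r : List (Fin n), l ≠ [] →
      Rp U (AL ((F g).reverse ++ l) (qL h) r) (AR ((F g').reverse ++ l) (qR w) r)
  /-- the glyphs `P0`, `P1` receive a bit from the right and go to the left -/
  fL : ∀ (g : Gl) (h : Bool) (g' : Gl) (w : Bool), g.wp = false → yF g h = some (g', false, w) →
    ∀ l r : List (Fin n), l ≠ [] →
      Rp U (AL ((F g).reverse ++ l) (qL h) r) (AL l (qL w) (F g' ++ r))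
  halt : ∀ l r : List (Fin n), l ≠ [] → ∃ t : ℕ, ((step U)^[t] (AR l (qR false) (F Gl.A0 ++ r))).st = none ∧
    ((step U)^[t] (AR l (qR false) (F Gl.A0 ++ r))).tape = wordTape (l.reverse ++ (FH ++ r))

section

variable {k n : ℕ} [NeZero k] [NeZero n] {U : TM k n} (L : KLoc U)

/-- the cells left of the glyph -/
def KLoc.lw (p : List Bool) : List (Fin n) := (p.flatMap L.cl).reverse ++ L.E.reverse

/-- the configuration of the machine when the glyph receives the bit -/
def KLoc.C (c : YC) : Cfg k n :=
  if c.g.wp then AR (L.lw c.p) (L.qR c.h) (L.F c.g ++ c.d.flatMap L.cr)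
  else AL ((L.F c.g).reverse ++ L.lw c.p) (L.qL c.h) (c.d.flatMap L.cr)

/-- the input word -/
def KLoc.input (p d : List Bool) : List (Fin n) :=
  L.S ++ (p.flatMap L.cr ++ (L.F Gl.A1 ++ d.flatMap L.cr))

/-- the number of program cells can be read from the final tape -/
def KLoc.dec0 (w : List ℕ) : ℕ :=
  ((List.range w.length).map fun i =>
    decide (chk 0 L.m (w.drop (L.E.length - L.o)) i = (L.cl true).map (fun s : Fin n => (s : ℕ)) ∨
      chk 0 L.m (w.drop (L.E.length - L.o)) i = (L.cl false).map (fun s : Fin n => (s : ℕ)))).foldr
    (fun b a => if b then a + 1 else 0) 0 - L.s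

/-- the cells of the final tape -/
def KLoc.final (p d : List Bool) : List (Fin n) :=
  L.E ++ (p.flatMap L.cl ++ (L.FH ++ d.flatMap L.cr))

end

end P913
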