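import Pool.Agent.Lib.P913.KUni

/-!
# Machines which simulate the system K for programs ending with `2` and queues ending with two zeros

A variant of KUni: the last number of the program is `2` (the last number of a neutral row) and the data word ends with
two zeros.
-/

set_option autoImplicit false

namespace P913

namespace KUni2Aux

open KExiAux

theorem DD_zeros (N Y : ℕ) (x : ℕ × ℕ × ℕ) : ∃ v', DD N Y x = v' ++ [false, false] := by
  refine ⟨(List.replicate Y false ++ [true, true]) ++ ((List.replicate (gg N + 3 * x.1) false ++ [true, true]) ++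
    ((List.replicate (gg N + 3 * x.2.1) false ++ [true, true]) ++
      ((List.replicate (gg N + 3 * x.2.2) false ++ [true, true]) ++
        ((List.replicate (gg N) false ++ [true, true]) ++ List.replicate (gg N + 98) false)))), ?_⟩
  have h : List.replicate (gg N + 100) false = List.replicate (gg N + 98) false ++ [false, false] := by
    rw [show gg N + 100 = (gg N + 98) + 2 from rfl, ← List.replicate_append_replicate]
    rfl
  unfold DD
  rw [h]
  simp only [List.append_assoc]

/-- `exists_kk` with the form of the data word -/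
theorem exists_kk2 (f : ℕ →. ℕ) (hf : Nat.Partrec f) :
    ∃ (ks : List ℕ) (D : ℕ → List Bool), 2 ≤ (kflat ks).length ∧ Computable D ∧ ∀ v c : ℕ,
      2 ≤ (D v).length ∧ (∃ v', D v = v' ++ [false, false]) ∧
        (KHalts (ks ++ (List.replicate c nop).flatten) (D v ++ [true, true]) ↔ (f v).Dom) := by
  obtain ⟨Nb, B, q0, inp, hinp, hB⟩ := exists_bm f hf
  obtain ⟨m, P, ini, hP⟩ := bm_to_ct B
  refine ⟨(List.finRange (m + 1)).flatMap (slot P),
    fun v => DD (m + 1) (2 * gg (m + 1) + 3 * (m + 1) + 3)
      ((ini q0 (inp v).2.1 : ℕ), (inp v).1, (inp v).2.2), ?_, ?_, fun v c => ⟨DD_len _ _ _, DD_zeros _ _ _, ?_⟩⟩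
  · refine le_trans ?_ (kflat_len _)
    rw [List.finRange_succ, List.flatMap_cons, List.length_append]
    have := slot_len P 0
    omega
  · refine (DD_prim _ _).to_comp.comp ?_
    refine Computable.pair ?_ (Computable.pair (Computable.fst.comp hinp) ?_)
    · exact (Primrec.dom_finite (fun b : Bool => (ini q0 b : ℕ))).to_comp.comp
        (Computable.fst.comp (Computable.snd.comp hinp))
    · exact Computable.snd.comp (Computable.snd.comp hinp)
  · rw [DD_eq, ← hB v]
    have h1 := hP q0 (inp v).1 (inp v).2.1 (inp v).2.2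
    have h2 := kprog_halts P c (2 * gg (m + 1) + 3 * (m + 1) + 3)
      (ini q0 (inp v).2.1, (inp v).1, (inp v).2.2, 0) (Nat.le_add_right _ _)
    rw [← h1, ← h2]
    rfl

end KUni2Aux

open KUni2Aux

/-- the machine simulates the system K for programs ending with `2` and data words ending with two zeros -/
def KSim2 {k n : ℕ} [NeZero k] [NeZero n] (U : TM k n) : Prop :=
  ∃ (inp : List ℕ → List Bool → List (Fin n)) (dec0 : List ℕ → ℕ), Computable₂ inp ∧ Computable dec0 ∧
    ∀ (ks : List ℕ) (v : List Bool), (∃ ks', ks = ks' ++ [2]) → (∃ v', v = v' ++ [false, false]) →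
      (Halts U (inp ks v) ↔ KHalts ks (v ++ [true, true])) ∧
      ∀ T : ℤ → Fin n, Output U (inp ks v) T → ∃ w : List ℕ × List ℕ, IsCode w T ∧
        dec0 w.2 = (kflat ks).length - 1 ∧
          ∃ m ≤ w.2.length, (kround ks)^[m] (some (v ++ [true, true])) = none

private theorem kround_none (ks : List ℕ) (n : ℕ) : (kround ks)^[n] none = none := by
  induction n with
  | zero => rfl
  | succ n ih =>
    rw [Function.iterate_succ_apply]
    exact ih

private theorem nops_last (ks : List ℕ) (c : ℕ) :
    ∃ ks', ks ++ (List.replicate (c + 1) nop).flatten = ks' ++ [2] := by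
  refine ⟨ks ++ (List.replicate c nop).flatten ++ [7, 6, 5, 4, 3], ?_⟩
  rw [List.replicate_succ', List.flatten_append]
  simp [nop]

theorem universal_of_ksim2 {k n : ℕ} [NeZero k] [NeZero n] (U : TM k n) (h : KSim2 U) : Universal U := by
  refine universal_of_simF U fun F hF => ?_
  have hf : Partrec (fun c : ℕ => (F c).map fun _ => (0 : ℕ)) :=
    hF.map (Computable.const 0).to₂
  obtain ⟨ks, D, hlen, hD, hv⟩ := exists_kk2 _ (Partrec.nat_iff.mp hf)
  obtain ⟨inp, dec0, hinp, hdec0, hsim⟩ := h
  have hR : Computable fun c : ℕ => ks ++ (List.replicate (c + 1) nop).flatten :=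
    (Primrec.list_append.comp (Primrec.const ks) (nops_prim.comp Primrec.succ)).to_comp
  have hdom : ∀ c, KHalts (ks ++ (List.replicate (c + 1) nop).flatten) (D c ++ [true, true]) ↔
      (F c).Dom := fun c => (hv c (c + 1)).2.2
  have hD2 : Computable fun c : ℕ => D c ++ [true, true] :=
    Computable.list_append.comp hD (Computable.const [true, true])
  have hdiv : Primrec fun a : ℕ => (a + 1 - (kflat ks).length) / 33 - 1 :=
    Primrec.nat_sub.comp (Primrec.nat_div.comp (Primrec.nat_sub.comp Primrec.succ (Primrec.const _))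
      (Primrec.const 33)) (Primrec.const 1)
  refine ⟨fun c => inp (ks ++ (List.replicate (c + 1) nop).flatten) (D c),
    fun w => (dec0 w.2 + 1 - (kflat ks).length) / 33 - 1,
    fun p => ((kround (ks ++ (List.replicate (p.1 + 1) nop).flatten))^[p.2]
      (some (D p.1 ++ [true, true]))).isNone, hinp.comp hR hD,
    hdiv.to_comp.comp (hdec0.comp Computable.snd),
    rounds_prim.to_comp.comp (Computable.pair (hR.comp Computable.fst)
      (Computable.pair Computable.snd (hD2.comp Computable.fst))), ?_, ?_⟩
  · intro c N hc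
    exact (hdom c).mp ⟨N, Option.isNone_iff_eq_none.mp hc⟩
  · intro c
    have hlenR := kflat_nops ks (c + 1)
    obtain ⟨h1, h2⟩ := hsim (ks ++ (List.replicate (c + 1) nop).flatten) (D c) (nops_last ks c)
      (hv c (c + 1)).2.1
    refine ⟨h1.trans (hdom c), fun T hT => ?_⟩
    obtain ⟨w, hw, hdw, m, hm, hnone⟩ := h2 T hT
    refine ⟨w, hw, ?_, ?_⟩
    · change (dec0 w.2 + 1 - (kflat ks).length) / 33 - 1 = c
      rw [hdw, hlenR]
      omega
    · change ((kround (ks ++ (List.replicate (c + 1) nop).flatten))^[w.2.length]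
        (some (D c ++ [true, true]))).isNone = true
      have h3 : w.2.length = (w.2.length - m) + m := by omega
      rw [h3, Function.iterate_add_apply, hnone, kround_none]
      rfl

end P913
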