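import Pool.Agent.Lib.P913.KMach
import Pool.Agent.Lib.P913.KUni2

/-!
# Machines which execute the two rings simulate the system K, for both starts

If the first bit given to the glyph `A1` is `true`, then the machine starts in the middle of the last block `2` of the
program: the rings `1 0 K` and `0 0 v'` become `K 1 1` and `v' 0 0` after four steps, and the bit given to `A1` is then
`false`.
-/

set_option autoImplicit false

namespace P913

namespace KMach2Aux

theorem halted' (c : YC) (h : ystep c = none) (n : ℕ) : yiter n c = c := by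
  induction n with
  | zero => rfl
  | succ n ih =>
    rw [yiter_succ', ih, h]
    rfl

theorem yiter_add' (m n : ℕ) (c : YC) : yiter (m + n) c = yiter m (yiter n c) :=
  Function.iterate_add_apply _ m n c

theorem four (K v : List Bool) :
    yiter 4 ⟨Gl.A1, true, true :: false :: K, false :: false :: v⟩ =
      ⟨Gl.A1, false, (K ++ [true]) ++ [true], (v ++ [false]) ++ [false]⟩ := rfl

theorem shift {c0 c1 : YC} {j N : ℕ} (h : yiter j c0 = c1) (hN : ystep (yiter N c0) = none) :
    ∃ N', yiter N' c1 = yiter N c0 := by
  rcases Nat.le_total j N with hj | hj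
  · obtain ⟨i, rfl⟩ := Nat.exists_eq_add_of_le hj
    exact ⟨i, by rw [← h, Nat.add_comm j i, yiter_add']⟩
  · obtain ⟨i, rfl⟩ := Nat.exists_eq_add_of_le hj
    refine ⟨0, ?_⟩
    rw [Nat.add_comm N i, yiter_add', halted' _ hN] at h
    rw [← h]
    rfl

theorem kflat_two (ks : List ℕ) : (kflat (ks ++ [2])).dropLast = (kflat ks ++ [true]) ++ [true] := by
  have h : kflat (ks ++ [2]) = ((kflat ks ++ [true]) ++ [true]) ++ [false] := by
    simp [kflat, List.flatMap_append, List.replicate_succ]
  rw [h, List.dropLast_concat]

theorem kflat_two_len (ks : List ℕ) : (kflat (ks ++ [2])).length = (kflat ks).length + 3 := by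
  simp [kflat, List.flatMap_append]

end KMach2Aux

open KMach2Aux

section

variable {k n : ℕ} [NeZero k] [NeZero n] {U : TM k n}

theorem ksim2_of_ksim (h : KSim U) : KSim2 U := by
  obtain ⟨inp, dec, hinp, hdec, hU⟩ := h
  refine ⟨inp, dec, hinp, hdec, ?_⟩
  rintro ks v ⟨ks', rfl⟩ ⟨v', rfl⟩
  refine hU _ _ ?_ ?_
  · rw [kflat_two_len]
    omega
  · simp

theorem ksim2_of_simY_true (h : SimY U true) : KSim2 U := by
  obtain ⟨inp, dec, hinp, hdec, hU⟩ := h
  refine ⟨fun ks v => inp (true :: false :: kflat ks.dropLast) (false :: false :: v.dropLast.dropLast), dec,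
    ?_, hdec, ?_⟩
  · have hd : ∀ {α : Type} [Primcodable α], Primrec fun l : List α => l.dropLast := by
      intro α _
      have h1 : Primrec fun l : List α => l.reverse.tail.reverse :=
        Primrec.list_reverse.comp (Primrec.list_tail.comp Primrec.list_reverse)
      refine h1.of_eq fun l => ?_
      simp
    have h1 : Primrec fun p : List ℕ × List Bool => true :: false :: kflat p.1.dropLast :=
      Primrec.list_cons.comp (Primrec.const true) (Primrec.list_cons.comp (Primrec.const false)
        (kflat_prim.comp (hd.comp Primrec.fst)))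
    have h2 : Primrec fun p : List ℕ × List Bool => false :: false :: p.2.dropLast.dropLast :=
      Primrec.list_cons.comp (Primrec.const false) (Primrec.list_cons.comp (Primrec.const false)
        (hd.comp (hd.comp Primrec.snd)))
    exact hinp.comp h1.to_comp h2.to_comp
  · rintro ks v ⟨ks', rfl⟩ ⟨v', rfl⟩
    have ev : (v' ++ [false, false]).dropLast.dropLast = v' := by
      have : v' ++ [false, false] = (v' ++ [false]) ++ [false] := by simp
      rw [this, List.dropLast_concat, List.dropLast_concat]
    have e4 := four (kflat ks') v'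
    have ev2 : (v' ++ [false]) ++ [false] = v' ++ [false, false] := by simp
    rw [← kflat_two, ev2] at e4
    have hks : ks' ++ [2] ≠ [] := by simp
    obtain ⟨h1, h2⟩ := hU (true :: false :: kflat ks') (false :: false :: v') (by simp)
    simp only [List.dropLast_concat, ev]
    refine ⟨h1.trans (Iff.trans ⟨?_, ?_⟩ (KMachAux.Yhalts_iff (ks' ++ [2]) hks (v' ++ [false, false]))), ?_⟩
    · rintro ⟨N, hN⟩
      obtain ⟨N', hN'⟩ := shift e4 hN
      exact ⟨N', by rw [hN']; exact hN⟩
    · rintro ⟨N, hN⟩
      exact ⟨N + 4, by rw [yiter_add', e4]; exact hN⟩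
    · intro T hT
      obtain ⟨N, w, h3, h4, h5, h6⟩ := h2 T hT
      obtain ⟨N', hN'⟩ := shift e4 h3
      obtain ⟨m, hm1, hm2⟩ := KMachAux.Yhalts_bound (ks' ++ [2]) hks (v' ++ [false, false]) N' (by rw [hN']; exact h3)
      rw [hN'] at hm1
      refine ⟨w, h4, ?_, m, le_trans hm1 h6, hm2⟩
      rw [h5, kflat_two_len]
      simp only [List.length_cons]
      omega

/-- Machines with the local computations simulate the system K. -/
theorem ksim2_of_loc (L : KLoc U) : KSim2 U := by
  cases h : L.h0 with
  | false => exact ksim2_of_ksim (ksim_of_loc L h)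
  | true => exact ksim2_of_simY_true (h ▸ simY_of_loc L)

end

end P913
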