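import Pool.Agent.Lib.P913.KSlot

/-!
# Module KRound: one round of the program = at least one step of the counter machine

PROOF of `slots_run`.  `(List.finRange N).drop t` for `t < N` is `⟨t, _⟩ :: (List.finRange N).drop (t + 1)`
(`List.drop_eq_getElem_cons`, `List.getElem_finRange`).  Induction on `N - t`.  For `t = N` the list is empty, and
`(N + J) % N = J`.  For `t < N`: `slotsem P ⟨t, _⟩ J v`: if `J = J1 + 1`: `slot_some`, then the induction hypothesis with
`t + 1`, `J1`.  If `J = 0`: `s.1 = t` (as `t < N`), so `s = (t, v)`; if `ctStep P s = none` then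
`slot_none`, and `CtHalts P s` with `n = 0`; otherwise `ctStep P s = some s1`, `slot_some` gives
`J' = dst N t s1.1` and `(t + 1 + J') % N = s1.1`; induction hypothesis for `s1`, the number of steps grows by one
(`Function.iterate_succ_apply`).
`nops_run`: induction on `c` with `nop_run`.  `round_run`: `slots_run` with `t = 0`, `J = s.1`; `brun_append`.
-/

set_option autoImplicit false

namespace P913

variable {N : ℕ} (P : Fin N → CI (Fin N))

/-- the total step of a counter machine -/
def ctt (s : Fin N × ℕ × ℕ × ℕ) : Fin N × ℕ × ℕ × ℕ := (ctStep P s).getD s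

theorem slots_run (t : ℕ) (ht : t ≤ N) (Y J : ℕ) (v : ℕ × ℕ × ℕ) (q : Fin N) (hJ : J < N) (hq : (t + J) % N = q)
    (hY : 2 * gg N + 3 * N + 3 ≤ Y + 3 * J) :
    (brun (((List.finRange N).drop t).flatMap (slot P)) (rp N Y J v) = none ∧ CtHalts P (q, v)) ∨
      ∃ (Y' : ℕ) (s' : Fin N × ℕ × ℕ × ℕ) (j : ℕ), (t + J < N → 1 ≤ j) ∧ (ctt P)^[j] (q, v) = s' ∧
        (∀ i < j, ctStep P ((ctt P)^[i] (q, v)) ≠ none) ∧
        brun (((List.finRange N).drop t).flatMap (slot P)) (rp N Y J v) = some (rp N Y' s'.1 s'.2) ∧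
        2 * gg N + 3 * N + 3 ≤ Y' + 3 * s'.1 := by
  obtain ⟨k, hk⟩ : ∃ k, k = N - t := ⟨_, rfl⟩
  induction k generalizing t Y J v q with
  | zero =>
    have htN : t = N := by omega
    subst htN
    have hd : (List.finRange t).drop t = [] := by
      rw [List.drop_eq_nil_iff, List.length_finRange]
    have hqJ : (q : ℕ) = J := by
      rw [← hq, Nat.add_mod_left, Nat.mod_eq_of_lt hJ]
    right
    refine ⟨Y, (q, v), 0, fun h => by omega, rfl, fun i hi => by omega, ?_, ?_⟩
    · rw [hd]
      simp only [List.flatMap_nil, brun, hqJ]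
    · simp only [hqJ]
      exact hY
  | succ k ih =>
    have htN : t < N := by omega
    have hd : (List.finRange N).drop t = ⟨t, htN⟩ :: (List.finRange N).drop (t + 1) := by
      rw [List.drop_eq_getElem_cons (by rw [List.length_finRange]; exact htN)]
      simp
    rw [hd, List.flatMap_cons, brun_append]
    rcases J with _ | J1
    · -- `J = 0`
      have hqt : q = ⟨t, htN⟩ := by
        apply Fin.ext
        rw [← hq, Nat.add_zero, Nat.mod_eq_of_lt htN]
      subst hqt
      rcases hs : ctStep P (⟨t, htN⟩, v) with _ | s1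
      · left
        have hsem : slotsem P ⟨t, htN⟩ 0 v = none := by
          simp only [slotsem, hs, Option.map_none]
        have h1 := slot_none P ⟨t, htN⟩ Y 0 v hJ hY hsem
        refine ⟨?_, 0, ?_⟩
        · rw [h1]
          rfl
        · exact hs
      · have hsem : slotsem P ⟨t, htN⟩ 0 v = some (dst N t s1.1, s1.2) := by
          simp only [slotsem, hs, Option.map_some]
        obtain ⟨hJ', Y1, hb, hY1⟩ := slot_some P ⟨t, htN⟩ Y 0 _ v _ hJ hY hsem
        have hq1 : (t + 1 + dst N t s1.1) % N = s1.1 := by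
          have h2 : (s1.1 : ℕ) < N := s1.1.isLt
          unfold dst
          rw [Nat.add_mod_mod]
          have h3 : t + 1 + ((s1.1 : ℕ) + N - (t + 1)) = s1.1 + N := by omega
          rw [h3, Nat.add_mod_right, Nat.mod_eq_of_lt h2]
        have hct : ctt P (⟨t, htN⟩, v) = s1 := by
          unfold ctt
          rw [hs]
          rfl
        rw [hb, Option.bind_some]
        rcases ih (t + 1) (by omega) Y1 (dst N t s1.1) s1.2 s1.1 hJ' hq1 (by omega) (by omega) with
          ⟨h1, n, hn⟩ | ⟨Y2, s2, j, _, hj2, hj3, hj4, hj5⟩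
        · left
          refine ⟨h1, n + 1, ?_⟩
          rw [Function.iterate_succ_apply]
          have h4 : (ctStep P (⟨t, htN⟩, v)).getD (⟨t, htN⟩, v) = s1 := hct
          rw [h4]
          exact hn
        · right
          refine ⟨Y2, s2, j + 1, fun _ => by omega, ?_, ?_, hj4, hj5⟩
          · rw [Function.iterate_succ_apply, hct]
            exact hj2
          · intro i hi
            rcases i with _ | i
            · rw [Function.iterate_zero, id, hs]
              exact Option.some_ne_none s1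
            · rw [Function.iterate_succ_apply, hct]
              exact hj3 i (by omega)
    · -- `J = J1 + 1`
      have hsem : slotsem P ⟨t, htN⟩ (J1 + 1) v = some (J1, v) := rfl
      obtain ⟨hJ', Y1, hb, hY1⟩ := slot_some P ⟨t, htN⟩ Y (J1 + 1) _ v _ hJ hY hsem
      rw [hb, Option.bind_some]
      have hq1 : (t + 1 + J1) % N = q := by
        rw [← hq]
        congr 1
        omega
      rcases ih (t + 1) (by omega) Y1 J1 v q hJ' hq1 (by omega) (by omega) with
        h1 | ⟨Y2, s2, j, hj1, hj2, hj3, hj4, hj5⟩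
      · left
        exact h1
      · right
        exact ⟨Y2, s2, j, fun h => hj1 (by omega), hj2, hj3, hj4, hj5⟩

theorem nops_run (c Y J : ℕ) (v : ℕ × ℕ × ℕ) (hJ : J < N) (hY : 2 * gg N + 3 * N + 3 ≤ Y + 3 * J) :
    brun (List.replicate c nop).flatten (rp N Y J v) = some (rp N (Y + 6 * c) J v) := by
  induction c generalizing Y with
  | zero => rfl
  | succ c ih =>
    rw [List.replicate_succ, List.flatten_cons, brun_append, nop_run N Y J v (by omega),
      Option.bind_some, ih (Y + 6) (by omega)]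
    congr 2
    ring

theorem round_run (c Y : ℕ) (s : Fin N × ℕ × ℕ × ℕ) (hY : 2 * gg N + 3 * N + 3 ≤ Y + 3 * s.1) :
    (brun (kprog P c) (rp N Y s.1 s.2) = none ∧ CtHalts P s) ∨
      ∃ (Y' : ℕ) (s' : Fin N × ℕ × ℕ × ℕ) (j : ℕ), 1 ≤ j ∧ (ctt P)^[j] s = s' ∧
        (∀ i < j, ctStep P ((ctt P)^[i] s) ≠ none) ∧
        brun (kprog P c) (rp N Y s.1 s.2) = some (rp N Y' s'.1 s'.2) ∧
        2 * gg N + 3 * N + 3 ≤ Y' + 3 * s'.1 := by
  unfold kprog
  rw [brun_append]
  have hs : (s.1 : ℕ) < N := s.1.isLt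
  have h0 := slots_run P 0 (Nat.zero_le N) Y s.1 s.2 s.1 hs
    (by rw [Nat.zero_add, Nat.mod_eq_of_lt hs]) hY
  rw [List.drop_zero] at h0
  rcases h0 with ⟨h1, h2⟩ | ⟨Y2, s2, j, hj1, hj2, hj3, hj4, hj5⟩
  · left
    refine ⟨?_, h2⟩
    rw [h1]
    rfl
  · right
    refine ⟨Y2 + 6 * c, s2, j, hj1 (by omega), hj2, hj3, ?_, by omega⟩
    rw [hj4, Option.bind_some]
    exact nops_run c Y2 s2.1 s2.2 s2.1.isLt hj5

end P913
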