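import Pool.Agent.Lib.P913.KRw

/-!
# Module KRowN: first rows, the tested gap is large
-/

set_option autoImplicit false

namespace P913

theorem r1n1 (bs : List ℕ) (c0 c1 c2 c3 c4 c5 k3 k4 k5 k6 k7 l : ℕ) (h1 : 1 ≤ l) (h2 : l ≤ c1) (h3 : 2 ≤ k3)
    (h4 : k3 ≤ c2 + 1) (h5 : 2 ≤ k4) (h6 : k4 ≤ c3 + 1) (h7 : 2 ≤ k5) (h8 : k5 ≤ c4 + 1) (h9 : 2 ≤ k6) (h10 : k6
    ≤ c5 + 1) (h11 : 2 ≤ k7) (h12 : k7 ≤ c0 + 1) :
    brun (0 :: l :: k3 :: k4 :: k5 :: k6 :: k7 :: bs) (qu [c0, c1, c2, c3, c4, c5]) =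
      brun bs (qu [c0 + 1 - k7, l, c1 - l + k3, c2 + 1 - k3 + k4, c3 + 1 - k4 + k5, c4 + 1 - k5 + k6, c5 + 1 - k6 + k7]) := by
  rw [b0]
  simp only [List.cons_append, List.nil_append]
  rw [bF _ _ _ _ (by omega) (by omega)]
  simp only [List.cons_append, List.nil_append]
  rw [bM _ _ _ _ _ (by omega) (by omega)]
  simp only [List.cons_append, List.nil_append]
  rw [bM _ _ _ _ _ (by omega) (by omega)]
  simp only [List.cons_append, List.nil_append]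
  rw [bM _ _ _ _ _ (by omega) (by omega)]
  simp only [List.cons_append, List.nil_append]
  rw [bM _ _ _ _ _ (by omega) (by omega)]
  simp only [List.cons_append, List.nil_append]
  rw [bM _ _ _ _ _ (by omega) (by omega)]
  simp only [List.cons_append, List.nil_append]

theorem r1n2 (bs : List ℕ) (c0 c1 c2 c3 c4 c5 k1 k4 k5 k6 k7 l : ℕ) (h1 : 2 ≤ k1) (h2 : k1 ≤ c1 + 1) (h3 : 1
    ≤ l) (h4 : l ≤ c2) (h5 : 2 ≤ k4) (h6 : k4 ≤ c3 + 1) (h7 : 2 ≤ k5) (h8 : k5 ≤ c4 + 1) (h9 : 2 ≤ k6) (h10 : k6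
    ≤ c5 + 1) (h11 : 2 ≤ k7) (h12 : k7 ≤ c0 + k1 + 1) :
    brun (k1 :: 0 :: l :: k4 :: k5 :: k6 :: k7 :: bs) (qu [c0, c1, c2, c3, c4, c5]) =
      brun bs (qu [c0 + k1 + 1 - k7, c1 + 1 - k1, l, c2 - l + k4, c3 + 1 - k4 + k5, c4 + 1 - k5 + k6, c5 + 1 - k6 + k7]) := by
  rw [bM _ _ _ _ _ (by omega) (by omega)]
  simp only [List.cons_append, List.nil_append]
  rw [b0]
  simp only [List.cons_append, List.nil_append]
  rw [bF _ _ _ _ (by omega) (by omega)]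
  simp only [List.cons_append, List.nil_append]
  rw [bM _ _ _ _ _ (by omega) (by omega)]
  simp only [List.cons_append, List.nil_append]
  rw [bM _ _ _ _ _ (by omega) (by omega)]
  simp only [List.cons_append, List.nil_append]
  rw [bM _ _ _ _ _ (by omega) (by omega)]
  simp only [List.cons_append, List.nil_append]
  rw [bM _ _ _ _ _ (by omega) (by omega)]
  simp only [List.cons_append, List.nil_append]

theorem r1n3 (bs : List ℕ) (c0 c1 c2 c3 c4 c5 k1 k2 k5 k6 k7 l : ℕ) (h1 : 2 ≤ k1) (h2 : k1 ≤ c1 + 1) (h3 : 2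
    ≤ k2) (h4 : k2 ≤ c2 + 1) (h5 : 1 ≤ l) (h6 : l ≤ c3) (h7 : 2 ≤ k5) (h8 : k5 ≤ c4 + 1) (h9 : 2 ≤ k6) (h10 : k6
    ≤ c5 + 1) (h11 : 2 ≤ k7) (h12 : k7 ≤ c0 + k1 + 1) :
    brun (k1 :: k2 :: 0 :: l :: k5 :: k6 :: k7 :: bs) (qu [c0, c1, c2, c3, c4, c5]) =
      brun bs (qu [c0 + k1 + 1 - k7, c1 + 1 - k1 + k2, c2 + 1 - k2, l, c3 - l + k5, c4 + 1 - k5 + k6, c5 + 1 - k6 + k7]) := by
  rw [bM _ _ _ _ _ (by omega) (by omega)]
  simp only [List.cons_append, List.nil_append]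
  rw [bM _ _ _ _ _ (by omega) (by omega)]
  simp only [List.cons_append, List.nil_append]
  rw [b0]
  simp only [List.cons_append, List.nil_append]
  rw [bF _ _ _ _ (by omega) (by omega)]
  simp only [List.cons_append, List.nil_append]
  rw [bM _ _ _ _ _ (by omega) (by omega)]
  simp only [List.cons_append, List.nil_append]
  rw [bM _ _ _ _ _ (by omega) (by omega)]
  simp only [List.cons_append, List.nil_append]
  rw [bM _ _ _ _ _ (by omega) (by omega)]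
  simp only [List.cons_append, List.nil_append]

theorem r1n4 (bs : List ℕ) (c0 c1 c2 c3 c4 c5 k1 k2 k3 k6 k7 l : ℕ) (h1 : 2 ≤ k1) (h2 : k1 ≤ c1 + 1) (h3 : 2
    ≤ k2) (h4 : k2 ≤ c2 + 1) (h5 : 2 ≤ k3) (h6 : k3 ≤ c3 + 1) (h7 : 1 ≤ l) (h8 : l ≤ c4) (h9 : 2 ≤ k6) (h10 : k6
    ≤ c5 + 1) (h11 : 2 ≤ k7) (h12 : k7 ≤ c0 + k1 + 1) :
    brun (k1 :: k2 :: k3 :: 0 :: l :: k6 :: k7 :: bs) (qu [c0, c1, c2, c3, c4, c5]) =
      brun bs (qu [c0 + k1 + 1 - k7, c1 + 1 - k1 + k2, c2 + 1 - k2 + k3, c3 + 1 - k3, l, c4 - l + k6, c5 + 1 - k6 + k7]) := by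
  rw [bM _ _ _ _ _ (by omega) (by omega)]
  simp only [List.cons_append, List.nil_append]
  rw [bM _ _ _ _ _ (by omega) (by omega)]
  simp only [List.cons_append, List.nil_append]
  rw [bM _ _ _ _ _ (by omega) (by omega)]
  simp only [List.cons_append, List.nil_append]
  rw [b0]
  simp only [List.cons_append, List.nil_append]
  rw [bF _ _ _ _ (by omega) (by omega)]
  simp only [List.cons_append, List.nil_append]
  rw [bM _ _ _ _ _ (by omega) (by omega)]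
  simp only [List.cons_append, List.nil_append]
  rw [bM _ _ _ _ _ (by omega) (by omega)]
  simp only [List.cons_append, List.nil_append]

end P913
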