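import Pool.Agent.Lib.P913.KRw

/-!
# Module KRowP: second rows, the extra particle is removed
-/

set_option autoImplicit false

namespace P913

theorem r2n1 (bs : List ℕ) (c0 c1 c2 c3 c4 c5 c6 k1 k2 k3 k4 l : ℕ) (h1 : c1 + 4 ≤ k1) (h2 : k1 ≤ c1 + 3 +
    c2) (h3 : 2 ≤ k2) (h4 : k2 ≤ c3 + 1) (h5 : 2 ≤ k3) (h6 : k3 ≤ c4 + 1) (h7 : 2 ≤ k4) (h8 : k4 ≤ c5 + 1) (h9 :
    c6 + 3 ≤ l) (h10 : l ≤ c6 + 2 + c0 + k1) :
    brun (k1 :: k2 :: k3 :: k4 :: 0 :: l :: bs) (qu [c0, c1, c2, c3, c4, c5, c6]) =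
      brun bs (qu [c6 + 2 + c0 + k1 - l, c1 + 3 + c2 - k1 + k2, c3 + 1 - k2 + k3, c4 + 1 - k3 + k4, c5 + 1 - k4, l]) := by
  rw [bP _ _ _ _ _ _ (by omega) (by omega)]
  simp only [List.cons_append, List.nil_append]
  rw [bM _ _ _ _ _ (by omega) (by omega)]
  simp only [List.cons_append, List.nil_append]
  rw [bM _ _ _ _ _ (by omega) (by omega)]
  simp only [List.cons_append, List.nil_append]
  rw [bM _ _ _ _ _ (by omega) (by omega)]
  simp only [List.cons_append, List.nil_append]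
  rw [b0]
  simp only [List.cons_append, List.nil_append]
  rw [bC _ _ _ _ _ (by omega) (by omega)]
  simp only [List.cons_append, List.nil_append]
  congr 3
  omega

theorem r2n2 (bs : List ℕ) (c0 c1 c2 c3 c4 c5 c6 k1 k2 k3 k4 l : ℕ) (h1 : 2 ≤ k1) (h2 : k1 ≤ c1 + 1) (h3 :
    c2 + 4 ≤ k2) (h4 : k2 ≤ c2 + 3 + c3) (h5 : 2 ≤ k3) (h6 : k3 ≤ c4 + 1) (h7 : 2 ≤ k4) (h8 : k4 ≤ c5 + 1) (h9 :
    c6 + 3 ≤ l) (h10 : l ≤ c6 + 2 + c0 + k1) :
    brun (k1 :: k2 :: k3 :: k4 :: 0 :: l :: bs) (qu [c0, c1, c2, c3, c4, c5, c6]) =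
      brun bs (qu [c6 + 2 + c0 + k1 - l, c1 + 1 - k1 + k2, c2 + 3 + c3 - k2 + k3, c4 + 1 - k3 + k4, c5 + 1 - k4, l]) := by
  rw [bM _ _ _ _ _ (by omega) (by omega)]
  simp only [List.cons_append, List.nil_append]
  rw [bP _ _ _ _ _ _ (by omega) (by omega)]
  simp only [List.cons_append, List.nil_append]
  rw [bM _ _ _ _ _ (by omega) (by omega)]
  simp only [List.cons_append, List.nil_append]
  rw [bM _ _ _ _ _ (by omega) (by omega)]
  simp only [List.cons_append, List.nil_append]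
  rw [b0]
  simp only [List.cons_append, List.nil_append]
  rw [bC _ _ _ _ _ (by omega) (by omega)]
  simp only [List.cons_append, List.nil_append]
  congr 3
  omega

theorem r2n3 (bs : List ℕ) (c0 c1 c2 c3 c4 c5 c6 k1 k2 k3 k4 l : ℕ) (h1 : 2 ≤ k1) (h2 : k1 ≤ c1 + 1) (h3 : 2
    ≤ k2) (h4 : k2 ≤ c2 + 1) (h5 : c3 + 4 ≤ k3) (h6 : k3 ≤ c3 + 3 + c4) (h7 : 2 ≤ k4) (h8 : k4 ≤ c5 + 1) (h9 :
    c6 + 3 ≤ l) (h10 : l ≤ c6 + 2 + c0 + k1) :
    brun (k1 :: k2 :: k3 :: k4 :: 0 :: l :: bs) (qu [c0, c1, c2, c3, c4, c5, c6]) =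
      brun bs (qu [c6 + 2 + c0 + k1 - l, c1 + 1 - k1 + k2, c2 + 1 - k2 + k3, c3 + 3 + c4 - k3 + k4, c5 + 1 - k4, l]) := by
  rw [bM _ _ _ _ _ (by omega) (by omega)]
  simp only [List.cons_append, List.nil_append]
  rw [bM _ _ _ _ _ (by omega) (by omega)]
  simp only [List.cons_append, List.nil_append]
  rw [bP _ _ _ _ _ _ (by omega) (by omega)]
  simp only [List.cons_append, List.nil_append]
  rw [bM _ _ _ _ _ (by omega) (by omega)]
  simp only [List.cons_append, List.nil_append]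
  rw [b0]
  simp only [List.cons_append, List.nil_append]
  rw [bC _ _ _ _ _ (by omega) (by omega)]
  simp only [List.cons_append, List.nil_append]
  congr 3
  omega

theorem r2n4 (bs : List ℕ) (c0 c1 c2 c3 c4 c5 c6 k1 k2 k3 k4 l : ℕ) (h1 : 2 ≤ k1) (h2 : k1 ≤ c1 + 1) (h3 : 2
    ≤ k2) (h4 : k2 ≤ c2 + 1) (h5 : 2 ≤ k3) (h6 : k3 ≤ c3 + 1) (h7 : c4 + 4 ≤ k4) (h8 : k4 ≤ c4 + 3 + c5) (h9 :
    c6 + 3 ≤ l) (h10 : l ≤ c6 + 2 + c0 + k1) :
    brun (k1 :: k2 :: k3 :: k4 :: 0 :: l :: bs) (qu [c0, c1, c2, c3, c4, c5, c6]) =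
      brun bs (qu [c6 + 2 + c0 + k1 - l, c1 + 1 - k1 + k2, c2 + 1 - k2 + k3, c3 + 1 - k3 + k4, c4 + 3 + c5 - k4, l]) := by
  rw [bM _ _ _ _ _ (by omega) (by omega)]
  simp only [List.cons_append, List.nil_append]
  rw [bM _ _ _ _ _ (by omega) (by omega)]
  simp only [List.cons_append, List.nil_append]
  rw [bM _ _ _ _ _ (by omega) (by omega)]
  simp only [List.cons_append, List.nil_append]
  rw [bP _ _ _ _ _ _ (by omega) (by omega)]
  simp only [List.cons_append, List.nil_append]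
  rw [b0]
  simp only [List.cons_append, List.nil_append]
  rw [bC _ _ _ _ _ (by omega) (by omega)]
  simp only [List.cons_append, List.nil_append]
  congr 3
  omega

end P913
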