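import Pool.Agent.Lib.P913.KRw

/-!
# Module KRowZ: first rows, the tested gap is small
-/

set_option autoImplicit false

namespace P913

theorem r1z1 (bs : List ℕ) (c0 c1 c2 c3 c4 c5 k3 k4 k5 k6 l : ℕ) (h1 : c1 + 3 ≤ l) (h2 : l ≤ c1 + 2 + c2)
    (h3 : 2 ≤ k3) (h4 : k3 ≤ c3 + 1) (h5 : 2 ≤ k4) (h6 : k4 ≤ c4 + 1) (h7 : 2 ≤ k5) (h8 : k5 ≤ c5 + 1) (h9 : 2 ≤
    k6) (h10 : k6 ≤ c0 + 1) :
    brun (0 :: l :: k3 :: k4 :: k5 :: k6 :: bs) (qu [c0, c1, c2, c3, c4, c5]) =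
      brun bs (qu [c0 + 1 - k6, l, c1 + 2 + c2 - l + k3, c3 + 1 - k3 + k4, c4 + 1 - k4 + k5, c5 + 1 - k5 + k6]) := by
  rw [b0]
  simp only [List.cons_append, List.nil_append]
  rw [bC _ _ _ _ _ (by omega) (by omega)]
  simp only [List.cons_append, List.nil_append]
  rw [bM _ _ _ _ _ (by omega) (by omega)]
  simp only [List.cons_append, List.nil_append]
  rw [bM _ _ _ _ _ (by omega) (by omega)]
  simp only [List.cons_append, List.nil_append]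
  rw [bM _ _ _ _ _ (by omega) (by omega)]
  simp only [List.cons_append, List.nil_append]
  rw [bM _ _ _ _ _ (by omega) (by omega)]
  simp only [List.cons_append, List.nil_append]

theorem r1z2 (bs : List ℕ) (c0 c1 c2 c3 c4 c5 k1 k4 k5 k6 l : ℕ) (h1 : 2 ≤ k1) (h2 : k1 ≤ c1 + 1) (h3 : c2 +
    3 ≤ l) (h4 : l ≤ c2 + 2 + c3) (h5 : 2 ≤ k4) (h6 : k4 ≤ c4 + 1) (h7 : 2 ≤ k5) (h8 : k5 ≤ c5 + 1) (h9 : 2 ≤
    k6) (h10 : k6 ≤ c0 + k1 + 1) :
    brun (k1 :: 0 :: l :: k4 :: k5 :: k6 :: bs) (qu [c0, c1, c2, c3, c4, c5]) =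
      brun bs (qu [c0 + k1 + 1 - k6, c1 + 1 - k1, l, c2 + 2 + c3 - l + k4, c4 + 1 - k4 + k5, c5 + 1 - k5 + k6]) := by
  rw [bM _ _ _ _ _ (by omega) (by omega)]
  simp only [List.cons_append, List.nil_append]
  rw [b0]
  simp only [List.cons_append, List.nil_append]
  rw [bC _ _ _ _ _ (by omega) (by omega)]
  simp only [List.cons_append, List.nil_append]
  rw [bM _ _ _ _ _ (by omega) (by omega)]
  simp only [List.cons_append, List.nil_append]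
  rw [bM _ _ _ _ _ (by omega) (by omega)]
  simp only [List.cons_append, List.nil_append]
  rw [bM _ _ _ _ _ (by omega) (by omega)]
  simp only [List.cons_append, List.nil_append]

theorem r1z3 (bs : List ℕ) (c0 c1 c2 c3 c4 c5 k1 k2 k5 k6 l : ℕ) (h1 : 2 ≤ k1) (h2 : k1 ≤ c1 + 1) (h3 : 2 ≤
    k2) (h4 : k2 ≤ c2 + 1) (h5 : c3 + 3 ≤ l) (h6 : l ≤ c3 + 2 + c4) (h7 : 2 ≤ k5) (h8 : k5 ≤ c5 + 1) (h9 : 2 ≤
    k6) (h10 : k6 ≤ c0 + k1 + 1) :
    brun (k1 :: k2 :: 0 :: l :: k5 :: k6 :: bs) (qu [c0, c1, c2, c3, c4, c5]) =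
      brun bs (qu [c0 + k1 + 1 - k6, c1 + 1 - k1 + k2, c2 + 1 - k2, l, c3 + 2 + c4 - l + k5, c5 + 1 - k5 + k6]) := by
  rw [bM _ _ _ _ _ (by omega) (by omega)]
  simp only [List.cons_append, List.nil_append]
  rw [bM _ _ _ _ _ (by omega) (by omega)]
  simp only [List.cons_append, List.nil_append]
  rw [b0]
  simp only [List.cons_append, List.nil_append]
  rw [bC _ _ _ _ _ (by omega) (by omega)]
  simp only [List.cons_append, List.nil_append]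
  rw [bM _ _ _ _ _ (by omega) (by omega)]
  simp only [List.cons_append, List.nil_append]
  rw [bM _ _ _ _ _ (by omega) (by omega)]
  simp only [List.cons_append, List.nil_append]

theorem r1z4 (bs : List ℕ) (c0 c1 c2 c3 c4 c5 k1 k2 k3 k6 l : ℕ) (h1 : 2 ≤ k1) (h2 : k1 ≤ c1 + 1) (h3 : 2 ≤
    k2) (h4 : k2 ≤ c2 + 1) (h5 : 2 ≤ k3) (h6 : k3 ≤ c3 + 1) (h7 : c4 + 3 ≤ l) (h8 : l ≤ c4 + 2 + c5) (h9 : 2 ≤
    k6) (h10 : k6 ≤ c0 + k1 + 1) :
    brun (k1 :: k2 :: k3 :: 0 :: l :: k6 :: bs) (qu [c0, c1, c2, c3, c4, c5]) =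
      brun bs (qu [c0 + k1 + 1 - k6, c1 + 1 - k1 + k2, c2 + 1 - k2 + k3, c3 + 1 - k3, l, c4 + 2 + c5 - l + k6]) := by
  rw [bM _ _ _ _ _ (by omega) (by omega)]
  simp only [List.cons_append, List.nil_append]
  rw [bM _ _ _ _ _ (by omega) (by omega)]
  simp only [List.cons_append, List.nil_append]
  rw [bM _ _ _ _ _ (by omega) (by omega)]
  simp only [List.cons_append, List.nil_append]
  rw [b0]
  simp only [List.cons_append, List.nil_append]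
  rw [bC _ _ _ _ _ (by omega) (by omega)]
  simp only [List.cons_append, List.nil_append]
  rw [bM _ _ _ _ _ (by omega) (by omega)]
  simp only [List.cons_append, List.nil_append]

end P913
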