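import Pool.Agent.Lib.P913.KSys

/-!
# The segments of the program

Six particles `1 1` with the gaps `Y` (dump), `J`, `a`, `b`, `c` (registers, the value `x` is the gap `gg N + 3 x`), and a
service gap.  `seg1` tests `J`: if `J = 0` then `J += D + w - 1` and the counters are increased by `u2, u3, u4`; if `J > 0`
then `J += w - 1` and the counters are increased by `v2, v3, v4`.  With `h = 1` the system halts if `J = 0`.
`seg2`, `seg3`, `seg4` test the counters `a`, `b`, `c`: if the counter is `0` then `J += D`, else the counter is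
decreased.
-/

set_option autoImplicit false

namespace P913

/-- test of `J` -/
def seg1 (N h D w u2 u3 u4 v2 v3 v4 : ℕ) : List ℕ :=
  [0, gg N + 3 - h, 15, 21 + 3 * v2 - 3 * u2, 27 + 6 * v2 + 3 * v3 - 6 * u2 - 3 * u3,
    gg N + 33 + 9 * v2 + 6 * v3 + 3 * v4 - 9 * u2 - 6 * u3 - 3 * u4,
    gg N - 3 * D, gg N + 7, gg N, gg N, gg N, 0,
    gg N + 108 + 3 * v2 + 3 * v3 + 3 * v4 - 3 * u2 - 3 * u3 - 3 * u4,
    gg N, gg N, gg N, gg N, gg N,
    gg N + 112 + 3 * v2 + 3 * v3 + 3 * v4 - 3 * u2 - 3 * u3 - 3 * u4,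
    170 + 12 * v2 + 9 * v3 + 6 * v4 - 15 * u2 - 12 * u3 - 9 * u4 - 3 * w,
    154 + 12 * v2 + 9 * v3 + 6 * v4 - 15 * u2 - 12 * u3 - 9 * u4,
    144 + 12 * v2 + 9 * v3 + 6 * v4 - 12 * u2 - 12 * u3 - 9 * u4,
    134 + 9 * v2 + 9 * v3 + 6 * v4 - 9 * u2 - 9 * u3 - 9 * u4,
    124 + 6 * v2 + 6 * v3 + 6 * v4 - 6 * u2 - 6 * u3 - 6 * u4, 2]

/-- test of `a` -/
def seg2 (N D : ℕ) : List ℕ :=
  [2, 0, gg N + 3, 12, 15, gg N + 18, gg N - 7 - 3 * D, gg N, gg N + 7, gg N, gg N, 0, gg N + 105,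
    gg N, gg N, gg N, gg N, gg N, gg N + 109, 154, 145, 132, 125, 118, 2]

/-- test of `b` -/
def seg3 (N D : ℕ) : List ℕ :=
  [3, 2, 0, gg N + 3, 12, gg N + 15, gg N - 14 - 3 * D, gg N - 7, gg N, gg N + 7, gg N, 0, gg N + 105,
    gg N, gg N, gg N, gg N, gg N, gg N + 109, 157, 147, 138, 125, 118, 2]

/-- test of `c` -/
def seg4 (N D : ℕ) : List ℕ :=
  [4, 3, 2, 0, gg N + 3, gg N + 12, gg N - 21 - 3 * D, gg N - 14, gg N - 7, gg N, gg N + 7, 0, gg N + 105,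
    gg N, gg N, gg N, gg N, gg N, gg N + 109, 160, 150, 140, 131, 118, 2]

end P913
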