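import Pool.Agent.Lib.P913.KRowM
import Pool.Agent.Lib.P913.KRowZ
import Pool.Agent.Lib.P913.KRowN
import Pool.Agent.Lib.P913.KRowP

/-!
# Module KSt3: the segment which tests the counter `b`
-/

set_option autoImplicit false

namespace P913

theorem seg3_zero (N D Y J a c : ℕ) (hD : D ≤ N) (hY : 2 * gg N ≤ Y) :
    brun (seg3 N D) (rp N Y J (a, 0, c)) = some (rp N (Y + 25 - 3 * D) (J + D) (a, 0, c)) := by
  have hG : gg N = 3 * N + 400 := rfl
  unfold seg3 rp
  generalize gg N = G at *
  simp only [Nat.mul_zero, Nat.add_zero]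
  rw [r1z3 _ _ _ _ _ _ _ _ _ _ _ _ (by omega) (by omega) (by omega) (by omega) (by omega) (by omega) (by omega) (by omega) (by omega) (by omega)]
  rw [r2z _ _ _ _ _ _ _ _ _ _ _ _ _ (by omega) (by omega) (by omega) (by omega) (by omega) (by omega) (by omega) (by omega) (by omega) (by omega) (by omega) (by omega)]
  rw [r3z _ _ _ _ _ _ _ _ _ _ _ _ _ _ (by omega) (by omega) (by omega) (by omega) (by omega) (by omega) (by omega) (by omega) (by omega) (by omega) (by omega) (by omega)]
  rw [rowM _ _ _ _ _ _ _ _ _ _ _ _ _ (by omega) (by omega) (by omega) (by omega) (by omega) (by omega) (by omega) (by omega) (by omega) (by omega) (by omega) (by omega)]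
  simp only [brun, Option.some.injEq]
  congr 1
  simp only [List.cons.injEq, and_true]
  refine ⟨?_, ?_, ?_, ?_, ?_, ?_⟩ <;> omega

theorem seg3_pos (N D Y J a b c : ℕ) (hD : D ≤ N) (hY : 2 * gg N ≤ Y) :
    brun (seg3 N D) (rp N Y J (a, b + 1, c)) = some (rp N (Y + 28) J (a, b, c)) := by
  have hG : gg N = 3 * N + 400 := rfl
  unfold seg3 rp
  generalize gg N = G at *
  dsimp only
  rw [r1n3 _ _ _ _ _ _ _ _ _ _ _ _ _ (by omega) (by omega) (by omega) (by omega) (by omega) (by omega) (by omega) (by omega) (by omega) (by omega) (by omega) (by omega)]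
  rw [r2n3 _ _ _ _ _ _ _ _ _ _ _ _ _ (by omega) (by omega) (by omega) (by omega) (by omega) (by omega) (by omega) (by omega) (by omega) (by omega)]
  rw [rowM _ _ _ _ _ _ _ _ _ _ _ _ _ (by omega) (by omega) (by omega) (by omega) (by omega) (by omega) (by omega) (by omega) (by omega) (by omega) (by omega) (by omega)]
  rw [rowM _ _ _ _ _ _ _ _ _ _ _ _ _ (by omega) (by omega) (by omega) (by omega) (by omega) (by omega) (by omega) (by omega) (by omega) (by omega) (by omega) (by omega)]
  simp only [brun, Option.some.injEq]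
  congr 1
  simp only [List.cons.injEq, and_true]
  refine ⟨?_, ?_, ?_, ?_, ?_, ?_⟩ <;> omega

end P913
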