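import Pool.Agent.Lib.P913.KSt1
import Pool.Agent.Lib.P913.KSt2
import Pool.Agent.Lib.P913.KSt3
import Pool.Agent.Lib.P913.KSt4

/-!
# Slots: the program of a counter machine

The control points are `0, ..., N - 1`, one slot for each; the register `J` is the number of slots to be skipped
until the slot of the current control point.
-/

set_option autoImplicit false

namespace P913

/-- the number of slots which are skipped from the slot `t` to the slot `q` -/
def dst (N t q : ℕ) : ℕ := (q + N - (t + 1)) % N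

/-- the slot of the control point `t` -/
def slot {N : ℕ} (P : Fin N → CI (Fin N)) (t : Fin N) : List ℕ :=
  match P t with
  | .go q => seg1 N 0 (dst N t q + 1) 0 0 0 0 0 0 0
  | .inc .a q => seg1 N 0 (dst N t q + 1) 0 1 0 0 0 0 0
  | .inc .b q => seg1 N 0 (dst N t q + 1) 0 0 1 0 0 0 0
  | .inc .c q => seg1 N 0 (dst N t q + 1) 0 0 0 1 0 0 0
  | .dec .a q0 q1 => seg1 N 0 0 1 0 0 0 1 0 0 ++
      (seg2 N (dst N t q0 + 1) ++ seg1 N 0 (dst N t q1 + 1) 0 0 0 0 0 0 0)
  | .dec .b q0 q1 => seg1 N 0 0 1 0 0 0 0 1 0 ++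
      (seg3 N (dst N t q0 + 1) ++ seg1 N 0 (dst N t q1 + 1) 0 0 0 0 0 0 0)
  | .dec .c q0 q1 => seg1 N 0 0 1 0 0 0 0 0 1 ++
      (seg4 N (dst N t q0 + 1) ++ seg1 N 0 (dst N t q1 + 1) 0 0 0 0 0 0 0)
  | .halt => seg1 N 1 1 0 0 0 0 0 0 0

/-- the effect of the slot `t` on the jump register and the counters -/
def slotsem {N : ℕ} (P : Fin N → CI (Fin N)) (t : Fin N) (J : ℕ) (v : ℕ × ℕ × ℕ) :
    Option (ℕ × ℕ × ℕ × ℕ) :=
  match J with
  | 0 => (ctStep P (t, v)).map fun s => (dst N t s.1, s.2)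
  | J + 1 => some (J, v)

/-- the program of a counter machine with `c` neutral rows -/
def kprog {N : ℕ} (P : Fin N → CI (Fin N)) (c : ℕ) : List ℕ :=
  (List.finRange N).flatMap (slot P) ++ (List.replicate c nop).flatten

end P913
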