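import Pool.Agent.Lib.P913.KRowM
import Pool.Agent.Lib.P913.KRowZ
import Pool.Agent.Lib.P913.KRowN
import Pool.Agent.Lib.P913.KRowP

/-!
# Module KSt1: the segment which tests `J`
-/

set_option autoImplicit false

namespace P913

theorem seg1_zero (N D w u2 u3 u4 v2 v3 v4 Y a b c : ℕ) (hD : D ≤ N) (hw : w ≤ 1) (hDw : 1 ≤ D + w)
    (hu2 : u2 ≤ 1) (hu3 : u3 ≤ 1) (hu4 : u4 ≤ 1)
    (hv2 : v2 ≤ 1) (hv3 : v3 ≤ 1) (hv4 : v4 ≤ 1) (hY : 2 * gg N ≤ Y) :
    brun (seg1 N 0 D w u2 u3 u4 v2 v3 v4) (rp N Y 0 (a, b, c)) =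
      some (rp N (Y + 28 - 3 * (D + w + u2 + u3 + u4)) (D + w - 1) (a + u2, b + u3, c + u4)) := by
  have hG : gg N = 3 * N + 400 := rfl
  unfold seg1 rp
  generalize gg N = G at *
  simp only [Nat.mul_zero, Nat.add_zero]
  rw [r1z1 _ _ _ _ _ _ _ _ _ _ _ _ (by omega) (by omega) (by omega) (by omega) (by omega) (by omega) (by omega) (by omega) (by omega) (by omega)]
  rw [r2z _ _ _ _ _ _ _ _ _ _ _ _ _ (by omega) (by omega) (by omega) (by omega) (by omega) (by omega) (by omega) (by omega) (by omega) (by omega) (by omega) (by omega)]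
  rw [r3z _ _ _ _ _ _ _ _ _ _ _ _ _ _ (by omega) (by omega) (by omega) (by omega) (by omega) (by omega) (by omega) (by omega) (by omega) (by omega) (by omega) (by omega)]
  rw [rowM _ _ _ _ _ _ _ _ _ _ _ _ _ (by omega) (by omega) (by omega) (by omega) (by omega) (by omega) (by omega) (by omega) (by omega) (by omega) (by omega) (by omega)]
  simp only [brun, Option.some.injEq]
  congr 1
  simp only [List.cons.injEq, and_true]
  refine ⟨?_, ?_, ?_, ?_, ?_, ?_⟩ <;> omega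

theorem seg1_pos (N h D w u2 u3 u4 v2 v3 v4 Y J a b c : ℕ) (hh : h ≤ 1) (hD : D ≤ N) (hw : w ≤ 1)
    (hu2 : u2 ≤ 1) (hu3 : u3 ≤ 1) (hu4 : u4 ≤ 1)
    (hv2 : v2 ≤ 1) (hv3 : v3 ≤ 1) (hv4 : v4 ≤ 1) (hY : 2 * gg N ≤ Y) :
    brun (seg1 N h D w u2 u3 u4 v2 v3 v4) (rp N Y (J + 1) (a, b, c)) =
      some (rp N (Y + 28 - 3 * (w + v2 + v3 + v4)) (J + w) (a + v2, b + v3, c + v4)) := by
  have hG : gg N = 3 * N + 400 := rfl
  unfold seg1 rp
  generalize gg N = G at *
  dsimp only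
  rw [r1n1 _ _ _ _ _ _ _ _ _ _ _ _ _ (by omega) (by omega) (by omega) (by omega) (by omega) (by omega) (by omega) (by omega) (by omega) (by omega) (by omega) (by omega)]
  rw [r2n1 _ _ _ _ _ _ _ _ _ _ _ _ _ (by omega) (by omega) (by omega) (by omega) (by omega) (by omega) (by omega) (by omega) (by omega) (by omega)]
  rw [rowM _ _ _ _ _ _ _ _ _ _ _ _ _ (by omega) (by omega) (by omega) (by omega) (by omega) (by omega) (by omega) (by omega) (by omega) (by omega) (by omega) (by omega)]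
  rw [rowM _ _ _ _ _ _ _ _ _ _ _ _ _ (by omega) (by omega) (by omega) (by omega) (by omega) (by omega) (by omega) (by omega) (by omega) (by omega) (by omega) (by omega)]
  simp only [brun, Option.some.injEq]
  congr 1
  simp only [List.cons.injEq, and_true]
  refine ⟨?_, ?_, ?_, ?_, ?_, ?_⟩ <;> omega

theorem seg1_halt (N D w u2 u3 u4 v2 v3 v4 Y : ℕ) (v : ℕ × ℕ × ℕ) :
    brun (seg1 N 1 D w u2 u3 u4 v2 v3 v4) (rp N Y 0 v) = none := by
  unfold seg1 rp
  rw [b0, show gg N + 3 - 1 = (gg N + 3 * 0) + 2 by omega]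
  exact bH _ _ _

end P913
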