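import Pool.Agent.Lib.P913.KBMDef

/-!
# The queue system K

The system has a cyclic list of numbers (the program) and a queue of bits.  One step with the number `k` (the next
number of the program) and the queue `0^s 1 w` works as follows: the zeros in front go to the end of the queue, the `1`
is removed, which gives `w 0^s`; then `k` bits are removed in front and replaced by zeros at the end; if `k > 0`
and the last removed bit is a `1`, then the system halts; otherwise `1 1` is appended.
-/

set_option autoImplicit false

namespace P913

/-- the zeros in front go to the end, the first `1` is removed -/
def rotf : ℕ → List Bool → List Bool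
  | _, [] => []
  | s, false :: q => rotf (s + 1) q
  | s, true :: w => w ++ List.replicate s false

/-- the queue after a step with the number `k` -/
def kstep (k : ℕ) (q : List Bool) : List Bool :=
  (rotf 0 q ++ List.replicate k false).drop k ++ [true, true]

/-- the system halts during the step with the number `k` -/
def khalt (k : ℕ) (q : List Bool) : Bool :=
  decide (k ≠ 0) && (rotf 0 q).getD (k - 1) false

/-- the steps for a list of numbers (`none` = the system halts) -/
def brun : List ℕ → List Bool → Option (List Bool)
  | [], q => some q
  | k :: ks, q => if khalt k q = true then none else brun ks (kstep k q)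

/-- one round of the program -/
def kround (ks : List ℕ) (o : Option (List Bool)) : Option (List Bool) := o.bind (brun ks)

/-- the system with the program `ks` halts on the queue `q` -/
def KHalts (ks : List ℕ) (q : List Bool) : Prop := ∃ m : ℕ, (kround ks)^[m] (some q) = none

/-- the queue `0^{c_0} 1 1 0^{c_1} 1 1 ...` -/
def qu (c : List ℕ) : List Bool := c.flatMap fun x => List.replicate x false ++ [true, true]

/-- a neutral row -/
def nop : List ℕ := [7, 6, 5, 4, 3, 2]

/-! ## The statements -/

/-- the unit gap -/
def gg (N : ℕ) : ℕ := 3 * N + 400

/-- the gaps: dump `Y`, jump register `J`, counters -/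
def rp (N Y J : ℕ) (v : ℕ × ℕ × ℕ) : List Bool :=
  qu [Y, gg N + 3 * J, gg N + 3 * v.1, gg N + 3 * v.2.1, gg N + 3 * v.2.2, gg N + 100]

end P913
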