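import Mathlib

/-!
# System K (two rings): the abstract system executed by the small machines

A configuration: a glyph `g`, a held bit `h` and two queues `p` (program ring) and `d` (data ring).  The glyphs `A1`,
`A0` receive bits of the program ring, the glyphs `P0`, `P1` bits of the data ring.  `yF g h = some (g', s, w)`: the
new glyph is `g'`, the bit `w` is pushed to the data ring (`s = true`) or to the program ring (`s = false`), and the
front bit of this ring is the new held bit.  The data ring grows: a pushed `1` is appended as `11`.
-/

set_option autoImplicit false

namespace P913

/-- the glyphs of the system K -/
inductive Gl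
  | A1
  | P0
  | P1
  | A0
  deriving DecidableEq

/-- the glyph waits for a bit of the program ring -/
def Gl.wp : Gl → Bool
  | .A1 => true
  | .P0 => false
  | .P1 => false
  | .A0 => true

/-- the table of the system K: new glyph, ring of the pushed bit (`true`: data ring), pushed bit; `none`: halt -/
def yF : Gl → Bool → Option (Gl × Bool × Bool)
  | .A1, false => some (.P0, true, true)
  | .A1, true => some (.P1, true, false)
  | .P0, false => some (.P0, true, false)
  | .P0, true => some (.A1, false, false)
  | .P1, false => some (.A1, false, true)
  | .P1, true => some (.A0, false, true)
  | .A0, false => none
  | .A0, true => some (.P1, true, false)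

/-- a configuration of the system K -/
@[ext] structure YC where
  g : Gl
  h : Bool
  p : List Bool
  d : List Bool

/-- push a word and pop the front bit -/
def popq (q : List Bool) : Bool × List Bool := (q.headD false, q.tail)

/-- the word appended to the data ring for a pushed bit -/
def growq (w : Bool) : List Bool := if w then [true, true] else [false]

/-- one step of the system K; `none`: the system halts -/
def ystep (c : YC) : Option YC :=
  match yF c.g c.h with
  | none => none
  | some (g', true, w) => some ⟨g', (popq (c.d ++ growq w)).1, c.p, (popq (c.d ++ growq w)).2⟩
  | some (g', false, w) => some ⟨g', (popq (c.p ++ [w])).1, (popq (c.p ++ [w])).2, c.d⟩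

/-- `n` steps (a halting configuration is kept) -/
def yiter (n : ℕ) (c : YC) : YC := (fun c => (ystep c).getD c)^[n] c

/-- the system halts -/
def YHalts (c : YC) : Prop := ∃ n : ℕ, ystep (yiter n c) = none

end P913
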