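import Pool.Agent.Lib.P913.XYFin
import Pool.Agent.Lib.P913.CMFin
import Pool.Agent.Lib.P913.MFin

/-!
# Module KsD: partial recursive functions are simulated by queue systems

PROOF.  `exists_bm`, `bm_to_tag`, `tag_to_xy`; `D v = code (wd (inp v))`, `Computable.comp`.
-/

set_option autoImplicit false

namespace P913

theorem exists_ks (f : ℕ →. ℕ) (hf : Nat.Partrec f) :
    ∃ (ks : List ℕ) (D : ℕ → List Bool), ks ≠ [] ∧ Computable D ∧
      ∀ v, (D v).head? = some false ∧ Alive ks (D v) ∧ (XYHalts ks (D v) ↔ (f v).Dom) := by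
  obtain ⟨N, B, q0, inp, hinp, hB⟩ := exists_bm f hf
  obtain ⟨K, pr, η, wd, hwd, hT⟩ := bm_to_tag N B q0
  obtain ⟨ks, code, hks, hcode, hX⟩ := tag_to_xy K pr η
  refine ⟨ks, fun v => code (wd (inp v)), hks, hcode.comp (hwd.comp hinp), fun v => ?_⟩
  obtain ⟨h1, h2, h3⟩ := hX (wd (inp v))
  exact ⟨h1, h2, h3.trans ((hT (inp v)).trans (hB v))⟩

end P913
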