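import Pool.Agent.Lib.P913.Lay

/-!
# Module KsOf: lists of entries and readings

PROOFS. `ksAux`: show `ksAux c (ons j ++ l) = ksAux (c + j) l` and, by induction on `l` generalizing `c`,
`((ksAux c (l ++ [false])).map fun k => ons k ++ [false]).flatten = ons c ++ l ++ [false]`; for `c = 0` this is
`ksOf_flat`.  `ksOf_len`, `ksOf_append` by induction (generalize `c`).  `rdv_append`: `List.zipWith_append`.
`rdv_ones`: induction on `ks` (`out k true = ons k ++ [false]`).  `rdv_zero`: `out k false = []`.
`rdv_flatMap`: induction on `l` with `rdv_append`.  `rdv_stk`: induction on `v` (`lbits [str]` is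
`ons (4 KA + 20) ++ [false]`).
-/

set_option autoImplicit false

namespace P913

private theorem ksAux_flat (l : List Bool) : ∀ c : ℕ,
    ((ksAux c (l ++ [false])).map fun k => ons k ++ [false]).flatten = ons c ++ (l ++ [false]) := by
  induction l with
  | nil => intro c; simp [ksAux]
  | cons b l ih =>
    intro c
    cases b with
    | true =>
      have h1 : ksAux c (true :: l ++ [false]) = ksAux (c + 1) (l ++ [false]) := rfl
      rw [h1, ih (c + 1)]
      simp [ons, List.replicate_succ']
    | false =>
      have h1 : ksAux c (false :: l ++ [false]) = c :: ksAux 0 (l ++ [false]) := rfl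
      rw [h1, List.map_cons, List.flatten_cons, ih 0]
      simp [ons]

theorem ksOf_flat (l : List Bool) :
    ((ksOf (l ++ [false])).map fun k => ons k ++ [false]).flatten = l ++ [false] := by
  have := ksAux_flat l 0
  simpa [ksOf, ons] using this

private theorem ksAux_len (l : List Bool) : ∀ c : ℕ, (ksAux c l).length = l.count false := by
  induction l with
  | nil => intro c; simp [ksAux]
  | cons b l ih =>
    intro c
    cases b with
    | true => simp [ksAux, ih]
    | false => simp [ksAux, ih]

theorem ksOf_len (l : List Bool) : (ksOf l).length = l.count false := ksAux_len l 0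

private theorem ksAux_append (l l' : List Bool) : ∀ c : ℕ,
    ksAux c (l ++ [false] ++ l') = ksAux c (l ++ [false]) ++ ksAux 0 l' := by
  induction l with
  | nil => intro c; simp [ksAux]
  | cons b l ih =>
    intro c
    cases b with
    | true => exact ih (c + 1)
    | false =>
      have h1 : ksAux c (false :: l ++ [false] ++ l') = c :: ksAux 0 (l ++ [false] ++ l') := rfl
      have h2 : ksAux c (false :: l ++ [false]) = c :: ksAux 0 (l ++ [false]) := rfl
      rw [h1, h2, ih 0, List.cons_append]

theorem ksOf_append (l l' : List Bool) :
    ksOf (l ++ [false] ++ l') = ksOf (l ++ [false]) ++ ksOf l' := ksAux_append l l' 0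

theorem rdv_append {ks : List ℕ} {v : List Bool} (h : ks.length = v.length) (ks' : List ℕ)
    (v' : List Bool) : rdv (ks ++ ks') (v ++ v') = rdv ks v ++ rdv ks' v' := by
  unfold rdv
  rw [List.zipWith_append h, List.flatten_append]

theorem rdv_ones (ks : List ℕ) :
    rdv ks (ons ks.length) = (ks.map fun k => ons k ++ [false]).flatten := by
  induction ks with
  | nil => rfl
  | cons k ks ih =>
    have h1 : rdv (k :: ks) (ons (k :: ks).length) = out k true ++ rdv ks (ons ks.length) := rfl
    rw [h1, ih]
    rfl

theorem rdv_zero (k : ℕ) : rdv [k] [false] = [] := rfl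

theorem rdv_flatMap {A : Type} (l : List A) (f : A → List ℕ) (g : A → List Bool)
    (h : ∀ a ∈ l, (f a).length = (g a).length) :
    rdv (l.flatMap f) (l.flatMap g) = l.flatMap fun a => rdv (f a) (g a) := by
  induction l with
  | nil => rfl
  | cons a l ih =>
    rw [List.flatMap_cons, List.flatMap_cons, List.flatMap_cons,
      rdv_append (h a List.mem_cons_self), ih fun b hb => h b (List.mem_cons_of_mem _ hb)]

section

variable {K : ℕ} (pr : Fin K → List (Fin K)) (η : Fin K)

theorem lbits_append (L L' : List (Ln K)) : lbits pr η (L ++ L') = lbits pr η L ++ lbits pr η L' := by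
  simp [lbits]

theorem rdv_stk (v : List Bool) :
    rdv (stk pr η v.length) v = lbits pr η (List.replicate (v.count true) Ln.str) := by
  induction v with
  | nil => rfl
  | cons b v ih =>
    have h1 : rdv (stk pr η (b :: v).length) (b :: v) =
        out (4 * KA pr η + 20) b ++ rdv (stk pr η v.length) v := rfl
    rw [h1, ih]
    cases b with
    | true =>
      rw [List.count_cons_self, List.replicate_succ]
      rfl
    | false =>
      rw [List.count_cons_of_ne (by decide)]
      rfl

end

end P913
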