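import Pool.Agent.Lib.P913.LStep

/-!
# Module LSim: the dynamics of the lines simulates the 2-tag system

PROOF.  `c2` is two line steps from phase `false`: `(ls pr η)^[2 * n] (false, L) = (false, (c2 pr η)^[n] L)` as long as
the lists have at least 2 elements; the lists never get shorter (`two_le_FL`).
Call a line configuration `(t, L)` final if `t = false` and `L` begins with `base (lt η)`.
Invariant: as long as no configuration before was final, `(ls pr η)^[i] (false, L)` satisfies
`Ph t' σ' L' w'` with `(σ', w') = (hs pr)^[j] (false, w)` for some `j` (`ls_neu`, `ls_false`, `ls_true`; by `Ph` the head is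
neutral or a letter; at a letter in phase `false` it is not `η`).  So all lines are in use (`Ph_use`), lists have at least 4
elements.
If a final configuration is reached: by `Ph_lt` `σ' = false`, `w' = η :: _`, so `TagHalts` by `hs_tag`.
If the tag system halts: by `hs_tag` there is a least `j` with `(hs pr)^[j] (false, w) = (false, η :: v)`.  By induction
on `j' ≤ j` some line configuration has the data `(hs pr)^[j'] (false, w)` (`Ph_reach`, then `ls_false` or `ls_true`) and
no final configuration before; at `j' = j` apply `Ph_reach` once more.  Final configurations are reached at even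
numbers of line steps (`t = false`: `t` alternates since lists are not empty), so at a `c2` time; take the first one.
-/

set_option autoImplicit false

namespace P913

section

variable {K : ℕ} (pr : Fin K → List (Fin K)) (η : Fin K)

/-- one cycle on the level of lines -/
def c2 : List (Ln K) → List (Ln K)
  | l1 :: l2 :: L => L ++ FL pr η false l1 ++ FL pr η true l2
  | L => L

theorem c2_ls (L : List (Ln K)) (h : 2 ≤ L.length) (n : ℕ) :
    (ls pr η)^[2 * n] (false, L) = (false, (c2 pr η)^[n] L) := by
  induction n generalizing L with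
  | zero => rfl
  | succ n ih =>
    match L, h with
    | [], h => simp at h
    | [_], h => simp at h
    | l1 :: l2 :: L', h =>
      have e : ls pr η (ls pr η (false, l1 :: l2 :: L')) =
          (false, L' ++ FL pr η false l1 ++ FL pr η true l2) := by
        simp [ls]
      have e2 : c2 pr η (l1 :: l2 :: L') = L' ++ FL pr η false l1 ++ FL pr η true l2 := rfl
      rw [show 2 * (n + 1) = (2 * n) + 1 + 1 by ring, Function.iterate_succ_apply,
        Function.iterate_succ_apply, e, Function.iterate_succ_apply, e2]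
      apply ih
      have := two_le_FL pr η true l2
      simp only [List.length_append]
      omega

namespace LSimAux

/-- final line configurations -/
def Fin1 (x : Bool × List (Ln K)) : Prop :=
  x.1 = false ∧ x.2.head? = some (Ln.base (Kd.lt η))

theorem ls_len (x : Bool × List (Ln K)) (h : 4 ≤ x.2.length) : 4 ≤ (ls pr η x).2.length := by
  obtain ⟨t, L⟩ := x
  cases L with
  | nil => simp at h
  | cons l L =>
    have := two_le_FL pr η t l
    simp only [ls, List.length_append, List.length_cons] at h ⊢
    omega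

theorem it_len (x : Bool × List (Ln K)) (h : 4 ≤ x.2.length) (i : ℕ) :
    4 ≤ ((ls pr η)^[i] x).2.length := by
  induction i with
  | zero => exact h
  | succ i ih =>
    rw [Function.iterate_succ_apply']
    exact ls_len pr η _ ih

theorem step_inv {t σ : Bool} {L : List (Ln K)} {w : List (Fin K)} (h : Ph t σ L w)
    (hL : L ≠ []) (hf : ¬ Fin1 η (t, L)) :
    Ph (ls pr η (t, L)).1 σ (ls pr η (t, L)).2 w ∨
      Ph (ls pr η (t, L)).1 (hs pr (σ, w)).1 (ls pr η (t, L)).2 (hs pr (σ, w)).2 := by
  cases h with
  | nil => exact absurd rfl hL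
  | neu hl h' => exact Or.inl (ls_neu pr η hl (Ph.neu hl h'))
  | @lt _ a L w h' =>
    right
    cases t with
    | false =>
      apply ls_false pr η
      · intro ha
        apply hf
        refine ⟨rfl, ?_⟩
        rw [ha]
        rfl
      · exact Ph.lt h'
    | true => exact ls_true pr η (Ph.lt h')

theorem inv (L : List (Ln K)) (w : List (Fin K)) (h : Ph false false L w) (h4 : 4 ≤ L.length)
    (i : ℕ) (hi : ∀ j < i, ¬ Fin1 η ((ls pr η)^[j] (false, L))) :
    ∃ k : ℕ, Ph ((ls pr η)^[i] (false, L)).1 ((hs pr)^[k] (false, w)).1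
      ((ls pr η)^[i] (false, L)).2 ((hs pr)^[k] (false, w)).2 := by
  induction i with
  | zero => exact ⟨0, h⟩
  | succ i ih =>
    obtain ⟨k, hk⟩ := ih (fun j hj => hi j (by omega))
    have hlen := it_len pr η (false, L) h4 i
    have hne : ((ls pr η)^[i] (false, L)).2 ≠ [] := by
      intro h0
      rw [h0] at hlen
      simp at hlen
    rw [Function.iterate_succ_apply']
    rcases step_inv pr η hk hne (hi i (by omega)) with h1 | h1
    · exact ⟨k, h1⟩
    · refine ⟨k + 1, ?_⟩
      rw [Function.iterate_succ_apply' (hs pr)]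
      exact h1

theorem odd_not (L : List (Ln K)) (h4 : 4 ≤ L.length) (i : ℕ)
    (h : Fin1 η ((ls pr η)^[i] (false, L))) :
    ∃ n, i = 2 * n ∧ ((c2 pr η)^[n] L).head? = some (Ln.base (Kd.lt η)) := by
  rcases Nat.even_or_odd' i with ⟨n, hn | hn⟩
  · refine ⟨n, hn, ?_⟩
    subst hn
    rw [c2_ls pr η L (by omega)] at h
    exact h.2
  · subst hn
    rw [Function.iterate_succ_apply', c2_ls pr η L (by omega)] at h
    have hlen := it_len pr η (false, L) h4 (2 * n)
    rw [c2_ls pr η L (by omega)] at hlen
    have h1 := h.1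
    cases hc : (c2 pr η)^[n] L with
    | nil =>
      rw [hc] at hlen
      simp at hlen
    | cons l L' =>
      rw [hc] at h1
      simp [ls] at h1

theorem reach (L : List (Ln K)) (w : List (Fin K)) (h : Ph false false L w)
    (hno : ∀ i, ¬ Fin1 η ((ls pr η)^[i] (false, L))) (j : ℕ) :
    ∃ i : ℕ, Ph ((ls pr η)^[i] (false, L)).1 ((hs pr)^[j] (false, w)).1
      ((ls pr η)^[i] (false, L)).2 ((hs pr)^[j] (false, w)).2 := by
  induction j with
  | zero => exact ⟨0, h⟩
  | succ j ih =>
    obtain ⟨i, hi⟩ := ih
    rw [Function.iterate_succ_apply' (hs pr)]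
    generalize hx : (hs pr)^[j] (false, w) = x at hi
    obtain ⟨σ, u⟩ := x
    cases u with
    | nil => exact ⟨i, hi⟩
    | cons a u =>
      obtain ⟨i', L', e1, hPh, _⟩ := Ph_reach pr η hi
      have e2 : (ls pr η)^[i' + i] (false, L) = (σ, Ln.base (Kd.lt a) :: L') := by
        rw [Function.iterate_add_apply]
        exact e1
      refine ⟨i' + i + 1, ?_⟩
      rw [Function.iterate_succ_apply' (ls pr η), e2]
      cases σ with
      | false =>
        apply ls_false pr η
        · intro ha
          apply hno (i' + i)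
          rw [e2]
          refine ⟨rfl, ?_⟩
          rw [ha]
          rfl
        · exact hPh
      | true => exact ls_true pr η hPh

end LSimAux

open LSimAux

theorem lsim (L : List (Ln K)) (w : List (Fin K)) (h : Ph false false L w) (h4 : 4 ≤ L.length) :
    (∀ n : ℕ, (∀ j < n, ((c2 pr η)^[j] L).head? ≠ some (Ln.base (Kd.lt η))) →
      4 ≤ ((c2 pr η)^[n] L).length ∧ ∀ l ∈ (c2 pr η)^[n] L, Use l) ∧
    (TagHalts pr η w ↔ ∃ n : ℕ, (∀ j < n, ((c2 pr η)^[j] L).head? ≠ some (Ln.base (Kd.lt η))) ∧
      ((c2 pr η)^[n] L).head? = some (Ln.base (Kd.lt η))) := by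
  classical
  have hfin : ∀ i, (∀ n, 2 * n ≤ i → ((c2 pr η)^[n] L).head? ≠ some (Ln.base (Kd.lt η))) →
      ∀ j ≤ i, ¬ Fin1 η ((ls pr η)^[j] (false, L)) := by
    intro i hi j hj hF
    obtain ⟨n, hn, hh⟩ := odd_not pr η L h4 j hF
    exact hi n (by omega) hh
  have hinv : ∀ n : ℕ, (∀ j < n, ((c2 pr η)^[j] L).head? ≠ some (Ln.base (Kd.lt η))) →
      ∃ k : ℕ, Ph false ((hs pr)^[k] (false, w)).1 ((c2 pr η)^[n] L) ((hs pr)^[k] (false, w)).2 := by
    intro n hn
    obtain ⟨k, hk⟩ := inv pr η L w h h4 (2 * n) (by
      intro j hj hF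
      obtain ⟨m, hm, hh⟩ := odd_not pr η L h4 j hF
      exact hn m (by omega) hh)
    rw [c2_ls pr η L (by omega)] at hk
    exact ⟨k, hk⟩
  refine ⟨?_, ?_, ?_⟩
  · intro n hn
    obtain ⟨k, hk⟩ := hinv n hn
    refine ⟨?_, Ph_use hk⟩
    have hlen := it_len pr η (false, L) h4 (2 * n)
    rw [c2_ls pr η L (by omega)] at hlen
    exact hlen
  · rintro ⟨m, hm⟩
    have hex : ∃ n, ((c2 pr η)^[n] L).head? = some (Ln.base (Kd.lt η)) := by
      by_contra hcon
      push Not at hcon
      have hno : ∀ i, ¬ Fin1 η ((ls pr η)^[i] (false, L)) := by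
        intro i hF
        obtain ⟨n, _, hh⟩ := odd_not pr η L h4 i hF
        exact hcon n hh
      obtain ⟨v', hv'⟩ : ∃ v', (tstep pr)^[m] w = η :: v' := by
        cases hc : (tstep pr)^[m] w with
        | nil => rw [hc] at hm; simp at hm
        | cons a u =>
          rw [hc] at hm
          simp at hm
          exact ⟨u, by rw [hm]⟩
      obtain ⟨j, hj⟩ := (hs_tag pr w (η :: v') (by simp)).2 ⟨m, hv'⟩
      obtain ⟨i, hi⟩ := reach pr η L w h hno j
      rw [hj] at hi
      obtain ⟨i', L', e1, _, _⟩ := Ph_reach pr η hi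
      apply hno (i' + i)
      rw [Function.iterate_add_apply, e1]
      exact ⟨rfl, rfl⟩
    exact ⟨Nat.find hex, fun j hj => Nat.find_min hex hj, Nat.find_spec hex⟩
  · rintro ⟨n, hn, hh⟩
    obtain ⟨k, hk⟩ := hinv n hn
    cases hc : (c2 pr η)^[n] L with
    | nil => rw [hc] at hh; simp at hh
    | cons l L' =>
      rw [hc] at hh hk
      simp at hh
      subst hh
      obtain ⟨hσ, w', hw', _⟩ := Ph_lt hk
      obtain ⟨m, hm⟩ := (hs_tag pr w (η :: w') (by simp)).1
        ⟨k, Prod.ext hσ.symm hw'⟩
      exact ⟨m, by rw [hm]; rfl⟩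

end

end P913
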