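import Pool.Agent.Lib.P913.Parity

/-!
# Module LStep: single line steps and half steps of the 2-tag system

`Ph t σ L w`: the letters in the list of lines `L` are `w`; if the first line of `L` is read in phase `t`
(`false` = first line of a cycle), then the letters are read alternately in phases `σ, !σ, σ, ...`, and a letter
put behind `L` after an even number of neutral lines would continue this alternation.

PROOFS.  `Ph_append`: induction on `h`.  `Ph_block`: neutral lines two at a time (`Ph.neu` twice, `!!t = t`), then
the letters (`Ph.lt`), then neutral lines; inductions on the lists.  `ls_neu`: inversion of `h` (the head is neutral: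
`Neu (base (lt a))` is false by cases), then `Ph_append` with `FL_neu`.  `ls_false`, `ls_true`: inversion of `h` (the head
is a letter, not neutral), `FL_let_false`, `FL_let_true`.  `Ph_use`: `Neu l → Use l`.  `Ph_reach`: induction on `h`
(generalizing the appended list): if the first line is neutral, one line step (`ls_neu`) keeps `(σ, w)`; the lines in
front of the first letter are used up after finitely many steps.  More exactly prove for all `L0`, `L1` by induction on
the list `L0` of neutral lines: from `(t, L0 ++ base (lt a) :: L1)` after `L0.length` line steps the list begins with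
`base (lt a)`, all lists before begin with a neutral line.
`hs_tag`: `hs (hs (false, a :: b :: w)) = (false, w ++ pr a)`; for `[a]` with `pr a ≠ []`:
`hs (true, pr a) = (false, (pr a).tail)`; if `pr a = []` then `(true, [])` forever; in all cases two half steps from
`(false, v)` lead to `(false, tstep pr v)` or to `(true, [])` with `tstep pr v = []`.  Induction.
-/

set_option autoImplicit false

namespace P913

section

variable {K : ℕ} (pr : Fin K → List (Fin K)) (η : Fin K)

inductive Ph {K : ℕ} : Bool → Bool → List (Ln K) → List (Fin K) → Prop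
  | nil (t : Bool) : Ph t t [] []
  | neu {t σ : Bool} {l : Ln K} {L : List (Ln K)} {w : List (Fin K)} :
      Neu l → Ph (!t) σ L w → Ph t σ (l :: L) w
  | lt {t : Bool} {a : Fin K} {L : List (Ln K)} {w : List (Fin K)} :
      Ph (!t) (!t) L w → Ph t t (Ln.base (Kd.lt a) :: L) (a :: w)

/-- one line step -/
def ls (x : Bool × List (Ln K)) : Bool × List (Ln K) :=
  match x.2 with
  | [] => x
  | l :: L => (!x.1, L ++ FL pr η x.1 l)

/-- one half step of the tag system: in phase `false` the production is appended -/
def hs (x : Bool × List (Fin K)) : Bool × List (Fin K) :=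
  match x.2 with
  | [] => x
  | a :: w => (!x.1, if x.1 then w else w ++ pr a)

theorem Ph_append {t σ : Bool} {L L' : List (Ln K)} {w w' : List (Fin K)} (h : Ph t σ L w)
    (h' : ∀ t, Ph t t L' w') : Ph t σ (L ++ L') (w ++ w') := by
  induction h with
  | nil t => exact h' t
  | neu hl _ ih => exact Ph.neu hl ih
  | lt _ ih => exact Ph.lt ih

theorem Ph_neus (n : ℕ) : ∀ (M : List (Ln K)), M.length = 2 * n → (∀ m ∈ M, Neu m) →
    ∀ {t σ : Bool} {L : List (Ln K)} {w : List (Fin K)}, Ph t σ L w → Ph t σ (M ++ L) w := by
  induction n with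
  | zero =>
    intro M hM _ t σ L w h
    have : M = [] := List.length_eq_zero_iff.mp (by omega)
    subst this
    exact h
  | succ n ih =>
    intro M hM hN t σ L w h
    match M, hM, hN with
    | [], hM, _ => simp at hM
    | [_], hM, _ => simp only [List.length_cons, List.length_nil] at hM; omega
    | m1 :: m2 :: M', hM, hN =>
      have h1 := ih M' (by simp only [List.length_cons] at hM; omega)
        (fun m hm => hN m (by simp [hm])) h
      refine Ph.neu (hN m1 (by simp)) (Ph.neu (hN m2 (by simp)) ?_)
      rw [Bool.not_not]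
      exact h1

theorem Ph_block (M0 M1 : List (Ln K)) (w : List (Fin K)) (h0 : ∀ m ∈ M0, Neu m) (h1 : ∀ m ∈ M1, Neu m)
    (e0 : M0.length % 2 = 0) (e1 : M1.length % 2 = 0) (t : Bool) :
    Ph t t (M0 ++ w.map (fun b => Ln.base (Kd.lt b)) ++ M1) w := by
  have key : ∀ (w : List (Fin K)) (t : Bool),
      Ph t t (w.map (fun b => Ln.base (Kd.lt b)) ++ M1) w := by
    intro w
    induction w with
    | nil =>
      intro t
      have := Ph_neus (M1.length / 2) M1 (by omega) h1 (Ph.nil (K := K) t)
      simpa using this
    | cons a w ih =>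
      intro t
      exact Ph.lt (ih (!t))
  rw [List.append_assoc]
  exact Ph_neus (M0.length / 2) M0 (by omega) h0 (key w t)

theorem Neu.use {l : Ln K} (h : Neu l) : Use l := by
  cases l with
  | str => trivial
  | U1 => trivial
  | U2 => trivial
  | base κ =>
    rcases h with h | h | h <;> subst h <;> exact ⟨by simp, by simp⟩
  | rot κ => exact h

theorem not_neu_lt (a : Fin K) : ¬ Neu (Ln.base (Kd.lt a)) := by
  rintro (h | h | h) <;> simp at h

theorem Ph_use {t σ : Bool} {L : List (Ln K)} {w : List (Fin K)} (h : Ph t σ L w) : ∀ l ∈ L, Use l := by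
  induction h with
  | nil t => simp
  | neu hl _ ih =>
    intro l hm
    rcases List.mem_cons.mp hm with h | h
    · exact h ▸ hl.use
    · exact ih l h
  | lt _ ih =>
    intro l hm
    rcases List.mem_cons.mp hm with h | h
    · subst h
      exact ⟨by simp, by simp⟩
    · exact ih l h

/-- inversion: a letter at the head -/
theorem Ph_lt {t σ : Bool} {a : Fin K} {L : List (Ln K)} {w : List (Fin K)}
    (h : Ph t σ (Ln.base (Kd.lt a) :: L) w) : t = σ ∧ ∃ w', w = a :: w' ∧ Ph (!t) (!t) L w' := by
  cases h with
  | neu hl _ => exact absurd hl (not_neu_lt a)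
  | lt h => exact ⟨rfl, _, rfl, h⟩

theorem ls_neu {t σ : Bool} {l : Ln K} {L : List (Ln K)} {w : List (Fin K)} (hl : Neu l)
    (h : Ph t σ (l :: L) w) : Ph (ls pr η (t, l :: L)).1 σ (ls pr η (t, l :: L)).2 w := by
  cases h with
  | neu _ h =>
    have hF := FL_neu pr η t l hl
    have := Ph_append h (L' := FL pr η t l) (w' := []) (fun t' => by
      have := Ph_neus ((FL pr η t l).length / 2) (FL pr η t l) (by omega) hF.1 (Ph.nil (K := K) t')
      simpa using this)
    simpa [ls] using this
  | lt h => exact absurd hl (not_neu_lt _)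

theorem ls_false {σ : Bool} {a : Fin K} {L : List (Ln K)} {w : List (Fin K)} (ha : a ≠ η)
    (h : Ph false σ (Ln.base (Kd.lt a) :: L) w) :
    Ph (ls pr η (false, Ln.base (Kd.lt a) :: L)).1 (hs pr (σ, w)).1
      (ls pr η (false, Ln.base (Kd.lt a) :: L)).2 (hs pr (σ, w)).2 := by
  obtain ⟨hσ, w', rfl, h'⟩ := Ph_lt h
  subst hσ
  obtain ⟨M0, M1, hF, h0, h1, e0, e1⟩ := FL_let_false pr η a ha
  have := Ph_append h' (L' := FL pr η false (Ln.base (Kd.lt a))) (w' := pr a) (fun t' => by
    rw [hF]
    exact Ph_block M0 M1 (pr a) h0 h1 e0 e1 t')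
  simpa [ls, hs] using this

theorem ls_true {σ : Bool} {a : Fin K} {L : List (Ln K)} {w : List (Fin K)}
    (h : Ph true σ (Ln.base (Kd.lt a) :: L) w) :
    Ph (ls pr η (true, Ln.base (Kd.lt a) :: L)).1 (hs pr (σ, w)).1
      (ls pr η (true, Ln.base (Kd.lt a) :: L)).2 (hs pr (σ, w)).2 := by
  obtain ⟨hσ, w', rfl, h'⟩ := Ph_lt h
  subst hσ
  have hF := FL_let_true pr η a
  have := Ph_append h' (L' := FL pr η true (Ln.base (Kd.lt a))) (w' := []) (fun t' => by
    have := Ph_neus ((FL pr η true (Ln.base (Kd.lt a))).length / 2)
      (FL pr η true (Ln.base (Kd.lt a))) (by omega) hF.1 (Ph.nil (K := K) t')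
    simpa using this)
  simpa [ls, hs] using this

theorem Ph_split {t σ : Bool} {L : List (Ln K)} {v : List (Fin K)} (h : Ph t σ L v) :
    ∀ (a : Fin K) (w : List (Fin K)), v = a :: w →
      ∃ M L0, L = M ++ Ln.base (Kd.lt a) :: L0 ∧ ∀ m ∈ M, Neu m := by
  induction h with
  | nil t => intro a w h; simp at h
  | @neu t σ l L v hl _ ih =>
    intro a w hv
    obtain ⟨M, L0, hL, hM⟩ := ih a w hv
    refine ⟨l :: M, L0, by rw [hL]; rfl, ?_⟩
    intro m hm
    rcases List.mem_cons.mp hm with h | h
    · exact h ▸ hl
    · exact hM m h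
  | @lt t b L v _ ih =>
    intro a w hv
    have hab : b = a := (List.cons.inj hv).1
    subst hab
    exact ⟨[], L, rfl, by simp⟩

/-- the first letter comes to the head after finitely many steps, before that the heads are neutral -/
theorem Ph_reach {t σ : Bool} {a : Fin K} {L : List (Ln K)} {w : List (Fin K)} (h : Ph t σ L (a :: w)) :
    ∃ (i : ℕ) (L' : List (Ln K)), (ls pr η)^[i] (t, L) = (σ, Ln.base (Kd.lt a) :: L') ∧
      Ph σ σ (Ln.base (Kd.lt a) :: L') (a :: w) ∧
      ∀ j < i, ∃ m, ((ls pr η)^[j] (t, L)).2.head? = some m ∧ Neu m := by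
  obtain ⟨M, L0, rfl, hM⟩ := Ph_split h a w rfl
  induction M generalizing t L0 with
  | nil =>
    obtain ⟨hσ, _⟩ := Ph_lt h
    subst hσ
    exact ⟨0, L0, rfl, h, fun j hj => absurd hj (Nat.not_lt_zero j)⟩
  | cons m M ih =>
    have hm : Neu m := hM m (by simp)
    rw [List.cons_append] at h
    have h1 := ls_neu pr η hm h
    have e1 : ls pr η (t, m :: (M ++ Ln.base (Kd.lt a) :: L0)) =
        (!t, M ++ Ln.base (Kd.lt a) :: (L0 ++ FL pr η t m)) := by
      simp [ls]
    rw [e1] at h1
    obtain ⟨i, L', hi, hPh, hj⟩ := ih (L0 ++ FL pr η t m) (fun m' hm' => hM m' (by simp [hm'])) h1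
    refine ⟨i + 1, L', ?_, hPh, ?_⟩
    · rw [Function.iterate_succ_apply, List.cons_append, e1]
      exact hi
    · intro j hj'
      cases j with
      | zero => exact ⟨m, by simp, hm⟩
      | succ j =>
        rw [Function.iterate_succ_apply, List.cons_append, e1]
        exact hj j (by omega)

/-- half steps and the tag system -/
theorem hs_tag (w : List (Fin K)) (v : List (Fin K)) (hv : v ≠ []) :
    (∃ j : ℕ, (hs pr)^[j] (false, w) = (false, v)) ↔ ∃ m : ℕ, (tstep pr)^[m] w = v := by
  have fixt : ∀ j : ℕ, (hs pr)^[j] (true, []) = (true, []) := fun j =>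
    Function.iterate_fixed rfl j
  have fixf : ∀ j : ℕ, (hs pr)^[j] (false, []) = (false, []) := fun j =>
    Function.iterate_fixed rfl j
  have fixs : ∀ j : ℕ, (tstep pr)^[j] [] = [] := fun j =>
    Function.iterate_fixed rfl j
  have two : ∀ (a : Fin K) (u : List (Fin K)), u ++ pr a ≠ [] →
      hs pr (hs pr (false, a :: u)) = (false, tstep pr (a :: u)) := by
    intro a u hne
    obtain ⟨b, u', hu⟩ := List.exists_cons_of_ne_nil hne
    simp [hs, tstep, hu]
  constructor
  · rintro ⟨j, hj⟩
    induction j using Nat.strong_induction_on generalizing w with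
    | _ j ih =>
      match w, j, hj, ih with
      | w, 0, hj, _ => exact ⟨0, (Prod.mk.inj hj).2⟩
      | [], j, hj, _ =>
        rw [fixf] at hj
        exact absurd (Prod.mk.inj hj).2.symm hv
      | a :: u, 1, hj, _ =>
        simp [hs] at hj
      | a :: u, j + 2, hj, ih =>
        rw [Function.iterate_succ_apply, Function.iterate_succ_apply] at hj
        by_cases hne : u ++ pr a = []
        · have e : hs pr (hs pr (false, a :: u)) = (true, []) := by
            simp only [hs, hne]
            simp
          rw [e, fixt] at hj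
          simp at hj
        · rw [two a u hne] at hj
          obtain ⟨m, hm⟩ := ih j (by omega) _ hj
          exact ⟨m + 1, by rw [Function.iterate_succ_apply]; exact hm⟩
  · rintro ⟨m, hm⟩
    induction m generalizing w with
    | zero => exact ⟨0, by simp at hm; simp [hm]⟩
    | succ m ih =>
      rw [Function.iterate_succ_apply] at hm
      match w, hm with
      | [], hm =>
        have : tstep pr ([] : List (Fin K)) = [] := rfl
        rw [this, fixs] at hm
        exact absurd hm.symm hv
      | a :: u, hm =>
        by_cases hne : u ++ pr a = []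
        · have : tstep pr (a :: u) = [] := by simp [tstep, hne]
          rw [this, fixs] at hm
          exact absurd hm.symm hv
        · obtain ⟨j, hj⟩ := ih _ hm
          refine ⟨j + 2, ?_⟩
          rw [Function.iterate_succ_apply, Function.iterate_succ_apply, two a u hne]
          exact hj

end

end P913
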