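import Pool.Agent.Lib.P913.XY

/-!
# The layout of the queue system which simulates a 2-tag system

The 2-tag system has letters `Fin K`, productions `pr`, halting letter `η`.  The queue consists of lines
(bit words of length `h = 4 * KA + 21` which end with `0`); a cycle of the queue system reads two lines,
the first one with the entries `row 0`, the second one with the entries `row 1`.
-/

set_option autoImplicit false

namespace P913

/-- `n` ones -/
abbrev ons (n : ℕ) : List Bool := List.replicate n true

section lay

variable {K : ℕ} (pr : Fin K → List (Fin K)) (η : Fin K)

/-- letters of odd type -/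
def oddL (a : Fin K) : Bool := decide (a = η) || decide ((pr a).length % 2 = 1)

/-- number of blocks (= number of zeros) of the line of a letter -/
def nb (a : Fin K) : ℕ := if oddL pr η a then 7 else 5

/-- number of cells of the interval of the letter `a` -/
def len (a : Fin K) : ℕ := if a = η then 9 else 6 + ((pr a).map (nb pr η)).sum

/-- number of padding cells after the interval of the letter `a` -/
def pad (a : Fin K) : ℕ := if a = η then 1 else (pr a).length % 2

/-- number of cells of the zone A -/
def KA : ℕ := 15 + ((List.finRange K).map fun a => len pr η a + pad pr η a).sum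

/-- kinds of patterns on the zone A -/
inductive Kd (K : ℕ) where
  | one | five | phi | om | psi
  | lt (a : Fin K)
  deriving DecidableEq

open Kd

/-- pattern on the head zone -/
def hd (κ : Kd K) : List Bool :=
  match κ with
  | five => [true, true, true, true, false, true, true]
  | phi => [true, true, true, true, true, false, true]
  | _ => ons 7

/-- pattern on the interval of the letter `a` -/
def iv (κ : Kd K) (a : Fin K) : List Bool :=
  (if κ = lt a then false :: ons (len pr η a - 2) ++ [false] else ons (len pr η a)) ++ ons (pad pr η a)

/-- kinds with two zeros on the y zone -/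
def hasY (κ : Kd K) : Bool :=
  match κ with
  | om => true
  | psi => true
  | lt a => oddL pr η a
  | _ => false

/-- pattern on the y zone -/
def yz (κ : Kd K) : List Bool :=
  if hasY pr η κ then [false, true, true, true, true, false] else ons 6

/-- pattern on the last two cells of the zone A -/
def fi (κ : Kd K) : List Bool := if κ = om then [false, false] else [true, true]

/-- pattern on the zone A -/
def pat (κ : Kd K) : List Bool :=
  hd κ ++ (List.finRange K).flatMap (iv pr η κ) ++ yz pr η κ ++ fi κ

/-- the last `KA + 10` bits of a base line -/
def Qb : List Bool := [true, true, true, true, false] ++ ons (KA pr η + 4) ++ [false]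

/-- the first `3 * KA + 11` bits of a base line -/
def Pb (κ : Kd K) : List Bool := pat pr η κ ++ ons (2 * KA pr η + 10) ++ [false]

/-- the lines -/
inductive Ln (K : ℕ) where
  | str | U1 | U2
  | base (κ : Kd K)
  | rot (κ : Kd K)
  deriving DecidableEq

open Ln

/-- the bits of a line -/
def bits : Ln K → List Bool
  | str => ons (4 * KA pr η + 20) ++ [false]
  | U1 => ons (KA pr η + 9) ++ [false] ++ Pb pr η phi
  | U2 => Qb pr η ++ ons (3 * KA pr η + 10) ++ [false]
  | base κ => Pb pr η κ ++ Qb pr η
  | rot κ => Qb pr η ++ Pb pr η κ

/-- the bits of a list of lines -/
def lbits (L : List (Ln K)) : List Bool := L.flatMap (bits pr η)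

/-- the neutral line with the same number of blocks as the letter `a` -/
def dk (a : Fin K) : Kd K := if oddL pr η a then om else psi

/-- the entries `s - 1, Φ, ..., h - s - 1` for a list of kinds -/
def shf (l : List (Kd K)) : List ℕ :=
  [KA pr η + 9] ++ ksOf (lbits pr η (base phi :: l.map base)) ++ [3 * KA pr η + 10]

/-- `n` entries which produce stars -/
def stk (n : ℕ) : List ℕ := List.replicate n (4 * KA pr η + 20)

/-- the entries of the interval of the letter `a` (`t = false` for the first line of a cycle) -/
def ivk (t : Bool) (a : Fin K) : List ℕ :=
  (if a = η then (if t then stk pr η 9 else shf pr η [] ++ stk pr η 3)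
    else if t then (if oddL pr η a then stk pr η (len pr η a)
        else shf pr η ((pr a).map (dk pr η)))
      else shf pr η ((pr a).map lt)) ++ stk pr η (pad pr η a)

/-- the entries of the zone A -/
def rowA (t : Bool) : List ℕ :=
  stk pr η 7 ++ (List.finRange K).flatMap (ivk pr η t) ++ shf pr η [] ++ stk pr η 2

/-- the entries of a line -/
def row (t : Bool) : List ℕ :=
  rowA pr η t ++ stk pr η 9 ++ stk pr η 1 ++ stk pr η (KA pr η) ++ stk pr η (KA pr η) ++
    shf pr η [] ++ stk pr η (KA pr η + 4) ++ [0]

/-- the entries of a cycle: the guard, the first line, the second line without its last entry -/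
def kss : List ℕ := 0 :: (row pr η false ++ (row pr η true).dropLast)

/-- the lines produced by the interval of the letter `a` for the pattern `κ` -/
def Fiv (t : Bool) (κ : Kd K) (a : Fin K) : List (Ln K) :=
  (if a = η then
      (if t then (if κ = lt a then List.replicate 7 str else List.replicate 9 str)
        else [U1, U2, str, str, str])
    else if t then
      (if oddL pr η a then
        (if κ = lt a then List.replicate (len pr η a - 2) str else List.replicate (len pr η a) str)
        else (if κ = lt a then base phi :: ((pr a).map (dk pr η)).map base
          else U1 :: ((pr a).map (dk pr η)).map rot ++ [U2]))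
    else (if κ = lt a then base phi :: ((pr a).map lt).map base
      else U1 :: ((pr a).map lt).map rot ++ [U2])) ++ List.replicate (pad pr η a) str

/-- the lines produced by the zone A for the pattern `κ` -/
def FA (t : Bool) (κ : Kd K) : List (Ln K) :=
  List.replicate ((hd κ).count true) str ++ (List.finRange K).flatMap (Fiv pr η t κ) ++
    (if hasY pr η κ then [base phi] else [U1, U2]) ++ (if κ = om then [] else [str, str])

/-- the pattern of a line on the zone A -/
def kA : Ln K → Kd K
  | str => one
  | U1 => one
  | U2 => five
  | base κ => κ
  | rot _ => five

/-- the bit of a line on the cell `s` -/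
def sb : Ln K → Bool
  | str => true
  | base _ => true
  | _ => false

/-- the pattern of a line on the zone B -/
def kB : Ln K → Kd K
  | U1 => phi
  | rot κ => κ
  | _ => one

/-- the line is a base line -/
def isBase : Ln K → Bool
  | base _ => true
  | _ => false

/-- the lines produced by a line (not for the halting letter at `t = false`) -/
def FL (t : Bool) (l : Ln K) : List (Ln K) :=
  FA pr η t (kA l) ++ List.replicate 9 str ++ (if sb l then [str] else []) ++
    List.replicate ((pat pr η (kB l)).count true) str ++ List.replicate (KA pr η) str ++
    (if isBase l then [base phi] else [U1, U2]) ++ List.replicate (KA pr η + 4) str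

/-- lines in use: `base` of `phi`, `om`, `psi`, letters; `rot` of `om`, `psi`, letters -/
def Use : Ln K → Prop
  | base κ => κ ≠ one ∧ κ ≠ five
  | rot κ => κ ≠ one ∧ κ ≠ five ∧ κ ≠ phi
  | _ => True

/-- neutral lines: lines in use which are not `base (lt a)` -/
def Neu : Ln K → Prop
  | base κ => κ = phi ∨ κ = om ∨ κ = psi
  | rot κ => κ ≠ one ∧ κ ≠ five ∧ κ ≠ phi
  | _ => True

end lay

end P913
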