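import Pool.Agent.Lib.P913.KsOf

/-!
# Module Len: lengths (and numbers of zeros)

PROOFS.  `len_iv`: both cases have `len a + pad a` cells (`2 ≤ len a`).  `len_pat`: 7 + sum + 6 + 2 = KA
(`List.length_flatMap`).  `len_bits`: arithmetic with `len_pat` (Qb: KA + 10, Pb: 3 KA + 11).
`cnt_base`: number of zeros of a base line (`List.count_append`): `pat` has, in the head zone, 1 zero for `phi`
and none for `lt a`, `om`, `psi`; the intervals have 2 zeros in total for `lt a` (only the interval of the
letter `a` itself; sum over `List.finRange K` of `if a = b then 2 else 0`), none for the other kinds; the y zone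
2 zeros if `hasY`; the last zone 2 for `om`.  Then `Pb` has one zero more and `Qb` has 2.
`len_shf`: `ksOf_len`, `cnt_base`.  `len_ivk`: for `a = η`: `shf []` has 6 entries.  For `a ≠ η`:
`len a = 6 + sum of nb` equals `(shf (..)).length` in all cases (`nb b = 7` iff `dk b = om`).
`len_row`: `rowA` has the length of `pat` (`KA`).  `KA_odd`: `len a + pad a` is even for every `a`:
for `η` it is 10; otherwise `6 + ∑ nb + r % 2` where every `nb` is odd and there are `r` summands.
-/

set_option autoImplicit false

namespace P913

section

variable {K : ℕ} (pr : Fin K → List (Fin K)) (η : Fin K)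

theorem two_le_len (a : Fin K) : 6 ≤ len pr η a := by
  unfold len
  split_ifs <;> omega

theorem len_iv (κ : Kd K) (a : Fin K) : (iv pr η κ a).length = len pr η a + pad pr η a := by
  have h := two_le_len pr η a
  unfold iv
  split_ifs
  · simp only [List.length_append, List.length_cons, List.length_replicate, List.length_nil]
    omega
  · simp only [List.length_append, List.length_replicate]

namespace LenAux

theorem len_hd (κ : Kd K) : (hd κ).length = 7 := by
  cases κ <;> simp [hd, ons]

theorem len_yz (κ : Kd K) : (yz pr η κ).length = 6 := by
  unfold yz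
  split_ifs <;> simp

theorem len_fi (κ : Kd K) : (fi κ).length = 2 := by
  unfold fi
  split_ifs <;> simp

end LenAux

theorem len_pat (κ : Kd K) : (pat pr η κ).length = KA pr η := by
  unfold pat KA
  simp only [List.length_append, LenAux.len_hd, LenAux.len_yz, LenAux.len_fi, List.length_flatMap,
    len_iv]
  omega

namespace LenAux

theorem len_Qb : (Qb pr η).length = KA pr η + 10 := by
  unfold Qb
  simp only [List.length_append, List.length_replicate, List.length_cons, List.length_nil]
  omega

theorem len_Pb (κ : Kd K) : (Pb pr η κ).length = 3 * KA pr η + 11 := by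
  unfold Pb
  simp only [List.length_append, len_pat, List.length_replicate, List.length_cons, List.length_nil]
  omega

theorem cnt_ons (n : ℕ) : (ons n).count false = 0 := by
  unfold ons
  rw [List.count_replicate]
  simp

theorem cnt_Qb : (Qb pr η).count false = 2 := by
  unfold Qb
  simp only [List.count_append, cnt_ons]
  decide

theorem cnt_Pb (κ : Kd K) : (Pb pr η κ).count false = (pat pr η κ).count false + 1 := by
  unfold Pb
  simp only [List.count_append, cnt_ons]
  simp

theorem cnt_iv (κ : Kd K) (a : Fin K) :
    (iv pr η κ a).count false = if κ = Kd.lt a then 2 else 0 := by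
  unfold iv
  split_ifs
  · simp only [List.count_append, List.count_cons, cnt_ons]
    simp
  · simp only [List.count_append, cnt_ons]

theorem cnt_pat (κ : Kd K) : (pat pr η κ).count false =
    (hd κ).count false + ((List.finRange K).map fun a => if κ = Kd.lt a then 2 else 0).sum +
      (if hasY pr η κ then 2 else 0) + (if κ = Kd.om then 2 else 0) := by
  unfold pat
  simp only [List.count_append, List.count_flatMap]
  have h1 : (yz pr η κ).count false = if hasY pr η κ then 2 else 0 := by
    unfold yz
    split_ifs
    · decide
    · exact cnt_ons 6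
  have h2 : (fi κ).count false = if κ = Kd.om then 2 else 0 := by
    unfold fi
    split_ifs <;> decide
  have h3 : (List.map (List.count false ∘ iv pr η κ) (List.finRange K)) =
      (List.finRange K).map fun a => if κ = Kd.lt a then 2 else 0 := by
    apply List.map_congr_left
    intro a _
    exact cnt_iv pr η κ a
  rw [h1, h2, h3]

theorem cnt_base (κ : Kd K) : (bits pr η (Ln.base κ)).count false =
    (pat pr η κ).count false + 3 := by
  show (Pb pr η κ ++ Qb pr η).count false = _
  rw [List.count_append, cnt_Pb, cnt_Qb]

theorem sum_zero (κ : Kd K) (h : ∀ a, κ ≠ Kd.lt a) :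
    ((List.finRange K).map fun a => if κ = Kd.lt a then 2 else 0).sum = 0 := by
  have : (fun a : Fin K => if κ = Kd.lt a then 2 else 0) = fun _ => 0 := by
    funext a
    rw [if_neg (h a)]
  rw [this]
  simp

theorem sum_lt (b : Fin K) :
    ((List.finRange K).map fun a => if (Kd.lt b : Kd K) = Kd.lt a then 2 else 0).sum = 2 := by
  have h1 : (fun a : Fin K => if (Kd.lt b : Kd K) = Kd.lt a then 2 else 0) =
      fun a : Fin K => if b = a then 2 else 0 := by
    funext a
    simp only [Kd.lt.injEq]
  have h3 : ((List.finRange K).map fun a => if b = a then 2 else 0).sum =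
      ∑ a : Fin K, if b = a then 2 else 0 := by
    rw [← List.sum_ofFn, List.ofFn_eq_map]
  rw [h1, h3]
  simp

end LenAux

theorem len_bits (l : Ln K) : (bits pr η l).length = 4 * KA pr η + 21 := by
  cases l <;> simp only [bits, List.length_append, LenAux.len_Qb, LenAux.len_Pb,
    List.length_replicate, List.length_cons, List.length_nil] <;> omega

/-- every line ends with `0` -/
theorem bits_last (l : Ln K) : ∃ v, bits pr η l = v ++ [false] := by
  cases l with
  | str => exact ⟨_, rfl⟩
  | U1 => exact ⟨ons (KA pr η + 9) ++ [false] ++ (pat pr η Kd.phi ++ ons (2 * KA pr η + 10)), by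
      simp only [bits, Pb, List.append_assoc]⟩
  | U2 => exact ⟨_, rfl⟩
  | base κ => exact ⟨Pb pr η κ ++ ([true, true, true, true, false] ++ ons (KA pr η + 4)), by
      simp only [bits, Qb, List.append_assoc]⟩
  | rot κ => exact ⟨Qb pr η ++ (pat pr η κ ++ ons (2 * KA pr η + 10)), by
      simp only [bits, Pb, List.append_assoc]⟩

theorem cnt_phi : (bits pr η (Ln.base Kd.phi)).count false = 4 := by
  rw [LenAux.cnt_base, LenAux.cnt_pat, LenAux.sum_zero Kd.phi (fun a h => by simp at h)]
  have h1 : (hd (Kd.phi : Kd K)).count false = 1 := by simp [hd]
  have h2 : hasY pr η Kd.phi = false := rfl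
  rw [h1, h2]
  simp

theorem cnt_lt (a : Fin K) : (bits pr η (Ln.base (Kd.lt a))).count false = nb pr η a := by
  rw [LenAux.cnt_base, LenAux.cnt_pat, LenAux.sum_lt]
  have h1 : (hd (Kd.lt a : Kd K)).count false = 0 := by
    show (ons 7).count false = 0
    exact LenAux.cnt_ons 7
  have h2 : hasY pr η (Kd.lt a) = oddL pr η a := rfl
  rw [h1, h2]
  unfold nb
  by_cases h : oddL pr η a = true
  · rw [if_pos h, if_pos h, if_neg (by simp)]
  · rw [if_neg h, if_neg h, if_neg (by simp)]

theorem cnt_dk (a : Fin K) : (bits pr η (Ln.base (dk pr η a))).count false = nb pr η a := by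
  rw [LenAux.cnt_base, LenAux.cnt_pat]
  unfold dk nb
  by_cases h : oddL pr η a = true
  · rw [if_pos h, if_pos h, LenAux.sum_zero Kd.om (fun a h => by simp at h)]
    have h1 : (hd (Kd.om : Kd K)).count false = 0 := by
      show (ons 7).count false = 0
      exact LenAux.cnt_ons 7
    have h2 : hasY pr η Kd.om = true := rfl
    rw [h1, h2]
    simp
  · rw [if_neg h, if_neg h, LenAux.sum_zero Kd.psi (fun a h => by simp at h)]
    have h1 : (hd (Kd.psi : Kd K)).count false = 0 := by
      show (ons 7).count false = 0
      exact LenAux.cnt_ons 7
    have h2 : hasY pr η Kd.psi = true := rfl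
    rw [h1, h2]
    simp

theorem len_shf (l : List (Kd K)) :
    (shf pr η l).length = 6 + (l.map fun κ => (bits pr η (Ln.base κ)).count false).sum := by
  unfold shf lbits
  simp only [List.length_append, List.length_cons, List.length_nil, ksOf_len, List.flatMap_cons,
    List.count_append, cnt_phi, List.count_flatMap, List.map_map]
  have : List.map ((List.count false ∘ bits pr η) ∘ Ln.base) l =
      l.map fun κ => (bits pr η (Ln.base κ)).count false := by
    apply List.map_congr_left
    intro a _
    rfl
  rw [this]
  omega

namespace LenAux

theorem len_shf_nil : (shf pr η []).length = 6 := by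
  rw [len_shf]
  simp

theorem len_shf_lt (l : List (Fin K)) :
    (shf pr η (l.map Kd.lt)).length = 6 + (l.map (nb pr η)).sum := by
  rw [len_shf, List.map_map]
  congr 2
  apply List.map_congr_left
  intro a _
  exact cnt_lt pr η a

theorem len_shf_dk (l : List (Fin K)) :
    (shf pr η (l.map (dk pr η))).length = 6 + (l.map (nb pr η)).sum := by
  rw [len_shf, List.map_map]
  congr 2
  apply List.map_congr_left
  intro a _
  exact cnt_dk pr η a

theorem len_stk (n : ℕ) : (stk pr η n).length = n := by
  unfold stk
  exact List.length_replicate

theorem sum_odd (l : List (Fin K)) : ((l.map (nb pr η)).sum + l.length) % 2 = 0 := by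
  induction l with
  | nil => simp
  | cons a l ih =>
    simp only [List.map_cons, List.sum_cons, List.length_cons]
    have : nb pr η a % 2 = 1 := by
      unfold nb
      split_ifs <;> rfl
    omega

theorem even_cell (a : Fin K) : (len pr η a + pad pr η a) % 2 = 0 := by
  unfold len pad
  by_cases h : a = η
  · rw [if_pos h, if_pos h]
  · rw [if_neg h, if_neg h]
    have := sum_odd pr η (pr a)
    omega

theorem even_sum {A : Type} (l : List A) (f : A → ℕ) (h : ∀ a, f a % 2 = 0) :
    (l.map f).sum % 2 = 0 := by
  induction l with
  | nil => rfl
  | cons a l ih =>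
    simp only [List.map_cons, List.sum_cons]
    have := h a
    omega

end LenAux

theorem len_ivk (t : Bool) (a : Fin K) : (ivk pr η t a).length = len pr η a + pad pr η a := by
  unfold ivk
  rw [List.length_append, LenAux.len_stk]
  congr 1
  by_cases h : a = η
  · rw [if_pos h]
    have hl : len pr η a = 9 := by
      unfold len
      rw [if_pos h]
    rw [hl]
    cases t
    · simp only [Bool.false_eq_true, if_false, List.length_append, LenAux.len_shf_nil,
        LenAux.len_stk]
    · simp only [if_true, LenAux.len_stk]
  · rw [if_neg h]
    have hl : len pr η a = 6 + ((pr a).map (nb pr η)).sum := by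
      unfold len
      rw [if_neg h]
    cases t
    · simp only [Bool.false_eq_true, if_false]
      rw [LenAux.len_shf_lt, hl]
    · simp only [if_true]
      by_cases ho : oddL pr η a = true
      · rw [if_pos ho, LenAux.len_stk]
      · rw [if_neg ho, LenAux.len_shf_dk, hl]

theorem len_rowA (t : Bool) : (rowA pr η t).length = KA pr η := by
  unfold rowA KA
  simp only [List.length_append, LenAux.len_stk, LenAux.len_shf_nil, List.length_flatMap, len_ivk]
  omega

theorem len_row (t : Bool) : (row pr η t).length = 4 * KA pr η + 21 := by
  unfold row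
  simp only [List.length_append, len_rowA, LenAux.len_stk, LenAux.len_shf_nil, List.length_cons,
    List.length_nil]
  omega

theorem KA_odd : KA pr η % 2 = 1 := by
  unfold KA
  have := LenAux.even_sum (List.finRange K) (fun a => len pr η a + pad pr η a)
    (LenAux.even_cell pr η)
  omega

end

end P913
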