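import Pool.Agent.Lib.P913.ZoneA

/-!
# Module LineF: the reading of a line

PROOF.  `bits_split`: for every line in use
`bits l = pat (kA l) ++ ons 9 ++ [sb l] ++ pat (kB l) ++ ons KA ++ gap ++ ons (KA + 4) ++ [false]`
with `gap = [false, true, true, true, true, false]` for base lines and `ons 6` otherwise.  Uses
`pat one = ons KA` (all parts are ones; `len_pat`) and `pat five = [1,1,1,1,0] ++ ons (KA - 5)`, and
`List.replicate_append_replicate`-type arithmetic.  (`str`: `4 KA + 20 = KA + 9 + 1 + KA + KA + 6 + (KA + 4)`;
base: `Pb κ ++ Qb = pat κ ++ ons (2 KA + 10) ++ [0] ++ 11110 ++ ons (KA + 4) ++ [0]`; rot: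
`Qb = 11110 ++ ons (KA + 4) ++ [0] = pat five ++ ons 9 ++ [0]`; etc.)
`line`: `rdv_append` for the parts of `row`, `zoneA`, `rdv_stk` (three times), `rdv_shf_ones`, `rdv_shf_gap`
with `l = []`, `rdv_zero` for the last bit, `lbits_append`; `(pat one).count true = KA` is NOT needed: the part
B is `rdv_stk` for `v = pat (kB l)`.
`line_eta`: `zoneA_eta` and the rest of the row is put into `E`.
-/

set_option autoImplicit false

namespace P913

section

variable {K : ℕ} (pr : Fin K → List (Fin K)) (η : Fin K)

namespace LineFAux

theorem pat_one : pat pr η Kd.one = ons (KA pr η) := by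
  rw [ons, List.eq_replicate_iff]
  refine ⟨len_pat pr η _, ?_⟩
  intro b hb
  simp only [pat, hd, iv, yz, fi, hasY, ons, List.mem_append, List.mem_replicate, List.mem_flatMap,
    List.mem_cons, List.not_mem_nil, reduceCtorEq, if_false, Bool.false_eq_true, or_false] at hb
  rcases hb with ((h | ⟨_, _, h⟩) | h) | h
  · exact h.2
  · rcases h with h | h <;> exact h.2
  · exact h.2
  · rcases h with h | h <;> exact h

theorem KA_ge : 15 ≤ KA pr η := by
  unfold KA
  omega

theorem pat_five : pat pr η Kd.five =
    [true, true, true, true, false] ++ ons (KA pr η - 5) := by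
  have h0 := len_pat pr η Kd.five
  have h1 : pat pr η Kd.five = [true, true, true, true, false] ++
      ([true, true] ++ ((List.finRange K).flatMap (iv pr η Kd.five) ++ yz pr η Kd.five ++
        fi (Kd.five : Kd K))) := by
    simp only [pat, hd, List.append_assoc, List.cons_append, List.nil_append]
  rw [h1] at h0 ⊢
  congr 1
  rw [ons, List.eq_replicate_iff]
  refine ⟨?_, ?_⟩
  · rw [List.length_append] at h0
    simp only [List.length_cons, List.length_nil] at h0
    simp only [List.length_cons, List.length_append, List.length_nil] at h0 ⊢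
    omega
  · intro b hb
    simp only [iv, yz, fi, hasY, ons, List.mem_append, List.mem_replicate, List.mem_flatMap,
      List.mem_cons, List.not_mem_nil, reduceCtorEq, if_false, Bool.false_eq_true, or_false] at hb
    rcases hb with h | ((⟨_, _, h⟩ | h) | h)
    · rcases h with h | h <;> exact h
    · rcases h with h | h <;> exact h.2
    · exact h.2
    · rcases h with h | h <;> exact h

theorem ons_add (m n : ℕ) : ons m ++ ons n = ons (m + n) := List.replicate_append_replicate

theorem ons_one : [true] = ons 1 := rfl

theorem ons_app (m n : ℕ) (L : List Bool) : ons m ++ (ons n ++ L) = ons (m + n) ++ L := by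
  rw [← List.append_assoc, ons_add]

theorem ons_cons (n : ℕ) (L : List Bool) : ons n ++ true :: L = ons (n + 1) ++ L := by
  rw [← ons_add n 1, List.append_assoc]
  rfl

end LineFAux

open LineFAux

theorem bits_split (l : Ln K) (hl : Use l) : bits pr η l =
    pat pr η (kA l) ++ ons 9 ++ [sb l] ++ pat pr η (kB l) ++ ons (KA pr η) ++
      (if isBase l then [false, true, true, true, true, false] else ons 6) ++
      ons (KA pr η + 4) ++ [false] := by
  have hK := KA_ge pr η
  cases l with
  | str =>
    simp only [bits, kA, kB, sb, isBase, Bool.false_eq_true, if_false, pat_one, ons_one, ons_add]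
    congr 2
    omega
  | U1 =>
    simp only [bits, kA, kB, sb, isBase, Bool.false_eq_true, if_false, pat_one, ons_add, Pb,
      List.append_assoc, ons_app]
    congr 5
    omega
  | U2 =>
    simp only [bits, kA, kB, sb, isBase, Bool.false_eq_true, if_false, pat_one, pat_five, ons_add,
      Qb, List.append_assoc, ons_app]
    have e1 : KA pr η - 5 + 9 = KA pr η + 4 := by omega
    have e2 : KA pr η + KA pr η + 6 + (KA pr η + 4) = 3 * KA pr η + 10 := by omega
    rw [e1, e2]
  | base κ =>
    simp only [bits, kA, kB, sb, isBase, if_true, pat_one, ons_add, Pb, Qb,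
      List.append_assoc, List.cons_append, List.nil_append, ons_app, ons_cons]
    have e2 : 9 + 1 + KA pr η + KA pr η = 2 * KA pr η + 10 := by omega
    rw [e2]
  | rot κ =>
    simp only [bits, kA, kB, sb, isBase, Bool.false_eq_true, if_false, pat_five, ons_add,
      Pb, Qb, List.append_assoc, ons_app]
    have e1 : KA pr η - 5 + 9 = KA pr η + 4 := by omega
    have e2 : KA pr η + 6 + (KA pr η + 4) = 2 * KA pr η + 10 := by omega
    rw [e1, e2]

namespace LineFAux

theorem len_app {A B : Type} {a b : List A} {c d : List B} (h1 : a.length = c.length)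
    (h2 : b.length = d.length) : (a ++ b).length = (c ++ d).length := by
  rw [List.length_append, List.length_append, h1, h2]

theorem rdv_stk' (n : ℕ) (v : List Bool) (h : v.length = n) :
    rdv (stk pr η n) v = lbits pr η (List.replicate (v.count true) Ln.str) := by
  subst h
  exact rdv_stk pr η v

theorem cnt_ons_true (n : ℕ) : (ons n).count true = n := by
  unfold ons
  rw [List.count_replicate]
  simp

theorem rdv_ons (n : ℕ) :
    rdv (stk pr η n) (ons n) = lbits pr η (List.replicate n Ln.str) := by
  rw [rdv_stk' pr η n (ons n) (by simp [ons]), cnt_ons_true]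

theorem rdv_sb (b : Bool) :
    rdv (stk pr η 1) [b] = lbits pr η (if b then [Ln.str] else []) := by
  rw [rdv_stk' pr η 1 [b] rfl]
  cases b <;> simp

theorem rdv_gap (b : Bool) :
    rdv (shf pr η []) (if b then [false, true, true, true, true, false] else ons 6) =
      lbits pr η (if b then [Ln.base Kd.phi] else [Ln.U1, Ln.U2]) := by
  have h6 := LenAux.len_shf_nil pr η
  cases b with
  | true =>
    have := rdv_shf_gap pr η []
    rw [h6] at this
    simpa [ons] using this
  | false =>
    have := rdv_shf_ones pr η []
    rw [h6] at this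
    simpa using this

end LineFAux

open LineFAux

theorem line (t : Bool) (l : Ln K) (hl : Use l) (h : t = true ∨ l ≠ Ln.base (Kd.lt η)) :
    rdv (row pr η t) (bits pr η l) = lbits pr η (FL pr η t l) := by
  have hz : t = true ∨ kA l ≠ Kd.lt η := by
    rcases h with h | h
    · exact Or.inl h
    · right
      cases l with
      | str => simp [kA]
      | U1 => simp [kA]
      | U2 => simp [kA]
      | base κ =>
        intro h'
        apply h
        rw [show κ = Kd.lt η from h']
      | rot κ => simp [kA]
  have hg : (if isBase l then [false, true, true, true, true, false] else ons 6).length = 6 := by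
    cases isBase l <;> simp [ons]
  have hA := len_rowA pr η t
  have hs := LenAux.len_shf_nil pr η
  rw [bits_split pr η l hl, row]
  have l1 : (rowA pr η t).length = (pat pr η (kA l)).length := by rw [hA, len_pat]
  have l2 : (rowA pr η t ++ stk pr η 9).length = (pat pr η (kA l) ++ ons 9).length :=
    len_app l1 (by simp [stk, ons])
  have l3 : (rowA pr η t ++ stk pr η 9 ++ stk pr η 1).length =
      (pat pr η (kA l) ++ ons 9 ++ [sb l]).length := len_app l2 (by simp [stk])
  have l4 : (rowA pr η t ++ stk pr η 9 ++ stk pr η 1 ++ stk pr η (KA pr η)).length =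
      (pat pr η (kA l) ++ ons 9 ++ [sb l] ++ pat pr η (kB l)).length :=
    len_app l3 (by rw [len_pat]; simp [stk])
  have l5 : (rowA pr η t ++ stk pr η 9 ++ stk pr η 1 ++ stk pr η (KA pr η) ++
      stk pr η (KA pr η)).length =
      (pat pr η (kA l) ++ ons 9 ++ [sb l] ++ pat pr η (kB l) ++ ons (KA pr η)).length :=
    len_app l4 (by simp [stk, ons])
  have l6 : (rowA pr η t ++ stk pr η 9 ++ stk pr η 1 ++ stk pr η (KA pr η) ++
      stk pr η (KA pr η) ++ shf pr η []).length =
      (pat pr η (kA l) ++ ons 9 ++ [sb l] ++ pat pr η (kB l) ++ ons (KA pr η) ++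
        (if isBase l then [false, true, true, true, true, false] else ons 6)).length :=
    len_app l5 (by rw [hg, hs])
  have l7 : (rowA pr η t ++ stk pr η 9 ++ stk pr η 1 ++ stk pr η (KA pr η) ++
      stk pr η (KA pr η) ++ shf pr η [] ++ stk pr η (KA pr η + 4)).length =
      (pat pr η (kA l) ++ ons 9 ++ [sb l] ++ pat pr η (kB l) ++ ons (KA pr η) ++
        (if isBase l then [false, true, true, true, true, false] else ons 6) ++
        ons (KA pr η + 4)).length := len_app l6 (by simp [stk, ons])
  rw [rdv_append l7, rdv_append l6, rdv_append l5, rdv_append l4, rdv_append l3, rdv_append l2,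
    rdv_append l1, zoneA pr η t (kA l) hz, rdv_ons, rdv_sb, rdv_ons, rdv_gap, rdv_ons, rdv_zero,
    rdv_stk' pr η (KA pr η) (pat pr η (kB l)) (len_pat pr η _)]
  unfold FL
  simp only [lbits_append, List.append_nil]

theorem line_eta : ∃ (M : List (Ln K)) (E : List Bool),
    rdv (row pr η false) (bits pr η (Ln.base (Kd.lt η))) =
      lbits pr η M ++ (ons (3 * KA pr η + 10) ++ [false]) ++ lbits pr η [Ln.str, Ln.str] ++ E := by
  obtain ⟨M, E, hE⟩ := zoneA_eta pr η
  have e1 : ∃ R, row pr η false = rowA pr η false ++ R := by
    refine ⟨stk pr η 9 ++ (stk pr η 1 ++ (stk pr η (KA pr η) ++ (stk pr η (KA pr η) ++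
      (shf pr η [] ++ (stk pr η (KA pr η + 4) ++ [0]))))), ?_⟩
    simp only [row, List.append_assoc]
  have e2 : ∃ B, bits pr η (Ln.base (Kd.lt η)) = pat pr η (Kd.lt η) ++ B := by
    refine ⟨ons (2 * KA pr η + 10) ++ ([false] ++ Qb pr η), ?_⟩
    simp only [bits, Pb, List.append_assoc]
  obtain ⟨R, hR⟩ := e1
  obtain ⟨B, hB⟩ := e2
  refine ⟨M, E ++ rdv R B, ?_⟩
  rw [hR, hB, rdv_append (by rw [len_rowA, len_pat]), hE]
  simp only [List.append_assoc]

end

end P913
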