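import Pool.Agent.Lib.P913.MFin
import Pool.Agent.Lib.P913.KBM

/-!
# Module MOrd: counter machines with ordered targets of the `dec` instructions

PROOF.  `exists_bm f hf` gives `B, q0, inp`; `bm_to_ct B` gives `m, P0, ini0`.  Four labels for each label `i ≤ m`:
`4 i` = the instruction `P0 i` with the targets `q ↦ 4 q`, but `dec x q0 q1` becomes `dec x (4 i + 1) (4 i + 2)`;
`4 i + 1` = `go (4 q0)` and `4 i + 2` = `go (4 q1)` if `P0 i = dec x q0 q1` (otherwise `go 0`); `4 i + 3` = `go (4 i)`.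
`N = 4 (m + 1)`, `P k = halt` for `k ≥ N`, `ini b = 4 (ini0 q0 b) + 3`.
-/

set_option autoImplicit false

namespace P913

/-- the target if the counter is zero -/
def CI.zt : CI ℕ → ℕ
  | .go q => q
  | .inc _ q => q
  | .dec _ q0 _ => q0
  | .halt => 0

/-- the target if the counter is positive -/
def CI.pt : CI ℕ → ℕ
  | .go q => q
  | .inc _ q => q
  | .dec _ _ q1 => q1
  | .halt => 0

namespace MOrdAux

/-- the instruction at the label `4 i + j` -/
def ins {m : ℕ} (P0 : Fin (m + 1) → CI (Fin (m + 1))) (i : Fin (m + 1)) (j : ℕ) : CI ℕ :=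
  match j, P0 i with
  | 0, .go q => .go (4 * q)
  | 0, .inc x q => .inc x (4 * q)
  | 0, .dec x _ _ => .dec x (4 * i + 1) (4 * i + 2)
  | 0, .halt => .halt
  | 1, .dec _ q0 _ => .go (4 * q0)
  | 2, .dec _ _ q1 => .go (4 * q1)
  | 3, _ => .go (4 * i)
  | _, _ => .go 0

/-- the new program -/
def prg {m : ℕ} (P0 : Fin (m + 1) → CI (Fin (m + 1))) (k : ℕ) : CI ℕ :=
  if h : k / 4 < m + 1 then ins P0 ⟨k / 4, h⟩ (k % 4) else .halt

theorem prg_eq {m : ℕ} (P0 : Fin (m + 1) → CI (Fin (m + 1))) (i : Fin (m + 1)) (j : ℕ) (hj : j < 4) :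
    prg P0 (4 * i + j) = ins P0 i j := by
  have h1 : (4 * (i : ℕ) + j) / 4 = i := by omega
  have h2 : (4 * (i : ℕ) + j) % 4 = j := by omega
  unfold prg
  have h3 : (4 * (i : ℕ) + j) / 4 < m + 1 := by rw [h1]; exact i.2
  rw [dif_pos h3, h2]
  congr 1
  exact Fin.ext h1

theorem ins_ord {m : ℕ} (P0 : Fin (m + 1) → CI (Fin (m + 1))) (i : Fin (m + 1)) (j : ℕ) :
    (ins P0 i j).zt ≤ (ins P0 i j).pt ∧ (ins P0 i j).pt < 4 * (m + 1) := by
  have hi := i.2
  unfold ins
  rcases P0 i with q | ⟨x, q⟩ | ⟨x, q0, q1⟩ | _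
  · have := q.2
    rcases j with _ | _ | _ | _ | j <;> simp only [CI.zt, CI.pt] <;> omega
  · have := q.2
    rcases j with _ | _ | _ | _ | j <;> simp only [CI.zt, CI.pt] <;> omega
  · have := q0.2
    have := q1.2
    rcases j with _ | _ | _ | _ | j <;> simp only [CI.zt, CI.pt] <;> omega
  · rcases j with _ | _ | _ | _ | j <;> simp only [CI.zt, CI.pt] <;> omega

theorem ctHalts_step {Q : Type} (P : Q → CI Q) (s s' : Q × ℕ × ℕ × ℕ) (h : ctStep P s = some s') :
    CtHalts P s ↔ CtHalts P s' := by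
  constructor
  · rintro ⟨n, hn⟩
    rcases n with _ | n
    · simp only [Function.iterate_zero, id_eq] at hn
      rw [h] at hn
      exact absurd hn (by simp)
    · rw [Function.iterate_succ_apply, h, Option.getD_some] at hn
      exact ⟨n, hn⟩
  · rintro ⟨n, hn⟩
    refine ⟨n + 1, ?_⟩
    rw [Function.iterate_succ_apply, h, Option.getD_some]
    exact hn

open StateTransition in
theorem halts_iff {m : ℕ} (P0 : Fin (m + 1) → CI (Fin (m + 1))) (i : Fin (m + 1)) (v : ℕ × ℕ × ℕ) :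
    CtHalts (prg P0) (4 * i, v) ↔ CtHalts P0 (i, v) := by
  have hR : Respects (ctStep P0) (ctStep (prg P0)) (fun c t => t = (4 * (c.1 : ℕ), c.2)) := by
    rw [Respects]
    rintro ⟨k, w⟩ t rfl
    have h0 := prg_eq P0 k 0 (by omega)
    have h1 := prg_eq P0 k 1 (by omega)
    have h2 := prg_eq P0 k 2 (by omega)
    rw [Nat.add_zero] at h0
    rcases hk : P0 k with q | ⟨x, q⟩ | ⟨x, q0, q1⟩ | _
    · have e : ctStep P0 (k, w) = some (q, w) := by simp [ctStep, hk]
      rw [e]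
      refine ⟨_, rfl, Relation.TransGen.single ?_⟩
      simp [ctStep, h0, ins, hk]
    · have e : ctStep P0 (k, w) = some (q, x.upd (· + 1) w) := by simp [ctStep, hk]
      rw [e]
      refine ⟨_, rfl, Relation.TransGen.single ?_⟩
      simp [ctStep, h0, ins, hk]
    · by_cases hx : x.get w = 0
      · have e : ctStep P0 (k, w) = some (q0, w) := by simp [ctStep, hk, hx]
        rw [e]
        refine ⟨_, rfl, Relation.TransGen.head (b := (4 * (k : ℕ) + 1, w)) ?_ (Relation.TransGen.single ?_)⟩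
        · simp [ctStep, h0, ins, hk, hx]
        · simp [ctStep, h1, ins, hk]
      · have e : ctStep P0 (k, w) = some (q1, x.upd (· - 1) w) := by simp [ctStep, hk, hx]
        rw [e]
        refine ⟨_, rfl, Relation.TransGen.head (b := (4 * (k : ℕ) + 2, x.upd (· - 1) w)) ?_
          (Relation.TransGen.single ?_)⟩
        · simp [ctStep, h0, ins, hk, hx]
        · simp [ctStep, h2, ins, hk]
    · have e : ctStep P0 (k, w) = none := by simp [ctStep, hk]
      rw [e]
      simp [ctStep, h0, ins, hk]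
  have h2 := tr_eval_dom hR (a₁ := ((i, v) : Fin (m + 1) × ℕ × ℕ × ℕ)) rfl
  rw [eval_dom_iff, eval_dom_iff] at h2
  exact h2

end MOrdAux

open MOrdAux in
theorem exists_ord (f : ℕ →. ℕ) (hf : Nat.Partrec f) :
    ∃ (N : ℕ) (P : ℕ → CI ℕ) (ini : Bool → ℕ) (inp : ℕ → ℕ × Bool × ℕ), Computable inp ∧
      (∀ i, (P i).zt ≤ (P i).pt ∧ (P i).pt < N) ∧ (∀ b, ini b < N ∧ ∃ q, P (ini b) = .go q) ∧
        ∀ v, CtHalts P (ini (inp v).2.1, (inp v).1, (inp v).2.2, 0) ↔ (f v).Dom := by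
  obtain ⟨Nb, B, q0, inp, hinp, hB⟩ := exists_bm f hf
  obtain ⟨m, P0, ini0, hP⟩ := bm_to_ct B
  refine ⟨4 * (m + 1), prg P0, fun b => 4 * (ini0 q0 b : ℕ) + 3, inp, hinp, ?_, ?_, ?_⟩
  · intro i
    unfold prg
    split_ifs with h
    · exact ins_ord P0 _ _
    · simp only [CI.zt, CI.pt]
      omega
  · intro b
    have := (ini0 q0 b).2
    refine ⟨by show 4 * (ini0 q0 b : ℕ) + 3 < 4 * (m + 1); omega, 4 * (ini0 q0 b : ℕ), ?_⟩
    show prg P0 (4 * (ini0 q0 b : ℕ) + 3) = _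
    rw [prg_eq P0 _ 3 (by omega)]
    unfold ins
    rcases P0 (ini0 q0 b) with q | ⟨x, q⟩ | ⟨x, q0, q1⟩ | _ <;> rfl
  · intro v
    rw [← hB v]
    have h1 := hP q0 (inp v).1 (inp v).2.1 (inp v).2.2
    have h2 := halts_iff P0 (ini0 q0 (inp v).2.1) ((inp v).1, (inp v).2.2, 0)
    have h3 := ctHalts_step (prg P0) (4 * (ini0 q0 (inp v).2.1 : ℕ) + 3, (inp v).1, (inp v).2.2, 0)
      (4 * (ini0 q0 (inp v).2.1 : ℕ), (inp v).1, (inp v).2.2, 0) (by
        unfold ctStep
        simp only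
        rw [prg_eq P0 _ 3 (by omega)]
        unfold ins
        rcases P0 (ini0 q0 (inp v).2.1) with q | ⟨x, q⟩ | ⟨x, q0, q1⟩ | _ <;> rfl)
    rw [h3, h2]
    exact h1

end P913
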