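import Pool.Agent.Lib.P913.MPass
import Pool.Agent.Lib.P913.MOrd

/-!
# Counter machines and the recursion (M)
-/

set_option autoImplicit false

namespace P913

/-- the number of a counter -/
def Ct.num : Ct → ℕ
  | .a => 1
  | .b => 2
  | .c => 3

theorem Ct.num_pos (x : Ct) : 1 ≤ x.num ∧ x.num ≤ 3 := by cases x <;> decide

theorem Ct.num_inj (x y : Ct) (h : x.num = y.num) : x = y := by revert h; cases x <;> cases y <;> decide

/-- the number of the inserted unit -/
def CI.iu : CI ℕ → ℕ
  | .inc x _ => x.num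
  | _ => 0

/-- the number of the counter which is decremented -/
def CI.du : CI ℕ → ℕ
  | .dec x _ _ => x.num
  | _ => 0

theorem CI.iu_le (p : CI ℕ) : p.iu ≤ 3 := by
  rcases p with _ | ⟨x, _⟩ | _ | _
  · exact Nat.zero_le _
  · exact x.num_pos.2
  · exact Nat.zero_le _
  · exact Nat.zero_le _

/-- the unit of a letter -/
def unt (N M : ℕ) : ℕ := if M < 16 * N then M % 4 else 0

theorem unt_le (N M : ℕ) : unt N M ≤ 3 := by
  unfold unt
  split_ifs <;> omega

/-- the condition that the unit is found -/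
def fnd (N : ℕ) (P : ℕ → CI ℕ) (s M : ℕ) : Prop := s % 2 = 0 ∧ unt N M ≠ 0 ∧ unt N M = (P (s / 2)).du

instance (N : ℕ) (P : ℕ → CI ℕ) (s M : ℕ) : Decidable (fnd N P s M) := by unfold fnd; infer_instance

/-- the data of a counter machine -/
def mdat (N : ℕ) (P : ℕ → CI ℕ) (hP : ∀ i, (P i).zt ≤ (P i).pt ∧ (P i).pt < N) : MDat where
  N := N
  nx s := if s % 2 = 0 then (P (s / 2)).zt else (P (s / 2)).pt
  hl i := P i = .halt
  ins j := (P j).iu
  sg s M := if fnd N P s M then s + 1 else s
  lm s M := if fnd N P s M then 0 else unt N M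
  hN := by
    have := hP 0
    omega
  nx_lt s := by
    have := hP (s / 2)
    split_ifs <;> omega
  nx_le i := by
    have h1 := hP i
    rw [if_pos (by omega), if_neg (by omega), show 2 * i / 2 = i by omega, show (2 * i + 1) / 2 = i by omega]
    exact h1.1
  ins_le j := CI.iu_le _
  lm_le s M := by
    have := unt_le N M
    split_ifs <;> omega
  sg_or s M := by
    by_cases h : fnd N P s M
    · exact Or.inr ⟨if_pos h, if_pos h⟩
    · exact Or.inl (if_neg h)
  sg_odd i M := if_neg fun h => by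
    have := h.1
    omega

section

variable {N : ℕ} {P : ℕ → CI ℕ} {hP : ∀ i, (P i).zt ≤ (P i).pt ∧ (P i).pt < N}

/-- number of units `k` -/
def cnt (N k : ℕ) (L : List ℕ) : ℕ := L.countP fun M => unt N M = k

theorem cnt_cons (k M : ℕ) (L : List ℕ) : cnt N k (M :: L) = cnt N k L + if unt N M = k then 1 else 0 := by
  unfold cnt
  rw [List.countP_cons]
  congr 1
  by_cases h : unt N M = k <;> simp [h]

theorem cnt_append (k : ℕ) (L L' : List ℕ) : cnt N k (L ++ L') = cnt N k L + cnt N k L' := List.countP_append ..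

theorem cnt_zero (k : ℕ) (L : List ℕ) (h : ∀ M ∈ L, unt N M ≠ k) : cnt N k L = 0 := by
  unfold cnt
  rw [List.countP_eq_zero]
  intro M hM
  simpa using h M hM

theorem unt_lett (s l : ℕ) (hs : s < 2 * N) (hl : l ≤ 3) : unt N (8 * N + 4 * s + l) = l := by
  unfold unt
  rw [if_pos (by omega)]
  omega

theorem unt_big (M : ℕ) (h : 16 * N ≤ M) : unt N M = 0 := if_neg (by omega)

theorem out_odd (k : ℕ) (hk : 1 ≤ k) (i : ℕ) (hi : i < N) : ∀ Ms : List ℕ,
    cnt N k ((mdat N P hP).out (2 * i + 1) Ms) = cnt N k Ms ∧ (mdat N P hP).fin (2 * i + 1) Ms = 2 * i + 1 := by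
  intro Ms
  induction Ms with
  | nil => exact ⟨rfl, rfl⟩
  | cons M Ms ih =>
    have h1 : ¬ fnd N P (2 * i + 1) M := fun h => by
      have := h.1
      omega
    have e1 : (mdat N P hP).sg (2 * i + 1) M = 2 * i + 1 := if_neg h1
    have e2 : (mdat N P hP).lm (2 * i + 1) M = unt N M := if_neg h1
    have e3 : (mdat N P hP).N = N := rfl
    have h2 := unt_le N M
    unfold MDat.out MDat.fin
    rw [e1, e2, e3, cnt_cons, cnt_cons, cnt_cons, ih.1, unt_lett _ _ (by omega) h2]
    have h3 := unt_lett (N := N) (2 * i + 1) 0 (by omega) (by norm_num)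
    rw [Nat.add_zero] at h3
    rw [h3, if_neg (show ¬ 0 = k by omega)]
    exact ⟨rfl, ih.2⟩

theorem out_even (k : ℕ) (hk : 1 ≤ k) (i : ℕ) (hi : i < N) : ∀ Ms : List ℕ,
    cnt N k ((mdat N P hP).out (2 * i) Ms) +
        (if (mdat N P hP).fin (2 * i) Ms = 2 * i + 1 ∧ k = (P i).du then 1 else 0) = cnt N k Ms ∧
      ((mdat N P hP).fin (2 * i) Ms = 2 * i + 1 ↔ ((P i).du ≠ 0 ∧ cnt N (P i).du Ms ≠ 0)) := by
  intro Ms
  induction Ms with
  | nil =>
    have h : (mdat N P hP).fin (2 * i) [] = 2 * i := rfl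
    rw [h, if_neg (by omega)]
    refine ⟨rfl, ⟨fun h => by omega, fun h => absurd rfl h.2⟩⟩
  | cons M Ms ih =>
    have e3 : (mdat N P hP).N = N := rfl
    have h2 := unt_le N M
    by_cases h1 : fnd N P (2 * i) M
    · have e1 : (mdat N P hP).sg (2 * i) M = 2 * i + 1 := if_pos h1
      have e2 : (mdat N P hP).lm (2 * i) M = 0 := if_pos h1
      obtain ⟨_, h4, h5⟩ := h1
      rw [show 2 * i / 2 = i by omega] at h5
      have h6 := out_odd (P := P) (hP := hP) k hk i hi Ms
      have hx := unt_lett (N := N) (2 * i + 1) 0 (by omega) (by norm_num)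
      have hy := hx
      rw [Nat.add_zero] at hy
      have e4 : (mdat N P hP).out (2 * i) (M :: Ms) =
          (8 * N + 4 * (2 * i + 1) + 0) :: (8 * N + 4 * (2 * i + 1)) :: (mdat N P hP).out (2 * i + 1) Ms := by
        rw [MDat.out, e1, e2, e3]
      have e5 : (mdat N P hP).fin (2 * i) (M :: Ms) = 2 * i + 1 := by
        rw [MDat.fin, e1, h6.2]
      rw [e4, e5, cnt_cons, cnt_cons, h6.1, hx, hy, if_neg (show ¬ 0 = k by omega), cnt_cons, cnt_cons, h5]
      constructor
      · by_cases hkd : k = (P i).du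
        · rw [if_pos ⟨rfl, hkd⟩, if_pos hkd.symm]
        · rw [if_neg (fun h => hkd h.2), if_neg (fun h => hkd h.symm)]
      · rw [if_pos rfl]
        exact ⟨fun _ => ⟨fun h => h4 (h5.trans h), by omega⟩, fun _ => rfl⟩
    · have e1 : (mdat N P hP).sg (2 * i) M = 2 * i := if_neg h1
      have e2 : (mdat N P hP).lm (2 * i) M = unt N M := if_neg h1
      unfold MDat.out MDat.fin
      have h3 := unt_lett (N := N) (2 * i) 0 (by omega) (by norm_num)
      rw [Nat.add_zero] at h3
      rw [e1, e2, e3, cnt_cons, cnt_cons, cnt_cons, unt_lett _ _ (by omega) h2, h3, if_neg (show ¬ 0 = k by omega),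
        cnt_cons]
      refine ⟨by omega, ?_⟩
      rw [ih.2]
      refine and_congr_right fun h4 => ?_
      have h5 : ¬ unt N M = (P i).du := fun h5 => h1 ⟨by omega, by rw [h5]; exact h4, by
        rw [show 2 * i / 2 = i by omega]
        exact h5⟩
      rw [if_neg h5]
      omega

theorem cnt_ms (k : ℕ) (hk : 1 ≤ k) (i : ℕ) (tl : List ℕ) (h : ∀ u ∈ tl, u < 16 * N) :
    cnt N k ((mdat N P hP).ms i tl) = cnt N k tl := by
  have hr : (mdat N P hP).r = 16 * N := rfl
  unfold MDat.ms
  rw [cnt_append, cnt_zero k _ (by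
    intro M hM
    rw [List.mem_map] at hM
    obtain ⟨J, _, rfl⟩ := hM
    rw [unt_big _ (by
      rw [hr, Nat.mul_succ]
      omega)]
    omega), Nat.zero_add]
  unfold MDat.mc
  induction tl with
  | nil => rfl
  | cons β tl ih =>
    obtain ⟨e, he⟩ : ∃ e, (mdat N P hP).E = e + 1 := Nat.exists_eq_succ_of_ne_zero (by
      unfold MDat.E
      positivity)
    rw [List.flatMap_cons, cnt_append, ih fun u hu => h u (by simp [hu]), cnt_cons, he, List.range_succ_eq_map,
      List.map_cons, cnt_cons, List.map_map, cnt_zero k _ (by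
        intro M hM
        rw [List.mem_map] at hM
        obtain ⟨J, _, rfl⟩ := hM
        have : 16 * N ≤ ((fun J => β + (mdat N P hP).r * J) ∘ Nat.succ) J := by
          show 16 * N ≤ β + 16 * N * (J + 1)
          rw [Nat.mul_succ]
          omega
        rw [unt_big _ this]
        omega)]
    simp only [Nat.mul_zero, Nat.add_zero]
    omega

/-- the effect of an instruction -/
def exec (p : CI ℕ) (v : ℕ × ℕ × ℕ) : Bool × ℕ × ℕ × ℕ :=
  match p with
  | .inc x _ => (false, x.upd (· + 1) v)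
  | .dec x _ _ => if x.get v = 0 then (false, v) else (true, x.upd (· - 1) v)
  | _ => (false, v)

theorem ctStep_eq (q : ℕ) (v : ℕ × ℕ × ℕ) (h : P q ≠ .halt) :
    ctStep P (q, v) = some (if (exec (P q) v).1 then (P q).pt else (P q).zt, (exec (P q) v).2) := by
  unfold ctStep exec
  rcases hp : P q with q' | ⟨x, q'⟩ | ⟨x, q0, q1⟩ | _
  · simp [CI.zt]
  · simp [CI.zt]
  · simp only [CI.zt, CI.pt]
    split_ifs with h1 h2 h2 <;> simp_all
  · exact absurd hp h

theorem get_upd (x y : Ct) (f : ℕ → ℕ) (v : ℕ × ℕ × ℕ) :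
    x.get (y.upd f v) = if x = y then f (x.get v) else x.get v := by
  cases x <;> cases y <;> simp [Ct.get, Ct.upd]

theorem round_cnt (i s : ℕ) (tl : List ℕ) (v : ℕ × ℕ × ℕ) (h : (mdat N P hP).Wd i s tl)
    (hv : ∀ x : Ct, cnt N x.num tl = x.get v) :
    (mdat N P hP).ns i s tl = 2 * (mdat N P hP).nx s + (exec (P ((mdat N P hP).nx s)) v).1.toNat ∧
      ∀ x : Ct, cnt N x.num ((mdat N P hP).nt i s tl) = x.get (exec (P ((mdat N P hP).nx s)) v).2 := by
  have hj := (mdat N P hP).nx_lt s
  have hor := (mdat N P hP).fin_or ((mdat N P hP).ms i tl) ((mdat N P hP).nx s) (2 * (mdat N P hP).nx s) (Or.inl rfl)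
  unfold MDat.ns MDat.nt
  have e3 : (mdat N P hP).N = N := rfl
  have e4 : (mdat N P hP).ins ((mdat N P hP).nx s) = (P ((mdat N P hP).nx s)).iu := rfl
  rw [e3] at hj ⊢
  rw [e4]
  set j := (mdat N P hP).nx s with hjdef
  set L := (mdat N P hP).ms i tl with hL
  have hu : unt N (8 * N + 8 * j + (P j).iu) = (P j).iu := by
    have h1 := unt_lett (N := N) (2 * j) (P j).iu (by omega) (P j).iu_le
    rw [show 4 * (2 * j) = 8 * j by ring] at h1
    exact h1
  have hc : ∀ x : Ct, cnt N x.num L = x.get v := fun x => by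
    rw [← hv x]
    exact cnt_ms _ x.num_pos.1 i tl fun u hu => (h.rng u hu).2
  have ho : ∀ x : Ct, cnt N x.num ((mdat N P hP).out (2 * j) L) +
      (if (mdat N P hP).fin (2 * j) L = 2 * j + 1 ∧ x.num = (P j).du then 1 else 0) = x.get v := fun x => by
    rw [← hc x]
    exact (out_even x.num x.num_pos.1 j hj L).1
  have hf := (out_even (P := P) (hP := hP) 1 le_rfl j hj L).2
  simp only [cnt_cons, hu]
  rcases hp : P j with q' | ⟨y, q'⟩ | ⟨y, q0, q1⟩ | _
  · have hdu : (P j).du = 0 := by rw [hp]; rfl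
    have hiu : (P j).iu = 0 := by rw [hp]; rfl
    rw [← hp, hiu, show exec (P j) v = (false, v) by rw [hp]; rfl]
    rw [hdu] at hf ho
    have h1 : ¬ (mdat N P hP).fin (2 * j) L = 2 * j + 1 := fun h => (hf.1 h).1 rfl
    refine ⟨by simp only [Bool.toNat_false]; omega, fun x => ?_⟩
    have h2 := ho x
    have h3 := x.num_pos
    rw [if_neg (fun h => h1 h.1)] at h2
    rw [if_neg (by omega)]
    exact h2
  · have hdu : (P j).du = 0 := by rw [hp]; rfl
    have hiu : (P j).iu = y.num := by rw [hp]; rfl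
    rw [← hp, hiu, show exec (P j) v = (false, y.upd (· + 1) v) by rw [hp]; rfl]
    rw [hdu] at hf ho
    have h1 : ¬ (mdat N P hP).fin (2 * j) L = 2 * j + 1 := fun h => (hf.1 h).1 rfl
    refine ⟨by simp only [Bool.toNat_false]; omega, fun x => ?_⟩
    have h2 := ho x
    have h3 := x.num_pos
    rw [if_neg (fun h => h1 h.1)] at h2
    rw [get_upd]
    by_cases hxy : x = y
    · subst hxy
      rw [if_pos rfl, if_pos rfl]
      omega
    · rw [if_neg (fun h => hxy (Ct.num_inj _ _ h.symm)), if_neg hxy]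
      omega
  · have hdu : (P j).du = y.num := by rw [hp]; rfl
    have hiu : (P j).iu = 0 := by rw [hp]; rfl
    rw [← hp, hiu]
    rw [hdu] at hf ho
    have hy := y.num_pos
    have hcy := hc y
    by_cases h0 : y.get v = 0
    · rw [show exec (P j) v = (false, v) by rw [hp]; exact if_pos h0]
      have h1 : ¬ (mdat N P hP).fin (2 * j) L = 2 * j + 1 := fun h => (hf.1 h).2 (hcy.trans h0)
      refine ⟨by simp only [Bool.toNat_false]; omega, fun x => ?_⟩
      have h2 := ho x
      have h3 := x.num_pos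
      rw [if_neg (fun h => h1 h.1)] at h2
      rw [if_neg (by omega)]
      exact h2
    · rw [show exec (P j) v = (true, y.upd (· - 1) v) by rw [hp]; exact if_neg h0]
      have h1 : (mdat N P hP).fin (2 * j) L = 2 * j + 1 := hf.2 ⟨by omega, by rw [hcy]; exact h0⟩
      refine ⟨by simp only [Bool.toNat_true]; omega, fun x => ?_⟩
      have h2 := ho x
      have h3 := x.num_pos
      rw [get_upd, if_neg (by omega)]
      by_cases hxy : x = y
      · subst hxy
        rw [if_pos ⟨h1, rfl⟩] at h2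
        rw [if_pos rfl]
        omega
      · rw [if_neg (fun h => hxy (Ct.num_inj _ _ h.2))] at h2
        rw [if_neg hxy]
        omega
  · have hdu : (P j).du = 0 := by rw [hp]; rfl
    have hiu : (P j).iu = 0 := by rw [hp]; rfl
    rw [← hp, hiu, show exec (P j) v = (false, v) by rw [hp]; rfl]
    rw [hdu] at hf ho
    have h1 : ¬ (mdat N P hP).fin (2 * j) L = 2 * j + 1 := fun h => (hf.1 h).1 rfl
    refine ⟨by simp only [Bool.toNat_false]; omega, fun x => ?_⟩
    have h2 := ho x
    have h3 := x.num_pos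
    rw [if_neg (fun h => h1 h.1)] at h2
    rw [if_neg (by omega)]
    exact h2

/-- the words of the configurations -/
def CtR (N : ℕ) (P : ℕ → CI ℕ) (hP : ∀ i, (P i).zt ≤ (P i).pt ∧ (P i).pt < N) (c : ℕ × ℕ × ℕ × ℕ) (w : List ℕ) : Prop :=
  ∃ tl, (mdat N P hP).Wd c.1 (2 * c.1 + (exec (P c.1) c.2).1.toNat) tl ∧
    w = (mdat N P hP).stg (mdat N P hP).t (8 * c.1 :: tl) ∧ ∀ x : Ct, cnt N x.num tl = x.get (exec (P c.1) c.2).2

open StateTransition in
theorem ct_resp (S : MSys) (hT : ∀ c a b x, (mdat N P hP).Tab c a b x → S.F c a b = some x ∧ S.Good c a b)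
    (hH : ∀ a b, (mdat N P hP).Hal a b → S.F false a b = none ∧ S.Good false a b) :
    Respects (ctStep P) S.step (CtR N P hP) := by
  rw [Respects]
  rintro ⟨q, v⟩ w ⟨tl, hw, rfl, hc⟩
  by_cases hh : P q = .halt
  · have e : ctStep P (q, v) = none := by
      unfold ctStep
      simp only [hh]
    rw [e]
    exact (mdat N P hP).round_halt S hH _ _ tl hw hh
  · rw [ctStep_eq q v hh]
    have hx : (mdat N P hP).nx (2 * q + (exec (P q) v).1.toNat) = if (exec (P q) v).1 then (P q).pt else (P q).zt := by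
      show (if (2 * q + (exec (P q) v).1.toNat) % 2 = 0 then (P ((2 * q + (exec (P q) v).1.toNat) / 2)).zt else
        (P ((2 * q + (exec (P q) v).1.toNat) / 2)).pt) = _
      rcases (exec (P q) v).1 with _ | _
      · simp only [Bool.toNat_false, Bool.false_eq_true, if_false]
        rw [if_pos (by omega)]
        congr 2
        omega
      · simp only [Bool.toNat_true, if_true]
        rw [if_neg (by omega)]
        congr 2
        omega
    have h1 := (mdat N P hP).round S hT q _ tl hw hh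
    have h2 := round_cnt q _ tl _ hw hc
    have h3 := (mdat N P hP).nt_wd q _ tl hw
    rw [h2.1] at h3
    rw [hx] at h1 h2 h3
    exact ⟨_, ⟨_, h3, rfl, h2.2⟩, h1⟩

end

end P913
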