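import Pool.Agent.Lib.P913.MReal
import Pool.Agent.Lib.P913.EvDom

/-!
# Passes over a word of the recursion (M)
-/

set_option autoImplicit false

namespace P913

/-- a pass over the word `w`, `a` is the last letter written before, the third argument is the word written -/
inductive PassR (T : Bool → ℕ → ℕ → ℕ → Prop) : ℕ → List ℕ → List ℕ → Prop
  | nil (a : ℕ) : PassR T a [] []
  | cons (a b x y : ℕ) (w o : List ℕ) (h1 : T false a b x) (h2 : T true x b y) (h3 : PassR T y w o) :
      PassR T a (b :: w) (x :: y :: o)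

/-- a family of words closed under passes -/
structure Fam (S : MSys) (T : Bool → ℕ → ℕ → ℕ → Prop) (H : ℕ → ℕ → Prop) (G : List ℕ → Prop) : Prop where
  tb : ∀ c a b x, T c a b x → S.F c a b = some x ∧ S.Good c a b ∧ x ≤ S.R
  hb : ∀ a b, H a b → S.F false a b = none ∧ S.Good false a b
  two : ∀ g, G g → 2 ≤ g.length
  le : ∀ g, G g → ∀ x ∈ g, x ≤ S.R
  nx : ∀ g, G g → (∃ b r, g = b :: r ∧ H (g.getLastD 0) b) ∨ ∃ g', PassR T (g.getLastD 0) g g' ∧ G g'

/-- the configurations during the passes -/
def Mid (S : MSys) (T : Bool → ℕ → ℕ → ℕ → Prop) (H : ℕ → ℕ → Prop) (G : List ℕ → Prop) (q : List ℕ) : Prop :=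
  (2 ≤ q.length ∧ ∀ x ∈ q, x ≤ S.R) ∧ ((∃ b r, q = b :: r ∧ H (q.getLastD 0) b) ∨
    ∃ w o1 o2, w ≠ [] ∧ q = w ++ o1 ∧ PassR T (q.getLastD 0) w o2 ∧ G (o1 ++ o2))

variable {S : MSys} {T : Bool → ℕ → ℕ → ℕ → Prop} {H : ℕ → ℕ → Prop} {G : List ℕ → Prop}

theorem Fam.mid (h : Fam S T H G) (g : List ℕ) (hg : G g) : Mid S T H G g := by
  refine ⟨⟨h.two g hg, h.le g hg⟩, ?_⟩
  rcases h.nx g hg with h1 | ⟨g', h1, h2⟩
  · exact Or.inl h1
  · refine Or.inr ⟨g, [], g', ?_, by simp, h1, h2⟩
    rintro rfl
    have := h.two _ hg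
    simp at this

/-- one step of a pass -/
theorem MSys.step_of (a b x y : ℕ) (r : List ℕ) (ha : (b :: r).getLastD 0 = a) (h1 : S.F false a b = some x)
    (h2 : S.F true x b = some y) : S.step (b :: r) = some (r ++ [x, y]) := by
  unfold MSys.step
  simp only [ha, h1, h2, Option.bind_some, Option.map_some]

theorem getLastD_append_cons (r : List ℕ) (x y : ℕ) : (r ++ [x, y]).getLastD 0 = y := by
  rw [List.getLastD_eq_getLast?, List.getLast?_append]
  rfl

theorem Fam.inv (h : Fam S T H G) : S.Inv (Mid S T H G) where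
  two q hq := hq.1.1
  le q hq := hq.1.2
  good0 b r hq := by
    rcases hq.2 with ⟨b', r', e, h1⟩ | ⟨w, o1, o2, hw, e, h1, h2⟩
    · rw [List.cons.injEq] at e
      obtain ⟨rfl, rfl⟩ := e
      exact (h.hb _ _ h1).2
    · cases h1 with
      | nil => exact absurd rfl hw
      | cons _ b' x y w' o h3 h4 h5 =>
        rw [List.cons_append, List.cons.injEq] at e
        obtain ⟨rfl, rfl⟩ := e
        exact (h.tb _ _ _ _ h3).2.1
  good1 b r x hq hx := by
    rcases hq.2 with ⟨b', r', e, h1⟩ | ⟨w, o1, o2, hw, e, h1, h2⟩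
    · rw [List.cons.injEq] at e
      obtain ⟨rfl, rfl⟩ := e
      rw [(h.hb _ _ h1).1] at hx
      exact absurd hx (by simp)
    · cases h1 with
      | nil => exact absurd rfl hw
      | cons _ b' x' y w' o h3 h4 h5 =>
        rw [List.cons_append, List.cons.injEq] at e
        obtain ⟨rfl, rfl⟩ := e
        rw [(h.tb _ _ _ _ h3).1, Option.some.injEq] at hx
        subst hx
        exact (h.tb _ _ _ _ h4).2.1
  step q q' hq hs := by
    rcases hq.2 with ⟨b', r', e, h1⟩ | ⟨w, o1, o2, hw, e, h1, h2⟩
    · subst e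
      unfold MSys.step at hs
      simp only [(h.hb _ _ h1).1, Option.bind_none] at hs
      exact absurd hs (by simp)
    · cases h1 with
      | nil => exact absurd rfl hw
      | cons _ b x y w' o h3 h4 h5 =>
        rw [List.cons_append] at e
        subst e
        rw [MSys.step_of _ b x y (w' ++ o1) rfl (h.tb _ _ _ _ h3).1 (h.tb _ _ _ _ h4).1, Option.some.injEq] at hs
        subst hs
        by_cases hw' : w' = []
        · subst hw'
          cases h5
          rw [List.nil_append]
          exact h.mid _ h2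
        · refine ⟨⟨?_, ?_⟩, Or.inr ⟨w', o1 ++ [x, y], o, hw', by simp, ?_, by simpa using h2⟩⟩
          · simp only [List.length_append, List.length_cons, List.length_nil]
            omega
          · intro z hz
            have hle := hq.1.2
            simp only [List.mem_append, List.mem_cons, List.not_mem_nil, or_false] at hz
            rcases hz with (hz | hz) | rfl | rfl
            · exact hle z (by simp [hz])
            · exact hle z (by simp [hz])
            · exact (h.tb _ _ _ _ h3).2.2
            · exact (h.tb _ _ _ _ h4).2.2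
          · rw [getLastD_append_cons]
            exact h5

theorem MSys.halts_iff (S : MSys) (q : List ℕ) : S.Halts q ↔ (StateTransition.eval S.step q).Dom := by
  rw [eval_dom_iff]
  rfl

theorem PassR.reaches (hT : ∀ c a b x, T c a b x → S.F c a b = some x) {a : ℕ} {w o : List ℕ} (h : PassR T a w o) :
    ∀ o1 : List ℕ, (w ++ o1).getLastD 0 = a → w ≠ [] → StateTransition.Reaches₁ S.step (w ++ o1) (o1 ++ o) := by
  induction h with
  | nil => intro o1 _ h; exact absurd rfl h
  | cons a b x y w o h1 h2 h3 ih =>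
    intro o1 ha _
    have hs : S.step (b :: (w ++ o1)) = some (w ++ o1 ++ [x, y]) :=
      MSys.step_of a b x y (w ++ o1) ha (hT _ _ _ _ h1) (hT _ _ _ _ h2)
    by_cases hw : w = []
    · subst hw
      cases h3
      exact Relation.TransGen.single hs
    · refine Relation.TransGen.head hs ?_
      have e1 : w ++ o1 ++ [x, y] = w ++ (o1 ++ [x, y]) := by simp
      have e2 : o1 ++ x :: y :: o = (o1 ++ [x, y]) ++ o := by simp
      rw [e1, e2]
      refine ih _ ?_ hw
      rw [← e1, getLastD_append_cons]

end P913
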