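import Pool.Agent.Lib.P913.MTab

/-!
# The passes of the recursion (M): doubling generations and the computing generation
-/

set_option autoImplicit false

namespace P913

namespace MDat

variable (D : MDat)

/-- the values of the letters of stage `j` -/
def vals (j : ℕ) (cs : List ℕ) : List ℕ :=
  cs.flatMap fun β => (List.range (2 ^ j)).map fun J => 2 ^ j * β + D.E * D.r * J

/-- the word of stage `j` -/
def stg (j : ℕ) (cs : List ℕ) : List ℕ := (D.vals j cs).map fun v => D.Z j + v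

theorem range_two (n : ℕ) : List.range (2 * n) = (List.range n).flatMap fun J => [2 * J, 2 * J + 1] := by
  induction n with
  | zero => rfl
  | succ n ih =>
    rw [show 2 * (n + 1) = 2 * n + 1 + 1 by ring, List.range_succ, List.range_succ, ih, List.range_succ,
      List.flatMap_append]
    simp

theorem vals_succ (j : ℕ) (cs : List ℕ) :
    D.vals (j + 1) cs = (D.vals j cs).flatMap fun v => [2 * v, 2 * v + D.E * D.r] := by
  unfold vals
  rw [List.flatMap_assoc]
  congr 1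
  funext β
  rw [pow_succ, mul_comm (2 ^ j) 2, range_two, List.map_flatMap, List.flatMap_map]
  congr 1
  funext J
  simp only [List.map_cons, List.map_nil, List.cons.injEq, and_true]
  constructor <;> ring

theorem mem_vals (j : ℕ) (cs : List ℕ) (v : ℕ) (h : v ∈ D.vals j cs) :
    ∃ β J, β ∈ cs ∧ J < 2 ^ j ∧ v = 2 ^ j * β + D.E * D.r * J := by
  unfold vals at h
  simp only [List.mem_flatMap, List.mem_map, List.mem_range] at h
  obtain ⟨β, hβ, J, hJ, h⟩ := h
  exact ⟨β, J, hβ, hJ, h.symm⟩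

theorem pow_le_E (j : ℕ) (hj : j ≤ D.t) : 2 ^ j ≤ D.E := Nat.pow_le_pow_right (by norm_num) hj

theorem vals_lt (j : ℕ) (hj : j ≤ D.t) (cs : List ℕ) (hcs : ∀ β ∈ cs, β < D.r) (v : ℕ) (h : v ∈ D.vals j cs) :
    v < D.W := by
  obtain ⟨β, J, hβ, hJ, rfl⟩ := D.mem_vals j cs v h
  have h1 := D.pow_le_E j hj
  have h2 : 2 ^ j * β < 2 ^ j * D.r := Nat.mul_lt_mul_of_pos_left (hcs β hβ) (by positivity)
  have h3 : 2 ^ j * D.r ≤ D.E * D.r := Nat.mul_le_mul_right _ h1
  have h4 : D.E * D.r * (J + 1) ≤ D.E * D.r * D.E := Nat.mul_le_mul_left _ (by omega)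
  have h5 : D.W = D.E * D.r * D.E := by
    unfold W
    ring
  rw [h5]
  rw [Nat.mul_succ] at h4
  omega

theorem vals_lt2 (j : ℕ) (hj : j < D.t) (cs : List ℕ) (hcs : ∀ β ∈ cs, β < D.r) (v : ℕ) (h : v ∈ D.vals j cs) :
    2 * v + D.E * D.r < D.W := by
  obtain ⟨β, J, hβ, hJ, rfl⟩ := D.mem_vals j cs v h
  have h1 := D.pow_le_E (j + 1) hj
  rw [pow_succ] at h1
  have h2 : 2 ^ j * β < 2 ^ j * D.r := Nat.mul_lt_mul_of_pos_left (hcs β hβ) (by positivity)
  have h3 : 2 ^ j * 2 * D.r ≤ D.E * D.r := Nat.mul_le_mul_right _ h1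
  have h3' : 2 ^ j * 2 * D.r = 2 * (2 ^ j * D.r) := by ring
  have h4 : D.E * D.r * (2 * J + 2) ≤ D.E * D.r * D.E := Nat.mul_le_mul_left _ (by omega)
  have h4' : D.E * D.r * (2 * J + 2) = 2 * (D.E * D.r * J) + 2 * (D.E * D.r) := by ring
  have h5 : D.W = D.E * D.r * D.E := by
    unfold W
    ring
  rw [h5]
  omega

theorem pass_dbl (j : ℕ) (hj : j < D.t) : ∀ vs : List ℕ, (∀ v ∈ vs, 2 * v + D.E * D.r < D.W) → ∀ ab v' : ℕ,
    (ab = D.Z j ∨ ab = D.Z (j + 1)) → v' < D.W →
      PassR D.Tab (ab + v') (vs.map fun v => D.Z j + v)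
        ((vs.flatMap fun v => [2 * v, 2 * v + D.E * D.r]).map fun v => D.Z (j + 1) + v) := by
  intro vs
  induction vs with
  | nil => intro _ ab v' _ _; exact PassR.nil _
  | cons v vs ih =>
    intro hvs ab v' hab hv'
    have hv := hvs v (by simp)
    have h1 : D.Tab true (D.Z (j + 1) + 2 * v) (D.Z j + v) (D.Z (j + 1) + (2 * v + D.E * D.r)) := by
      rw [← Nat.add_assoc]
      exact Tab.d1 j v hj (by omega)
    exact PassR.cons _ _ _ _ _ _ (Tab.d0 j ab v v' hj hab (by omega) hv') h1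
      (ih (fun v hv => hvs v (by simp [hv])) (D.Z (j + 1)) (2 * v + D.E * D.r) (Or.inr rfl) hv)

theorem getLastD_mem (l : List ℕ) (hl : l ≠ []) : l.getLastD 0 ∈ l := by
  rw [List.getLastD_eq_getLast?, List.getLast?_eq_getLast_of_ne_nil hl]
  exact List.getLast_mem hl

theorem stg_ne (j : ℕ) (cs : List ℕ) (hc : cs ≠ []) : D.stg j cs ≠ [] := by
  cases cs with
  | nil => exact absurd rfl hc
  | cons β cs =>
    obtain ⟨n, hn⟩ : ∃ n, 2 ^ j = n + 1 := Nat.exists_eq_succ_of_ne_zero (by positivity)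
    unfold stg vals
    rw [List.flatMap_cons, hn, List.range_succ]
    simp

theorem pass_stage (j : ℕ) (hj : j < D.t) (cs : List ℕ) (hc : cs ≠ []) (hcs : ∀ β ∈ cs, β < D.r) :
    PassR D.Tab ((D.stg j cs).getLastD 0) (D.stg j cs) (D.stg (j + 1) cs) := by
  have h1 := getLastD_mem _ (D.stg_ne j cs hc)
  have h2 : ∃ v ∈ D.vals j cs, D.Z j + v = (D.stg j cs).getLastD 0 := by
    have h3 : (D.stg j cs).getLastD 0 ∈ (D.vals j cs).map fun v => D.Z j + v := h1
    rw [List.mem_map] at h3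
    exact h3
  obtain ⟨v, hv, e⟩ := h2
  rw [← e]
  have h4 := D.pass_dbl j hj (D.vals j cs) (D.vals_lt2 j hj cs hcs) (D.Z j) v (Or.inl rfl) (D.vals_lt j hj.le cs hcs v hv)
  rw [← D.vals_succ] at h4
  exact h4

/-- the letters of the last stage -/
def mc (cs : List ℕ) : List ℕ := cs.flatMap fun β => (List.range D.E).map fun J => β + D.r * J

theorem stg_t (cs : List ℕ) : D.stg D.t cs = (D.mc cs).map fun M => D.Z D.t + D.E * M := by
  unfold stg vals mc
  rw [List.map_flatMap, List.map_flatMap]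
  congr 1
  funext β
  rw [List.map_map, List.map_map]
  congr 1
  funext J
  show D.Z D.t + (D.E * β + D.E * D.r * J) = D.Z D.t + D.E * (β + D.r * J)
  ring

theorem stg_zero (cs : List ℕ) : D.stg 0 cs = cs := by
  unfold stg vals
  induction cs with
  | nil => rfl
  | cons β cs ih =>
    rw [List.flatMap_cons, List.map_append, ih]
    simp [Z]

/-- the word written in the computing generation -/
def out : ℕ → List ℕ → List ℕ
  | _, [] => []
  | s, M :: Ms => (8 * D.N + 4 * D.sg s M + D.lm s M) :: (8 * D.N + 4 * D.sg s M) :: out (D.sg s M) Ms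

/-- the last state -/
def fin : ℕ → List ℕ → ℕ
  | s, [] => s
  | s, M :: Ms => fin (D.sg s M) Ms

theorem pass_comp : ∀ Ms : List ℕ, (∀ M ∈ Ms, 8 * D.N ≤ M ∧ M < D.E * D.r) → ∀ s l : ℕ, s < 2 * D.N → l ≤ 3 →
    PassR D.Tab (8 * D.N + 4 * s + l) (Ms.map fun M => D.Z D.t + D.E * M) (D.out s Ms) := by
  intro Ms
  induction Ms with
  | nil => intro _ s l _ _; exact PassR.nil _
  | cons M Ms ih =>
    intro hM s l hs hl
    have h1 := hM M (by simp)
    have h2 := D.sg_lt s M hs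
    exact PassR.cons _ _ _ _ _ _ (Tab.c0 s l M hs hl h1.1 h1.2) (Tab.c1 _ _ M h2 (D.lm_le s M) h1.1 h1.2)
      (ih (fun M hM' => hM M (by simp [hM'])) (D.sg s M) 0 h2 (by norm_num))

theorem out_snoc : ∀ (Ms : List ℕ) (s : ℕ), Ms ≠ [] → ∃ us, D.out s Ms = us ++ [8 * D.N + 4 * D.fin s Ms] := by
  intro Ms
  induction Ms with
  | nil => intro s h; exact absurd rfl h
  | cons M Ms ih =>
    intro s _
    by_cases hMs : Ms = []
    · subst hMs
      exact ⟨[8 * D.N + 4 * D.sg s M + D.lm s M], rfl⟩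
    · obtain ⟨us, hus⟩ := ih (D.sg s M) hMs
      refine ⟨(8 * D.N + 4 * D.sg s M + D.lm s M) :: (8 * D.N + 4 * D.sg s M) :: us, ?_⟩
      simp only [out, fin, hus, List.cons_append]

theorem out_rng : ∀ (Ms : List ℕ) (s : ℕ), s < 2 * D.N → ∀ u ∈ D.out s Ms, 8 * D.N ≤ u ∧ u < D.r := by
  intro Ms
  induction Ms with
  | nil => intro s _ u hu; exact absurd hu (by simp [out])
  | cons M Ms ih =>
    intro s hs u hu
    have h1 := D.sg_lt s M hs
    have h2 := D.lm_le s M
    have h3 : D.r = 16 * D.N := rfl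
    simp only [out, List.mem_cons] at hu
    rcases hu with rfl | rfl | hu
    · omega
    · omega
    · exact ih _ h1 u hu

theorem fin_or : ∀ (Ms : List ℕ) (i s : ℕ), (s = 2 * i ∨ s = 2 * i + 1) →
    (D.fin s Ms = 2 * i ∨ D.fin s Ms = 2 * i + 1) := by
  intro Ms
  induction Ms with
  | nil => intro i s h; exact h
  | cons M Ms ih =>
    intro i s h
    refine ih i (D.sg s M) ?_
    rcases h with rfl | rfl
    · rcases D.sg_or (2 * i) M with h | ⟨h, _⟩ <;> omega
    · exact Or.inr (D.sg_odd i M)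

/-- the code words: `8 i` is the marker, `tl` the other codes, the last one contains the state `s` -/
structure Wd (i s : ℕ) (tl : List ℕ) : Prop where
  hi : i < D.N
  hs : s = 2 * i ∨ s = 2 * i + 1
  rng : ∀ u ∈ tl, 8 * D.N ≤ u ∧ u < D.r
  lst : ∃ us, tl = us ++ [8 * D.N + 4 * s]

/-- the letters after the first one in the last stage -/
def ms (i : ℕ) (tl : List ℕ) : List ℕ := ((List.range (D.E - 1)).map fun J => 8 * i + D.r * (J + 1)) ++ D.mc tl

theorem mc_cons (i : ℕ) (tl : List ℕ) : D.mc (8 * i :: tl) = 8 * i :: D.ms i tl := by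
  unfold mc ms
  obtain ⟨e, he⟩ : ∃ e, D.E = e + 1 := ⟨D.E - 1, by have := D.r_lt_E; omega⟩
  rw [List.flatMap_cons, he, List.range_succ_eq_map]
  simp only [List.map_cons, List.map_map, Nat.mul_zero, Nat.add_zero, List.cons_append, Nat.add_sub_cancel, mc, he,
    List.range_succ_eq_map]
  rfl

theorem mc_last (us : List ℕ) (β : ℕ) : ∃ vs, D.mc (us ++ [β]) = vs ++ [β + D.r * (D.E - 1)] := by
  unfold mc
  obtain ⟨e, he⟩ : ∃ e, D.E = e + 1 := ⟨D.E - 1, by have := D.r_lt_E; omega⟩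
  refine ⟨(us.flatMap fun β => (List.range D.E).map fun J => β + D.r * J) ++
    ((List.range (D.E - 1)).map fun J => β + D.r * J), ?_⟩
  rw [List.flatMap_append, List.append_assoc]
  congr 1
  rw [he, List.range_succ]
  simp

theorem last_stg (i s : ℕ) (tl : List ℕ) (h : D.Wd i s tl) :
    (D.stg D.t (8 * i :: tl)).getLastD 0 = D.Z D.t + D.E * (8 * D.N + 4 * s + D.r * (D.E - 1)) := by
  obtain ⟨us, rfl⟩ := h.lst
  obtain ⟨vs, hvs⟩ := D.mc_last (8 * i :: us) (8 * D.N + 4 * s)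
  rw [List.cons_append] at hvs
  rw [D.stg_t, hvs, List.map_append, List.getLastD_eq_getLast?, List.getLast?_append]
  rfl

theorem ms_rng (i : ℕ) (tl : List ℕ) (hi : i < D.N) (h : ∀ u ∈ tl, 8 * D.N ≤ u ∧ u < D.r) :
    ∀ M ∈ D.ms i tl, 8 * D.N ≤ M ∧ M < D.E * D.r := by
  intro M hM
  have hr : D.r = 16 * D.N := rfl
  have hE := D.r_lt_E
  unfold ms mc at hM
  simp only [List.mem_append, List.mem_map, List.mem_range, List.mem_flatMap] at hM
  rcases hM with ⟨J, hJ, rfl⟩ | ⟨u, hu, J, hJ, rfl⟩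
  · have h1 : D.r * (J + 2) ≤ D.r * D.E := Nat.mul_le_mul_left _ (by omega)
    have h2 : D.r * (J + 2) = D.r * (J + 1) + D.r := by ring
    have h3 : D.r * (J + 1) = D.r * J + D.r := by ring
    rw [mul_comm D.E]
    omega
  · have h4 := h u hu
    have h1 : D.r * (J + 1) ≤ D.r * D.E := Nat.mul_le_mul_left _ (by omega)
    have h3 : D.r * (J + 1) = D.r * J + D.r := by ring
    rw [mul_comm D.E]
    omega

theorem ms_ne (i : ℕ) (tl : List ℕ) : D.ms i tl ≠ [] := by
  unfold ms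
  obtain ⟨e, he⟩ : ∃ e, D.E - 1 = e + 1 := ⟨D.E - 2, by
    have := D.r_lt_E
    have h2 : D.r = 16 * D.N := rfl
    have := D.hN
    omega⟩
  rw [he, List.range_succ]
  simp

/-- the next code word without its marker -/
def nt (i s : ℕ) (tl : List ℕ) : List ℕ :=
  (8 * D.N + 8 * D.nx s + D.ins (D.nx s)) :: D.out (2 * D.nx s) (D.ms i tl)

/-- the state of the next code word -/
def ns (i s : ℕ) (tl : List ℕ) : ℕ := D.fin (2 * D.nx s) (D.ms i tl)

theorem nt_wd (i s : ℕ) (tl : List ℕ) (h : D.Wd i s tl) : D.Wd (D.nx s) (D.ns i s tl) (D.nt i s tl) where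
  hi := D.nx_lt s
  hs := D.fin_or _ _ _ (Or.inl rfl)
  rng u hu := by
    have h1 := D.nx_lt s
    have h2 := D.ins_le (D.nx s)
    have h3 : D.r = 16 * D.N := rfl
    unfold nt at hu
    rw [List.mem_cons] at hu
    rcases hu with rfl | hu
    · omega
    · exact D.out_rng _ _ (by omega) u hu
  lst := by
    obtain ⟨us, hus⟩ := D.out_snoc (D.ms i tl) (2 * D.nx s) (D.ms_ne i tl)
    refine ⟨(8 * D.N + 8 * D.nx s + D.ins (D.nx s)) :: us, ?_⟩
    unfold nt ns
    rw [hus, List.cons_append]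

theorem pass_last (i s : ℕ) (tl : List ℕ) (h : D.Wd i s tl) (hh : ¬ D.hl i) :
    PassR D.Tab ((D.stg D.t (8 * i :: tl)).getLastD 0) (D.stg D.t (8 * i :: tl))
      (D.stg 0 (8 * D.nx s :: D.nt i s tl)) := by
  rw [D.last_stg i s tl h, D.stg_t, D.mc_cons, List.map_cons, D.stg_zero, nt]
  have h1 := D.nx_lt s
  have h2 := D.ins_le (D.nx s)
  refine PassR.cons _ _ _ _ _ _ (Tab.b0 i s h.hi h.hs hh) (Tab.b1 i (D.nx s) h.hi h1) ?_
  have h3 := D.pass_comp (D.ms i tl) (D.ms_rng i tl h.hi h.rng) (2 * D.nx s) (D.ins (D.nx s)) (by omega) h2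
  rw [show 4 * (2 * D.nx s) = 8 * D.nx s by ring] at h3
  exact h3

theorem hal_last (i s : ℕ) (tl : List ℕ) (h : D.Wd i s tl) (hh : D.hl i) :
    ∃ b r, D.stg D.t (8 * i :: tl) = b :: r ∧ D.Hal ((D.stg D.t (8 * i :: tl)).getLastD 0) b := by
  rw [D.last_stg i s tl h, D.stg_t, D.mc_cons, List.map_cons]
  exact ⟨_, _, rfl, Hal.mk i s h.hi h.hs hh⟩

/-- the family of words -/
def GW (g : List ℕ) : Prop := ∃ i s tl, D.Wd i s tl ∧ ∃ j, j ≤ D.t ∧ g = D.stg j (8 * i :: tl)

theorem Wd.all {D : MDat} {i s : ℕ} {tl : List ℕ} (h : D.Wd i s tl) : ∀ β ∈ 8 * i :: tl, β < D.r := by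
  intro β hβ
  rw [List.mem_cons] at hβ
  rcases hβ with rfl | hβ
  · have := h.hi
    unfold r
    omega
  · exact (h.rng β hβ).2

theorem len_stg (j : ℕ) (cs : List ℕ) : cs.length ≤ (D.stg j cs).length := by
  have h0 : 0 < 2 ^ j := by positivity
  unfold stg vals
  rw [List.length_map]
  induction cs with
  | nil => simp
  | cons β cs ih =>
    rw [List.flatMap_cons, List.length_append, List.length_map, List.length_range, List.length_cons]
    omega

theorem fam (S : MSys) (hR : S.R = D.R) (hT : ∀ c a b x, D.Tab c a b x → S.F c a b = some x ∧ S.Good c a b)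
    (hH : ∀ a b, D.Hal a b → S.F false a b = none ∧ S.Good false a b) : Fam S D.Tab D.Hal D.GW where
  tb c a b x h := ⟨(hT c a b x h).1, (hT c a b x h).2, hR ▸ (D.tab_le c a b x h).2.2⟩
  hb a b h := hH a b h
  two g hg := by
    obtain ⟨i, s, tl, h, j, hj, rfl⟩ := hg
    refine le_trans ?_ (D.len_stg j _)
    obtain ⟨us, rfl⟩ := h.lst
    simp
  le g hg := by
    obtain ⟨i, s, tl, h, j, hj, rfl⟩ := hg
    intro x hx
    unfold stg at hx
    rw [List.mem_map] at hx
    obtain ⟨v, hv, rfl⟩ := hx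
    have h1 := D.vals_lt j hj _ h.all v hv
    have h2 := D.Z_le j D.t hj
    rw [hR, R]
    omega
  nx g hg := by
    obtain ⟨i, s, tl, h, j, hj, rfl⟩ := hg
    rcases hj.lt_or_eq with hj' | rfl
    · exact Or.inr ⟨D.stg (j + 1) (8 * i :: tl), D.pass_stage j hj' _ (List.cons_ne_nil _ _) h.all,
        i, s, tl, h, j + 1, hj', rfl⟩
    · by_cases hh : D.hl i
      · exact Or.inl (D.hal_last i s tl h hh)
      · exact Or.inr ⟨_, D.pass_last i s tl h hh, _, _, _, D.nt_wd i s tl h, 0, Nat.zero_le _, rfl⟩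

/-- one round -/
theorem round (S : MSys) (hT : ∀ c a b x, D.Tab c a b x → S.F c a b = some x ∧ S.Good c a b)
    (i s : ℕ) (tl : List ℕ) (h : D.Wd i s tl) (hh : ¬ D.hl i) :
    StateTransition.Reaches₁ S.step (D.stg D.t (8 * i :: tl)) (D.stg D.t (8 * D.nx s :: D.nt i s tl)) := by
  have hT' : ∀ c a b x, D.Tab c a b x → S.F c a b = some x := fun c a b x h => (hT c a b x h).1
  have h1 := (D.pass_last i s tl h hh).reaches hT' [] (by rw [List.append_nil]) (D.stg_ne _ _ (List.cons_ne_nil _ _))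
  rw [List.append_nil, List.nil_append] at h1
  refine h1.trans_left ?_
  have hw := D.nt_wd i s tl h
  have h2 : ∀ j, j ≤ D.t → Relation.ReflTransGen (fun a b => b ∈ S.step a) (D.stg 0 (8 * D.nx s :: D.nt i s tl))
      (D.stg j (8 * D.nx s :: D.nt i s tl)) := by
    intro j
    induction j with
    | zero => intro _; exact Relation.ReflTransGen.refl
    | succ j ih =>
      intro hj
      refine (ih (by omega)).trans ?_
      have h3 := (D.pass_stage j hj _ (List.cons_ne_nil _ _) hw.all).reaches hT' [] (by rw [List.append_nil])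
        (D.stg_ne _ _ (List.cons_ne_nil _ _))
      rw [List.append_nil, List.nil_append] at h3
      exact h3.to_reflTransGen
  exact h2 D.t le_rfl

theorem round_halt (S : MSys) (hH : ∀ a b, D.Hal a b → S.F false a b = none ∧ S.Good false a b)
    (i s : ℕ) (tl : List ℕ) (h : D.Wd i s tl) (hh : D.hl i) : S.step (D.stg D.t (8 * i :: tl)) = none := by
  obtain ⟨b, r, e, h1⟩ := D.hal_last i s tl h hh
  rw [e] at h1 ⊢
  unfold MSys.step
  simp only [(hH _ _ h1).1, Option.bind_none]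

end MDat

end P913
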