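import Pool.Agent.Lib.P913.MDef

/-!
# Every monotone table is realised by a list of moves
-/

set_option autoImplicit false

namespace P913

theorem gmv_append (L L' : List (ℕ × Bool)) : ∀ u : ℕ, gmv (L ++ L') u = (gmv L u).bind (gmv L') := by
  induction L with
  | nil => intro u; rfl
  | cons x L ih =>
    intro u
    obtain ⟨k, s⟩ := x
    simp only [List.cons_append, gmv]
    split_ifs
    · rfl
    · exact ih _
    · exact ih _

theorem gmv_climb (n : ℕ) : ∀ u w : ℕ, gmv ((List.range' u n).map fun k => (k, false)) w =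
    some (if u ≤ w ∧ w < u + n then u + n else w) := by
  induction n with
  | zero =>
    intro u w
    have h : ¬ (u ≤ w ∧ w < u + 0) := by omega
    rw [if_neg h]
    rfl
  | succ n ih =>
    intro u w
    rw [List.range'_succ, List.map_cons]
    by_cases h : w = u
    · subst h
      simp only [gmv, Bool.false_eq_true, if_false, if_true, ih]
      congr 1
      split_ifs <;> omega
    · simp only [gmv, if_neg h, ih]
      congr 1
      split_ifs <;> omega

/-- the moves of a function -/
def mvs (g : ℕ → ℕ) : ℕ → List (ℕ × Bool)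
  | 0 => []
  | n + 1 => ((List.range' n (g n - n)).map fun k => (k, false)) ++ mvs g n

theorem gmv_mvs (g : ℕ → ℕ) (h1 : ∀ u, u ≤ g u) (h2 : Monotone g) : ∀ n w : ℕ,
    (w < n → gmv (mvs g n) w = some (g w)) ∧ ((∀ u, u < n → g u ≤ w) → gmv (mvs g n) w = some w) := by
  intro n
  induction n with
  | zero => intro w; exact ⟨fun h => absurd h (Nat.not_lt_zero w), fun _ => rfl⟩
  | succ n ih =>
    intro w
    have h3 := h1 n
    constructor
    · intro hw
      rw [mvs, gmv_append, gmv_climb]
      by_cases hwn : w = n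
      · subst hwn
        rw [Option.bind_some]
        have e : (if w ≤ w ∧ w < w + (g w - w) then w + (g w - w) else w) = g w := by
          split_ifs <;> omega
        rw [e]
        exact (ih _).2 fun u hu => h2 hu.le
      · have e : (if n ≤ w ∧ w < n + (g n - n) then n + (g n - n) else w) = w := by
          split_ifs <;> omega
        rw [e, Option.bind_some]
        exact (ih w).1 (by omega)
    · intro hw
      rw [mvs, gmv_append, gmv_climb]
      have h4 := hw n (Nat.lt_succ_self n)
      have e : (if n ≤ w ∧ w < n + (g n - n) then n + (g n - n) else w) = w := by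
        split_ifs <;> omega
      rw [e, Option.bind_some]
      exact (ih w).2 fun u hu => hw u (by omega)

theorem gmv_tests (p : ℕ → Prop) [DecidablePred p] (l : List ℕ) (L : List (ℕ × Bool)) (u : ℕ) :
    gmv (l.map (fun k => (k, true)) ++ L) u = if u ∈ l then none else gmv L u := by
  induction l with
  | nil => simp
  | cons k l ih =>
    rw [List.map_cons, List.cons_append]
    simp only [gmv, if_true, ih, List.mem_cons]
    split_ifs <;> simp_all

open Classical in
theorem exists_moves (n : ℕ) (T : ℕ → ℕ → Prop) (H : ℕ → Prop) (hT : ∀ u v, T u v → u ≤ n ∧ v ≤ n ∧ u ≤ v)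
    (hH : ∀ u, H u → u ≤ n) (hTH : ∀ u v, T u v → ¬ H u)
    (hm : ∀ u v u' v', T u v → T u' v' → u ≤ u' → v ≤ v') :
    ∃ L : List (ℕ × Bool), (∀ u v, T u v → gmv L u = some v) ∧ ∀ u, H u → gmv L u = none := by
  set g : ℕ → ℕ := fun w => max w (Nat.findGreatest (fun v => ∃ u, u ≤ w ∧ T u v) n) with hg
  have h1 : ∀ u, u ≤ g u := fun u => le_max_left _ _
  have h2 : Monotone g := by
    intro a b hab
    refine max_le_max hab ?_
    apply Nat.findGreatest_mono_left
    rintro v ⟨u, hu, h⟩
    exact ⟨u, hu.trans hab, h⟩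
  have h3 : ∀ u v, T u v → g u = v := by
    intro u v h
    obtain ⟨hu, hv, huv⟩ := hT u v h
    have ge : v ≤ Nat.findGreatest (fun v => ∃ u', u' ≤ u ∧ T u' v) n := Nat.le_findGreatest hv ⟨u, le_rfl, h⟩
    have le : Nat.findGreatest (fun v => ∃ u', u' ≤ u ∧ T u' v) n ≤ v := by
      obtain ⟨u', h4, h5⟩ := Nat.findGreatest_spec (P := fun v => ∃ u', u' ≤ u ∧ T u' v) hv ⟨u, le_rfl, h⟩
      exact hm _ _ _ _ h5 h h4
    show max u _ = v
    omega
  refine ⟨((List.range (n + 1)).filter fun k => H k).map (fun k => (k, true)) ++ mvs g (n + 1), ?_, ?_⟩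
  · intro u v h
    rw [gmv_tests (fun _ => True), if_neg, (gmv_mvs g h1 h2 (n + 1) u).1 (Nat.lt_succ_of_le (hT u v h).1), h3 u v h]
    intro hu
    rw [List.mem_filter] at hu
    exact hTH u v h (by simpa using hu.2)
  · intro u h
    rw [gmv_tests (fun _ => True), if_pos]
    rw [List.mem_filter]
    exact ⟨List.mem_range.2 (Nat.lt_succ_of_le (hH u h)), by simpa using h⟩

theorem exists_msys (R : ℕ) (T : Bool → ℕ → ℕ → ℕ → Prop) (H : Bool → ℕ → ℕ → Prop)
    (hT : ∀ c a b x, T c a b x → a ≤ R ∧ b ≤ R ∧ x ≤ R) (hH : ∀ c a b, H c a b → a ≤ R ∧ b ≤ R)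
    (hTH : ∀ c a b x a' b', T c a b x → H c a' b' → 2 * b + a' ≠ 2 * b' + a)
    (hm : ∀ c a b x a' b' x', T c a b x → T c a' b' x' → 2 * b + a' ≤ 2 * b' + a → 2 * b + x' ≤ 2 * b' + x) :
    ∃ S : MSys, S.R = R ∧ (∀ c a b x, T c a b x → S.F c a b = some x ∧ S.Good c a b) ∧
      ∀ c a b, H c a b → S.F c a b = none ∧ S.Good c a b := by
  have key : ∀ c : Bool, ∃ L : List (ℕ × Bool),
      (∀ u v, (∃ a b x, T c a b x ∧ u = 2 * b + R - a ∧ v = 2 * b + R + R - x) → gmv L u = some v) ∧
      ∀ u, (∃ a b, H c a b ∧ u = 2 * b + R - a) → gmv L u = none := by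
    intro c
    refine exists_moves (4 * R) _ _ ?_ ?_ ?_ ?_
    · rintro u v ⟨a, b, x, h, rfl, rfl⟩
      have := hT c a b x h
      omega
    · rintro u ⟨a, b, h, rfl⟩
      have := hH c a b h
      omega
    · rintro u v ⟨a, b, x, h, rfl, rfl⟩ ⟨a', b', h', e⟩
      have h1 := hT c a b x h
      have h2 := hH c a' b' h'
      have h3 := hTH c a b x a' b' h h'
      omega
    · rintro u v u' v' ⟨a, b, x, h, rfl, rfl⟩ ⟨a', b', x', h', rfl, rfl⟩ hle
      have h1 := hT c a b x h
      have h2 := hT c a' b' x' h'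
      have h3 := hm c a b x a' b' x' h h'
      omega
  choose L h1 h2 using key
  refine ⟨⟨R, L, fun _ => R⟩, rfl, ?_, ?_⟩
  · intro c a b x h
    have h3 := hT c a b x h
    have h4 : gmv (L c) (2 * b + R - a) = some (2 * b + R + R - x) := h1 c _ _ ⟨a, b, x, h, rfl, rfl⟩
    constructor
    · show (gmv (L c) (2 * b + R - a)).map (fun v => 2 * b + R + R - v) = some x
      rw [h4, Option.map_some]
      congr 1
      omega
    · intro v hv
      have hv' : gmv (L c) (2 * b + R - a) = some v := hv
      rw [h4, Option.some.injEq] at hv'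
      show v ≤ 2 * b + R + R ∧ 2 * b + R + R ≤ v + R
      omega
  · intro c a b h
    have h4 : gmv (L c) (2 * b + R - a) = none := h2 c _ ⟨a, b, h, rfl⟩
    constructor
    · show (gmv (L c) (2 * b + R - a)).map (fun v => 2 * b + R + R - v) = none
      rw [h4, Option.map_none]
    · intro v hv
      have hv' : gmv (L c) (2 * b + R - a) = some v := hv
      rw [h4] at hv'
      exact absurd hv' (by simp)

end P913
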