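import Pool.Agent.Lib.P913.MDyn

/-!
# The tables of the recursion (M) for a counter machine
-/

set_option autoImplicit false

namespace P913

/-- the data of a counter machine: `N` labels, states `s = 2 i` (not found) and `2 i + 1` (found) of the label `i`,
`nx s` the next label, `ins j` the inserted unit, `8 N + 4 (sg s M) + lm s M` the letter written for the letter `M`
in the state `s` -/
structure MDat where
  N : ℕ
  nx : ℕ → ℕ
  hl : ℕ → Prop
  ins : ℕ → ℕ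
  sg : ℕ → ℕ → ℕ
  lm : ℕ → ℕ → ℕ
  hN : 0 < N
  nx_lt : ∀ s, nx s < N
  nx_le : ∀ i, nx (2 * i) ≤ nx (2 * i + 1)
  ins_le : ∀ j, ins j ≤ 3
  lm_le : ∀ s M, lm s M ≤ 3
  sg_or : ∀ s M, sg s M = s ∨ (sg s M = s + 1 ∧ lm s M = 0)
  sg_odd : ∀ i M, sg (2 * i + 1) M = 2 * i + 1

namespace MDat

variable (D : MDat)

/-- number of stages -/
def t : ℕ := 16 * D.N
/-- the unit of the last stage -/
def E : ℕ := 2 ^ D.t
/-- number of small codes -/
def r : ℕ := 16 * D.N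
/-- width of the stages -/
def W : ℕ := D.E * (D.E * D.r)
/-- centres of the stages -/
def Z : ℕ → ℕ
  | 0 => 0
  | j + 1 => Z j + 3 * D.W * (D.t + 1 - j)
/-- bound for the letters -/
def R : ℕ := D.Z D.t + 3 * D.W

/-- the table -/
inductive Tab : Bool → ℕ → ℕ → ℕ → Prop
  | d0 (j ab v v' : ℕ) (hj : j < D.t) (hab : ab = D.Z j ∨ ab = D.Z (j + 1)) (hv : v < D.W) (hv' : v' < D.W) :
      Tab false (ab + v') (D.Z j + v) (D.Z (j + 1) + 2 * v)
  | b0 (i s : ℕ) (hi : i < D.N) (hs : s = 2 * i ∨ s = 2 * i + 1) (hh : ¬ D.hl i) :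
      Tab false (D.Z D.t + D.E * (8 * D.N + 4 * s + D.r * (D.E - 1))) (D.Z D.t + D.E * (8 * i)) (8 * D.nx s)
  | c0 (s l M : ℕ) (hs : s < 2 * D.N) (hl : l ≤ 3) (hM : 8 * D.N ≤ M) (hM' : M < D.E * D.r) :
      Tab false (8 * D.N + 4 * s + l) (D.Z D.t + D.E * M) (8 * D.N + 4 * D.sg s M + D.lm s M)
  | d1 (j v : ℕ) (hj : j < D.t) (hv : v < D.W) :
      Tab true (D.Z (j + 1) + 2 * v) (D.Z j + v) (D.Z (j + 1) + 2 * v + D.E * D.r)
  | b1 (i j : ℕ) (hi : i < D.N) (hj : j < D.N) :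
      Tab true (8 * j) (D.Z D.t + D.E * (8 * i)) (8 * D.N + 8 * j + D.ins j)
  | c1 (s l M : ℕ) (hs : s < 2 * D.N) (hl : l ≤ 3) (hM : 8 * D.N ≤ M) (hM' : M < D.E * D.r) :
      Tab true (8 * D.N + 4 * s + l) (D.Z D.t + D.E * M) (8 * D.N + 4 * s)

/-- the halting pairs -/
inductive Hal : ℕ → ℕ → Prop
  | mk (i s : ℕ) (hi : i < D.N) (hs : s = 2 * i ∨ s = 2 * i + 1) (hh : D.hl i) :
      Hal (D.Z D.t + D.E * (8 * D.N + 4 * s + D.r * (D.E - 1))) (D.Z D.t + D.E * (8 * i))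

theorem sg_lt (s M : ℕ) (hs : s < 2 * D.N) : D.sg s M < 2 * D.N := by
  rcases Nat.even_or_odd' s with ⟨i, rfl | rfl⟩
  · rcases D.sg_or (2 * i) M with h | ⟨h, _⟩ <;> omega
  · rw [D.sg_odd]
    exact hs

theorem r_lt_E : D.r < D.E := by
  unfold r E t
  exact Nat.lt_two_pow_self

theorem t_pos : 0 < D.t := by
  have := D.hN
  unfold t
  omega

theorem Er_le_W : D.E * D.r ≤ D.W := by
  unfold W
  exact Nat.le_mul_of_pos_left _ (by have := D.r_lt_E; omega)

theorem r_le_Er : D.r ≤ D.E * D.r := Nat.le_mul_of_pos_left _ (by have := D.r_lt_E; omega)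

theorem E_le_Er : D.E ≤ D.E * D.r := Nat.le_mul_of_pos_right _ (by have := D.hN; unfold r; omega)

theorem E_le_W : D.E ≤ D.W := D.E_le_Er.trans D.Er_le_W

theorem mulE_lt (x : ℕ) (h : x < D.E * D.r) : D.E * x < D.W := by
  unfold W
  exact Nat.mul_lt_mul_of_pos_left h (by have := D.r_lt_E; omega)

theorem Z_succ (j : ℕ) : D.Z (j + 1) = D.Z j + 3 * D.W * (D.t + 1 - j) := rfl

theorem Z_lt (j : ℕ) (hj : j < D.t) : D.Z j + 6 * D.W ≤ D.Z (j + 1) := by
  rw [Z_succ]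
  have : 3 * D.W * 2 ≤ 3 * D.W * (D.t + 1 - j) := Nat.mul_le_mul_left _ (by omega)
  omega

theorem Z_le (i : ℕ) : ∀ j, i ≤ j → D.Z i ≤ D.Z j := by
  intro j hij
  induction j, hij using Nat.le_induction with
  | base => exact le_rfl
  | succ j _ ih =>
    rw [Z_succ]
    omega

theorem Z_sep' (j : ℕ) (hj : j + 1 < D.t) : D.Z j + 3 * D.W + D.Z (j + 2) ≤ 2 * D.Z (j + 1) := by
  rw [D.Z_succ (j + 1), D.Z_succ j]
  have : 3 * D.W * (D.t + 1 - j) = 3 * D.W * (D.t + 1 - (j + 1)) + 3 * D.W := by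
    rw [← Nat.mul_succ]
    congr 1
    omega
  omega

theorem Z_sep (i j : ℕ) (hij : i < j) (hj : j < D.t) : D.Z i + 3 * D.W + D.Z (j + 1) ≤ 2 * D.Z j := by
  obtain ⟨j, rfl⟩ : ∃ j', j = j' + 1 := ⟨j - 1, by omega⟩
  have h1 := D.Z_sep' j (by omega)
  have h2 := D.Z_le i j (by omega)
  have e : D.Z (j + 1 + 1) = D.Z (j + 2) := rfl
  rw [e]
  omega

theorem Z_top (i : ℕ) (hi : i < D.t) : D.Z i + 6 * D.W ≤ D.Z D.t := by
  have h1 := D.Z_lt i hi
  have h2 := D.Z_le (i + 1) D.t (by omega)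
  omega

theorem bord_lt (i s : ℕ) (hi : i < D.N) (hs : s = 2 * i ∨ s = 2 * i + 1) :
    8 * D.N + 4 * s + D.r * (D.E - 1) < D.E * D.r := by
  have h1 : D.E * D.r = D.r * (D.E - 1) + D.r := by
    obtain ⟨e, he⟩ : ∃ e, D.E = e + 1 := ⟨D.E - 1, by have := D.r_lt_E; omega⟩
    rw [he]
    simp only [Nat.add_sub_cancel]
    ring
  rw [h1]
  unfold r
  omega

theorem mark_lt (i : ℕ) (hi : i < D.N) : 8 * i < D.E * D.r := by
  have h1 := D.r_le_Er
  have h2 : D.r = 16 * D.N := rfl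
  omega

theorem lett_lt (s l : ℕ) (hs : s < 2 * D.N) (hl : l ≤ 3) : 8 * D.N + 4 * s + l < D.r := by
  unfold r
  omega

theorem phi_le (s M : ℕ) : 4 * s ≤ 4 * D.sg s M + D.lm s M ∧ 4 * D.sg s M + D.lm s M ≤ 4 * s + 4 := by
  have h1 := D.lm_le s M
  rcases D.sg_or s M with h | ⟨h, h'⟩ <;> omega

theorem phi_lt (s M : ℕ) (hs : s < 2 * D.N) : 8 * D.N + 4 * D.sg s M + D.lm s M < D.r :=
  D.lett_lt _ _ (D.sg_lt s M hs) (D.lm_le s M)

theorem tab_le (c : Bool) (a b x : ℕ) (h : D.Tab c a b x) : a ≤ D.R ∧ b ≤ D.R ∧ x ≤ D.R := by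
  have hW1 := D.Er_le_W
  have hr := D.r_le_Er
  have hr' : D.r = 16 * D.N := rfl
  unfold R
  rcases h with ⟨j, ab, v, v', hj, hab, hv, hv'⟩ | ⟨i, s, hi, hs, hh⟩ | ⟨s, l, M, hs, hl, hM, hM'⟩ | ⟨j, v, hj, hv⟩ |
    ⟨i, j, hi, hj⟩ | ⟨s, l, M, hs, hl, hM, hM'⟩
  · have h1 := D.Z_top j hj
    have h2 := D.Z_le (j + 1) D.t (by omega)
    rcases hab with rfl | rfl <;> omega
  · have h1 := D.mulE_lt _ (D.bord_lt i s hi hs)
    have h2 := D.mulE_lt _ (D.mark_lt i hi)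
    have h3 := D.nx_lt s
    omega
  · have h1 := D.mulE_lt _ hM'
    have h2 := D.phi_lt s M hs
    have h3 := D.lett_lt s l hs hl
    omega
  · have h1 := D.Z_top j hj
    have h2 := D.Z_le (j + 1) D.t (by omega)
    omega
  · have h2 := D.mulE_lt _ (D.mark_lt i hi)
    have h3 := D.ins_le j
    omega
  · have h1 := D.mulE_lt _ hM'
    have h3 := D.lett_lt s l hs hl
    omega

theorem hal_le (a b : ℕ) (h : D.Hal a b) : a ≤ D.R ∧ b ≤ D.R := by
  obtain ⟨i, s, hi, hs, hh⟩ := h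
  unfold R
  have h1 := D.mulE_lt _ (D.bord_lt i s hi hs)
  have h2 := D.mulE_lt _ (D.mark_lt i hi)
  omega

theorem E_step (x y : ℕ) (h : x < y) : D.E * x + D.E ≤ D.E * y := by
  rw [← Nat.mul_succ]
  exact Nat.mul_le_mul_left _ h

theorem bord_cmp (i s i' s' c : ℕ)
    (h : 2 * (D.E * (8 * i)) + D.E * (8 * D.N + 4 * s' + c) ≤ 2 * (D.E * (8 * i')) + D.E * (8 * D.N + 4 * s + c)) :
    16 * i + 4 * s' ≤ 16 * i' + 4 * s := by
  by_contra hlt
  have h1 : 2 * (8 * i') + (8 * D.N + 4 * s + c) < 2 * (8 * i) + (8 * D.N + 4 * s' + c) := by omega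
  have h2 := Nat.mul_lt_mul_of_pos_left h1 (show 0 < D.E by have := D.r_lt_E; omega)
  rw [Nat.mul_add D.E (2 * (8 * i')), Nat.mul_add D.E (2 * (8 * i)), Nat.mul_left_comm D.E 2 (8 * i'),
    Nat.mul_left_comm D.E 2 (8 * i)] at h2
  omega

theorem phi_mono (s s' M : ℕ) (h : s ≤ s') : 4 * D.sg s M + D.lm s M ≤ 4 * D.sg s' M + D.lm s' M := by
  rcases h.lt_or_eq with h | rfl
  · have h1 := D.phi_le s M
    have h2 := D.phi_le s' M
    omega
  · exact le_rfl

theorem tab_mono (c : Bool) (a b x a' b' x' : ℕ) (h : D.Tab c a b x) (h' : D.Tab c a' b' x')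
    (hle : 2 * b + a' ≤ 2 * b' + a) : 2 * b + x' ≤ 2 * b' + x := by
  have hW1 := D.Er_le_W
  have hr := D.r_le_Er
  have hr' : D.r = 16 * D.N := rfl
  have hrE := D.r_lt_E
  have hZ0 := D.Z_top 0 D.t_pos
  have hZ0' : D.Z 0 = 0 := rfl
  have hE0 := D.E_le_W
  rcases h with ⟨j, ab, v, w, hj, hab, hv, hw⟩ | ⟨i, s, hi, hs, hh⟩ | ⟨s, l, M, hs, hl, hM, hM'⟩ | ⟨j, v, hj, hv⟩ |
    ⟨i, j, hi, hj⟩ | ⟨s, l, M, hs, hl, hM, hM'⟩
  · have h1 := D.Z_top j hj
    have h2 := D.Z_lt j hj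
    rcases h' with ⟨j', ab', v', w', hj', hab', hv', hw'⟩ | ⟨i', s', hi', hs', hh'⟩ |
      ⟨s', l', M', hs', hl', hM2, hM3⟩
    · have h3 := D.Z_lt j' hj'
      rcases lt_trichotomy j j' with h4 | rfl | h4
      · have h5 := D.Z_sep j j' h4 hj'
        omega
      · omega
      · have h5 := D.Z_sep j' j h4 hj
        rcases hab with rfl | rfl <;> rcases hab' with rfl | rfl <;> omega
    · have h3 := D.nx_lt s'
      omega
    · have h3 := D.phi_lt s' M' hs'
      omega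
  · have h1 := D.mulE_lt _ (D.bord_lt i s hi hs)
    have h2 := D.mulE_lt _ (D.mark_lt i hi)
    rcases h' with ⟨j', ab', v', w', hj', hab', hv', hw'⟩ | ⟨i', s', hi', hs', hh'⟩ |
      ⟨s', l', M', hs', hl', hM2, hM3⟩
    · have h3 := D.Z_lt j' hj'
      have h4 := D.Z_top j' hj'
      rcases hab' with rfl | rfl <;> omega
    · have h3 := D.bord_cmp i s i' s' (D.r * (D.E - 1)) (by omega)
      have h4 := D.nx_lt s'
      rcases lt_trichotomy i i' with h5 | rfl | h5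
      · have h6 := D.E_step (8 * i) (8 * i') (by omega)
        omega
      · have h7 := D.nx_le i
        have h8 : D.nx s' ≤ D.nx s := by
          rcases hs with rfl | rfl <;> rcases hs' with rfl | rfl
          · exact le_rfl
          · omega
          · exact h7
          · exact le_rfl
        omega
      · omega
    · have h3 := D.phi_lt s' M' hs'
      have h6 := D.E_step (8 * i) M' (by omega)
      omega
  · have h0 := D.phi_lt s M hs
    have h00 := D.lett_lt s l hs hl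
    rcases h' with ⟨j', ab', v', w', hj', hab', hv', hw'⟩ | ⟨i', s', hi', hs', hh'⟩ |
      ⟨s', l', M', hs', hl', hM2, hM3⟩
    · have h3 := D.Z_lt j' hj'
      have h4 := D.Z_top j' hj'
      rcases hab' with rfl | rfl <;> omega
    · have h1 := D.mulE_lt _ (D.bord_lt i' s' hi' hs')
      have h2 := D.mulE_lt _ (D.mark_lt i' hi')
      omega
    · have h3 := D.phi_lt s' M' hs'
      rcases lt_trichotomy M M' with h5 | rfl | h5
      · have h6 := D.E_step M M' h5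
        omega
      · have h6 := D.phi_mono s' s M (by omega)
        omega
      · have h6 := D.E_step M' M h5
        omega
  · have h1 := D.Z_top j hj
    have h2 := D.Z_lt j hj
    rcases h' with _ | _ | _ | ⟨j', v', hj', hv'⟩ | ⟨i', j', hi', hj'⟩ | ⟨s', l', M', hs', hl', hM2, hM3⟩
    · omega
    · have h3 := D.ins_le j'
      omega
    · omega
  · have h0 := D.ins_le j
    rcases h' with _ | _ | _ | ⟨j', v', hj', hv'⟩ | ⟨i', j', hi', hj'⟩ | ⟨s', l', M', hs', hl', hM2, hM3⟩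
    · have h1 := D.Z_top j' hj'
      have h2 := D.Z_lt j' hj'
      omega
    · have h3 := D.ins_le j'
      rcases lt_trichotomy i i' with h5 | rfl | h5
      · have h6 := D.E_step (8 * i) (8 * i') (by omega)
        omega
      · rcases (show j' ≤ j by omega).lt_or_eq with h7 | rfl <;> omega
      · have h6 := D.E_step (8 * i') (8 * i) (by omega)
        omega
    · have h6 := D.E_step (8 * i) M' (by omega)
      omega
  · have h00 := D.lett_lt s l hs hl
    rcases h' with _ | _ | _ | ⟨j', v', hj', hv'⟩ | ⟨i', j', hi', hj'⟩ | ⟨s', l', M', hs', hl', hM2, hM3⟩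
    · have h1 := D.Z_top j' hj'
      have h2 := D.Z_lt j' hj'
      omega
    · have h3 := D.ins_le j'
      have h6 := D.E_step (8 * i') M (by omega)
      omega
    · rcases lt_trichotomy M M' with h5 | rfl | h5
      · have h6 := D.E_step M M' h5
        omega
      · omega
      · have h6 := D.E_step M' M h5
        have h7 := D.lett_lt s' l' hs' hl'
        omega

theorem tab_hal (c : Bool) (a b x a' b' : ℕ) (h : D.Tab c a b x) (h' : c = false ∧ D.Hal a' b') :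
    2 * b + a' ≠ 2 * b' + a := by
  intro he
  obtain ⟨rfl, ⟨i', s', hi', hs', hh'⟩⟩ := h'
  have hW1 := D.Er_le_W
  have hr := D.r_le_Er
  have hr' : D.r = 16 * D.N := rfl
  have hrE := D.r_lt_E
  have hZ0 := D.Z_top 0 D.t_pos
  have hZ0' : D.Z 0 = 0 := rfl
  have h1 := D.mulE_lt _ (D.bord_lt i' s' hi' hs')
  have h2 := D.mulE_lt _ (D.mark_lt i' hi')
  rcases h with ⟨j, ab, v, w, hj, hab, hv, hw⟩ | ⟨i, s, hi, hs, hh⟩ | ⟨s, l, M, hs, hl, hM, hM'⟩
  · have h3 := D.Z_lt j hj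
    have h4 := D.Z_top j hj
    rcases hab with rfl | rfl <;> omega
  · have h3 := D.bord_cmp i s i' s' (D.r * (D.E - 1)) (by omega)
    have h4 := D.bord_cmp i' s' i s (D.r * (D.E - 1)) (by omega)
    have h5 : i = i' := by omega
    subst h5
    exact hh hh'
  · have h3 := D.lett_lt s l hs hl
    omega

theorem exists_sys : ∃ S : MSys, S.R = D.R ∧ (∀ c a b x, D.Tab c a b x → S.F c a b = some x ∧ S.Good c a b) ∧
    ∀ a b, D.Hal a b → S.F false a b = none ∧ S.Good false a b := by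
  obtain ⟨S, h1, h2, h3⟩ := exists_msys D.R D.Tab (fun c a b => c = false ∧ D.Hal a b) D.tab_le
    (fun c a b h => D.hal_le a b h.2) D.tab_hal D.tab_mono
  exact ⟨S, h1, h2, fun a b h => h3 false a b ⟨rfl, h⟩⟩

end MDat

end P913
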