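import Pool.Agent.Lib.P913.EvDom

/-!
# Module NumTape: from TM0 machines over `Bool` with finitely many states to bit machines

PROOF.  `num l` is the number with the binary digits `l` (lowest first).  Relation between a half tape
`L : Turing.ListBlank Bool` and a number: `HT L n := ∀ i, L.nth i = n.testBit i`.  Facts: `HT (L.cons b) (2 n + b)`
(`Nat.testBit_succ`, `Nat.testBit_zero`, `Nat.bit`), `HT L.tail n.div2`, `L.head = n.bodd`;
`HT (ListBlank.mk l) (num l)`; `HT` of the empty list and `0`.
States: `N = S.card` (use `Finset.equivFin` or `Fintype.equivFin S`), `q0` = the default state (in `S` by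
`Supports`).  `B q s = none` if `M q s = none`; otherwise `some (q', act)` with `q'` in `S` (`Supports`) and
`TM0.Stmt.write b ↦ Act.wr b`, `TM0.Stmt.move Dir.left ↦ Act.ml`, `move Dir.right ↦ Act.mr`.
Relation of configurations: `⟨q, T⟩ ~ (q, l, s, r)` if the states correspond, `T.head = s`, `HT T.left l`, `HT T.right r`
(`Tape.move`: `Tape.move Dir.left ⟨a, L, R⟩ = ⟨L.head, L.tail, R.cons a⟩`).  This is `StateTransition.Respects
(TM0.step M) (bstep B) (~)` (one step to one step; the relation includes `q ∈ S`), hence
`StateTransition.tr_eval_dom`, and `BMHalts_iff`.  `TM0.eval M l` is a `Part.map` of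
`eval (TM0.step M) (TM0.init l)`, `TM0.init l = ⟨default, Tape.mk₁ l⟩`; for `l = []` the head is `false` and everything
is blank; for `l = b :: l'`: head `b`, right half `l'`: `(num l).bodd = b`, `(num l).div2 = num l'`.
-/

set_option autoImplicit false

namespace P913

/-- the number with the binary digits `l` (the lowest digit first) -/
def num (l : List Bool) : ℕ := l.foldr (fun b n => 2 * n + b.toNat) 0

/-- a half tape and the number coded by it -/
private def HT (L : Turing.ListBlank Bool) (n : ℕ) : Prop := ∀ i, L.nth i = n.testBit i

private theorem HT.head {L : Turing.ListBlank Bool} {n : ℕ} (h : HT L n) : L.head = n.bodd := by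
  have := h 0
  rw [Turing.ListBlank.nth_zero] at this
  rw [this, Nat.testBit_zero]
  rcases hb : n.bodd with _ | _
  · have := Nat.mod_two_of_bodd n
    rw [hb] at this
    simp [this]
  · have := Nat.mod_two_of_bodd n
    rw [hb] at this
    simp [this]

private theorem HT.tail {L : Turing.ListBlank Bool} {n : ℕ} (h : HT L n) : HT L.tail n.div2 := by
  intro i
  have := h (i + 1)
  rw [Turing.ListBlank.nth_succ] at this
  rw [this, Nat.testBit_succ, Nat.div2_val]

private theorem HT.cons {L : Turing.ListBlank Bool} {n : ℕ} (h : HT L n) (b : Bool) :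
    HT (L.cons b) (2 * n + b.toNat) := by
  intro i
  cases i with
  | zero =>
    rw [Turing.ListBlank.nth_zero, Turing.ListBlank.head_cons, Nat.testBit_zero]
    cases b <;> simp <;> omega
  | succ i =>
    rw [Turing.ListBlank.nth_succ, Turing.ListBlank.tail_cons, Nat.testBit_succ, h i]
    congr 1
    cases b <;> simp <;> omega

private theorem HT.zero : HT (default : Turing.ListBlank Bool) 0 := by
  intro i
  rw [Nat.zero_testBit]
  change (Turing.ListBlank.mk ([] : List Bool)).nth i = false
  rw [Turing.ListBlank.nth_mk]
  simp

private theorem HT.mk (l : List Bool) : HT (Turing.ListBlank.mk l) (num l) := by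
  induction l with
  | nil =>
    intro i
    rw [Turing.ListBlank.nth_mk]
    simp [num]
  | cons b l ih =>
    have := HT.cons ih b
    rw [Turing.ListBlank.cons_mk] at this
    exact this

theorem tm0_to_bm {Λ : Type} [Inhabited Λ] (M : Turing.TM0.Machine Bool Λ) (S : Finset Λ)
    (hS : Turing.TM0.Supports M (S : Set Λ)) :
    ∃ (N : ℕ) (B : BM N) (q0 : Fin N), ∀ l : List Bool,
      BMHalts B (q0, 0, (num l).bodd, (num l).div2) ↔ (Turing.TM0.eval M l).Dom := by
  classical
  have hd : (default : Λ) ∈ S := hS.1
  let e := S.equivFin
  let enc : Λ → Fin S.card := fun q => if h : q ∈ S then e ⟨q, h⟩ else e ⟨default, hd⟩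
  have henc : ∀ q (h : q ∈ S), (e.symm (enc q)).1 = q := by
    intro q h
    simp [enc, h]
  let act : Turing.TM0.Stmt Bool → Act := fun s => match s with
    | Turing.TM0.Stmt.move Turing.Dir.left => Act.ml
    | Turing.TM0.Stmt.move Turing.Dir.right => Act.mr
    | Turing.TM0.Stmt.write b => Act.wr b
  let B : BM S.card := fun q s => (M (e.symm q).1 s).map fun p => (enc p.1, act p.2)
  let R : Turing.TM0.Cfg Bool Λ → BC S.card → Prop := fun c d =>
    c.q ∈ S ∧ d.1 = enc c.q ∧ d.2.2.1 = c.Tape.head ∧ HT c.Tape.left d.2.1 ∧
      HT c.Tape.right d.2.2.2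
  have hR : StateTransition.Respects (Turing.TM0.step M) (bstep B) R := by
    rintro ⟨q, T⟩ ⟨q₂, L, s, r⟩ ⟨h1, h2, h3, h4, h5⟩
    dsimp only at h1 h2 h3 h4 h5
    subst h2 h3
    have hB : B (enc q) T.head = (M q T.head).map fun p => (enc p.1, act p.2) := by
      simp only [B]
      rw [henc q h1]
    rcases hM : M q T.head with _ | ⟨q', a⟩
    · have e1 : Turing.TM0.step M ⟨q, T⟩ = none := by
        simp [Turing.TM0.step, hM]
      have e2 : bstep B (enc q, L, T.head, r) = none := by
        simp only [bstep]
        rw [hB, hM]
        rfl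
      rw [e1]
      exact e2
    · have hq' : q' ∈ S := hS.2 (show (q', a) ∈ M q T.head from hM) h1
      have hB' : B (enc q) T.head = some (enc q', act a) := by
        rw [hB, hM]
        rfl
      cases a with
      | move d =>
        cases d with
        | left =>
          have e1 : Turing.TM0.step M ⟨q, T⟩ = some ⟨q', T.move Turing.Dir.left⟩ := by
            simp [Turing.TM0.step, hM]
          rw [e1]
          refine ⟨(enc q', L.div2, L.bodd, 2 * r + T.head.toNat), ⟨hq', rfl, ?_, ?_, ?_⟩, ?_⟩
          · exact h4.head.symm
          · exact h4.tail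
          · exact h5.cons T.head
          · refine Relation.TransGen.single ?_
            change bstep B (enc q, L, T.head, r) = some _
            simp only [bstep]
            rw [hB']
        | right =>
          have e1 : Turing.TM0.step M ⟨q, T⟩ = some ⟨q', T.move Turing.Dir.right⟩ := by
            simp [Turing.TM0.step, hM]
          rw [e1]
          refine ⟨(enc q', 2 * L + T.head.toNat, r.bodd, r.div2), ⟨hq', rfl, ?_, ?_, ?_⟩, ?_⟩
          · exact h5.head.symm
          · exact h4.cons T.head
          · exact h5.tail
          · refine Relation.TransGen.single ?_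
            change bstep B (enc q, L, T.head, r) = some _
            simp only [bstep]
            rw [hB']
      | write b =>
        have e1 : Turing.TM0.step M ⟨q, T⟩ = some ⟨q', T.write b⟩ := by
          simp [Turing.TM0.step, hM]
        rw [e1]
        refine ⟨(enc q', L, b, r), ⟨hq', rfl, ?_, ?_, ?_⟩, ?_⟩
        · rfl
        · exact h4
        · exact h5
        · refine Relation.TransGen.single ?_
          change bstep B (enc q, L, T.head, r) = some _
          simp only [bstep]
          rw [hB']
  refine ⟨S.card, B, enc default, fun l => ?_⟩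
  rw [BMHalts_iff]
  have hinit : R (Turing.TM0.init l) (enc default, 0, (num l).bodd, (num l).div2) := by
    refine ⟨hd, rfl, ?_, ?_, ?_⟩
    · exact (HT.mk l).head.symm
    · exact HT.zero
    · exact (HT.mk l).tail
  have := StateTransition.tr_eval_dom hR hinit
  rw [this]
  rfl

end P913
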