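import Mathlib

/-!
# Module PRCode: partial recursive functions as programs of the 4-stack machine of Mathlib, input `2 ^ v - 1`

PROOFS.  Let `g : ℕ →. ℕ := fun u => (Nat.rfind fun v => Part.some (decide (u < 2 ^ v))).bind f`.  It is partial
recursive (`Partrec.rfind` / `Nat.Partrec`, `Partrec.nat_iff : Partrec f ↔ Nat.Partrec f`; `2 ^ v` is computable,
for example as `Nat.rec 1 (fun _ x => x + x) v`, `Primrec.nat_rec'`, and `u < w` is `Primrec.nat_lt`), and
`(g (2 ^ v - 1)).Dom ↔ (f v).Dom`, because the least `v'` with `2 ^ v - 1 < 2 ^ v'` is `v`.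
`Nat.Partrec'.part_iff₁ : (@Nat.Partrec' 1 fun v => g v.head) ↔ Partrec g`, and
`Turing.ToPartrec.Code.exists_code : Nat.Partrec' f → ∃ c : Code, ∀ v : List.Vector ℕ n, c.eval v.1 = pure <$> f v`
with `v = u ::ᵥ List.Vector.nil` (its list is `[u]`).  Then `Turing.PartrecToTM2.tr_eval :
eval (TM2.step tr) (init c v) = halt <$> Code.eval c v` gives the statement (`Dom` of `<$>`).
`trNat_ones`: `trNat (2 * n + 1) = Γ'.bit1 :: trNat n` for all `n` (`trNat n = trNum (n : Num)`;
`((2 * n + 1 : ℕ) : Num) = Num.bit1 (n : Num)`, cases `n = 0` and `n > 0`), and `2 ^ (v + 1) - 1 = 2 (2 ^ v - 1) + 1`.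
-/

set_option autoImplicit false

namespace P913

theorem pow2_primrec : Primrec (fun v : ℕ => 2 ^ v) := by
  have h : Primrec (Nat.rec (motive := fun _ => ℕ) 1 (fun _ x => x + x)) :=
    Primrec.nat_rec₁ (α := ℕ) (f := fun _ x => x + x) 1
      (Primrec.nat_add.comp Primrec.snd Primrec.snd)
  refine h.of_eq fun v => ?_
  induction v with
  | zero => rfl
  | succ v ih =>
    show (Nat.rec (motive := fun _ => ℕ) 1 (fun _ x => x + x) v) +
      (Nat.rec (motive := fun _ => ℕ) 1 (fun _ x => x + x) v) = 2 ^ (v + 1)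
    rw [ih]; ring

/-- the least `v` with `u < 2 ^ v`, then `f` -/
def gfun (f : ℕ →. ℕ) : ℕ →. ℕ := fun u =>
  (Nat.rfind fun v => Part.some (decide (u < 2 ^ v))).bind f

theorem gfun_partrec (f : ℕ →. ℕ) (hf : Nat.Partrec f) : Partrec (gfun f) := by
  have h1 : Primrec₂ (fun (u v : ℕ) => decide (u < 2 ^ v)) := by
    have := (Primrec.nat_lt.comp (Primrec.fst (α := ℕ) (β := ℕ)) (pow2_primrec.comp Primrec.snd))
    exact this.decide
  have h2 : Partrec₂ (fun (u v : ℕ) => (Part.some (decide (u < 2 ^ v)) : Part Bool)) :=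
    h1.to_comp.partrec₂
  have h3 : Partrec (fun u : ℕ => Nat.rfind fun v => (Part.some (decide (u < 2 ^ v)) : Part Bool)) :=
    Partrec.rfind h2
  exact h3.bind ((Partrec.nat_iff.2 hf).comp Computable.snd)

theorem gfun_dom (f : ℕ →. ℕ) (v : ℕ) : (gfun f (2 ^ v - 1)).Dom ↔ (f v).Dom := by
  have h1 : (Nat.rfind fun w => (Part.some (decide (2 ^ v - 1 < 2 ^ w)) : Part Bool)) = Part.some v := by
    rw [Part.eq_some_iff, Nat.mem_rfind]
    refine ⟨?_, fun {m} hm => ?_⟩
    · rw [Part.mem_some_iff]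
      have : 0 < 2 ^ v := by positivity
      symm
      rw [decide_eq_true_iff]
      omega
    · rw [Part.mem_some_iff]
      have : 2 ^ m < 2 ^ v := Nat.pow_lt_pow_right (by norm_num) hm
      symm
      rw [decide_eq_false_iff_not]
      omega
  rw [gfun, h1, Part.bind_some]

theorem exists_prog (f : ℕ →. ℕ) (hf : Nat.Partrec f) : ∃ c : Turing.ToPartrec.Code, ∀ v : ℕ,
    (StateTransition.eval (Turing.TM2.step Turing.PartrecToTM2.tr)
      (Turing.PartrecToTM2.init c [2 ^ v - 1])).Dom ↔ (f v).Dom := by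
  have h1 : @Nat.Partrec' 1 fun v => gfun f v.head :=
    Nat.Partrec'.part_iff₁.2 (gfun_partrec f hf)
  obtain ⟨c, hc⟩ := Turing.ToPartrec.Code.exists_code h1
  refine ⟨c, fun v => ?_⟩
  have h2 := hc ((2 ^ v - 1) ::ᵥ List.Vector.nil)
  have h3 : ((2 ^ v - 1) ::ᵥ List.Vector.nil : List.Vector ℕ 1).1 = [2 ^ v - 1] := rfl
  rw [h3, List.Vector.head_cons] at h2
  rw [Turing.PartrecToTM2.tr_eval, h2]
  exact gfun_dom f v

theorem trNat_two_mul_add_one (n : ℕ) : Turing.PartrecToTM2.trNat (2 * n + 1) =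
    Turing.PartrecToTM2.Γ'.bit1 :: Turing.PartrecToTM2.trNat n := by
  unfold Turing.PartrecToTM2.trNat
  have h : ((2 * n + 1 : ℕ) : Num) = Num.bit1 (n : Num) := by
    rw [← Num.ofNat'_eq, ← Num.ofNat'_eq, ← Nat.bit_true_apply, Num.ofNat'_bit]
    rfl
  rw [h]
  cases (n : Num) <;> rfl

theorem trNat_ones (v : ℕ) :
    Turing.PartrecToTM2.trNat (2 ^ v - 1) = List.replicate v Turing.PartrecToTM2.Γ'.bit1 := by
  induction v with
  | zero => simp
  | succ v ih =>
    have h : 2 ^ (v + 1) - 1 = 2 * (2 ^ v - 1) + 1 := by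
      have : 0 < 2 ^ v := by positivity
      rw [pow_succ]; omega
    rw [h, trNat_two_mul_add_one, ih, List.replicate_succ]

end P913
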