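import Pool.Agent.Lib.P913.Len

/-!
# Module Parity: numbers of produced lines modulo 2

PROOFS.  Everything is a count of `List.length` (`List.length_append`, `List.length_flatMap`,
`List.length_replicate`, `List.length_map`).  Parities: `(Fiv t κ a).length` is
 - `t = false`, `κ ≠ lt a`: `a = η`: 5 + 1; `a ≠ η`: `1 + r + 1 + r % 2`, `r = (pr a).length`: even;
 - `t = false`, `κ = lt a`, `a ≠ η`: `1 + r + r % 2`: odd;
 - `t = true`, `a = η`: 9 + 1 or 7 + 1: even;
 - `t = true`, `a ≠ η` odd type: `len a + pad a` (even, see below) or `len a - 2 + pad a`: even;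
 - `t = true`, `a ≠ η` even type (`r` even, `pad a = 0`): `κ ≠ lt a`: `r + 2`: even; `κ = lt a`: `1 + r`: odd.
`len a + pad a` is even (`a ≠ η`: `6 + ∑ nb + r % 2`, all `nb` odd, `r` summands).
The sum over `List.finRange K` (`List.length_flatMap`; for `κ = lt a` exactly one interval is exceptional, use
`List.finRange K = l₁ ++ a :: l₂` with `a ∉ l₁`, `a ∉ l₂`, from `List.append_of_mem` and `List.nodup_finRange`).
Zeros of `pat κ`: `phi` 1, `om` 4, `psi` 2, `lt a`: 4 (odd type) or 2 (even type), `one` 0 (`cnt_lt`, `cnt_phi`
and `Pb κ ++ Qb` has 3 zeros more; or directly); `(pat κ).count true = KA - zeros` (`len_pat`,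
`List.count_true_add_count_false`-like).  `KA` is odd (`KA_odd`).
Head zone: 7, or 6 for `five` and `phi`.  y zone: 1 if `hasY`, otherwise 2.
`FL_let_false`: `M0` = head zone, the intervals before `a`, `base phi`; the middle part is `(pr a).map (base ∘ lt)`;
`M1` the rest.  `Neu`: all other lines are `str, U1, U2, base phi, rot (lt b), rot om, rot psi, base om, base psi`.
-/

set_option autoImplicit false

namespace P913

section

variable {K : ℕ} (pr : Fin K → List (Fin K)) (η : Fin K)

namespace ParityAux

theorem nb_odd (a : Fin K) : nb pr η a % 2 = 1 := by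
  unfold nb; split_ifs <;> rfl

theorem sum_nb (l : List (Fin K)) : (l.map (nb pr η)).sum % 2 = l.length % 2 := by
  induction l with
  | nil => rfl
  | cons a l ih =>
    rw [List.map_cons, List.sum_cons, List.length_cons]
    have := nb_odd pr η a
    omega

theorem len_pad (b : Fin K) : (len pr η b + pad pr η b) % 2 = 0 := by
  unfold len pad
  by_cases h : b = η
  · rw [if_pos h, if_pos h]
  · rw [if_neg h, if_neg h]
    have := sum_nb pr η (pr b)
    omega

theorem neu_str : Neu (Ln.str : Ln K) := by simp [Neu]

theorem neu_U1 : Neu (Ln.U1 : Ln K) := by simp [Neu]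

theorem neu_U2 : Neu (Ln.U2 : Ln K) := by simp [Neu]

theorem neu_phi : Neu (Ln.base Kd.phi : Ln K) := by simp [Neu]

theorem neu_rep (n : ℕ) : ∀ m ∈ List.replicate n (Ln.str : Ln K), Neu m := by
  intro m hm
  rw [List.eq_of_mem_replicate hm]
  exact neu_str

theorem oddL_ne {b : Fin K} (h : b ≠ η) : oddL pr η b = decide ((pr b).length % 2 = 1) := by
  unfold oddL
  simp [h]

/-- lengths of the intervals which do not belong to the letter -/
theorem Fiv_even (t : Bool) (κ : Kd K) (b : Fin K) (h : κ ≠ Kd.lt b) :
    (Fiv pr η t κ b).length % 2 = 0 := by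
  unfold Fiv
  rw [List.length_append, List.length_replicate]
  by_cases hb : b = η
  · subst hb
    cases t <;> simp [h, pad]
  · have hp : pad pr η b = (pr b).length % 2 := by unfold pad; rw [if_neg hb]
    cases t
    · simp only [hb, h, if_false, Bool.false_eq_true, List.length_append, List.length_cons,
        List.length_map, List.length_nil]
      omega
    · by_cases ho : oddL pr η b = true
      · simp only [hb, h, ho, if_false, if_true, List.length_replicate]
        exact len_pad pr η b
      · have hr : ¬ (pr b).length % 2 = 1 := by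
          intro hr
          apply ho
          rw [oddL_ne pr η hb]
          simpa using hr
        simp only [hb, h, ho, if_false, if_true, Bool.false_eq_true, List.length_append,
          List.length_cons, List.length_map, List.length_nil]
        omega

theorem Fiv_self_true (a : Fin K) :
    (Fiv pr η true (Kd.lt a) a).length % 2 = if oddL pr η a then 0 else 1 := by
  unfold Fiv
  rw [List.length_append, List.length_replicate]
  by_cases hb : a = η
  · subst hb
    simp [pad, oddL]
  · have hp : pad pr η a = (pr a).length % 2 := by unfold pad; rw [if_neg hb]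
    by_cases ho : oddL pr η a = true
    · simp only [hb, ho, if_false, if_true, List.length_replicate]
      have h1 := len_pad pr η a
      have h2 := two_le_len pr η a
      omega
    · have hr : ¬ (pr a).length % 2 = 1 := by
        intro hr
        apply ho
        rw [oddL_ne pr η hb]
        simpa using hr
      simp only [hb, ho, if_false, if_true, Bool.false_eq_true,
        List.length_cons, List.length_map]
      omega

theorem Fiv_neu (t : Bool) (κ : Kd K) (b : Fin K) (h : κ ≠ Kd.lt b ∨ t = true) :
    ∀ m ∈ Fiv pr η t κ b, Neu m := by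
  intro m hm
  unfold Fiv at hm
  rw [List.mem_append] at hm
  rcases hm with hm | hm
  swap
  · exact neu_rep _ m hm
  split_ifs at hm with h1 h2 h3 h4 h5 h6 h7 h8
  all_goals
    simp only [List.mem_cons, List.mem_append, List.mem_map, List.mem_replicate,
      List.not_mem_nil, or_false, exists_exists_and_eq_and] at hm
  all_goals first
    | (rcases hm with ⟨_, rfl⟩; exact neu_str)
    | skip
  · rcases hm with rfl | rfl | rfl | rfl | rfl <;> simp [Neu]
  · rcases hm with rfl | ⟨c, _, rfl⟩
    · exact neu_phi
    · unfold dk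
      split_ifs <;> simp [Neu]
  · rcases hm with (rfl | ⟨c, _, rfl⟩) | rfl
    · exact neu_U1
    · unfold dk
      split_ifs <;> simp [Neu]
    · exact neu_U2
  · exfalso
    rcases h with h | h
    · exact h (by assumption)
    · simp_all
  · rcases hm with (rfl | ⟨c, _, rfl⟩) | rfl
    · exact neu_U1
    · simp [Neu]
    · exact neu_U2

theorem flat_even (t : Bool) (κ : Kd K) (l : List (Fin K)) (h : ∀ b ∈ l, κ ≠ Kd.lt b) :
    (l.flatMap (Fiv pr η t κ)).length % 2 = 0 := by
  induction l with
  | nil => rfl
  | cons b l ih =>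
    rw [List.flatMap_cons, List.length_append]
    have h1 := Fiv_even pr η t κ b (h b List.mem_cons_self)
    have h2 := ih fun c hc => h c (List.mem_cons_of_mem _ hc)
    omega

theorem flat_neu (t : Bool) (κ : Kd K) (l : List (Fin K)) (h : ∀ b ∈ l, κ ≠ Kd.lt b ∨ t = true) :
    ∀ m ∈ l.flatMap (Fiv pr η t κ), Neu m := by
  intro m hm
  rw [List.mem_flatMap] at hm
  obtain ⟨b, hb, hm⟩ := hm
  exact Fiv_neu pr η t κ b (h b hb) m hm

theorem split_fin (a : Fin K) : ∃ l₁ l₂ : List (Fin K), List.finRange K = l₁ ++ a :: l₂ ∧
    (∀ b ∈ l₁, b ≠ a) ∧ ∀ b ∈ l₂, b ≠ a := by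
  obtain ⟨l₁, l₂, h⟩ := List.append_of_mem (List.mem_finRange a)
  have hn := List.nodup_finRange K
  rw [h] at hn
  refine ⟨l₁, l₂, h, ?_, ?_⟩
  · intro b hb hba
    subst hba
    rw [List.nodup_append] at hn
    exact hn.2.2 b hb b List.mem_cons_self rfl
  · intro b hb hba
    subst hba
    rw [List.nodup_append] at hn
    exact (List.nodup_cons.1 hn.2.1).1 hb

theorem flat_self_true (a : Fin K) :
    ((List.finRange K).flatMap (Fiv pr η true (Kd.lt a))).length % 2
      = if oddL pr η a then 0 else 1 := by
  obtain ⟨l₁, l₂, h, h1, h2⟩ := split_fin a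
  rw [h, List.flatMap_append, List.flatMap_cons, List.length_append, List.length_append]
  have e1 := flat_even pr η true (Kd.lt a) l₁ fun b hb hh => h1 b hb (by injection hh with hh; exact hh.symm)
  have e2 := flat_even pr η true (Kd.lt a) l₂ fun b hb hh => h2 b hb (by injection hh with hh; exact hh.symm)
  have e3 := Fiv_self_true pr η a
  split_ifs at e3 ⊢ <;> omega

/-- zeros of the patterns -/
theorem cf_flat (κ : Kd K) (h : ∀ b, κ ≠ Kd.lt b) :
    ((List.finRange K).flatMap (iv pr η κ)).count false = 0 := by
  rw [List.count_eq_zero]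
  intro hm
  rw [List.mem_flatMap] at hm
  obtain ⟨b, _, hb⟩ := hm
  unfold iv at hb
  rw [if_neg (h b), List.mem_append] at hb
  rcases hb with hb | hb
  · exact absurd (List.eq_of_mem_replicate hb) (by decide)
  · exact absurd (List.eq_of_mem_replicate hb) (by decide)

theorem ct_pat (κ : Kd K) :
    (pat pr η κ).count true + (pat pr η κ).count false = KA pr η := by
  rw [← len_pat pr η κ]
  exact List.count_true_add_count_false _

theorem ct_of (κ : Kd K) (n : ℕ) (h : (pat pr η κ).count false = n) :
    (pat pr η κ).count true + n = KA pr η := by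
  rw [← h]; exact ct_pat pr η κ

theorem cf_gen (κ : Kd K) (h : ∀ b, κ ≠ Kd.lt b) :
    (pat pr η κ).count false = (hd κ).count false + (yz pr η κ).count false
      + (fi κ).count false := by
  unfold pat
  rw [List.count_append, List.count_append, List.count_append, cf_flat pr η κ h]
  omega

theorem cf_ons (n : ℕ) : (ons n).count false = 0 := by
  rw [List.count_eq_zero]
  intro hm
  exact absurd (List.eq_of_mem_replicate hm) (by decide)

theorem cf_one : (pat pr η Kd.one).count false = 0 := by
  rw [cf_gen pr η Kd.one (by intro b; simp)]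
  simp [hd, yz, hasY, fi, cf_ons]

theorem cf_phi : (pat pr η Kd.phi).count false = 1 := by
  rw [cf_gen pr η Kd.phi (by intro b; simp)]
  simp [hd, yz, hasY, fi, cf_ons]

theorem cf_om : (pat pr η Kd.om).count false = 4 := by
  rw [cf_gen pr η Kd.om (by intro b; simp)]
  simp [hd, yz, hasY, fi, cf_ons]

theorem cf_psi : (pat pr η Kd.psi).count false = 2 := by
  rw [cf_gen pr η Kd.psi (by intro b; simp)]
  simp [hd, yz, hasY, fi, cf_ons]

theorem cf_lt (a : Fin K) : (pat pr η (Kd.lt a)).count false + 3 = nb pr η a := by
  have h := cnt_lt pr η a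
  unfold bits Pb Qb at h
  simp only [List.count_append, cf_ons] at h
  simp at h
  omega

theorem FA_len (t : Bool) (κ : Kd K) : (FA pr η t κ).length = (hd κ).count true
    + ((List.finRange K).flatMap (Fiv pr η t κ)).length + (if hasY pr η κ then 1 else 2)
    + (if κ = Kd.om then 0 else 2) := by
  unfold FA
  rw [List.length_append, List.length_append, List.length_append, List.length_replicate]
  congr 1
  · congr 1
    split_ifs <;> rfl
  · split_ifs <;> rfl

theorem FA_neu (t : Bool) (κ : Kd K) (h : (∀ b, κ ≠ Kd.lt b) ∨ t = true) :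
    ∀ m ∈ FA pr η t κ, Neu m := by
  intro m hm
  unfold FA at hm
  rw [List.mem_append, List.mem_append, List.mem_append] at hm
  rcases hm with ((hm | hm) | hm) | hm
  · exact neu_rep _ m hm
  · refine flat_neu pr η t κ _ ?_ m hm
    intro b _
    rcases h with h | h
    · exact Or.inl (h b)
    · exact Or.inr h
  · split_ifs at hm
    · simp only [List.mem_cons, List.not_mem_nil, or_false] at hm
      rw [hm]; exact neu_phi
    · simp only [List.mem_cons, List.not_mem_nil, or_false] at hm
      rcases hm with rfl | rfl
      · exact neu_U1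
      · exact neu_U2
  · split_ifs at hm
    · exact absurd hm (List.not_mem_nil)
    · simp only [List.mem_cons, List.not_mem_nil, or_false, or_self] at hm
      rw [hm]; exact neu_str

theorem rest_neu (l : Ln K) (n : ℕ) : ∀ m ∈ List.replicate 9 (Ln.str : Ln K) ++
    (if sb l then [Ln.str] else []) ++ List.replicate n Ln.str ++
    List.replicate (KA pr η) Ln.str ++
    (if isBase l then [Ln.base Kd.phi] else [Ln.U1, Ln.U2]) ++
    List.replicate (KA pr η + 4) Ln.str, Neu m := by
  intro m hm
  simp only [List.mem_append] at hm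
  rcases hm with ((((hm | hm) | hm) | hm) | hm) | hm
  · exact neu_rep _ m hm
  · split_ifs at hm
    · simp only [List.mem_cons, List.not_mem_nil, or_false] at hm
      rw [hm]; exact neu_str
    · exact absurd hm (List.not_mem_nil)
  · exact neu_rep _ m hm
  · exact neu_rep _ m hm
  · split_ifs at hm
    · simp only [List.mem_cons, List.not_mem_nil, or_false] at hm
      rw [hm]; exact neu_phi
    · simp only [List.mem_cons, List.not_mem_nil, or_false] at hm
      rcases hm with rfl | rfl
      · exact neu_U1
      · exact neu_U2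
  · exact neu_rep _ m hm

theorem FL_eq (t : Bool) (l : Ln K) : FL pr η t l = FA pr η t (kA l) ++
    (List.replicate 9 (Ln.str : Ln K) ++
    (if sb l then [Ln.str] else []) ++ List.replicate ((pat pr η (kB l)).count true) Ln.str ++
    List.replicate (KA pr η) Ln.str ++
    (if isBase l then [Ln.base Kd.phi] else [Ln.U1, Ln.U2]) ++
    List.replicate (KA pr η + 4) Ln.str) := by
  unfold FL
  simp only [List.append_assoc]

theorem rest_len (l : Ln K) (n : ℕ) : (List.replicate 9 (Ln.str : Ln K) ++
    (if sb l then [Ln.str] else []) ++ List.replicate n Ln.str ++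
    List.replicate (KA pr η) Ln.str ++
    (if isBase l then [Ln.base Kd.phi] else [Ln.U1, Ln.U2]) ++
    List.replicate (KA pr η + 4) Ln.str).length = 13 + (if sb l then 1 else 0) + n
      + 2 * KA pr η + (if isBase l then 1 else 2) := by
  simp only [List.length_append, List.length_replicate]
  split_ifs <;> simp <;> omega

theorem FL_neu_gen (t : Bool) (l : Ln K) (h : (∀ b, kA l ≠ Kd.lt b) ∨ t = true) :
    ∀ m ∈ FL pr η t l, Neu m := by
  intro m hm
  rw [FL_eq, List.mem_append] at hm
  rcases hm with hm | hm
  · exact FA_neu pr η t _ h m hm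
  · exact rest_neu pr η l _ m hm

theorem FL_len (t : Bool) (l : Ln K) : (FL pr η t l).length = (FA pr η t (kA l)).length +
    (13 + (if sb l then 1 else 0) + (pat pr η (kB l)).count true
      + 2 * KA pr η + (if isBase l then 1 else 2)) := by
  rw [FL_eq, List.length_append, rest_len]

end ParityAux

open ParityAux

theorem FL_neu (t : Bool) (l : Ln K) (hl : Neu l) :
    (∀ m ∈ FL pr η t l, Neu m) ∧ (FL pr η t l).length % 2 = 0 := by
  have hK := KA_odd pr η
  have c1 := ct_of pr η _ _ (cf_one pr η)
  have c2 := ct_of pr η _ _ (cf_phi pr η)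
  have c3 := ct_of pr η _ _ (cf_om pr η)
  have c4 := ct_of pr η _ _ (cf_psi pr η)
  have hkA : ∀ b, kA l ≠ Kd.lt b := by
    intro b
    cases l with
    | str => simp [kA]
    | U1 => simp [kA]
    | U2 => simp [kA]
    | base κ =>
      simp only [Neu] at hl
      rcases hl with rfl | rfl | rfl <;> simp [kA]
    | rot κ => simp [kA]
  refine ⟨FL_neu_gen pr η t l (Or.inl hkA), ?_⟩
  rw [FL_len, FA_len]
  have hf := flat_even pr η t (kA l) (List.finRange K) fun b _ => hkA b
  cases l with
  | str =>
    simp only [kA] at hf
    simp [-List.length_flatMap, kA, sb, kB, isBase, hasY, hd]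
    omega
  | U1 =>
    simp only [kA] at hf
    simp [-List.length_flatMap, kA, sb, kB, isBase, hasY, hd]
    omega
  | U2 =>
    simp only [kA] at hf
    simp [-List.length_flatMap, kA, sb, kB, isBase, hasY, hd]
    omega
  | base κ =>
    simp only [Neu] at hl
    rcases hl with rfl | rfl | rfl
    · simp only [kA] at hf
      simp [-List.length_flatMap, kA, sb, kB, isBase, hasY, hd]
      omega
    · simp only [kA] at hf
      simp [-List.length_flatMap, kA, sb, kB, isBase, hasY, hd]
      omega
    · simp only [kA] at hf
      simp [-List.length_flatMap, kA, sb, kB, isBase, hasY, hd]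
      omega
  | rot κ =>
    simp only [Neu] at hl
    obtain ⟨h1, h2, h3⟩ := hl
    have hc : (pat pr η κ).count true % 2 = 1 := by
      cases κ with
      | one => exact absurd rfl h1
      | five => exact absurd rfl h2
      | phi => exact absurd rfl h3
      | om => omega
      | psi => omega
      | lt a =>
        have c5 := ct_pat pr η (Kd.lt a)
        have c6 := cf_lt pr η a
        have c7 := nb_odd pr η a
        omega
    simp only [kA] at hf
    simp [-List.length_flatMap, kA, sb, kB, isBase, hasY, hd]
    omega

theorem FL_let_true (a : Fin K) :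
    (∀ m ∈ FL pr η true (Ln.base (Kd.lt a)), Neu m) ∧
      (FL pr η true (Ln.base (Kd.lt a))).length % 2 = 0 := by
  have hK := KA_odd pr η
  have c1 := ct_of pr η _ _ (cf_one pr η)
  refine ⟨FL_neu_gen pr η true _ (Or.inr rfl), ?_⟩
  rw [FL_len, FA_len]
  have hf := flat_self_true pr η a
  by_cases ho : oddL pr η a = true
  · rw [if_pos ho] at hf
    simp [-List.length_flatMap, kA, sb, kB, isBase, hasY, hd, ho]
    omega
  · rw [if_neg ho] at hf
    simp [-List.length_flatMap, kA, sb, kB, isBase, hasY, hd, ho]
    omega

theorem FL_let_false (a : Fin K) (ha : a ≠ η) : ∃ M0 M1 : List (Ln K),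
    FL pr η false (Ln.base (Kd.lt a)) = M0 ++ (pr a).map (fun b => Ln.base (Kd.lt b)) ++ M1 ∧
      (∀ m ∈ M0, Neu m) ∧ (∀ m ∈ M1, Neu m) ∧ M0.length % 2 = 0 ∧ M1.length % 2 = 0 := by
  have hK := KA_odd pr η
  have c1 := ct_of pr η _ _ (cf_one pr η)
  obtain ⟨l₁, l₂, h, h1, h2⟩ := split_fin a
  have g1 : ∀ b ∈ l₁, Kd.lt a ≠ Kd.lt b := fun b hb hh =>
    h1 b hb (by injection hh with hh; exact hh.symm)
  have g2 : ∀ b ∈ l₂, Kd.lt a ≠ Kd.lt b := fun b hb hh =>
    h2 b hb (by injection hh with hh; exact hh.symm)
  have hp : pad pr η a = (pr a).length % 2 := by unfold pad; rw [if_neg ha]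
  have hF : Fiv pr η false (Kd.lt a) a = Ln.base Kd.phi ::
      ((pr a).map (fun b => Ln.base (Kd.lt b)) ++ List.replicate (pad pr η a) Ln.str) := by
    unfold Fiv
    simp [ha, List.map_map, Function.comp_def]
  refine ⟨List.replicate 7 Ln.str ++ l₁.flatMap (Fiv pr η false (Kd.lt a)) ++
      [Ln.base Kd.phi],
    List.replicate (pad pr η a) Ln.str ++ (l₂.flatMap (Fiv pr η false (Kd.lt a)) ++
      ((if hasY pr η (Kd.lt a) then [Ln.base Kd.phi] else [Ln.U1, Ln.U2]) ++
      ([Ln.str, Ln.str] ++ (List.replicate 9 (Ln.str : Ln K) ++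
    (if sb (Ln.base (Kd.lt a)) then [Ln.str] else []) ++
    List.replicate ((pat pr η Kd.one).count true) Ln.str ++
    List.replicate (KA pr η) Ln.str ++
    (if isBase (Ln.base (Kd.lt a)) then [Ln.base Kd.phi] else [Ln.U1, Ln.U2]) ++
    List.replicate (KA pr η + 4) Ln.str)))), ?_, ?_, ?_, ?_, ?_⟩
  · rw [FL_eq]
    have hA : FA pr η false (kA (Ln.base (Kd.lt a))) = List.replicate 7 Ln.str ++
        (l₁.flatMap (Fiv pr η false (Kd.lt a)) ++ (Ln.base Kd.phi ::
      ((pr a).map (fun b => Ln.base (Kd.lt b)) ++ List.replicate (pad pr η a) Ln.str) ++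
      l₂.flatMap (Fiv pr η false (Kd.lt a)))) ++
      (if hasY pr η (Kd.lt a) then [Ln.base Kd.phi] else [Ln.U1, Ln.U2]) ++
      [Ln.str, Ln.str] := by
      unfold FA
      have e1 : (hd (kA (Ln.base (Kd.lt a)) : Kd K)).count true = 7 := by simp [kA, hd]
      have e2 : ¬ (kA (Ln.base (Kd.lt a)) = (Kd.om : Kd K)) := by simp [kA]
      rw [e1, if_neg e2, h, List.flatMap_append, List.flatMap_cons]
      have e3 : (kA (Ln.base (Kd.lt a)) : Kd K) = Kd.lt a := rfl
      rw [e3, hF]
    rw [hA]
    have e4 : (kB (Ln.base (Kd.lt a)) : Kd K) = Kd.one := rfl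
    rw [e4]
    simp only [List.append_assoc, List.cons_append, List.nil_append]
  · intro m hm
    rw [List.mem_append, List.mem_append] at hm
    rcases hm with (hm | hm) | hm
    · exact neu_rep _ m hm
    · exact flat_neu pr η false _ l₁ (fun b hb => Or.inl (g1 b hb)) m hm
    · simp only [List.mem_cons, List.not_mem_nil, or_false] at hm
      rw [hm]; exact neu_phi
  · intro m hm
    rw [List.mem_append, List.mem_append, List.mem_append, List.mem_append] at hm
    rcases hm with hm | hm | hm | hm | hm
    · exact neu_rep _ m hm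
    · exact flat_neu pr η false _ l₂ (fun b hb => Or.inl (g2 b hb)) m hm
    · split_ifs at hm
      · simp only [List.mem_cons, List.not_mem_nil, or_false] at hm
        rw [hm]; exact neu_phi
      · simp only [List.mem_cons, List.not_mem_nil, or_false] at hm
        rcases hm with rfl | rfl
        · exact neu_U1
        · exact neu_U2
    · simp only [List.mem_cons, List.not_mem_nil, or_false, or_self] at hm
      rw [hm]; exact neu_str
    · exact rest_neu pr η (Ln.base (Kd.lt a)) _ m hm
  · rw [List.length_append, List.length_append, List.length_replicate]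
    have e1 := flat_even pr η false _ l₁ g1
    simp [-List.length_flatMap]
    omega
  · rw [List.length_append, List.length_append, List.length_append, List.length_append,
      rest_len, List.length_replicate]
    have e1 := flat_even pr η false _ l₂ g2
    have ho : oddL pr η a = decide ((pr a).length % 2 = 1) := oddL_ne pr η ha
    by_cases hr : (pr a).length % 2 = 1
    · have ho' : oddL pr η a = true := by rw [ho]; simpa using hr
      simp [-List.length_flatMap, hasY, ho', sb, isBase]
      omega
    · have ho' : oddL pr η a = false := by rw [ho]; simpa using hr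
      simp [-List.length_flatMap, hasY, ho', sb, isBase]
      omega

theorem two_le_FL (t : Bool) (l : Ln K) : 2 ≤ (FL pr η t l).length := by
  rw [FL_len]
  omega

end

end P913
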