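import Pool.Agent.Lib.P913.Defs

/-!
# Module Raw: simulation of Turing machines on codes

A raw configuration is `(q, (s, i), (l, r))`: `q = 0` for the halting state, `q = j + 1` for the state `j`; the head
is on the cell `i` if `s = true` and on the cell `- i - 1` if `s = false`; `l`, `r` as in `IsCode` (with possible
blanks at the end).

PROOFS.  `getD_upd`: `List.getElem?_set`, `List.getElem?_append`, `List.getElem?_replicate`; case analysis.
`mcode_get`: `List.getD`, `List.getElem?_ofFn`, the index `q * n + a < k * n`; `Fin.divNat`, `Fin.modNat` of this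
index are `q`, `a` (`Nat.add_mul_div_right`-like, `Fin.ext`).
`Rel_step`: cases of `c.st`; the symbol under the head agrees (both cases of `s`); the new tape:
`Function.update` at the head position, `getD_upd` on the list of the right side, the other side unchanged; the new
position.  `Rel_iter`: induction.  `Rel_init`: `wordTape`, `List.getD_map`-like; negative cells are blank.
`isCode_of_Rel`: `getD` of `trim l` agrees with `getD` of `l` (induction from the right or: `l = trim l ++ zeros`),
`trim l` does not end with `0`.
-/

set_option autoImplicit false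

namespace P913

/-- raw configurations -/
abbrev RC := ℕ × (Bool × ℕ) × (List ℕ × List ℕ)

/-- write `v` into the cell number `i` of a half tape -/
def upd (l : List ℕ) (i v : ℕ) : List ℕ := (l ++ List.replicate (i + 1) 0).set i v

/-- the scanned symbol -/
def rsym (c : RC) : ℕ := if c.2.1.1 then c.2.2.2.getD c.2.1.2 0 else c.2.2.1.getD c.2.1.2 0

/-- the table entry used in a raw configuration -/
def rent (mc : ℕ × ℕ × List (ℕ × Bool × ℕ)) (c : RC) : ℕ × Bool × ℕ :=
  mc.2.2.getD ((c.1 - 1) * mc.2.1 + rsym c) (0, false, 0)

/-- the new position -/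
def rmove (d : Bool) (p : Bool × ℕ) : Bool × ℕ :=
  if d then (if p.1 then (true, p.2 + 1) else if p.2 = 0 then (true, 0) else (false, p.2 - 1))
  else (if p.1 then (if p.2 = 0 then (false, 0) else (true, p.2 - 1)) else (false, p.2 + 1))

/-- one step on codes -/
def rstep (mc : ℕ × ℕ × List (ℕ × Bool × ℕ)) (c : RC) : RC :=
  if c.1 = 0 then c
  else ((rent mc c).2.2, rmove (rent mc c).2.1 c.2.1,
    if c.2.1.1 then (c.2.2.1, upd c.2.2.2 c.2.1.2 (rent mc c).1)
    else (upd c.2.2.1 c.2.1.2 (rent mc c).1, c.2.2.2))

/-- the initial raw configuration -/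
def rinit (x : List ℕ) : RC := (1, (true, 0), ([], x))

/-- remove the blanks at the end -/
def trim (l : List ℕ) : List ℕ := (l.reverse.dropWhile fun a => decide (a = 0)).reverse

/-- a raw configuration represents a configuration -/
def Rel {k n : ℕ} (c : Cfg k n) (r : RC) : Prop :=
  (r.1 = match c.st with
    | none => 0
    | some q => (q : ℕ) + 1) ∧
  (c.pos = if r.2.1.1 then (r.2.1.2 : ℤ) else -(r.2.1.2 : ℤ) - 1) ∧
  (∀ i : ℕ, ((c.tape i : Fin n) : ℕ) = r.2.2.2.getD i 0) ∧
  (∀ i : ℕ, ((c.tape (-(i : ℤ) - 1) : Fin n) : ℕ) = r.2.2.1.getD i 0)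

theorem getD_upd (l : List ℕ) (i v j : ℕ) : (upd l i v).getD j 0 = if j = i then v else l.getD j 0 := by
  unfold upd
  rw [List.getD_eq_getElem?_getD, List.getElem?_set]
  by_cases h : j = i
  · subst h
    rw [if_pos rfl, if_pos rfl, if_pos (by simp; omega)]
    rfl
  · rw [if_neg (Ne.symm h), if_neg h, List.getElem?_append]
    by_cases h2 : j < l.length
    · rw [if_pos h2, ← List.getD_eq_getElem?_getD]
    · rw [if_neg h2, List.getElem?_replicate, List.getD_eq_getElem?_getD,
        List.getElem?_eq_none (by omega)]
      split_ifs <;> rfl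

theorem mcode_get {k n : ℕ} (M : TM k n) (q : Fin k) (a : Fin n) :
    (mcode M).2.2.getD ((q : ℕ) * n + a) (0, false, 0) =
      (((M q a).1 : ℕ), (M q a).2.1, match (M q a).2.2 with
        | none => 0
        | some q' => (q' : ℕ) + 1) := by
  have hlt : (q : ℕ) * n + a < k * n := by
    have h1 := q.2
    have h2 := a.2
    calc (q : ℕ) * n + a < (q : ℕ) * n + n := by omega
      _ = ((q : ℕ) + 1) * n := by ring
      _ ≤ k * n := Nat.mul_le_mul_right _ h1
  have hn : 0 < n := by have := a.2; omega
  have e1 : (⟨(q : ℕ) * n + a, hlt⟩ : Fin (k * n)).divNat = q := by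
    apply Fin.ext
    simp only [Fin.divNat]
    rw [mul_comm, Nat.mul_add_div hn, Nat.div_eq_of_lt a.2, add_zero]
  have e2 : (⟨(q : ℕ) * n + a, hlt⟩ : Fin (k * n)).modNat = a := by
    apply Fin.ext
    simp only [Fin.modNat]
    rw [mul_comm, Nat.mul_add_mod, Nat.mod_eq_of_lt a.2]
  unfold mcode
  rw [List.getD_eq_getElem?_getD, List.getElem?_ofFn, dif_pos hlt]
  simp only [Option.getD_some, e1, e2]
  rfl

theorem Rel_step {k n : ℕ} (M : TM k n) (c : Cfg k n) (r : RC) (h : Rel c r) :
    Rel (step M c) (rstep (mcode M) r) := by
  obtain ⟨tape, pos, st⟩ := c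
  obtain ⟨q, ⟨s, i⟩, ⟨l, r⟩⟩ := r
  obtain ⟨h1, h2, h3, h4⟩ := h
  simp only at h1 h2 h3 h4
  cases st with
  | none =>
    simp only at h1
    subst h1
    have e1 : step M ⟨tape, pos, none⟩ = ⟨tape, pos, none⟩ := rfl
    have e2 : rstep (mcode M) (0, (s, i), (l, r)) = (0, (s, i), (l, r)) := by
      unfold rstep; rw [if_pos rfl]
    rw [e1, e2]
    exact ⟨rfl, h2, h3, h4⟩
  | some q0 =>
    simp only at h1
    subst h1
    have hsym : ((tape pos : Fin n) : ℕ) = rsym ((q0 : ℕ) + 1, (s, i), (l, r)) := by
      unfold rsym
      cases s with
      | true =>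
        have h2' : pos = (i : ℤ) := by simpa using h2
        rw [h2']
        simpa using h3 i
      | false =>
        have h2' : pos = -(i : ℤ) - 1 := by simpa using h2
        rw [h2']
        simpa using h4 i
    have hent : rent (mcode M) ((q0 : ℕ) + 1, (s, i), (l, r)) =
        (((M q0 (tape pos)).1 : ℕ), (M q0 (tape pos)).2.1, match (M q0 (tape pos)).2.2 with
          | none => 0
          | some q' => (q' : ℕ) + 1) := by
      unfold rent
      rw [← hsym]
      exact mcode_get M q0 (tape pos)
    have e1 : step M ⟨tape, pos, some q0⟩ = ⟨Function.update tape pos (M q0 (tape pos)).1,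
      if (M q0 (tape pos)).2.1 then pos + 1 else pos - 1, (M q0 (tape pos)).2.2⟩ := rfl
    have e2 : rstep (mcode M) ((q0 : ℕ) + 1, (s, i), (l, r)) =
        ((match (M q0 (tape pos)).2.2 with
          | none => 0
          | some q' => (q' : ℕ) + 1), rmove (M q0 (tape pos)).2.1 (s, i),
          if s then (l, upd r i (M q0 (tape pos)).1) else (upd l i (M q0 (tape pos)).1, r)) := by
      unfold rstep
      rw [if_neg (Nat.succ_ne_zero _), hent]
    rw [e1, e2]
    refine ⟨rfl, ?_, ?_, ?_⟩
    · simp only
      generalize (M q0 (tape pos)).2.1 = d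
      cases s with
      | true =>
        have h2' : pos = (i : ℤ) := by simpa using h2
        subst h2'
        cases d with
        | true => simp [rmove]
        | false =>
          by_cases hi : i = 0
          · subst hi; simp [rmove]
          · simp only [rmove, if_neg hi, Bool.false_eq_true, if_false, if_true]
            omega
      | false =>
        have h2' : pos = -(i : ℤ) - 1 := by simpa using h2
        subst h2'
        cases d with
        | true =>
          by_cases hi : i = 0
          · subst hi; simp [rmove]
          · simp only [rmove, if_neg hi, Bool.false_eq_true, if_false, if_true]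
            omega
        | false =>
          simp only [rmove, Bool.false_eq_true, if_false]
          push_cast
          ring
    · intro j
      simp only
      cases s with
      | true =>
        have h2' : pos = (i : ℤ) := by simpa using h2
        simp only [if_true]
        rw [getD_upd]
        by_cases hj : j = i
        · subst hj
          rw [if_pos rfl, h2', Function.update_self]
        · rw [if_neg hj, Function.update_of_ne (by rw [h2']; exact_mod_cast hj)]
          exact h3 j
      | false =>
        have h2' : pos = -(i : ℤ) - 1 := by simpa using h2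
        simp only [Bool.false_eq_true, if_false]
        rw [Function.update_of_ne (by rw [h2']; omega)]
        exact h3 j
    · intro j
      simp only
      cases s with
      | true =>
        have h2' : pos = (i : ℤ) := by simpa using h2
        simp only [if_true]
        rw [Function.update_of_ne (by rw [h2']; omega)]
        exact h4 j
      | false =>
        have h2' : pos = -(i : ℤ) - 1 := by simpa using h2
        simp only [Bool.false_eq_true, if_false]
        rw [getD_upd]
        by_cases hj : j = i
        · subst hj
          rw [if_pos rfl, h2', Function.update_self]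
        · rw [if_neg hj, Function.update_of_ne (by rw [h2']; omega)]
          exact h4 j

theorem Rel_iter {k n : ℕ} (M : TM k n) (c : Cfg k n) (r : RC) (h : Rel c r) (t : ℕ) :
    Rel ((step M)^[t] c) ((rstep (mcode M))^[t] r) := by
  induction t with
  | zero => exact h
  | succ t ih =>
    rw [Function.iterate_succ_apply', Function.iterate_succ_apply']
    exact Rel_step M _ _ ih

theorem Rel_init {k n : ℕ} [NeZero k] [NeZero n] (x : List (Fin n)) :
    Rel (init x : Cfg k n) (rinit (x.map fun s : Fin n => (s : ℕ))) := by
  refine ⟨?_, rfl, ?_, ?_⟩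
  · simp [init, rinit]
  · intro i
    simp only [init, rinit, wordTape]
    rw [if_pos (by omega), Int.toNat_natCast, List.getD_eq_getElem?_getD, List.getD_eq_getElem?_getD,
      List.getElem?_map]
    cases x[i]? <;> simp
  · intro i
    simp only [init, rinit, wordTape]
    rw [if_neg (by omega)]
    simp

namespace RawAux

theorem decomp (l : List ℕ) : ∃ m, l = trim l ++ List.replicate m 0 := by
  have h1 := List.takeWhile_append_dropWhile (p := fun a => decide (a = 0)) (l := l.reverse)
  have h2 : ∃ m, l.reverse.takeWhile (fun a => decide (a = 0)) = List.replicate m 0 := by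
    refine ⟨(l.reverse.takeWhile (fun a => decide (a = 0))).length, ?_⟩
    rw [List.eq_replicate_iff]
    refine ⟨rfl, fun b hb => ?_⟩
    have := List.mem_takeWhile_imp hb
    simpa using this
  obtain ⟨m, hm⟩ := h2
  refine ⟨m, ?_⟩
  unfold trim
  rw [hm] at h1
  have h3 := congrArg List.reverse h1
  rw [List.reverse_append, List.reverse_replicate, List.reverse_reverse] at h3
  exact h3.symm

theorem getD_trim (l : List ℕ) (i : ℕ) : (trim l).getD i 0 = l.getD i 0 := by
  obtain ⟨m, hm⟩ := decomp l
  conv_rhs => rw [hm]
  rw [List.getD_eq_getElem?_getD, List.getD_eq_getElem?_getD, List.getElem?_append]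
  by_cases h : i < (trim l).length
  · rw [if_pos h]
  · rw [if_neg h, List.getElem?_eq_none (by omega), List.getElem?_replicate]
    split_ifs <;> rfl

theorem getLast_trim (l : List ℕ) : (trim l).getLast? ≠ some 0 := by
  unfold trim
  rw [List.getLast?_reverse]
  intro h
  have h2 := List.head?_dropWhile_not (fun a => decide (a = 0)) l.reverse
  rw [h] at h2
  simp at h2

end RawAux

theorem isCode_of_Rel {k n : ℕ} [NeZero n] (c : Cfg k n) (r : RC) (h : Rel c r) :
    IsCode (trim r.2.2.1, trim r.2.2.2) c.tape := by
  refine ⟨fun i => ?_, fun i => ?_, RawAux.getLast_trim _, RawAux.getLast_trim _⟩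
  · rw [RawAux.getD_trim]; exact h.2.2.1 i
  · rw [RawAux.getD_trim]; exact h.2.2.2 i

end P913
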