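import Pool.Agent.Lib.P913.Raw

/-!
# Module RawComp: the raw simulation is primitive recursive

PROOFS.  All with the `Primrec` library: `Primrec.list_getD`, `Primrec.list_set`
(`Primrec₂ fun (l : List α) (p : ℕ × α) => l.set p.1 p.2`), `Primrec.list_append`,
`List.replicate (i + 1) 0 = (List.range (i + 1)).map fun _ => 0` (`Primrec.list_range`, `Primrec.list_map`),
`Primrec.ite`, `Primrec.eq`, `Primrec.nat_sub`, `Primrec.nat_add`, `Primrec.nat_mul`, `Primrec.list_dropWhile`,
`Primrec.list_reverse`, `Primrec.nat_iterate`.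
-/

set_option autoImplicit false

namespace P913

namespace RawCompAux

theorem replicate_prim : Primrec fun i : ℕ => List.replicate (i + 1) 0 := by
  have h : (fun i : ℕ => List.replicate (i + 1) 0) =
      fun i : ℕ => (List.range (i + 1)).map fun _ => (0 : ℕ) := by
    funext i
    simp
  rw [h]
  exact Primrec.list_map (Primrec.list_range.comp Primrec.succ) (Primrec₂.const 0)

end RawCompAux

theorem upd_prim : Primrec fun p : List ℕ × ℕ × ℕ => upd p.1 p.2.1 p.2.2 := by
  unfold upd
  exact Primrec.list_set.comp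
    (Primrec.list_append.comp Primrec.fst
      (RawCompAux.replicate_prim.comp (Primrec.fst.comp Primrec.snd)))
    (Primrec.pair (Primrec.fst.comp Primrec.snd) (Primrec.snd.comp Primrec.snd))

namespace RawCompAux

theorem rsym_prim : Primrec rsym := by
  unfold rsym
  refine Primrec.ite ?_ ?_ ?_
  · exact Primrec.eq.comp (Primrec.fst.comp (Primrec.fst.comp Primrec.snd)) (Primrec.const true)
  · exact (Primrec.list_getD 0).comp (Primrec.snd.comp (Primrec.snd.comp Primrec.snd))
      (Primrec.snd.comp (Primrec.fst.comp Primrec.snd))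
  · exact (Primrec.list_getD 0).comp (Primrec.fst.comp (Primrec.snd.comp Primrec.snd))
      (Primrec.snd.comp (Primrec.fst.comp Primrec.snd))

theorem rent_prim : Primrec₂ rent := by
  unfold rent
  refine (Primrec.list_getD (0, false, 0)).comp₂ ?_ ?_
  · exact ((Primrec.snd.comp Primrec.snd).comp Primrec.fst).to₂
  · refine Primrec.nat_add.comp₂ ?_ ?_
    · refine Primrec.nat_mul.comp₂ ?_ ?_
      · exact (Primrec.nat_sub.comp (Primrec.fst.comp Primrec.snd) (Primrec.const 1)).to₂
      · exact ((Primrec.fst.comp Primrec.snd).comp Primrec.fst).to₂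
    · exact (rsym_prim.comp Primrec.snd).to₂

theorem rmove_prim : Primrec₂ rmove := by
  unfold rmove
  have hd : PrimrecPred fun p : Bool × (Bool × ℕ) => p.1 = true :=
    Primrec.eq.comp Primrec.fst (Primrec.const true)
  have hs : PrimrecPred fun p : Bool × (Bool × ℕ) => p.2.1 = true :=
    Primrec.eq.comp (Primrec.fst.comp Primrec.snd) (Primrec.const true)
  have hz : PrimrecPred fun p : Bool × (Bool × ℕ) => p.2.2 = 0 :=
    Primrec.eq.comp (Primrec.snd.comp Primrec.snd) (Primrec.const 0)
  have hn : Primrec fun p : Bool × (Bool × ℕ) => p.2.2 := Primrec.snd.comp Primrec.snd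
  have hn1 : Primrec fun p : Bool × (Bool × ℕ) => p.2.2 + 1 := Primrec.succ.comp hn
  have hn2 : Primrec fun p : Bool × (Bool × ℕ) => p.2.2 - 1 :=
    Primrec.nat_sub.comp hn (Primrec.const 1)
  show Primrec fun p : Bool × (Bool × ℕ) => _
  exact Primrec.ite hd
    (Primrec.ite hs (Primrec.pair (Primrec.const true) hn1)
      (Primrec.ite hz (Primrec.const (true, 0)) (Primrec.pair (Primrec.const false) hn2)))
    (Primrec.ite hs
      (Primrec.ite hz (Primrec.const (false, 0)) (Primrec.pair (Primrec.const true) hn2))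
      (Primrec.pair (Primrec.const false) hn1))

end RawCompAux

theorem rstep_prim : Primrec₂ rstep := by
  unfold rstep
  have hc : Primrec fun p : (ℕ × ℕ × List (ℕ × Bool × ℕ)) × RC => p.2 := Primrec.snd
  have he : Primrec fun p : (ℕ × ℕ × List (ℕ × Bool × ℕ)) × RC => rent p.1 p.2 :=
    RawCompAux.rent_prim.comp Primrec.fst Primrec.snd
  have hs : Primrec fun p : (ℕ × ℕ × List (ℕ × Bool × ℕ)) × RC => p.2.2.1.1 :=
    Primrec.fst.comp (Primrec.fst.comp (Primrec.snd.comp hc))
  have hi : Primrec fun p : (ℕ × ℕ × List (ℕ × Bool × ℕ)) × RC => p.2.2.1.2 :=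
    Primrec.snd.comp (Primrec.fst.comp (Primrec.snd.comp hc))
  have hl : Primrec fun p : (ℕ × ℕ × List (ℕ × Bool × ℕ)) × RC => p.2.2.2.1 :=
    Primrec.fst.comp (Primrec.snd.comp (Primrec.snd.comp hc))
  have hr : Primrec fun p : (ℕ × ℕ × List (ℕ × Bool × ℕ)) × RC => p.2.2.2.2 :=
    Primrec.snd.comp (Primrec.snd.comp (Primrec.snd.comp hc))
  have hv : Primrec fun p : (ℕ × ℕ × List (ℕ × Bool × ℕ)) × RC => (rent p.1 p.2).1 :=
    Primrec.fst.comp he
  show Primrec fun p : (ℕ × ℕ × List (ℕ × Bool × ℕ)) × RC => _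
  refine Primrec.ite (Primrec.eq.comp (Primrec.fst.comp hc) (Primrec.const 0)) hc ?_
  refine Primrec.pair (Primrec.snd.comp (Primrec.snd.comp he)) (Primrec.pair ?_ ?_)
  · exact RawCompAux.rmove_prim.comp (Primrec.fst.comp (Primrec.snd.comp he))
      (Primrec.fst.comp (Primrec.snd.comp hc))
  · refine Primrec.ite (Primrec.eq.comp hs (Primrec.const true)) ?_ ?_
    · exact Primrec.pair hl (upd_prim.comp (Primrec.pair hr (Primrec.pair hi hv)))
    · exact Primrec.pair (upd_prim.comp (Primrec.pair hl (Primrec.pair hi hv))) hr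

theorem rinit_prim : Primrec rinit := by
  unfold rinit
  exact Primrec.pair (Primrec.const 1) (Primrec.pair (Primrec.const (true, 0))
    (Primrec.pair (Primrec.const []) Primrec.id))

theorem trim_prim : Primrec trim := by
  unfold trim
  have h0 : Primrec fun a : ℕ => decide (a = 0) := by
    have h := Primrec.eq.comp (Primrec.id (α := ℕ)) (Primrec.const 0)
    exact h.decide
  exact Primrec.list_reverse.comp ((Primrec.list_dropWhile h0).comp Primrec.list_reverse)

/-- the raw configuration after `t` steps -/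
theorem riter_prim :
    Primrec fun p : ((ℕ × ℕ × List (ℕ × Bool × ℕ)) × List ℕ) × ℕ =>
      (rstep p.1.1)^[p.2] (rinit p.1.2) := by
  exact Primrec.nat_iterate Primrec.snd
    (rinit_prim.comp (Primrec.snd.comp Primrec.fst))
    (rstep_prim.comp₂ ((Primrec.fst.comp Primrec.fst).comp Primrec.fst).to₂ Primrec₂.right)

end P913
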