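import Pool.Agent.Lib.P913.RawComp

/-!
# Module RawFin: the partial recursive function which simulates all Turing machines

PROOF.  `G p = (Nat.rfind fun t => Part.some (decide (((rstep p.1)^[t] (rinit p.2)).1 = 0))).map
fun t => (trim c.2.2.1, trim c.2.2.2)` with `c = (rstep p.1)^[t] (rinit p.2)`; `Partrec` by `Partrec.rfind`,
`Partrec.map`, `riter_prim`, `trim_prim`.  `F c = (Part.ofOption (Encodable.decode c)).bind G` (`Computable.ofOption`,
`Computable.decode`, `Partrec.bind`); at `c = encode p` it is `G p` (`Encodable.encodek`).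
`(G (mcode M, x)).Dom ↔ Halts M x`: `Rel_init`, `Rel_iter` (the raw state is `0` iff `st = none`), `Nat.rfind_dom`.
Value: by `isCode_of_Rel` it codes the tape at the least halting time `t`; if `Output M x T` with the time `t'`, the
configurations at both times are equal (a halting configuration does not change: `step` is the identity there, the
iterates from the smaller to the larger time).
-/

set_option autoImplicit false

namespace P913

namespace RawFinAux

/-- pairs of a machine code and an input -/
abbrev PI := (ℕ × ℕ × List (ℕ × Bool × ℕ)) × List ℕ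

/-- the raw configuration after `t` steps -/
def conf (p : PI) (t : ℕ) : RC := (rstep p.1)^[t] (rinit p.2)

/-- halting test -/
def tst (p : PI) (t : ℕ) : Bool := decide ((conf p t).1 = 0)

/-- the value -/
def val (p : PI) (t : ℕ) : List ℕ × List ℕ := (trim (conf p t).2.2.1, trim (conf p t).2.2.2)

/-- the simulating function -/
def G (p : PI) : Part (List ℕ × List ℕ) :=
  (Nat.rfind (fun t => (Part.some (tst p t) : Part Bool))).map (val p)

lemma conf_prim : Primrec₂ conf := riter_prim

lemma tst_prim : Primrec₂ tst := by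
  have h : PrimrecRel fun (p : PI) (t : ℕ) => (conf p t).1 = 0 :=
    Primrec.eq.comp (Primrec.fst.comp conf_prim) (Primrec.const 0)
  exact h.decide

lemma val_prim : Primrec₂ val := by
  have h : Primrec fun q : PI × ℕ => conf q.1 q.2 := conf_prim
  have h1 : Primrec fun q : PI × ℕ => trim (conf q.1 q.2).2.2.1 :=
    trim_prim.comp (Primrec.fst.comp (Primrec.snd.comp (Primrec.snd.comp h)))
  have h2 : Primrec fun q : PI × ℕ => trim (conf q.1 q.2).2.2.2 :=
    trim_prim.comp (Primrec.snd.comp (Primrec.snd.comp (Primrec.snd.comp h)))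
  exact h1.pair h2

lemma G_partrec : Partrec G := by
  have h1 : Partrec₂ fun (p : PI) (t : ℕ) => (Part.some (tst p t) : Part Bool) :=
    tst_prim.to_comp.partrec₂
  exact (Partrec.rfind h1).map val_prim.to_comp

/-- the function on numbers -/
def F (c : ℕ) : Part (List ℕ × List ℕ) := (Part.ofOption (Encodable.decode (α := PI) c)).bind G

lemma F_partrec : Partrec F :=
  (Computable.ofOption Computable.decode).bind (G_partrec.comp Computable.snd).to₂

lemma F_encode (p : PI) : F (Encodable.encode p) = G p := by
  unfold F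
  rw [Encodable.encodek]
  exact Part.bind_some p G

lemma G_dom (p : PI) : (G p).Dom ↔ ∃ t, (conf p t).1 = 0 := by
  constructor
  · intro h
    have h' : (Nat.rfind (fun t => (Part.some (tst p t) : Part Bool))).Dom := h
    obtain ⟨t, ht, _⟩ := Nat.rfind_dom.mp h'
    refine ⟨t, ?_⟩
    have := Part.mem_some_iff.mp ht
    exact of_decide_eq_true this.symm
  · rintro ⟨t, ht⟩
    have h' : (Nat.rfind (fun t => (Part.some (tst p t) : Part Bool))).Dom := by
      refine Nat.rfind_dom.mpr ⟨t, ?_, fun _ => trivial⟩
      exact Part.mem_some_iff.mpr (decide_eq_true ht).symm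
    exact h'

lemma G_mem (p : PI) {w : List ℕ × List ℕ} (h : w ∈ G p) :
    ∃ t, (conf p t).1 = 0 ∧ w = val p t := by
  unfold G at h
  rw [Part.mem_map_iff] at h
  obtain ⟨t, ht, hw⟩ := h
  refine ⟨t, ?_, hw.symm⟩
  have h1 := Nat.rfind_spec ht
  have := Part.mem_some_iff.mp h1
  exact of_decide_eq_true this.symm

lemma step_none {k n : ℕ} (M : TM k n) (c : Cfg k n) (h : c.st = none) : step M c = c := by
  unfold step
  rw [h]

lemma iter_none {k n : ℕ} (M : TM k n) (c : Cfg k n) (h : c.st = none) (t : ℕ) :
    (step M)^[t] c = c := by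
  induction t with
  | zero => rfl
  | succ t ih => rw [Function.iterate_succ_apply, step_none M c h, ih]

lemma halt_eq {k n : ℕ} (M : TM k n) (c : Cfg k n) {t t' : ℕ}
    (h : ((step M)^[t] c).st = none) (h' : ((step M)^[t'] c).st = none) :
    (step M)^[t] c = (step M)^[t'] c := by
  rcases le_total t t' with hle | hle
  · obtain ⟨s, rfl⟩ := Nat.exists_eq_add_of_le hle
    rw [add_comm, Function.iterate_add_apply, iter_none M _ h]
  · obtain ⟨s, rfl⟩ := Nat.exists_eq_add_of_le hle
    rw [add_comm t' s, Function.iterate_add_apply, iter_none M _ h']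

end RawFinAux

open RawFinAux in
theorem exists_F : ∃ F : ℕ →. List ℕ × List ℕ, Partrec F ∧
    ∀ (k n : ℕ) [NeZero k] [NeZero n] (M : TM k n) (x : List (Fin n)),
      ((F (Encodable.encode (mcode M, x.map fun s : Fin n => (s : ℕ)))).Dom ↔ Halts M x) ∧
      ∀ w ∈ F (Encodable.encode (mcode M, x.map fun s : Fin n => (s : ℕ))), ∀ T : ℤ → Fin n,
        Output M x T → IsCode w T := by
  refine ⟨F, F_partrec, ?_⟩
  intro k n _ _ M x
  rw [F_encode]
  have hrel : ∀ t, Rel ((step M)^[t] (init x))
      (conf (mcode M, x.map fun s : Fin n => (s : ℕ)) t) := fun t =>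
    Rel_iter M (init x) _ (Rel_init x) t
  have hst : ∀ t, (conf (mcode M, x.map fun s : Fin n => (s : ℕ)) t).1 = 0 ↔
      ((step M)^[t] (init x)).st = none := by
    intro t
    have h1 := (hrel t).1
    constructor
    · intro h0
      rw [h0] at h1
      cases hq : ((step M)^[t] (init x)).st with
      | none => rfl
      | some q =>
        rw [hq] at h1
        simp at h1
    · intro h0
      rw [h0] at h1
      exact h1
  refine ⟨?_, ?_⟩
  · rw [G_dom]
    constructor
    · rintro ⟨t, ht⟩
      exact ⟨t, (hst t).1 ht⟩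
    · rintro ⟨t, ht⟩
      exact ⟨t, (hst t).2 ht⟩
  · intro w hw T hT
    obtain ⟨t, ht, rfl⟩ := G_mem _ hw
    obtain ⟨t', ht', rfl⟩ := hT
    have he : (step M)^[t] (init x) = (step M)^[t'] (init x) := halt_eq M _ ((hst t).1 ht) ht'
    rw [← he]
    exact isCode_of_Rel _ _ (hrel t)

end P913
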