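import Pool.Agent.Lib.P913.CMDef

/-!
# Module TagBlk: reading blocks in a 2-tag system

PROOFS.  `TR.trans`: `Function.iterate_add_apply`; for `j ≥ m` write `j = m + (j - m)`.  `tstep_two`: by definition
(`(b :: w ++ pr a).tail = w ++ pr a`).  `TR_pw`: induction on `n` (generalize `w`):
`pw (n + 1) u v ++ w = u :: v :: (pw n u v ++ w)`, one step gives `pw n u v ++ (w ++ pr u)`.
`TR_one` is one step.  `TR_rep`: reading of `n` letters `u`, `n` even: `n / 2` steps (`List.replicate n u` is
`pw (n / 2) u u`); `TR_rep_odd`: `n` odd: `(n - 1) / 2` steps and one step which skips the letter `v` behind.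
-/

set_option autoImplicit false

namespace P913

variable {α : Type} {pr : α → List α} {η : α}

theorem TR.refl (w : List α) : TR pr η 0 w w := by
  refine ⟨rfl, ?_⟩
  intro j hj
  exact absurd hj (Nat.not_lt_zero j)

theorem TR.trans {m n : ℕ} {u v w : List α} (h : TR pr η m u v) (h' : TR pr η n v w) :
    TR pr η (m + n) u w := by
  refine ⟨?_, ?_⟩
  · rw [Nat.add_comm, Function.iterate_add_apply, h.1, h'.1]
  · intro j hj
    by_cases hjm : j < m
    · exact h.2 j hjm
    · have e : j = (j - m) + m := by omega
      rw [e, Function.iterate_add_apply, h.1]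
      exact h'.2 (j - m) (by omega)

theorem tstep_two (a b : α) (w : List α) : tstep pr (a :: b :: w) = w ++ pr a := by
  rfl

/-- one step -/
theorem TR_one {a : α} (b : α) (w : List α) (ha : a ≠ η) : TR pr η 1 (a :: b :: w) (w ++ pr a) := by
  refine ⟨rfl, ?_⟩
  intro j hj
  have : j = 0 := by omega
  subst this
  simpa using ha

/-- a block of pairs -/
theorem TR_pw {u : α} (v : α) (n : ℕ) (w : List α) (hu : u ≠ η) :
    TR pr η n (pw n u v ++ w) (w ++ (List.replicate n (pr u)).flatten) := by
  induction n generalizing w with
  | zero => simpa [pw] using TR.refl w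
  | succ n ih =>
    have e1 : pw (n + 1) u v ++ w = u :: v :: (pw n u v ++ w) := by
      simp [pw, List.replicate_succ]
    have h1 := TR_one (pr := pr) (η := η) v (pw n u v ++ w) hu
    rw [← e1, List.append_assoc] at h1
    have h2 := h1.trans (ih (w ++ pr u))
    rw [Nat.add_comm] at h2
    have e2 : w ++ pr u ++ (List.replicate n (pr u)).flatten
        = w ++ (List.replicate (n + 1) (pr u)).flatten := by
      simp [List.replicate_succ]
    rw [e2] at h2
    exact h2

/-- an even number of equal letters -/
theorem TR_rep {u : α} (n : ℕ) (w : List α) (hu : u ≠ η) :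
    TR pr η n (List.replicate (2 * n) u ++ w) (w ++ (List.replicate n (pr u)).flatten) := by
  have e : List.replicate (2 * n) u = pw n u u := by
    induction n with
    | zero => simp [pw]
    | succ n ih =>
      have e1 : pw (n + 1) u u = u :: u :: pw n u u := by
        simp [pw, List.replicate_succ]
      rw [e1, ← ih, Nat.mul_succ, List.replicate_succ, List.replicate_succ]
  rw [e]
  exact TR_pw u n w hu

/-- an odd number of equal letters: the next letter is skipped -/
theorem TR_rep_odd {u : α} (n : ℕ) (v : α) (w : List α) (hu : u ≠ η) :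
    TR pr η (n + 1) (List.replicate (2 * n + 1) u ++ v :: w)
      (w ++ (List.replicate (n + 1) (pr u)).flatten) := by
  have e : List.replicate (2 * n + 1) u ++ v :: w = List.replicate (2 * n) u ++ (u :: v :: w) := by
    rw [List.replicate_add, List.append_assoc]
    rfl
  rw [e]
  have h1 := TR_rep (pr := pr) (η := η) n (u :: v :: w) hu
  have h2 := TR_one (pr := pr) (η := η) v (w ++ (List.replicate n (pr u)).flatten) hu
  have h3 := h1.trans (by simpa using h2)
  have e2 : w ++ (List.replicate n (pr u)).flatten ++ pr u
      = w ++ (List.replicate (n + 1) (pr u)).flatten := by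
    rw [List.append_assoc]
    congr 1
    rw [List.replicate_add, List.flatten_append]
    simp
  rw [← e2]
  simpa using h3

end P913
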