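import Pool.Agent.Lib.P913.UPass

/-!
# Module UCmd: the execution of one command

PROOFS.  `cmd_to`: `leftP` with `l = (pc a).reverse ++ ..` (nonempty by `pc_ne`), `mark` (the right side begins with
`er _` if `g ≠ []`, with `zr f` otherwise), `rightS`.  The head is then at the zone and the left list is
`(g ++ [a]).flatMap (fun a => (el a).reverse) ++ ..`, which begins with `(el b).reverse` for some `b` (the head of
`g ++ [a]`).  `cmd_X`: `x0`; or `x1`, `rightT`, `leftD`.  `cmd_Y`: `y0`; or `y1`, `rightT`, `leftD` (with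
`a = false` for the new garbage cell).  `wrap_lend`: `leftP` for `p = []` (`E ≠ []`), `lend`, `rightQ`, `wrap0`;
`wrap_halt`: the same with `wrap1`: the final tape is `E`, the cells `pc` of `g.reverse`, `v`, the data.
-/

set_option autoImplicit false

namespace P913

section

variable {k n : ℕ} [NeZero k] [NeZero n] {U : TM k n} (L : Loc U)

theorem er_or_zr (g : List Bool) (f : Bool) (x : List (Fin n)) :
    (∃ b r', g.reverse.flatMap L.er ++ (L.zr f ++ x) = L.er b ++ r') ∨
      ∃ f' r', g.reverse.flatMap L.er ++ (L.zr f ++ x) = L.zr f' ++ r' := by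
  cases hg : g.reverse with
  | nil => right; exact ⟨f, x, by simp⟩
  | cons b t =>
    left
    exact ⟨b, t.flatMap L.er ++ (L.zr f ++ x), by simp [List.flatMap_cons]⟩

/-- finding the next command and going back to the zone -/
theorem cmd_to (a : Bool) (p g : List Bool) (f : Bool) (D : List Bool) :
    Rn U (L.C (a :: p) g f D)
      (AR ((g ++ [a]).flatMap (fun a => (L.el a).reverse) ++
        (p.flatMap (fun a => (L.pc a).reverse) ++ L.E.reverse)) (L.qS a) (L.zr f ++ D.flatMap L.dr)) := by
  have hE : L.E.reverse ≠ [] := by simpa using L.E_ne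
  have h1 := leftP L g ((a :: p).flatMap (fun a => (L.pc a).reverse) ++ L.E.reverse)
    (by intro h; exact hE (List.append_eq_nil_iff.mp h).2) f (D.flatMap L.dr)
  have h2 := L.mark a (p.flatMap (fun a => (L.pc a).reverse) ++ L.E.reverse)
    (g.reverse.flatMap L.er ++ (L.zr f ++ D.flatMap L.dr)) (er_or_zr L g f _)
  have h3 := rightS L a a g (p.flatMap (fun a => (L.pc a).reverse) ++ L.E.reverse)
    (L.zr f ++ D.flatMap L.dr)
  have e1 : (a :: p).flatMap (fun a => (L.pc a).reverse) ++ L.E.reverse =
      (L.pc a).reverse ++ (p.flatMap (fun a => (L.pc a).reverse) ++ L.E.reverse) := by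
    simp [List.flatMap_cons]
  have e2 : (g ++ [a]).flatMap (fun a => (L.el a).reverse) ++
        (p.flatMap (fun a => (L.pc a).reverse) ++ L.E.reverse) =
      g.flatMap (fun a => (L.el a).reverse) ++ ((L.el a).reverse ++
        (p.flatMap (fun a => (L.pc a).reverse) ++ L.E.reverse)) := by
    simp [List.flatMap_append]
  rw [e2]
  refine Rn.trans h1 (Rn.trans ?_ h3)
  rw [e1]
  exact h2

theorem exists_cons_of_append (g : List Bool) (a : Bool) : ∃ b t, g ++ [a] = b :: t := by
  cases g with
  | nil => exact ⟨a, [], rfl⟩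
  | cons b t => exact ⟨b, t ++ [a], rfl⟩

theorem cmd_X (p g : List Bool) (f : Bool) (D : List Bool) :
    Rn U (L.C (false :: p) g f D) (L.C p (g ++ [false]) f (if f then D ++ [true] else D)) := by
  have h0 := cmd_to L false p g f D
  obtain ⟨b, t, hbt⟩ := exists_cons_of_append g false
  unfold Loc.C at h0 ⊢
  rw [hbt] at h0 ⊢
  simp only [List.flatMap_cons, List.append_assoc] at h0 ⊢
  refine Rn.trans h0 ?_
  cases f with
  | false =>
    exact L.x0 b _ _
  | true =>
    simp only [if_true]
    refine Rn.trans (L.x1 b _ _) ?_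
    refine Rn.trans (rightT L true true D _) ?_
    exact leftD L true true b D _

theorem cmd_Y (p g : List Bool) (f d : Bool) (D : List Bool) :
    Rn U (L.C (true :: p) g f (d :: D)) (L.C p (false :: (g ++ [true])) d (if f then D ++ [false] else D)) := by
  have h0 := cmd_to L true p g f (d :: D)
  obtain ⟨b, t, hbt⟩ := exists_cons_of_append g true
  unfold Loc.C at h0 ⊢
  rw [hbt] at h0 ⊢
  simp only [List.flatMap_cons, List.append_assoc] at h0 ⊢
  refine Rn.trans h0 ?_
  cases f with
  | false =>
    exact L.y0 b d _ _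
  | true =>
    simp only [if_true]
    refine Rn.trans (L.y1 b d _ _) ?_
    refine Rn.trans (rightT L false d D _) ?_
    exact leftD L false d false D _

theorem pc_or_E (g : List Bool) :
    (∃ b l', g.flatMap (fun a => (L.pc a).reverse) ++ L.E.reverse = (L.pc b).reverse ++ l') ∨
      g.flatMap (fun a => (L.pc a).reverse) ++ L.E.reverse = L.E.reverse := by
  cases g with
  | nil => right; simp
  | cons b t =>
    left
    exact ⟨b, t.flatMap (fun a => (L.pc a).reverse) ++ L.E.reverse, by simp [List.flatMap_cons]⟩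

theorem wrap_to (g : List Bool) (f : Bool) (D : List Bool) : Rp U (L.C [] g f D)
    (AR (g.flatMap (fun a => (L.pc a).reverse) ++ L.E.reverse) L.qQ (L.zr f ++ D.flatMap L.dr)) := by
  have hE : L.E.reverse ≠ [] := by simpa using L.E_ne
  have h1 := leftP L g L.E.reverse hE f (D.flatMap L.dr)
  have h2 := L.lend (g.reverse.flatMap L.er ++ (L.zr f ++ D.flatMap L.dr)) (er_or_zr L g f _)
  have h3 := rightQ L g (L.zr f ++ D.flatMap L.dr)
  unfold Loc.C
  simp only [List.flatMap_nil, List.nil_append]
  exact Rn.trans_rp h1 (Rp.trans_rn h2 h3)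

theorem wrap_false (g : List Bool) (D : List Bool) : Rp U (L.C [] g false D) (L.C g [] false D) := by
  refine Rp.trans_rn (wrap_to L g false D) ?_
  unfold Loc.C
  simp only [List.flatMap_nil, List.nil_append]
  exact L.wrap0 _ _ (pc_or_E L g)

theorem wrap_true (g : List Bool) (D : List Bool) :
    ∃ (t : ℕ) (v : List (Fin n)), (∃ s, v.getLast? = some s ∧ s ≠ 0) ∧
      ((step U)^[t] (L.C [] g true D)).st = none ∧
      ((step U)^[t] (L.C [] g true D)).tape =
        wordTape (L.E ++ (g.reverse.flatMap L.pc ++ (v ++ D.flatMap L.dr))) := by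
  obtain ⟨t0, ht0⟩ := wrap_to L g true D
  obtain ⟨t, v, hv, h1, h2⟩ := L.wrap1 _ (D.flatMap L.dr) (pc_or_E L g)
  refine ⟨t + (t0 + 1), v, hv, ?_, ?_⟩
  · rw [Function.iterate_add_apply, ht0]; exact h1
  · rw [Function.iterate_add_apply, ht0, h2]
    congr 1
    rw [List.reverse_append, List.reverse_reverse, List.reverse_flatMap, List.append_assoc]
    congr 1
    congr 1
    congr 1
    funext a
    simp

end

end P913
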