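import Pool.Agent.Lib.P913.UCmd

/-!
# Module UCyc: one cycle of the machine

PROOFS.  `ex` is the abstract execution: command `X` at the queue `f :: D` appends `1` if `f = 1`; command `Y` deletes
the front bit and appends `0` if it was `1`.  `run_ex`: induction on `p` with `cmd_X`, `cmd_Y` (the queue has at least
two elements at every `Y`: the condition is `2 + (number of Y's) ≤ length`).  Garbage: every `Y` puts one `false` in front.
`ex_X0`: commands `X` at front bit `0` change nothing.  `ex_entry`: `X^k Y` on the queue `b :: D` is `rd k`
(if `b = true`: `k` ones are appended, then `b` is deleted and `0` appended).  `ex_prog`: induction on `ks`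
(`rd` never makes the queue shorter by more than 1).  `cycle`: start
`C (false^(j+1) ++ prog ks ++ false^c) [] false D`; after all commands: `g = false^m ++ (the list of commands)`
(`m = ks.length`), queue `cyc ks (false :: D) = f :: D'`, and the last commands `X^c` append `c` ones if `f = 1`.
-/

set_option autoImplicit false

namespace P913

/-- the effect of a list of commands on the queue -/
def ex : List Bool → List Bool → List Bool
  | [], D => D
  | false :: p, D => ex p (if D.head? = some true then D ++ [true] else D)
  | true :: p, D => ex p (if D.head? = some true then D.tail ++ [false] else D.tail)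

theorem ex_append (p p' D : List Bool) : ex (p ++ p') D = ex p' (ex p D) := by
  induction p generalizing D with
  | nil => rfl
  | cons a p ih =>
    cases a
    · exact ih _
    · exact ih _

theorem ex_X0 (c : ℕ) (D : List Bool) : ex (List.replicate c false) (false :: D) = false :: D := by
  induction c with
  | zero => rfl
  | succ c ih =>
    rw [List.replicate_succ]
    simpa [ex] using ih

theorem ex_X1 (c : ℕ) (D : List Bool) :
    ex (List.replicate c false) (true :: D) = true :: (D ++ List.replicate c true) := by
  induction c generalizing D with
  | zero => simp [ex]
  | succ c ih =>
    rw [List.replicate_succ, List.replicate_succ]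
    have h := ih (D ++ [true])
    simpa [ex] using h

theorem ex_entry (k : ℕ) (b : Bool) (D : List Bool) :
    ex (List.replicate k false ++ [true]) (b :: D) = rd k (b :: D) := by
  rw [ex_append]
  cases b
  · rw [ex_X0]
    simp [ex, rd, out]
  · rw [ex_X1]
    simp [ex, rd, out]

theorem ex_prog (ks : List ℕ) (D : List Bool) (h : ks.length + 2 ≤ D.length) :
    ex (prog ks) D = cyc ks D := by
  induction ks generalizing D with
  | nil => rfl
  | cons k ks ih =>
    cases D with
    | nil => simp at h
    | cons b D =>
      have h1 : prog (k :: ks) = (List.replicate k false ++ [true]) ++ prog ks := rfl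
      have h2 : cyc (k :: ks) (b :: D) = cyc ks (rd k (b :: D)) := rfl
      rw [h1, ex_append, ex_entry, h2]
      apply ih
      simp only [List.length_cons] at h
      simp only [rd, List.length_append]
      omega

theorem cyc_length (ks : List ℕ) (D : List Bool) : D.length ≤ (cyc ks D).length + ks.length := by
  induction ks generalizing D with
  | nil => simp [cyc]
  | cons k ks ih =>
    have h2 : cyc (k :: ks) D = cyc ks (rd k D) := rfl
    rw [h2]
    have h3 := ih (rd k D)
    have h4 : D.length ≤ (rd k D).length + 1 := by
      cases D with
      | nil => simp
      | cons b D => simp only [rd, List.length_append, List.length_cons]; omega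
    rw [List.length_cons]
    omega

theorem prog_count (ks : List ℕ) : (prog ks).count true = ks.length := by
  induction ks with
  | nil => rfl
  | cons k ks ih =>
    have h1 : prog (k :: ks) = (List.replicate k false ++ [true]) ++ prog ks := rfl
    rw [h1, List.count_append, List.count_append, ih]
    simp [List.count_replicate]
    omega

section

variable {k n : ℕ} [NeZero k] [NeZero n] {U : TM k n} (L : Loc U)

theorem run_ex (p p' g : List Bool) (f : Bool) (D : List Bool) (h : p.count true + 2 ≤ D.length + 1) :
    ∃ f' D', ex p (f :: D) = f' :: D' ∧
      Rn U (L.C (p ++ p') g f D) (L.C p' (List.replicate (p.count true) false ++ g ++ p) f' D') := by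
  induction p generalizing g f D with
  | nil =>
    refine ⟨f, D, rfl, ?_⟩
    simpa using Rn.refl (U := U) (L.C p' g f D)
  | cons a p ih =>
    cases a
    · have h0 : (false :: p).count true = p.count true := by simp
      rw [h0] at h ⊢
      have h1 : ex (false :: p) (f :: D) = ex p (f :: (if f then D ++ [true] else D)) := by
        cases f <;> rfl
      have h2 : p.count true + 2 ≤ (if f then D ++ [true] else D).length + 1 := by
        cases f
        · simpa using h
        · simp only [if_true, List.length_append]; omega
      obtain ⟨f', D', h3, h4⟩ := ih (g ++ [false]) f (if f then D ++ [true] else D) h2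
      refine ⟨f', D', h1.trans h3, ?_⟩
      have h5 := cmd_X L (p ++ p') g f D
      have h6 := Rn.trans h5 h4
      simpa [List.append_assoc] using h6
    · have h0 : (true :: p).count true = p.count true + 1 := by simp
      rw [h0] at h ⊢
      cases D with
      | nil => simp at h
      | cons d D =>
        have h1 : ex (true :: p) (f :: d :: D) = ex p (d :: (if f then D ++ [false] else D)) := by
          cases f <;> rfl
        have h2 : p.count true + 2 ≤ (if f then D ++ [false] else D).length + 1 := by
          rw [List.length_cons] at h
          cases f
          · simp only [Bool.false_eq_true, if_false]; omega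
          · simp only [if_true, List.length_append]; omega
        obtain ⟨f', D', h3, h4⟩ := ih (false :: (g ++ [true])) d (if f then D ++ [false] else D) h2
        refine ⟨f', D', h1.trans h3, ?_⟩
        have h5 := cmd_Y L (p ++ p') g f d D
        have h6 := Rn.trans h5 h4
        have h7 : List.replicate (p.count true) false ++ false :: (g ++ [true]) ++ p =
            List.replicate (p.count true + 1) false ++ g ++ true :: p := by
          rw [List.replicate_succ']
          simp [List.append_assoc]
        rw [h7] at h6
        exact h6

/-- one cycle, the garbage has `j + 1` cells -/
theorem cycle (ks : List ℕ) (c j : ℕ) (D : List Bool) (h : ks.length + 2 ≤ (false :: D).length) :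
    ∃ f' D', cyc ks (false :: D) = f' :: D' ∧
      Rn U (L.C (List.replicate (j + 1) false ++ prog ks ++ List.replicate c false) [] false D)
        (L.C [] (List.replicate (j + 1 + ks.length) false ++ prog ks ++ List.replicate c false) f'
          (if f' then D' ++ List.replicate c true else D')) := by
  set p : List Bool := List.replicate (j + 1) false ++ prog ks ++ List.replicate c false with hp
  have hc : p.count true = ks.length := by
    rw [hp, List.count_append, List.count_append, prog_count]
    simp [List.count_replicate]
  have hl := h
  rw [List.length_cons] at hl
  obtain ⟨f₁, D₁, h1, h2⟩ := run_ex L p [] [] false D (by rw [hc]; exact h)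
  have h3 : ex p (false :: D) = ex (List.replicate c false) (cyc ks (false :: D)) := by
    rw [hp, ex_append, ex_append, ex_X0, ex_prog ks _ h]
  have h4 := cyc_length ks (false :: D)
  obtain ⟨f', D', h5⟩ : ∃ f' D', cyc ks (false :: D) = f' :: D' := by
    cases hcyc : cyc ks (false :: D) with
    | nil =>
      rw [hcyc] at h4
      simp only [List.length_nil, List.length_cons] at h4
      omega
    | cons f' D' => exact ⟨f', D', rfl⟩
  refine ⟨f', D', h5, ?_⟩
  have h6 : f₁ :: D₁ = f' :: (if f' then D' ++ List.replicate c true else D') := by
    rw [← h1, h3, h5]
    cases f'
    · rw [ex_X0]; rfl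
    · rw [ex_X1]; rfl
  obtain ⟨h7, h8⟩ := List.cons.inj h6
  have h9 : List.replicate (p.count true) false ++ [] ++ p =
      List.replicate (j + 1 + ks.length) false ++ prog ks ++ List.replicate c false := by
    rw [hc, hp, List.append_nil, Nat.add_comm (j + 1) ks.length,
      List.replicate_add ks.length (j + 1) false]
    simp only [List.append_assoc]
  rw [h9, h7, h8, List.append_nil] at h2
  exact h2

end

end P913
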