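import Pool.Agent.Lib.P913.UniFin

/-!
# Machines which execute the queue systems: the local computations

Configurations whose head is not left of the cell `0` and whose negative cells are blank are written with the list
`l` of the cells left of the head (the nearest first, down to the cell `0`) and the list `r` of the cells from the
head to the right.
-/

set_option autoImplicit false

namespace P913

/-- the head is on the first cell of `r` -/
def AR {k n : ℕ} [NeZero n] (l : List (Fin n)) (q : Fin k) (r : List (Fin n)) : Cfg k n :=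
  ⟨wordTape (l.reverse ++ r), l.length, some q⟩

/-- the head is on the first cell of `l` (for `l ≠ []`) -/
def AL {k n : ℕ} [NeZero n] (l : List (Fin n)) (q : Fin k) (r : List (Fin n)) : Cfg k n :=
  ⟨wordTape (l.reverse ++ r), (l.length : ℤ) - 1, some q⟩

/-- finitely many steps -/
def Rn {k n : ℕ} (U : TM k n) (c c' : Cfg k n) : Prop := ∃ t : ℕ, (step U)^[t] c = c'

/-- at least one step -/
def Rp {k n : ℕ} (U : TM k n) (c c' : Cfg k n) : Prop := ∃ t : ℕ, (step U)^[t + 1] c = c'

/-- A machine with local computations which execute the commands `X` (`false`) and `Y` (`true`).  All logical cells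
are words over the tape alphabet: `el a`, `er a`: executed command `a`, with the head on its right / left side (the
garbage cells are executed commands `X`); `dl b`, `dr b`: data bit `b`; `pc a`: command `a`, not yet executed; `E`: left
end; `zl f`, `zr f`: the front zone with the front bit `f`. -/
structure Loc {k n : ℕ} [NeZero k] [NeZero n] (U : TM k n) where
  /-- states of the left passes (over executed cells, over data) -/
  qP : Fin k
  qD : Fin k
  /-- right passes after `X` (`false`) and `Y` (`true`), over executed cells -/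
  qS : Bool → Fin k
  /-- right passes over data, in order to append a bit -/
  qT : Bool → Fin k
  /-- restoring pass -/
  qQ : Fin k
  el : Bool → List (Fin n)
  er : Bool → List (Fin n)
  dl : Bool → List (Fin n)
  dr : Bool → List (Fin n)
  pc : Bool → List (Fin n)
  E : List (Fin n)
  zl : Bool → List (Fin n)
  zr : Bool → List (Fin n)
  /-- the number of cells `pc false` behind `E` can be read -/
  dec0 : List ℕ → ℕ
  dec0_comp : Computable dec0
  dec0_spec : ∀ (c : ℕ) (v : List (Fin n)), dec0 ((E ++ (List.replicate c (pc false)).flatten ++ pc true ++ v).map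
    fun s : Fin n => (s : ℕ)) = c
  dr_last : ∀ b, ∃ s, (dr b).getLast? = some s ∧ s ≠ 0
  pc_ne : ∀ a, pc a ≠ []
  el_ne : ∀ a, el a ≠ []
  E_ne : E ≠ []
  /-- left pass over an executed cell; on the right there is an executed cell or the zone -/
  passP : ∀ (a : Bool) (l r : List (Fin n)), l ≠ [] → ((∃ b r', r = er b ++ r') ∨ ∃ f r', r = zr f ++ r') →
    Rn U (AL ((el a).reverse ++ l) qP r) (AL l qP (er a ++ r))
  /-- a command is found -/
  mark : ∀ (a : Bool) (l r : List (Fin n)), ((∃ b r', r = er b ++ r') ∨ ∃ f r', r = zr f ++ r') →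
    Rn U (AL ((pc a).reverse ++ l) qP r) (AR ((el a).reverse ++ l) (qS a) r)
  /-- right pass -/
  passS : ∀ (s a b : Bool) (l r : List (Fin n)),
    Rn U (AR ((el b).reverse ++ l) (qS s) (er a ++ r)) (AR ((el a).reverse ++ ((el b).reverse ++ l)) (qS s) r)
  x0 : ∀ (a : Bool) (l r : List (Fin n)),
    Rn U (AR ((el a).reverse ++ l) (qS false) (zr false ++ r)) (AL ((el a).reverse ++ l) qP (zr false ++ r))
  x1 : ∀ (a : Bool) (l r : List (Fin n)),
    Rn U (AR ((el a).reverse ++ l) (qS false) (zr true ++ r))
      (AR ((zl true).reverse ++ ((el a).reverse ++ l)) (qT true) r)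
  y0 : ∀ (a d : Bool) (l r : List (Fin n)),
    Rn U (AR ((el a).reverse ++ l) (qS true) (zr false ++ (dr d ++ r)))
      (AL ((el false).reverse ++ ((el a).reverse ++ l)) qP (zr d ++ r))
  y1 : ∀ (a d : Bool) (l r : List (Fin n)),
    Rn U (AR ((el a).reverse ++ l) (qS true) (zr true ++ (dr d ++ r)))
      (AR ((zl d).reverse ++ ((el false).reverse ++ ((el a).reverse ++ l))) (qT false) r)
  /-- right pass over data; on the left there is a data cell or the zone -/
  passT : ∀ (i a : Bool) (p l r : List (Fin n)), ((∃ b, p = dl b) ∨ ∃ f, p = zl f) →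
    Rn U (AR (p.reverse ++ l) (qT i) (dr a ++ r)) (AR ((dl a).reverse ++ (p.reverse ++ l)) (qT i) r)
  app : ∀ (i : Bool) (p l : List (Fin n)), ((∃ b, p = dl b) ∨ ∃ f, p = zl f) →
    Rn U (AR (p.reverse ++ l) (qT i) []) (AL (p.reverse ++ l) qD (dr i))
  /-- left pass over data -/
  passD : ∀ (a : Bool) (l r : List (Fin n)), l ≠ [] → (∃ b r', r = dr b ++ r') →
    Rn U (AL ((dl a).reverse ++ l) qD r) (AL l qD (dr a ++ r))
  zone : ∀ (f a : Bool) (l r : List (Fin n)), (∃ b r', r = dr b ++ r') →
    Rn U (AL ((zl f).reverse ++ ((el a).reverse ++ l)) qD r) (AL ((el a).reverse ++ l) qP (zr f ++ r))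
  /-- the left end -/
  lend : ∀ r : List (Fin n), ((∃ b r', r = er b ++ r') ∨ ∃ f r', r = zr f ++ r') →
    Rp U (AL E.reverse qP r) (AR E.reverse qQ r)
  start : ∀ r : List (Fin n), (∃ b r', r = er b ++ r') → Rn U (AR [] 0 (E ++ r)) (AR E.reverse qQ r)
  passQ : ∀ (a : Bool) (l r : List (Fin n)), ((∃ b l', l = (pc b).reverse ++ l') ∨ l = E.reverse) →
    Rn U (AR l qQ (er a ++ r)) (AR ((pc a).reverse ++ l) qQ r)
  wrap0 : ∀ l r : List (Fin n), ((∃ b l', l = (pc b).reverse ++ l') ∨ l = E.reverse) →
    Rn U (AR l qQ (zr false ++ r)) (AL l qP (zr false ++ r))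
  /-- the machine halts if the front bit is `1` after a cycle -/
  wrap1 : ∀ l r : List (Fin n), ((∃ b l', l = (pc b).reverse ++ l') ∨ l = E.reverse) →
    ∃ (t : ℕ) (v : List (Fin n)), (∃ s, v.getLast? = some s ∧ s ≠ 0) ∧
      ((step U)^[t] (AR l qQ (zr true ++ r))).st = none ∧
      ((step U)^[t] (AR l qQ (zr true ++ r))).tape = wordTape (l.reverse ++ (v ++ r))

section

variable {k n : ℕ} [NeZero k] [NeZero n] {U : TM k n} (L : Loc U)

/-- the configuration between two commands: `p` the commands not yet executed in this cycle, `g` the executed cells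
and the garbage cells (both lists from the right to the left), `f` the front bit, `D` the other data bits -/
def Loc.C (p g : List Bool) (f : Bool) (D : List Bool) : Cfg k n :=
  AL (g.flatMap (fun a => (L.el a).reverse) ++ (p.flatMap (fun a => (L.pc a).reverse) ++ L.E.reverse)) L.qP
    (L.zr f ++ D.flatMap L.dr)

/-- the commands of a list of entries in the order of execution (`false = X`, `true = Y`) -/
def prog (ks : List ℕ) : List Bool := ks.flatMap fun k => List.replicate k false ++ [true]

end

end P913
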