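import Pool.Agent.Lib.P913.URun

/-!
# Module UPass: the passes of the head over many cells

PROOFS.  Inductions on the list of logical cells with the fields `passP`, `passS`, `passD`, `passT`, `passQ` of `Loc`
(and `Rn.trans`, `List.flatMap_cons`, `List.append_assoc`).  In the left passes the lists are ordered from the right to
the left, in the right passes (which are the same lists of cells traversed in the opposite order) an induction
on the reversed list is convenient: `g.reverse`, `List.flatMap_append`.
-/

set_option autoImplicit false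

namespace P913

section

variable {k n : ℕ} [NeZero k] [NeZero n] {U : TM k n} (L : Loc U)

namespace UPassAux

theorem leftP_gen (g : List Bool) (l : List (Fin n)) (hl : l ≠ []) :
    ∀ r : List (Fin n), ((∃ b r', r = L.er b ++ r') ∨ ∃ f r', r = L.zr f ++ r') →
      Rn U (AL (g.flatMap (fun a => (L.el a).reverse) ++ l) L.qP r)
        (AL l L.qP (g.reverse.flatMap L.er ++ r)) := by
  induction g with
  | nil =>
    intro r _
    simpa using Rn.refl (U := U) (AL l L.qP r)
  | cons a g ih =>
    intro r hr
    have h1 := L.passP a (g.flatMap (fun a => (L.el a).reverse) ++ l) r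
      (by intro h; exact hl (List.append_eq_nil_iff.mp h).2) hr
    have h2 := ih (L.er a ++ r) (Or.inl ⟨a, r, rfl⟩)
    have e1 : (a :: g).flatMap (fun a => (L.el a).reverse) ++ l =
        (L.el a).reverse ++ (g.flatMap (fun a => (L.el a).reverse) ++ l) := by
      simp [List.flatMap_cons]
    have e2 : (a :: g).reverse.flatMap L.er ++ r = g.reverse.flatMap L.er ++ (L.er a ++ r) := by
      simp [List.flatMap_append]
    rw [e1, e2]
    exact Rn.trans h1 h2

theorem rightS_gen (s : Bool) (r : List (Fin n)) (h : List Bool) :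
    ∀ (b : Bool) (l : List (Fin n)),
      Rn U (AR ((L.el b).reverse ++ l) (L.qS s) (h.flatMap L.er ++ r))
        (AR (h.reverse.flatMap (fun a => (L.el a).reverse) ++ ((L.el b).reverse ++ l)) (L.qS s) r) := by
  induction h with
  | nil =>
    intro b l
    simpa using Rn.refl (U := U) (AR ((L.el b).reverse ++ l) (L.qS s) r)
  | cons a h ih =>
    intro b l
    have h1 := L.passS s a b l (h.flatMap L.er ++ r)
    have h2 := ih a ((L.el b).reverse ++ l)
    have e1 : (a :: h).flatMap L.er ++ r = L.er a ++ (h.flatMap L.er ++ r) := by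
      simp [List.flatMap_cons]
    have e2 : (a :: h).reverse.flatMap (fun a => (L.el a).reverse) ++ ((L.el b).reverse ++ l) =
        h.reverse.flatMap (fun a => (L.el a).reverse) ++ ((L.el a).reverse ++ ((L.el b).reverse ++ l)) := by
      simp [List.flatMap_append]
    rw [e1, e2]
    exact Rn.trans h1 h2

theorem rightT_gen (i : Bool) (D : List Bool) :
    ∀ (p l : List (Fin n)), ((∃ b, p = L.dl b) ∨ ∃ f, p = L.zl f) →
      Rn U (AR (p.reverse ++ l) (L.qT i) (D.flatMap L.dr))
        (AL (D.reverse.flatMap (fun a => (L.dl a).reverse) ++ (p.reverse ++ l)) L.qD (L.dr i)) := by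
  induction D with
  | nil =>
    intro p l hp
    simpa using L.app i p l hp
  | cons a D ih =>
    intro p l hp
    have h1 := L.passT i a p l (D.flatMap L.dr) hp
    have h2 := ih (L.dl a) (p.reverse ++ l) (Or.inl ⟨a, rfl⟩)
    have e1 : (a :: D).flatMap L.dr = L.dr a ++ D.flatMap L.dr := by
      simp [List.flatMap_cons]
    have e2 : (a :: D).reverse.flatMap (fun a => (L.dl a).reverse) ++ (p.reverse ++ l) =
        D.reverse.flatMap (fun a => (L.dl a).reverse) ++ ((L.dl a).reverse ++ (p.reverse ++ l)) := by
      simp [List.flatMap_append]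
    rw [e1, e2]
    exact Rn.trans h1 h2

theorem leftD_gen (h : List Bool) (l : List (Fin n)) (hl : l ≠ []) :
    ∀ r : List (Fin n), (∃ b r', r = L.dr b ++ r') →
      Rn U (AL (h.flatMap (fun a => (L.dl a).reverse) ++ l) L.qD r)
        (AL l L.qD (h.reverse.flatMap L.dr ++ r)) := by
  induction h with
  | nil =>
    intro r _
    simpa using Rn.refl (U := U) (AL l L.qD r)
  | cons a g ih =>
    intro r hr
    have h1 := L.passD a (g.flatMap (fun a => (L.dl a).reverse) ++ l) r
      (by intro h; exact hl (List.append_eq_nil_iff.mp h).2) hr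
    have h2 := ih (L.dr a ++ r) ⟨a, r, rfl⟩
    have e1 : (a :: g).flatMap (fun a => (L.dl a).reverse) ++ l =
        (L.dl a).reverse ++ (g.flatMap (fun a => (L.dl a).reverse) ++ l) := by
      simp [List.flatMap_cons]
    have e2 : (a :: g).reverse.flatMap L.dr ++ r = g.reverse.flatMap L.dr ++ (L.dr a ++ r) := by
      simp [List.flatMap_append]
    rw [e1, e2]
    exact Rn.trans h1 h2

theorem rightQ_gen (r : List (Fin n)) (h : List Bool) :
    ∀ l : List (Fin n), ((∃ b l', l = (L.pc b).reverse ++ l') ∨ l = L.E.reverse) →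
      Rn U (AR l L.qQ (h.flatMap L.er ++ r))
        (AR (h.reverse.flatMap (fun a => (L.pc a).reverse) ++ l) L.qQ r) := by
  induction h with
  | nil =>
    intro l _
    simpa using Rn.refl (U := U) (AR l L.qQ r)
  | cons a h ih =>
    intro l hl
    have h1 := L.passQ a l (h.flatMap L.er ++ r) hl
    have h2 := ih ((L.pc a).reverse ++ l) (Or.inl ⟨a, l, rfl⟩)
    have e1 : (a :: h).flatMap L.er ++ r = L.er a ++ (h.flatMap L.er ++ r) := by
      simp [List.flatMap_cons]
    have e2 : (a :: h).reverse.flatMap (fun a => (L.pc a).reverse) ++ l =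
        h.reverse.flatMap (fun a => (L.pc a).reverse) ++ ((L.pc a).reverse ++ l) := by
      simp [List.flatMap_append]
    rw [e1, e2]
    exact Rn.trans h1 h2

end UPassAux

open UPassAux

/-- the left pass over the executed cells `g` (from the right to the left) -/
theorem leftP (g : List Bool) (l : List (Fin n)) (hl : l ≠ []) (f : Bool) (r : List (Fin n)) :
    Rn U (AL (g.flatMap (fun a => (L.el a).reverse) ++ l) L.qP (L.zr f ++ r))
      (AL l L.qP (g.reverse.flatMap L.er ++ (L.zr f ++ r))) := by
  exact leftP_gen L g l hl (L.zr f ++ r) (Or.inr ⟨f, r, rfl⟩)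

/-- the right pass over the executed cells -/
theorem rightS (s b : Bool) (g : List Bool) (l r : List (Fin n)) :
    Rn U (AR ((L.el b).reverse ++ l) (L.qS s) (g.reverse.flatMap L.er ++ r))
      (AR (g.flatMap (fun a => (L.el a).reverse) ++ ((L.el b).reverse ++ l)) (L.qS s) r) := by
  have h := rightS_gen L s r g.reverse b l
  rwa [List.reverse_reverse] at h

/-- the right pass over the data `D` (from the left to the right), appending a bit -/
theorem rightT (i f : Bool) (D : List Bool) (l : List (Fin n)) :
    Rn U (AR ((L.zl f).reverse ++ l) (L.qT i) (D.flatMap L.dr))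
      (AL (D.reverse.flatMap (fun a => (L.dl a).reverse) ++ ((L.zl f).reverse ++ l)) L.qD (L.dr i)) := by
  exact rightT_gen L i D (L.zl f) l (Or.inr ⟨f, rfl⟩)

/-- the left pass over the data -/
theorem leftD (i f a : Bool) (D : List Bool) (l : List (Fin n)) :
    Rn U (AL (D.reverse.flatMap (fun a => (L.dl a).reverse) ++ ((L.zl f).reverse ++ ((L.el a).reverse ++ l))) L.qD
        (L.dr i))
      (AL ((L.el a).reverse ++ l) L.qP (L.zr f ++ (D ++ [i]).flatMap L.dr)) := by
  have h1 := leftD_gen L D.reverse ((L.zl f).reverse ++ ((L.el a).reverse ++ l))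
    (by
      intro h
      have h' := (List.append_eq_nil_iff.mp (List.append_eq_nil_iff.mp h).2).1
      exact L.el_ne a (List.reverse_eq_nil_iff.mp h')) (L.dr i) ⟨i, [], by simp⟩
  rw [List.reverse_reverse] at h1
  have e : (D ++ [i]).flatMap L.dr = D.flatMap L.dr ++ L.dr i := by
    simp [List.flatMap_append]
  have h2 := L.zone f a l (D.flatMap L.dr ++ L.dr i) (by
    cases D with
    | nil => exact ⟨i, [], by simp⟩
    | cons d D => exact ⟨d, D.flatMap L.dr ++ L.dr i, by simp [List.flatMap_cons]⟩)
  rw [e]
  exact Rn.trans h1 h2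

/-- the restoring pass -/
theorem rightQ (g : List Bool) (r : List (Fin n)) :
    Rn U (AR L.E.reverse L.qQ (g.reverse.flatMap L.er ++ r))
      (AR (g.flatMap (fun a => (L.pc a).reverse) ++ L.E.reverse) L.qQ r) := by
  have h := rightQ_gen L r g.reverse L.E.reverse (Or.inr rfl)
  rwa [List.reverse_reverse] at h

end

end P913
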