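import Pool.Agent.Lib.P913.UCyc

/-!
# Module USim: machines with the local computations are universal

PROOF of `simXY_of_loc`.  `enc c D = E ++ (P c).reverse.flatMap er ++ zr false ++ D.tail.flatMap dr` with
`P c = [false] ++ prog ks ++ List.replicate c false` (computable: `List.flatMap` with functions on `Bool`,
`Primrec.list_flatMap`, `Primrec.dom_finite`, replicate as a map over `List.range`).
`init (enc c D) = AR [] 0 (..)`, `start`, `rightQ`, `wrap0` lead to `C (P c) [] false D.tail`.
Configurations at the beginning of the cycles: `C (false^(1 + N m) ++ prog ks ++ false^c) [] false D_N`,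
`m = ks.length ≥ 1`, `false :: D_N = (cyc ks)^[N] D`, as long as all `(cyc ks)^[j] D`, `j ≤ N`, begin with `false`
(`Alive` gives the length for `cycle`, `wrap_false`).
If the queue system halts (`N` minimal with head `true`, `N ≥ 1`): `cycle` number `N` and `wrap_true`: the machine halts
with the tape `E ++ (P')reverse.flatMap pc ++ v ++ ..`, `P' = false^(1 + N m) ++ prog ks ++ false^c`, so the tape list begins
with `E ++ (pc false)^c ++ pc true ++ ..` (the last entry of `prog ks` is `true`, `ks ≠ []`): `dec0_spec`; its
length is at least `N` (`pc_ne`); it does not end with a blank (`dr_last`, or `v` if there are no data).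
`w = ([], the list)`, `dec w = dec0 w.2`.  `halt_unique` for a given output tape.
If it does not halt: `not_halt` with the chain of the configurations (`Rp` by `wrap_false`).
-/

set_option autoImplicit false

namespace P913

namespace USimAux

/-- the commands at the beginning of a cycle -/
private def G (ks : List ℕ) (c j : ℕ) : List Bool :=
  List.replicate (j + 1) false ++ prog ks ++ List.replicate c false

private theorem G_ne (ks : List ℕ) (c j : ℕ) : G ks c j ≠ [] := by
  simp [G, List.replicate_succ]

private theorem prog_rev (ks : List ℕ) (hks : ks ≠ []) : ∃ r, (prog ks).reverse = true :: r := by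
  obtain ⟨ks', a, rfl⟩ : ∃ ks' a, ks = ks' ++ [a] := by
    refine ⟨ks.dropLast, ks.getLast hks, (List.dropLast_append_getLast hks).symm⟩
  refine ⟨(prog ks' ++ List.replicate a false).reverse, ?_⟩
  simp [prog, List.flatMap_append]

private theorem flatMap_begin {α β : Type*} (f : α → List β) (g : List α) (hg : g ≠ []) (r : List β) :
    ∃ b r', g.flatMap f ++ r = f b ++ r' := by
  cases g with
  | nil => exact absurd rfl hg
  | cons b g => exact ⟨b, g.flatMap f ++ r, by simp⟩

private theorem rep_flatMap {β : Type*} (f : Bool → List β) (c : ℕ) :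
    (List.replicate c false).flatMap f = (List.replicate c (f false)).flatten := by
  induction c with
  | zero => simp
  | succ c ih => simp [List.replicate_succ, ih]

private theorem flatMap_length {α β : Type*} (f : α → List β) (hf : ∀ a, f a ≠ []) (g : List α) :
    g.length ≤ (g.flatMap f).length := by
  induction g with
  | nil => simp
  | cons a g ih =>
    have h1 : 1 ≤ (f a).length := List.length_pos_iff.mpr (hf a)
    rw [List.flatMap_cons, List.length_append, List.length_cons]
    omega

private theorem last_append {β : Type*} (a b : List β) (s : β) (h : b.getLast? = some s) :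
    (a ++ b).getLast? = some s := by
  rw [List.getLast?_append, h]
  rfl

private theorem last_flat {β : Type*} [Zero β] (v : List β) (f : Bool → List β)
    (hv : ∃ s, v.getLast? = some s ∧ s ≠ 0) (hf : ∀ b, ∃ s, (f b).getLast? = some s ∧ s ≠ 0)
    (D : List Bool) : ∃ s, (v ++ D.flatMap f).getLast? = some s ∧ s ≠ 0 := by
  induction D using List.reverseRecOn with
  | nil => simpa using hv
  | append_singleton D b _ =>
    obtain ⟨s, hs, h0⟩ := hf b
    refine ⟨s, ?_, h0⟩
    apply last_append
    rw [List.flatMap_append]
    apply last_append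
    simpa using hs

private theorem isCode_word {n : ℕ} [NeZero n] (x : List (Fin n))
    (hx : ∃ s, x.getLast? = some s ∧ s ≠ 0) :
    IsCode (([], x.map fun s : Fin n => (s : ℕ)) : List ℕ × List ℕ) (wordTape x) := by
  refine ⟨?_, ?_, ?_, ?_⟩
  · intro i
    have h0 : (0 : ℤ) ≤ (i : ℤ) := Int.natCast_nonneg i
    simp only [wordTape, if_pos h0, Int.toNat_natCast]
    rw [List.getD_eq_getElem?_getD, List.getD_eq_getElem?_getD, List.getElem?_map]
    cases x[i]? with
    | none => simp
    | some s => simp
  · intro i
    have h0 : ¬ (0 : ℤ) ≤ -(i : ℤ) - 1 := by omega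
    simp only [wordTape]
    rw [if_neg h0]
    simp
  · simp
  · obtain ⟨s, hs, h0⟩ := hx
    show (List.map (fun s : Fin n => (s : ℕ)) x).getLast? ≠ some 0
    rw [List.getLast?_map, hs]
    intro h
    apply h0
    have h1 : (s : ℕ) = 0 := by simpa using h
    exact Fin.ext (by simpa using h1)

section

variable {k n : ℕ} [NeZero k] [NeZero n] {U : TM k n} (L : Loc U)

/-- the input word -/
private def encf (ks : List ℕ) (c : ℕ) (D : List Bool) : List (Fin n) :=
  L.E ++ ((G ks c 0).reverse.flatMap L.er ++ (L.zr false ++ D.tail.flatMap L.dr))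

private theorem encf_comp (ks : List ℕ) : Computable₂ (encf L ks) := by
  have hrep : Primrec fun p : ℕ × List Bool => List.replicate p.1 false := by
    have h : Primrec fun p : ℕ × List Bool => (List.range p.1).map fun _ => false :=
      Primrec.list_map (Primrec.list_range.comp Primrec.fst) (Primrec.const false).to₂
    refine h.of_eq fun p => ?_
    simp
  have hG : Primrec fun p : ℕ × List Bool => (G ks p.1 0).reverse := by
    refine Primrec.list_reverse.comp ?_
    show Primrec fun p : ℕ × List Bool => List.replicate (0 + 1) false ++ prog ks ++ List.replicate p.1 false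
    exact Primrec.list_append.comp (Primrec.const _) hrep
  have her : Primrec fun p : ℕ × List Bool => (G ks p.1 0).reverse.flatMap L.er :=
    Primrec.list_flatMap hG ((Primrec.dom_finite L.er).comp Primrec.snd).to₂
  have hdr : Primrec fun p : ℕ × List Bool => p.2.tail.flatMap L.dr :=
    Primrec.list_flatMap (Primrec.list_tail.comp Primrec.snd)
      ((Primrec.dom_finite L.dr).comp Primrec.snd).to₂
  have h : Primrec fun p : ℕ × List Bool => encf L ks p.1 p.2 := by
    show Primrec fun p : ℕ × List Bool =>
      L.E ++ ((G ks p.1 0).reverse.flatMap L.er ++ (L.zr false ++ p.2.tail.flatMap L.dr))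
    exact Primrec.list_append.comp (Primrec.const _)
      (Primrec.list_append.comp her (Primrec.list_append.comp (Primrec.const _) hdr))
  exact h.to_comp

private theorem init_run (ks : List ℕ) (c : ℕ) (D : List Bool) :
    Rn U (init (encf L ks c D)) (L.C (G ks c 0) [] false D.tail) := by
  have h0 : init (encf L ks c D) = AR ([] : List (Fin n)) (0 : Fin k) (L.E ++ ((G ks c 0).reverse.flatMap L.er ++
      (L.zr false ++ D.tail.flatMap L.dr))) := by
    simp [init, AR, encf]
  rw [h0]
  have hne : (G ks c 0).reverse ≠ [] := by
    intro h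
    exact G_ne ks c 0 (List.reverse_eq_nil_iff.mp h)
  refine Rn.trans (L.start _ (flatMap_begin L.er _ hne _)) ?_
  refine Rn.trans (rightQ L (G ks c 0) _) ?_
  have hb := flatMap_begin (fun a => (L.pc a).reverse) (G ks c 0) (G_ne ks c 0) L.E.reverse
  have := L.wrap0 ((G ks c 0).flatMap (fun a => (L.pc a).reverse) ++ L.E.reverse)
    (D.tail.flatMap L.dr) (Or.inl hb)
  simpa [Loc.C] using this

/-- one cycle and the wrap -/
private theorem step_false (ks : List ℕ) (c j : ℕ) (D : List Bool)
    (h : ks.length + 2 ≤ (false :: D).length) (h' : (cyc ks (false :: D)).head? = some false) :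
    Rp U (L.C (G ks c j) [] false D) (L.C (G ks c (j + ks.length)) [] false (cyc ks (false :: D)).tail) := by
  obtain ⟨f', D', e, r⟩ := cycle L ks c j D h
  rw [e] at h' ⊢
  simp only [List.head?_cons, Option.some.injEq] at h'
  subst h'
  have hw := wrap_false L (List.replicate (j + 1 + ks.length) false ++ prog ks ++ List.replicate c false) D'
  have e2 : List.replicate (j + 1 + ks.length) false ++ prog ks ++ List.replicate c false =
      G ks c (j + ks.length) := by
    simp only [G]
    congr 3
    omega
  rw [e2] at hw r
  simp only [Bool.false_eq_true, if_false] at r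
  exact r.trans_rp hw

include L in
private theorem cyc_head (ks : List ℕ) (c : ℕ) (D : List Bool)
    (h : ks.length + 2 ≤ (false :: D).length) : ∃ f, (cyc ks (false :: D)).head? = some f := by
  obtain ⟨f', D', e, _⟩ := cycle L ks c 0 D h
  exact ⟨f', by rw [e]; rfl⟩

private theorem cons_tail (D : List Bool) (h : D.head? = some false) : D = false :: D.tail := by
  cases D with
  | nil => simp at h
  | cons a D =>
    simp only [List.head?_cons, Option.some.injEq] at h
    rw [h]
    rfl

/-- the configuration at the beginning of the cycle with the number `N` -/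
private def cf (ks : List ℕ) (c : ℕ) (D : List Bool) (N : ℕ) : Cfg k n :=
  L.C (G ks c (N * ks.length)) [] false ((cyc ks)^[N] D).tail

private theorem cf_step (ks : List ℕ) (c : ℕ) (D : List Bool) (hA : Alive ks D) (N : ℕ)
    (h : ∀ j ≤ N + 1, ((cyc ks)^[j] D).head? = some false) :
    Rp U (cf L ks c D N) (cf L ks c D (N + 1)) := by
  have hN := h N (Nat.le_succ N)
  have hl := hA N fun j hj => h j (le_trans hj (Nat.le_succ N))
  have hc := cons_tail _ hN
  have h1 := h (N + 1) le_rfl
  rw [Function.iterate_succ_apply', hc] at h1
  rw [hc] at hl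
  have hr := step_false L ks c (N * ks.length) ((cyc ks)^[N] D).tail hl h1
  have e : cyc ks (false :: ((cyc ks)^[N] D).tail) = (cyc ks)^[N + 1] D := by
    rw [← hc, Function.iterate_succ_apply']
  rw [e] at hr
  have e2 : N * ks.length + ks.length = (N + 1) * ks.length := by ring
  rw [e2] at hr
  exact hr

omit [NeZero k] [NeZero n] in
private theorem Rp.rn {a b : Cfg k n} (h : Rp U a b) : Rn U a b := by
  obtain ⟨t, ht⟩ := h
  exact ⟨t + 1, ht⟩

private theorem cf_run (ks : List ℕ) (c : ℕ) (D : List Bool) (hA : Alive ks D) (N : ℕ)
    (h : ∀ j ≤ N, ((cyc ks)^[j] D).head? = some false) :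
    Rn U (cf L ks c D 0) (cf L ks c D N) := by
  induction N with
  | zero => exact Rn.refl _
  | succ N ih =>
    exact (ih fun j hj => h j (le_trans hj (Nat.le_succ N))).trans (Rp.rn (cf_step L ks c D hA N h))

private theorem cf_st (ks : List ℕ) (c : ℕ) (D : List Bool) (N : ℕ) : (cf L ks c D N).st ≠ none := by
  simp [cf, Loc.C, AL]

include L in
private theorem heads (ks : List ℕ) (c : ℕ) (D : List Bool) (hD : D.head? = some false) (hA : Alive ks D)
    (N : ℕ) (h : ∀ j ≤ N, ((cyc ks)^[j] D).head? ≠ some true) :
    ∀ j ≤ N, ((cyc ks)^[j] D).head? = some false := by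
  induction N with
  | zero =>
    intro j hj
    obtain rfl : j = 0 := by omega
    simpa using hD
  | succ N ih =>
    have ih' := ih fun j hj => h j (le_trans hj (Nat.le_succ N))
    intro j hj
    rcases Nat.lt_or_ge j (N + 1) with hj' | hj'
    · exact ih' j (by omega)
    · obtain rfl : j = N + 1 := by omega
      have hl := hA N ih'
      have hc := cons_tail _ (ih' N le_rfl)
      rw [hc] at hl
      obtain ⟨f, hf⟩ := cyc_head L ks c _ hl
      have e : cyc ks (false :: ((cyc ks)^[N] D).tail) = (cyc ks)^[N + 1] D := by
        rw [← hc, Function.iterate_succ_apply']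
      rw [e] at hf
      have hn := h (N + 1) le_rfl
      rw [hf] at hn ⊢
      cases f with
      | false => rfl
      | true => exact absurd rfl hn

/-- the halting run -/
private theorem halting (ks : List ℕ) (hks : ks ≠ []) (c : ℕ) (D : List Bool) (hD : D.head? = some false)
    (hA : Alive ks D) (N : ℕ) (hN : ((cyc ks)^[N] D).head? = some true)
    (hmin : ∀ j < N, ((cyc ks)^[j] D).head? ≠ some true) :
    ∃ x v : List (Fin n), x = L.E ++ (List.replicate c (L.pc false)).flatten ++ L.pc true ++ v ∧
      (∃ s, x.getLast? = some s ∧ s ≠ 0) ∧ N ≤ x.length ∧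
      ∃ t : ℕ, ((step U)^[t] (init (encf L ks c D))).st = none ∧
        ((step U)^[t] (init (encf L ks c D))).tape = wordTape x := by
  cases N with
  | zero =>
    exfalso
    simp only [Function.iterate_zero, id_eq] at hN
    rw [hD] at hN
    simp at hN
  | succ N =>
    have hh := heads L ks c D hD hA N fun j hj => hmin j (by omega)
    have hl := hA N hh
    have hc := cons_tail _ (hh N le_rfl)
    rw [Function.iterate_succ_apply', hc] at hN
    rw [hc] at hl
    obtain ⟨f', D', e, r⟩ := cycle L ks c (N * ks.length) ((cyc ks)^[N] D).tail hl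
    rw [e] at hN
    simp only [List.head?_cons, Option.some.injEq] at hN
    subst hN
    simp only [if_true] at r
    obtain ⟨t, v, hv, h1, h2⟩ := wrap_true L
      (List.replicate (N * ks.length + 1 + ks.length) false ++ prog ks ++ List.replicate c false)
      (D' ++ List.replicate c true)
    obtain ⟨q, hq⟩ := prog_rev ks hks
    set X : List (Fin n) := L.E ++
      ((List.replicate (N * ks.length + 1 + ks.length) false ++ prog ks ++
        List.replicate c false).reverse.flatMap L.pc ++
        (v ++ (D' ++ List.replicate c true).flatMap L.dr)) with hX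
    refine ⟨X, (q ++ List.replicate (N * ks.length + 1 + ks.length) false).flatMap L.pc ++
      (v ++ (D' ++ List.replicate c true).flatMap L.dr), ?_, ?_, ?_, ?_⟩
    · rw [hX, List.reverse_append, List.reverse_append, List.reverse_replicate, List.reverse_replicate, hq,
        ← rep_flatMap L.pc c]
      simp [List.flatMap_append]
    · obtain ⟨s, hs, h0⟩ := last_flat v L.dr hv L.dr_last (D' ++ List.replicate c true)
      exact ⟨s, last_append _ _ _ (last_append _ _ _ hs), h0⟩
    · have hlen := flatMap_length L.pc L.pc_ne
        (List.replicate (N * ks.length + 1 + ks.length) false ++ prog ks ++ List.replicate c false).reverse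
      have hm : 1 ≤ ks.length := List.length_pos_iff.mpr hks
      have h3 : N ≤ N * ks.length := Nat.le_mul_of_pos_right N hm
      rw [hX, List.length_append, List.length_append]
      rw [List.length_reverse, List.length_append, List.length_append, List.length_replicate] at hlen
      omega
    · have hr : Rn U (init (encf L ks c D)) (L.C []
          (List.replicate (N * ks.length + 1 + ks.length) false ++ prog ks ++ List.replicate c false) true
          (D' ++ List.replicate c true)) := by
        refine (init_run L ks c D).trans ?_
        have e0 : L.C (G ks c 0) [] false D.tail = cf L ks c D 0 := by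
          simp [cf]
        rw [e0]
        exact (cf_run L ks c D hA N hh).trans r
      exact (Rn_halt_iff hr (wordTape X)).mpr ⟨t, h1, h2⟩

end

end USimAux

open USimAux in
theorem simXY_of_loc {k n : ℕ} [NeZero k] [NeZero n] {U : TM k n} (L : Loc U) (ks : List ℕ) (hks : ks ≠ []) :
    SimXY U ks := by
  classical
  refine ⟨encf L ks, fun w => L.dec0 w.2, encf_comp L ks, L.dec0_comp.comp Computable.snd, ?_⟩
  intro c D hD hA
  have key : XYHalts ks D → ∃ N : ℕ, ((cyc ks)^[N] D).head? = some true ∧
      ∃ x v : List (Fin n), x = L.E ++ (List.replicate c (L.pc false)).flatten ++ L.pc true ++ v ∧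
      (∃ s, x.getLast? = some s ∧ s ≠ 0) ∧ N ≤ x.length ∧
      ∃ t : ℕ, ((step U)^[t] (init (encf L ks c D))).st = none ∧
        ((step U)^[t] (init (encf L ks c D))).tape = wordTape x := by
    intro hX
    exact ⟨Nat.find hX, Nat.find_spec hX, halting L ks hks c D hD hA (Nat.find hX) (Nat.find_spec hX)
      fun j hj => Nat.find_min hX hj⟩
  have hiff : Halts U (encf L ks c D) ↔ XYHalts ks D := by
    constructor
    · intro hH
      by_contra hX
      have hno : ∀ j : ℕ, ((cyc ks)^[j] D).head? ≠ some true := fun j hj => hX ⟨j, hj⟩
      have hh : ∀ j : ℕ, ((cyc ks)^[j] D).head? = some false := fun j =>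
        heads L ks c D hD hA j (fun i _ => hno i) j le_rfl
      have hn := not_halt (U := U) (c := cf L ks c D) (fun N => cf_step L ks c D hA N fun j _ => hh j)
        (cf_st L ks c D)
      obtain ⟨t, ht⟩ := hH
      have hr : Rn U (init (encf L ks c D)) (cf L ks c D 0) := by
        have e0 : L.C (G ks c 0) [] false D.tail = cf L ks c D 0 := by
          simp [cf]
        rw [← e0]
        exact init_run L ks c D
      obtain ⟨t', ht', _⟩ := (Rn_halt_iff hr ((step U)^[t] (init (encf L ks c D))).tape).mp ⟨t, ht, rfl⟩
      exact hn ⟨t', ht'⟩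
    · intro hX
      obtain ⟨_, _, x, v, _, _, _, t, ht, _⟩ := key hX
      exact ⟨t, ht⟩
  refine ⟨hiff, ?_⟩
  intro T hT
  have hX : XYHalts ks D := by
    apply hiff.mp
    obtain ⟨t, ht, _⟩ := hT
    exact ⟨t, ht⟩
  obtain ⟨N, hN, x, v, hx, hlast, hlen, ht⟩ := key hX
  have hTx : T = wordTape x := halt_unique hT ht
  refine ⟨([], x.map fun s : Fin n => (s : ℕ)), ?_, ?_, N, ?_, hN⟩
  · rw [hTx]
    exact isCode_word x hlast
  · show L.dec0 (x.map fun s : Fin n => (s : ℕ)) = c
    rw [hx]
    exact L.dec0_spec c v
  · simpa using hlen

theorem universal_of_loc {k n : ℕ} [NeZero k] [NeZero n] {U : TM k n} (L : Loc U) : Universal U :=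
  universal_of_sim U fun ks hks => simXY_of_loc L ks hks

end P913
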