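import Pool.Agent.Lib.P913.KUniT
import Pool.Agent.Lib.P913.KInst37

/-!
# The class TM(3,7) contains a universal machine
-/

set_option autoImplicit false

namespace P913.UTM37

open P913

/-- The Turing machine with 3 states and 7 symbols (blank `0`) which is given by the table is universal: there are
total computable maps `e` and `d` such that it halts on `e (M, x)` if and only if `M` halts on `x`, and then `d` maps
its output to the output of `M`. -/
theorem universal37 : Universal (k := 3) (n := 7) ![
    ![(1, false, some 2), (4, false, some 2), (1, false, some 0), (4, false, some 1), (4, true, some 1),
      (3, true, some 0), (4, true, some 0)],
    ![(0, false, some 0), (2, true, some 1), (5, true, some 1), (0, true, some 1), (5, false, some 0),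
      (5, true, none), (4, true, some 2)],
    ![(3, false, some 2), (2, true, some 2), (3, false, some 0), (0, true, some 2), (6, false, some 0),
      (1, false, some 1), (1, false, some 1)]] :=
  universal_of_loc' ok37.loc

end P913.UTM37
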