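import Pool.Agent.Lib.P913.UniGen
import Pool.Agent.Lib.P913.KsD
import Pool.Agent.Lib.P913.DMap

/-!
# Module UniFin: machines which simulate queue systems are universal

PROOF.  `universal_of_simF`: let `F` be partial recursive; `f c = (F c).map fun _ => 0` is partial recursive
(`Partrec.map`, `Partrec.nat_iff`) with the same domain; `exists_ks` gives `ks`, `D`; the hypothesis gives `enc`, `dec`.
`enc' c = enc c (D c)` (`Computable₂.comp`), `check (c, N) = hn ks N (D c)` (`hn_prim`, `hD`);
`check (c, N) = true` means `∃ m ≤ N, ((cyc ks)^[m] (D c)).head? = some true` (`List.any_eq_true`), which implies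
`XYHalts ks (D c)`, so `(F c).Dom`.
-/

set_option autoImplicit false

namespace P913

/-- the machine `U` simulates the queue system `ks`: on the input `enc c D` it halts iff the queue system halts on
`D`; the number `c` and a bound for the number of cycles can be read from the final tape -/
def SimXY {k n : ℕ} [NeZero k] [NeZero n] (U : TM k n) (ks : List ℕ) : Prop :=
  ∃ (enc : ℕ → List Bool → List (Fin n)) (dec : List ℕ × List ℕ → ℕ), Computable₂ enc ∧ Computable dec ∧
    ∀ (c : ℕ) (D : List Bool), D.head? = some false → Alive ks D →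
      (Halts U (enc c D) ↔ XYHalts ks D) ∧
      ∀ T : ℤ → Fin n, Output U (enc c D) T → ∃ w : List ℕ × List ℕ, IsCode w T ∧ dec w = c ∧
        ∃ m ≤ w.2.length, ((cyc ks)^[m] D).head? = some true

theorem universal_of_sim {k n : ℕ} [NeZero k] [NeZero n] (U : TM k n)
    (h : ∀ ks : List ℕ, ks ≠ [] → SimXY U ks) : Universal U := by
  refine universal_of_simF U fun F hF => ?_
  have hf : Partrec (fun c : ℕ => (F c).map fun _ => (0 : ℕ)) :=
    hF.map (Computable.const 0).to₂
  obtain ⟨ks, D, hks, hD, hv⟩ := exists_ks _ (Partrec.nat_iff.mp hf)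
  obtain ⟨enc, dec, henc, hdec, hsim⟩ := h ks hks
  have hdom : ∀ c, XYHalts ks (D c) ↔ (F c).Dom := fun c => (hv c).2.2
  have hcheck : ∀ c N : ℕ, hn ks N (D c) = true ↔ ∃ m ≤ N, ((cyc ks)^[m] (D c)).head? = some true := by
    intro c N
    rw [hn, List.any_eq_true]
    constructor
    · rintro ⟨m, hm, h1⟩
      exact ⟨m, Nat.lt_succ_iff.mp (List.mem_range.mp hm), of_decide_eq_true h1⟩
    · rintro ⟨m, hm, h1⟩
      exact ⟨m, List.mem_range.mpr (Nat.lt_succ_of_le hm), decide_eq_true h1⟩
  refine ⟨fun c => enc c (D c), dec, fun p => hn ks p.2 (D p.1), henc.comp Computable.id hD, hdec,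
    (hn_prim ks).to_comp.comp (Computable.pair Computable.snd (hD.comp Computable.fst)), ?_, ?_⟩
  · intro c N hc
    obtain ⟨m, _, hm⟩ := (hcheck c N).mp hc
    exact (hdom c).mp ⟨m, hm⟩
  · intro c
    obtain ⟨h1, h2⟩ := hsim c (D c) (hv c).1 (hv c).2.1
    refine ⟨h1.trans (hdom c), fun T hT => ?_⟩
    obtain ⟨w, hw, hdw, hm⟩ := h2 T hT
    exact ⟨w, hw, hdw, (hcheck c w.2.length).mpr hm⟩

end P913
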