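import Pool.Agent.Lib.P913.Len

/-!
# Module Unsh: the shifted and the unshifted reading of `s - 1, Φ, lines, h - s - 1`

PROOFS.  `unshift`: `bits (base κ) = Pb κ ++ Qb`, `bits (rot κ) = Qb ++ Pb κ`,
`bits U1 = ons (KA + 9) ++ [false] ++ Pb phi`, `bits U2 = Qb ++ ons (3 KA + 10) ++ [false]`.  So the left side is
`ons (KA + 9) ++ [false] ++ Pb phi ++ Qb ++ Pb κ₁ ++ Qb ++ ... ++ Pb κᵣ ++ Qb ++ ons (3 KA + 10) ++ [false]`.
Induction on `l` (statement with an arbitrary first part): for all `l`,
`Qb ++ lbits (l.map base) ++ ons (3KA+10) ++ [false] = lbits (l.map rot ++ [U2])`.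
`rdv_shf_ones`: `rdv_ones`, `ksOf_flat` for the list of bits (which ends with `false`) and `unshift`.
`rdv_shf_gap`: `shf l = [..] ++ ksOf .. ++ [..]`; `rdv_append`, `rdv_zero`, `rdv_ones`, `ksOf_flat`.
-/

set_option autoImplicit false

namespace P913

section

variable {K : ℕ} (pr : Fin K → List (Fin K)) (η : Fin K)

private theorem lbits_cons' (a : Ln K) (L : List (Ln K)) :
    lbits pr η (a :: L) = bits pr η a ++ lbits pr η L := by
  simp [lbits]

private theorem unshift_aux (l : List (Kd K)) :
    Qb pr η ++ lbits pr η (l.map Ln.base) ++ ons (3 * KA pr η + 10) ++ [false] =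
      lbits pr η (l.map Ln.rot ++ [Ln.U2]) := by
  induction l with
  | nil => simp [lbits, bits]
  | cons κ l ih =>
    rw [List.map_cons, List.map_cons, List.cons_append, lbits_cons', lbits_cons', ← ih]
    simp only [bits, List.append_assoc]

theorem unshift (l : List (Kd K)) :
    ons (KA pr η + 9) ++ [false] ++ lbits pr η (Ln.base Kd.phi :: l.map Ln.base) ++
        ons (3 * KA pr η + 10) ++ [false] = lbits pr η (Ln.U1 :: l.map Ln.rot ++ [Ln.U2]) := by
  rw [List.cons_append, lbits_cons', lbits_cons', ← unshift_aux]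
  simp only [bits, List.append_assoc]

/-- base lines end with `0` -/
private theorem lbits_last (l : List (Kd K)) : ∃ w : List Bool,
    lbits pr η (Ln.base Kd.phi :: l.map Ln.base) = w ++ [false] := by
  have h : ∀ l : List (Kd K), ∃ w : List Bool,
      Qb pr η ++ lbits pr η (l.map Ln.base) = w ++ [false] := by
    intro l
    induction l with
    | nil =>
      refine ⟨[true, true, true, true, false] ++ ons (KA pr η + 4), ?_⟩
      simp [lbits, Qb]
    | cons κ l ih =>
      obtain ⟨w, hw⟩ := ih
      refine ⟨Qb pr η ++ Pb pr η κ ++ w, ?_⟩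
      rw [List.map_cons, lbits_cons']
      simp only [bits, List.append_assoc] at hw ⊢
      rw [hw]
  obtain ⟨w, hw⟩ := h l
  refine ⟨Pb pr η Kd.phi ++ w, ?_⟩
  rw [lbits_cons']
  simp only [bits, List.append_assoc] at hw ⊢
  rw [hw]

theorem rdv_shf_ones (l : List (Kd K)) :
    rdv (shf pr η l) (ons (shf pr η l).length) = lbits pr η (Ln.U1 :: l.map Ln.rot ++ [Ln.U2]) := by
  rw [rdv_ones, ← unshift]
  obtain ⟨w, hw⟩ := lbits_last pr η l
  unfold shf
  rw [hw, List.map_append, List.map_append, List.flatten_append, List.flatten_append, ksOf_flat]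
  simp only [List.map_cons, List.map_nil, List.flatten_cons, List.flatten_nil, List.append_nil,
    List.append_assoc]

private theorem rdv_mid (l : List (Kd K)) :
    rdv (ksOf (lbits pr η (Ln.base Kd.phi :: l.map Ln.base)))
      (ons (ksOf (lbits pr η (Ln.base Kd.phi :: l.map Ln.base))).length) =
      lbits pr η (Ln.base Kd.phi :: l.map Ln.base) := by
  rw [rdv_ones]
  obtain ⟨w, hw⟩ := lbits_last pr η l
  rw [hw, ksOf_flat]

theorem rdv_shf_gap (l : List (Kd K)) :
    rdv (shf pr η l) (false :: ons ((shf pr η l).length - 2) ++ [false]) =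
      lbits pr η (Ln.base Kd.phi :: l.map Ln.base) := by
  have h1 : (shf pr η l).length - 2 =
      (ksOf (lbits pr η (Ln.base Kd.phi :: l.map Ln.base))).length := by
    simp only [shf, List.length_append, List.length_cons, List.length_nil]
    omega
  rw [h1]
  unfold shf
  have h2 : (false :: ons (ksOf (lbits pr η (Ln.base Kd.phi :: l.map Ln.base))).length ++ [false]) =
      [false] ++ ons (ksOf (lbits pr η (Ln.base Kd.phi :: l.map Ln.base))).length ++ [false] := rfl
  rw [h2, rdv_append (by simp), rdv_append (by simp), rdv_zero, rdv_zero, rdv_mid]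
  simp

/-- the halting letter: the entry `s - 1` is skipped, the entry `h - s - 1` is not skipped -/
theorem rdv_shf_mis :
    rdv (shf pr η [] ++ stk pr η 3) (false :: ons 7 ++ [false]) =
      lbits pr η [Ln.base Kd.phi] ++ (ons (3 * KA pr η + 10) ++ [false]) ++
        lbits pr η [Ln.str, Ln.str] := by
  have h4 : (ksOf (lbits pr η [Ln.base (Kd.phi : Kd K)])).length = 4 := by
    have := len_shf pr η ([] : List (Kd K))
    simp [shf] at this
    simpa using this
  have h2 : (false :: ons 7 ++ [false]) =
      ([false] ++ ons (ksOf (lbits pr η (Ln.base Kd.phi :: ([] : List (Kd K)).map Ln.base))).length ++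
        [true]) ++ [true, true, false] := by
    simp only [List.map_nil]
    rw [h4]
    rfl
  rw [h2, rdv_append, show shf pr η [] = [KA pr η + 9] ++
    ksOf (lbits pr η (Ln.base Kd.phi :: ([] : List (Kd K)).map Ln.base)) ++ [3 * KA pr η + 10] from rfl,
    rdv_append, rdv_append, rdv_zero, rdv_mid]
  · have := rdv_stk pr η [true, true, false]
    rw [show stk pr η 3 = stk pr η [true, true, false].length from rfl, this]
    simp [rdv, out, List.replicate]
  · rfl
  · simp
  · simp [shf]

end

end P913
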