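import Mathlib

/-!
# The queue systems and 2-tag systems

A queue system is given by a list `ks` of numbers (`k` stands for the commands `X^k Y`): the front bit `b` of
the queue is deleted and `1^k 0` is appended if `b = 1`.  One cycle executes all entries of `ks` once.
-/

set_option autoImplicit false

namespace P913

/-- the word appended when the bit `b` is read at an entry `k` -/
def out (k : ℕ) (b : Bool) : List Bool := if b then List.replicate k true ++ [false] else []

/-- one reading -/
def rd (k : ℕ) : List Bool → List Bool
  | [] => []
  | b :: D => D ++ out k b

/-- the readings of the list `ks`, one after the other -/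
def cyc (ks : List ℕ) (D : List Bool) : List Bool := ks.foldl (fun D k => rd k D) D

/-- the queue system halts: at the end of some cycle the front bit is `1` -/
def XYHalts (ks : List ℕ) (D : List Bool) : Prop := ∃ n : ℕ, ((cyc ks)^[n] D).head? = some true

/-- as long as the queue system does not halt, the queue is longer than a cycle -/
def Alive (ks : List ℕ) (D : List Bool) : Prop :=
  ∀ n : ℕ, (∀ j ≤ n, ((cyc ks)^[j] D).head? = some false) → ks.length + 2 ≤ ((cyc ks)^[n] D).length

/-- one step of a 2-tag system: `a b w ↦ w (prod a)` -/
def tstep {A : Type} (prod : A → List A) : List A → List A
  | [] => []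
  | a :: w => (w ++ prod a).tail

/-- the 2-tag system reaches a word which begins with the halting letter -/
def TagHalts {A : Type} (prod : A → List A) (η : A) (w : List A) : Prop :=
  ∃ n : ℕ, ((tstep prod)^[n] w).head? = some η

/-- the effect of reading the word `v` with the entries `ks` (of the same length) -/
def rdv (ks : List ℕ) (v : List Bool) : List Bool := (List.zipWith out ks v).flatten

/-- the list of the numbers of ones in front of the zeros: `1^a 0 1^b 0 ... ↦ [a, b, ...]` -/
def ksAux : ℕ → List Bool → List ℕ
  | _, [] => []
  | c, true :: l => ksAux (c + 1) l
  | c, false :: l => c :: ksAux 0 l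

def ksOf (l : List Bool) : List ℕ := ksAux 0 l

end P913
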