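import Pool.Agent.Lib.P913.CycL
import Pool.Agent.Lib.P913.LSim

/-!
# Module XYFin: queue systems simulate 2-tag systems

PROOF.  `ks = kss pr η`, `code w = false :: lbits (w.map (fun a => base (lt a)) ++ [str, str, str, str])`.
`Computable code`: `List.flatMap` over `Fin K` with a function on a finite type, then `++` and `::` with
constants (`Primrec.list_flatMap`, `Primrec.dom_finite`, `Primrec.list_append`, `Primrec.list_cons`).
`Ph false false (w.map .. ++ [str, str, str, str]) w`: `Ph_block` with `M0 = []`, `M1 = [str, str, str, str]`.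
As long as no `base (lt η)` was at the head (`j < n`):
`(cyc ks)^[n] (code w) = false :: lbits ((c2)^[n] L)` (induction; `cyc_lines`, `line`, `lbits_append`, the list has
at least 4 elements, in use).  If the tag system does not halt, all these queues begin with `false` and have length
`1 + h * length ≥ 1 + 4 h ≥ 2 h + 2`, so `Alive` and not `XYHalts`.  If it halts: at the first `n` with
`head? = base (lt η)` one more cycle gives (`cyc_lines`, `line_eta`, `line` for the second line, rest of the list
`L'`) `false :: (lbits L' ++ (lbits M ++ (ons .. ++ [false]) ++ lbits [str, str] ++ E) ++ ..)` and `mis` applies to the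
list `L' ++ M`; use `Alive_step`, `XYHalts_step` (`n + 1` times).
-/

set_option autoImplicit false

namespace P913

namespace XYFinAux

section

variable {K : ℕ} (pr : Fin K → List (Fin K)) (η : Fin K)

/-- the starting lines -/
def L0 (w : List (Fin K)) : List (Ln K) :=
  w.map (fun a => Ln.base (Kd.lt a)) ++ [Ln.str, Ln.str, Ln.str, Ln.str]

/-- the starting queue -/
def code (w : List (Fin K)) : List Bool := false :: lbits pr η (L0 w)

lemma code_computable : Computable (code pr η) := by
  have h : code pr η = fun w : List (Fin K) =>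
      false :: ((w.flatMap fun a => bits pr η (Ln.base (Kd.lt a))) ++
        lbits pr η [Ln.str, Ln.str, Ln.str, Ln.str]) := by
    funext w
    simp [code, L0, lbits, List.flatMap_append, List.flatMap_map]
  rw [h]
  have h1 : Primrec fun w : List (Fin K) => w.flatMap fun a => bits pr η (Ln.base (Kd.lt a)) :=
    Primrec.list_flatMap Primrec.id
      ((Primrec.dom_finite (fun a : Fin K => bits pr η (Ln.base (Kd.lt a)))).comp Primrec.snd).to₂
  exact (Primrec.list_cons.comp (Primrec.const false)
    (Primrec.list_append.comp h1 (Primrec.const _))).to_comp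

lemma ph0 (w : List (Fin K)) : Ph false false (L0 w) w :=
  Ph_block [] [Ln.str, Ln.str, Ln.str, Ln.str] w (by simp) (by simp [Neu]) (by simp) (by simp) false

lemma len0 (w : List (Fin K)) : 4 ≤ (L0 w).length := by
  simp [L0]

lemma len_lbits (L : List (Ln K)) : (lbits pr η L).length = (4 * KA pr η + 21) * L.length := by
  induction L with
  | nil => simp [lbits]
  | cons l L ih =>
    have h1 : lbits pr η (l :: L) = bits pr η l ++ lbits pr η L := by simp [lbits]
    rw [h1, List.length_append, len_bits, ih, List.length_cons]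
    ring

lemma lbits_cons (l : Ln K) (L : List (Ln K)) :
    lbits pr η (l :: L) = bits pr η l ++ lbits pr η L := by simp [lbits]

lemma exists_two {L : List (Ln K)} (h : 4 ≤ L.length) : ∃ l1 l2 L', L = l1 :: l2 :: L' := by
  rcases L with _ | ⟨l1, _ | ⟨l2, L'⟩⟩
  · simp at h
  · simp at h
  · exact ⟨l1, l2, L', rfl⟩

lemma key (w : List (Fin K)) (n : ℕ)
    (hn : ∀ j < n, ((c2 pr η)^[j] (L0 w)).head? ≠ some (Ln.base (Kd.lt η))) :
    (cyc (kss pr η))^[n] (code pr η w) = false :: lbits pr η ((c2 pr η)^[n] (L0 w)) := by
  induction n with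
  | zero => rfl
  | succ n ih =>
    have ih' := ih (fun j hj => hn j (by omega))
    obtain ⟨h4, hu⟩ := (lsim pr η (L0 w) w (ph0 w) (len0 w)).1 n (fun j hj => hn j (by omega))
    have hh := hn n (by omega)
    rw [Function.iterate_succ_apply', Function.iterate_succ_apply', ih']
    obtain ⟨l1, l2, L', hL⟩ := exists_two h4
    rw [hL] at hu hh ⊢
    have h1 : l1 ≠ Ln.base (Kd.lt η) := fun h => hh (by rw [h]; rfl)
    have e1 := line pr η false l1 (hu l1 (by simp)) (Or.inr h1)
    have e2 := line pr η true l2 (hu l2 (by simp)) (Or.inl rfl)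
    have e3 := cyc_lines pr η l1 l2 (lbits pr η L')
    rw [e1, e2] at e3
    rw [lbits_cons, lbits_cons, ← List.append_assoc, e3]
    have e4 : c2 pr η (l1 :: l2 :: L') = L' ++ FL pr η false l1 ++ FL pr η true l2 := rfl
    rw [e4, lbits_append, lbits_append]

lemma key_len (w : List (Fin K)) (n : ℕ)
    (hn : ∀ j < n, ((c2 pr η)^[j] (L0 w)).head? ≠ some (Ln.base (Kd.lt η))) :
    (kss pr η).length + 2 ≤ ((cyc (kss pr η))^[n] (code pr η w)).length := by
  rw [key pr η w n hn, len_kss, List.length_cons, len_lbits]
  obtain ⟨h4, _⟩ := (lsim pr η (L0 w) w (ph0 w) (len0 w)).1 n hn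
  nlinarith

end

end XYFinAux

open XYFinAux in
theorem tag_to_xy (K : ℕ) (pr : Fin K → List (Fin K)) (η : Fin K) :
    ∃ (ks : List ℕ) (code : List (Fin K) → List Bool), ks ≠ [] ∧ Computable code ∧
      ∀ w, (code w).head? = some false ∧ Alive ks (code w) ∧
        (XYHalts ks (code w) ↔ TagHalts pr η w) := by
  refine ⟨kss pr η, code pr η, by simp [kss], code_computable pr η, ?_⟩
  intro w
  refine ⟨rfl, ?_⟩
  by_cases hT : TagHalts pr η w
  · obtain ⟨n0, hn0, hη⟩ := (lsim pr η (L0 w) w (ph0 w) (len0 w)).2.1 hT
    have hfin : Alive (kss pr η) ((cyc (kss pr η))^[n0 + 1] (code pr η w)) ∧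
        XYHalts (kss pr η) ((cyc (kss pr η))^[n0 + 1] (code pr η w)) := by
      rw [Function.iterate_succ_apply', key pr η w n0 hn0]
      obtain ⟨h4, hu⟩ := (lsim pr η (L0 w) w (ph0 w) (len0 w)).1 n0 hn0
      obtain ⟨l1, l2, L', hL⟩ := exists_two h4
      rw [hL] at hη ⊢
      have h1 : l1 = Ln.base (Kd.lt η) := by simpa using hη
      subst h1
      obtain ⟨M, E, hME⟩ := line_eta pr η
      have e3 := cyc_lines pr η (Ln.base (Kd.lt η)) l2 (lbits pr η L')
      rw [hME] at e3
      rw [lbits_cons, lbits_cons, ← List.append_assoc, e3]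
      have e5 : lbits pr η L' ++ (lbits pr η M ++ (ons (3 * KA pr η + 10) ++ [false]) ++
          lbits pr η [Ln.str, Ln.str] ++ E) ++ rdv (row pr η true) (bits pr η l2) =
          lbits pr η (L' ++ M) ++ (ons (3 * KA pr η + 10) ++ [false]) ++
          lbits pr η [Ln.str, Ln.str] ++ (E ++ rdv (row pr η true) (bits pr η l2)) := by
        rw [lbits_append]
        simp only [List.append_assoc]
      rw [e5]
      exact mis pr η (L' ++ M) (E ++ rdv (row pr η true) (bits pr η l2))
    have hP : ∀ d m, m + d = n0 + 1 → Alive (kss pr η) ((cyc (kss pr η))^[m] (code pr η w)) ∧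
        XYHalts (kss pr η) ((cyc (kss pr η))^[m] (code pr η w)) := by
      intro d
      induction d with
      | zero =>
        intro m hm
        have : m = n0 + 1 := by omega
        rw [this]
        exact hfin
      | succ d ih =>
        intro m hm
        have h2 := ih (m + 1) (by omega)
        rw [Function.iterate_succ_apply'] at h2
        refine ⟨Alive_step (fun _ => key_len pr η w m (fun j hj => hn0 j (by omega)))
          (fun _ => h2.1), XYHalts_step h2.2⟩
    have h0 := hP (n0 + 1) 0 (by omega)
    exact ⟨h0.1, fun _ => hT, fun _ => h0.2⟩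
  · have hall : ∀ n, ∀ j < n, ((c2 pr η)^[j] (L0 w)).head? ≠ some (Ln.base (Kd.lt η)) := by
      intro n
      induction n with
      | zero => intro j hj; omega
      | succ n ih =>
        intro j hj
        rcases Nat.lt_succ_iff_lt_or_eq.mp hj with h | h
        · exact ih j h
        · subst h
          intro hc
          exact hT ((lsim pr η (L0 w) w (ph0 w) (len0 w)).2.2 ⟨j, ih, hc⟩)
    refine ⟨?_, ?_⟩
    · intro n _
      exact key_len pr η w n (hall n)
    · refine ⟨?_, fun h => absurd h hT⟩
      rintro ⟨n, hn⟩
      rw [key pr η w n (hall n)] at hn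
      simp at hn

end P913
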