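import Pool.Agent.Lib.P913.GInst28

/-!
# Runs of the system Y'

Slots: `true` (the program bit is read as `0`, `1` is emitted), `false` (the program bit is read as `1`, `0` is emitted).
`Ex P m d m' e`: the slots `P` are executed from the mode `m` (`false`: glyph `A`, `true`: glyph `X`), exactly the letters
`d` are read, the final mode is `m'`, the letters `e` are emitted.
-/

set_option autoImplicit false

namespace P913

section gen

variable {G : Type} {T : GTab G}

theorem GTab.iter_add (T : GTab G) (m n : ℕ) (c : GC G) : T.iter (m + n) c = T.iter m (T.iter n c) :=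
  Function.iterate_add_apply _ m n c

/-- `n` steps lead from `c` to `c'` -/
def GTab.Run (T : GTab G) (c c' : GC G) : Prop := ∃ n : ℕ, T.iter n c = c'

theorem GTab.Run.refl (c : GC G) : T.Run c c := ⟨0, rfl⟩

theorem GTab.Run.trans {a b c : GC G} (h : T.Run a b) (h' : T.Run b c) : T.Run a c := by
  obtain ⟨m, rfl⟩ := h
  obtain ⟨n, rfl⟩ := h'
  exact ⟨n + m, T.iter_add n m a⟩

theorem GTab.Run.of_step {a b : GC G} (h : T.step a = some b) : T.Run a b :=
  ⟨1, by simp [GTab.iter, h]⟩

theorem GTab.Run.halts_iff {a b : GC G} (h : T.Run a b) : T.Halts a ↔ T.Halts b := by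
  obtain ⟨n, rfl⟩ := h
  constructor
  · rintro ⟨N, hN⟩
    rcases Nat.le_total N n with h1 | h1
    · obtain ⟨k, rfl⟩ := Nat.exists_eq_add_of_le h1
      refine ⟨0, ?_⟩
      show T.step (T.iter (N + k) a) = none
      rw [T.none_mono a N hN k]
      exact hN
    · obtain ⟨k, rfl⟩ := Nat.exists_eq_add_of_le h1
      refine ⟨k, ?_⟩
      rw [← T.iter_add, Nat.add_comm]
      exact hN
  · rintro ⟨N, hN⟩
    exact ⟨N + n, by rw [T.iter_add]; exact hN⟩

/-- an infinite chain of runs: the system does not halt -/
theorem GTab.no_halt (c : ℕ → GC G) (h : ∀ k, ∃ n, T.iter (n + 1) (c k) = c (k + 1))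
    (hs : ∀ k, T.step (c k) ≠ none) : ¬ T.Halts (c 0) := by
  have key : ∀ N k, T.step (T.iter N (c k)) ≠ none := by
    intro N
    induction N using Nat.strong_induction_on with
    | _ N ih =>
      intro k hN
      rcases Nat.eq_zero_or_pos N with h0 | h0
      · subst h0
        exact hs k hN
      · obtain ⟨n, hn⟩ := h k
        rcases Nat.le_total (n + 1) N with h1 | h1
        · obtain ⟨j, rfl⟩ := Nat.exists_eq_add_of_le h1
          refine ih j (by omega) (k + 1) ?_
          rw [← hn, ← T.iter_add, Nat.add_comm]
          exact hN
        · obtain ⟨j, hj⟩ := Nat.exists_eq_add_of_le h1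
          have h2 := T.none_mono (c k) N hN j
          rw [← hj, hn] at h2
          exact hs (k + 1) (by rw [h2]; exact hN)
  rintro ⟨N, hN⟩
  exact key N 0 hN

end gen

/-- execution of a list of slots -/
inductive Ex : List Bool → Bool → List Bool → Bool → List Bool → Prop
  | nil (m : Bool) : Ex [] m [] m []
  | z0 {P d e : List Bool} {m' : Bool} (m : Bool) (h : Ex P false d m' e) :
      Ex (true :: P) m (false :: d) m' (true :: e)
  | z1 {P d e : List Bool} {m' : Bool} (m : Bool) (h : Ex P false d m' e) :
      Ex (true :: P) m (true :: false :: d) m' (true :: false :: e)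
  | e0 {P d e : List Bool} {m' : Bool} (v : Bool) (h : Ex P v d m' e) :
      Ex (false :: P) false (v :: d) m' (false :: e)

theorem Ex.append {P P' d d' e e' : List Bool} {m m1 m2 : Bool} (h : Ex P m d m1 e) (h' : Ex P' m1 d' m2 e') :
    Ex (P ++ P') m (d ++ d') m2 (e ++ e') := by
  induction h with
  | nil m => exact h'
  | z0 m _ ih => exact Ex.z0 m (ih h')
  | z1 m _ ih => exact Ex.z1 m (ih h')
  | e0 v _ ih => exact Ex.e0 v (ih h')

theorem Ex.length {P d e : List Bool} {m m' : Bool} (h : Ex P m d m' e) : e.length = d.length := by
  induction h with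
  | nil m => rfl
  | z0 m _ ih => simp [ih]
  | z1 m _ ih => simp [ih]
  | e0 v _ ih => simp [ih]

/-- the letters appended to the data ring -/
def dbl (e : List Bool) : List Bool := e.flatMap fun c => [false, c]

/-- the configuration: mode, slots of the program ring beginning with the current one, data ring -/
def yc (m : Bool) (ps d : List Bool) : GC YG :=
  match ps with
  | [] => ⟨.A, false, [], d⟩
  | s :: ps => ⟨if m then .X else .A, !s, ps, d⟩

private theorem run_z0 (m s : Bool) (ps q : List Bool) :
    YT.Run (yc m (true :: s :: ps) (false :: q)) (yc false (s :: (ps ++ [true])) (q ++ [false, true])) := by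
  cases m <;> cases s <;> exact ⟨2, rfl⟩

private theorem run_z1 (m s : Bool) (ps q : List Bool) :
    YT.Run (yc m (true :: s :: ps) (true :: false :: q))
      (yc false (s :: (ps ++ [true])) (q ++ [false, true, false, false])) := by
  have h : YT.Run (yc m (true :: s :: ps) (true :: false :: q))
      (yc false (s :: (ps ++ [true])) (q ++ [false, true] ++ [false, false])) := by
    cases m <;> cases s <;> exact ⟨3, rfl⟩
  simpa using h

private theorem run_e0 (v s : Bool) (ps q : List Bool) :
    YT.Run (yc false (false :: s :: ps) (v :: q)) (yc v (s :: (ps ++ [false])) (q ++ [false, false])) := by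
  cases v <;> cases s <;> exact ⟨2, rfl⟩

/-- the machine executes the slots -/
theorem Ex.run {P d e : List Bool} {m m' : Bool} (h : Ex P m d m' e) : ∀ (R q : List Bool), 2 ≤ (P ++ R).length →
    YT.Run (yc m (P ++ R) (d ++ q)) (yc m' (R ++ P) (q ++ dbl e)) := by
  induction h with
  | nil m =>
    intro R q _
    simpa [dbl] using GTab.Run.refl _
  | @z0 P d e m' m _ ih =>
    intro R q hR
    obtain ⟨s, ps, hs⟩ : ∃ s ps, P ++ R = s :: ps := by
      cases hPR : P ++ R with
      | nil =>
        rw [List.cons_append, hPR] at hR
        simp at hR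
      | cons s ps => exact ⟨s, ps, rfl⟩
    have h1 := run_z0 m s ps (d ++ q)
    have h2 := ih (R ++ [true]) (q ++ [false, true]) (by simp only [List.length_append, List.length_cons, List.length_nil] at hR ⊢; omega)
    have e1 : true :: P ++ R = true :: s :: ps := by rw [List.cons_append, hs]
    have e2 : P ++ (R ++ [true]) = s :: (ps ++ [true]) := by rw [← List.append_assoc, hs, List.cons_append]
    have e3 : R ++ true :: P = R ++ [true] ++ P := by simp
    have e4 : q ++ dbl (true :: e) = q ++ [false, true] ++ dbl e := by simp [dbl]
    have e5 : d ++ (q ++ [false, true]) = d ++ q ++ [false, true] := by simp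
    rw [e2, e5] at h2
    rw [e1, e3, e4]
    exact h1.trans h2
  | @z1 P d e m' m _ ih =>
    intro R q hR
    obtain ⟨s, ps, hs⟩ : ∃ s ps, P ++ R = s :: ps := by
      cases hPR : P ++ R with
      | nil =>
        rw [List.cons_append, hPR] at hR
        simp at hR
      | cons s ps => exact ⟨s, ps, rfl⟩
    have h1 := run_z1 m s ps (d ++ q)
    have h2 := ih (R ++ [true]) (q ++ [false, true, false, false]) (by simp only [List.length_append, List.length_cons, List.length_nil] at hR ⊢; omega)
    have e1 : true :: P ++ R = true :: s :: ps := by rw [List.cons_append, hs]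
    have e2 : P ++ (R ++ [true]) = s :: (ps ++ [true]) := by rw [← List.append_assoc, hs, List.cons_append]
    have e3 : R ++ true :: P = R ++ [true] ++ P := by simp
    have e4 : q ++ dbl (true :: false :: e) = q ++ [false, true, false, false] ++ dbl e := by simp [dbl]
    have e5 : d ++ (q ++ [false, true, false, false]) = d ++ q ++ [false, true, false, false] := by simp
    rw [e2, e5] at h2
    rw [e1, e3, e4]
    exact h1.trans h2
  | @e0 P d e m' v _ ih =>
    intro R q hR
    obtain ⟨s, ps, hs⟩ : ∃ s ps, P ++ R = s :: ps := by
      cases hPR : P ++ R with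
      | nil =>
        rw [List.cons_append, hPR] at hR
        simp at hR
      | cons s ps => exact ⟨s, ps, rfl⟩
    have h1 := run_e0 v s ps (d ++ q)
    have h2 := ih (R ++ [false]) (q ++ [false, false]) (by simp only [List.length_append, List.length_cons, List.length_nil] at hR ⊢; omega)
    have e1 : false :: P ++ R = false :: s :: ps := by rw [List.cons_append, hs]
    have e2 : P ++ (R ++ [false]) = s :: (ps ++ [false]) := by rw [← List.append_assoc, hs, List.cons_append]
    have e3 : R ++ false :: P = R ++ [false] ++ P := by simp
    have e4 : q ++ dbl (false :: e) = q ++ [false, false] ++ dbl e := by simp [dbl]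
    have e5 : d ++ (q ++ [false, false]) = d ++ q ++ [false, false] := by simp
    rw [e2, e5] at h2
    rw [e1, e3, e4]
    exact h1.trans h2

/-- the halting configurations -/
theorem yc_halt (ps d : List Bool) : YT.step (yc true (false :: ps) d) = none := rfl

theorem yc_step (ps d : List Bool) (m : Bool) : YT.step (yc m (true :: ps) d) ≠ none := by
  cases m <;> simp [yc, GTab.step, YT, YG.F]

end P913
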