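import Pool.Agent.Lib.P913.YUnit
import Pool.Agent.Lib.P913.MDef

/-!
# The gate zone of the system Y'

The gates `(k, s)` of a list of moves stand in segments of `D - 1` units; the holes of the data ring have the distance
`D`.  At the beginning of a segment the distance of the next hole is the number `u` of the recursion (M).
-/

set_option autoImplicit false

namespace P913

/-- `n` bright units -/
def brt (n : ℕ) : List Bool := List.replicate n true

@[simp] theorem brt_length (n : ℕ) : (brt n).length = n := List.length_replicate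

theorem brt_split (a b c : ℕ) (h : c = a + b) : brt c = brt a ++ brt b := by
  rw [h]
  exact List.replicate_add ..

/-- the program of the gates -/
def gprog (l D : ℕ) : List (ℕ × Bool) → List Bool
  | [] => []
  | (k, s) :: L => bgs k ++ (gate (l + 2) s ++ (bgs (D - 7 - l - k) ++ gprog l D L))

/-- the holes -/
def hol (D K : ℕ) : List Bool := (List.replicate K (false :: brt (D - 1))).flatten

theorem hol_succ (D K : ℕ) : hol D (K + 1) = false :: (brt (D - 1) ++ hol D K) := by
  simp [hol, List.replicate_succ]

theorem hol_length (D K : ℕ) (hD : 1 ≤ D) : (hol D K).length = K * D := by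
  induction K with
  | zero => simp [hol]
  | succ K ih =>
    rw [hol_succ]
    simp only [List.length_cons, List.length_append, brt_length, ih]
    have : (K + 1) * D = K * D + D := by ring
    omega

namespace YGateAux

theorem bgs_tr (n : ℕ) : ExE (bgs n) false (cl (brt n)) false := by
  have := bgs_cl (brt n)
  rwa [brt_length] at this

theorem miss_all (l : ℕ) (s : Bool) : ExE (gate (l + 2) s) false (cl (brt (l + 7))) false := by
  have h := gate_miss l s true true (Or.inl rfl) (brt (l + 2)) (by simp)
  have e : brt (l + 7) = true :: true :: true :: (brt (l + 2) ++ [true, true]) := by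
    rw [brt_split 3 (l + 4) (l + 7) (by omega), brt_split (l + 2) 2 (l + 4) (by omega)]
    rfl
  rw [e]
  exact h

theorem miss_one (l n m : ℕ) (s : Bool) (h1 : 1 ≤ n) (h2 : n ≤ l + 4) (h : n + 1 + m = l + 7) :
    ExE (gate (l + 2) s) false (cl (brt n ++ false :: brt m)) false := by
  match n, h1 with
  | 1, _ =>
    have e : brt 1 ++ false :: brt m = true :: false :: true :: (brt (l + 2) ++ [true, true]) := by
      rw [brt_split 1 (l + 4) m (by omega), brt_split (l + 2) 2 (l + 4) (by omega)]
      rfl
    rw [e]
    exact gate_miss l s false true (Or.inr rfl) (brt (l + 2)) (by simp)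
  | 2, _ =>
    have e : brt 2 ++ false :: brt m = true :: true :: false :: (brt (l + 2) ++ [true, true]) := by
      rw [brt_split (l + 2) 2 m (by omega)]
      rfl
    rw [e]
    exact gate_miss l s true false (Or.inl rfl) (brt (l + 2)) (by simp)
  | j + 3, _ =>
    have e : brt (j + 3) ++ false :: brt m =
        true :: true :: true :: ((brt j ++ false :: brt (m - 2)) ++ [true, true]) := by
      rw [brt_split 3 j (j + 3) (by omega), brt_split (m - 2) 2 m (by omega)]
      simp [brt]
    rw [e]
    exact gate_miss l s true true (Or.inl rfl) (brt j ++ false :: brt (m - 2)) (by simp; omega)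

theorem seg_hit (l D k : ℕ) (hD : 2 * l + 10 ≤ D) (hk : k ≤ l) :
    ∃ X1, brt k ++ false :: brt (D - 1) = X1 ++ brt (k + 1) ∧
      ExE (bgs k ++ (gate (l + 2) false ++ bgs (D - 7 - l - k))) false (cl X1) false := by
  refine ⟨brt k ++ (false :: brt (l + 5) ++ brt (D - 7 - l - k)), ?_, ?_⟩
  · rw [brt_split (l + 5) (D - 7 - l - k + (k + 1)) (D - 1) (by omega),
      brt_split (D - 7 - l - k) (k + 1) (D - 7 - l - k + (k + 1)) rfl]
    simp
  · rw [cl_append, cl_append]
    exact ExE.append (bgs_tr k) (ExE.append (gate_hit (l + 2) (brt (l + 5)) (by simp)) (bgs_tr _))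

theorem seg_miss (l D k u : ℕ) (s : Bool) (hD : 2 * l + 10 ≤ D) (hk : k ≤ l) (hu : u ≤ l) (hne : u ≠ k) :
    ∃ X1, brt u ++ false :: brt (D - 1) = X1 ++ brt u ∧
      ExE (bgs k ++ (gate (l + 2) s ++ bgs (D - 7 - l - k))) false (cl X1) false := by
  rcases Nat.lt_or_ge u k with h | h
  · refine ⟨(brt u ++ false :: brt (k - u - 1)) ++ (brt (l + 7) ++ brt (D - 7 - l - k)), ?_, ?_⟩
    · rw [brt_split (k - u - 1) (l + 7 + (D - 7 - l - k + u)) (D - 1) (by omega),
        brt_split (l + 7) (D - 7 - l - k + u) _ rfl, brt_split (D - 7 - l - k) u _ rfl]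
      simp
    · rw [cl_append (brt u ++ false :: brt (k - u - 1)), cl_append (brt (l + 7))]
      have h1 := bgs_cl (brt u ++ false :: brt (k - u - 1))
      have e : (brt u ++ false :: brt (k - u - 1)).length = k := by
        simp
        omega
      rw [e] at h1
      exact ExE.append h1 (ExE.append (miss_all l s) (bgs_tr _))
  · have hlt : k < u := by omega
    refine ⟨brt k ++ ((brt (u - k) ++ false :: brt (l + 6 - (u - k))) ++ brt (D - 7 - l - k)), ?_, ?_⟩
    · rw [brt_split (l + 6 - (u - k)) (D - 7 - l - k + u) (D - 1) (by omega),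
        brt_split (D - 7 - l - k) u _ rfl]
      have e := brt_split k (u - k) u (by omega)
      rw [← List.append_assoc (brt k), ← List.append_assoc (brt k), ← e]
      simp
    · rw [cl_append, cl_append]
      exact ExE.append (bgs_tr k) (ExE.append (miss_one l (u - k) _ s (by omega) (by omega) (by omega)) (bgs_tr _))

end YGateAux

open YGateAux

/-- the gate zone executes the moves -/
theorem gates (l D : ℕ) (hD : 2 * l + 10 ≤ D) : ∀ (L : List (ℕ × Bool)) (u v : ℕ), (∀ x ∈ L, x.1 ≤ l) →
    u + L.length ≤ l → gmv L u = some v →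
    ∃ X1, brt u ++ hol D L.length = X1 ++ brt v ∧ ExE (gprog l D L) false (cl X1) false := by
  intro L
  induction L with
  | nil =>
    intro u v _ _ h
    simp only [gmv, Option.some.injEq] at h
    subst h
    exact ⟨[], by simp [hol], [], Ex.nil _⟩
  | cons x L ih =>
    obtain ⟨k, s⟩ := x
    intro u v hL hlen h
    have hk : k ≤ l := hL (k, s) (by simp)
    have hL' : ∀ x ∈ L, x.1 ≤ l := fun x hx => hL x (by simp [hx])
    rw [List.length_cons] at hlen
    rw [List.length_cons, hol_succ]
    by_cases huk : u = k
    · subst huk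
      cases s with
      | true => simp [gmv] at h
      | false =>
        simp only [gmv, if_true, Bool.false_eq_true, if_false] at h
        obtain ⟨X2, h2, h3⟩ := ih (u + 1) v hL' (by omega) h
        obtain ⟨X1, h4, h5⟩ := seg_hit l D u hD hk
        refine ⟨X1 ++ X2, ?_, ?_⟩
        · have e : brt u ++ false :: (brt (D - 1) ++ hol D L.length) =
            (brt u ++ false :: brt (D - 1)) ++ hol D L.length := by simp
          rw [e, h4, List.append_assoc, h2, List.append_assoc]
        · rw [cl_append]
          have e : gprog l D ((u, false) :: L) =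
              (bgs u ++ (gate (l + 2) false ++ bgs (D - 7 - l - u))) ++ gprog l D L := by
            simp [gprog]
          rw [e]
          exact ExE.append h5 h3
    · simp only [gmv, if_neg huk] at h
      obtain ⟨X2, h2, h3⟩ := ih u v hL' (by omega) h
      obtain ⟨X1, h4, h5⟩ := seg_miss l D k u s hD hk (by omega) huk
      refine ⟨X1 ++ X2, ?_, ?_⟩
      · have e : brt u ++ false :: (brt (D - 1) ++ hol D L.length) =
          (brt u ++ false :: brt (D - 1)) ++ hol D L.length := by simp
        rw [e, h4, List.append_assoc, h2, List.append_assoc]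
      · rw [cl_append]
        have e : gprog l D ((k, s) :: L) =
            (bgs k ++ (gate (l + 2) s ++ bgs (D - 7 - l - k))) ++ gprog l D L := by
          simp [gprog]
        rw [e]
        exact ExE.append h5 h3

/-- the gate zone halts -/
theorem gates_halt (l D : ℕ) (hD : 2 * l + 10 ≤ D) : ∀ (L : List (ℕ × Bool)) (u : ℕ), (∀ x ∈ L, x.1 ≤ l) →
    u + L.length ≤ l → gmv L u = none →
    ∃ P1 P2 X1 X2, gprog l D L = P1 ++ false :: P2 ∧ brt u ++ hol D L.length = X1 ++ true :: X2 ∧
      ExE P1 false (cl X1 ++ [false, true]) true := by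
  intro L
  induction L with
  | nil =>
    intro u _ _ h
    simp [gmv] at h
  | cons x L ih =>
    obtain ⟨k, s⟩ := x
    intro u hL hlen h
    have hk : k ≤ l := hL (k, s) (by simp)
    have hL' : ∀ x ∈ L, x.1 ≤ l := fun x hx => hL x (by simp [hx])
    rw [List.length_cons] at hlen
    rw [List.length_cons, hol_succ]
    by_cases huk : u = k
    · subst huk
      cases s with
      | true =>
        refine ⟨bgs u ++ gate1 (l + 2), ([false] ++ (noS ++ bgS)) ++ (bgs (D - 7 - l - u) ++ gprog l D L),
          brt u ++ false :: brt (l + 2), brt (D - 1 - (l + 3)) ++ hol D L.length, ?_, ?_, ?_⟩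
        · simp [gprog, gate_eq]
        · rw [brt_split (l + 2) (D - 1 - (l + 2)) (D - 1) (by omega),
            brt_split 1 (D - 1 - (l + 3)) (D - 1 - (l + 2)) (by omega)]
          simp [brt]
        · rw [cl_append, List.append_assoc]
          exact ExE.append (bgs_tr u) (gate_halt (l + 2) (brt (l + 2)) (by simp))
      | false =>
        simp only [gmv, if_true, Bool.false_eq_true, if_false] at h
        obtain ⟨P1, P2, X2, X3, h1, h2, h3⟩ := ih (u + 1) hL' (by omega) h
        obtain ⟨X1, h4, h5⟩ := seg_hit l D u hD hk
        refine ⟨(bgs u ++ (gate (l + 2) false ++ bgs (D - 7 - l - u))) ++ P1, P2, X1 ++ X2, X3, ?_, ?_, ?_⟩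
        · simp [gprog, h1]
        · have e : brt u ++ false :: (brt (D - 1) ++ hol D L.length) =
            (brt u ++ false :: brt (D - 1)) ++ hol D L.length := by simp
          rw [e, h4, List.append_assoc, h2, List.append_assoc]
        · rw [cl_append X1 X2, List.append_assoc (cl X1)]
          exact ExE.append h5 h3
    · simp only [gmv, if_neg huk] at h
      obtain ⟨P1, P2, X2, X3, h1, h2, h3⟩ := ih u hL' (by omega) h
      obtain ⟨X1, h4, h5⟩ := seg_miss l D k u s hD hk (by omega) huk
      refine ⟨(bgs k ++ (gate (l + 2) s ++ bgs (D - 7 - l - k))) ++ P1, P2, X1 ++ X2, X3, ?_, ?_, ?_⟩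
      · simp [gprog, h1]
      · have e : brt u ++ false :: (brt (D - 1) ++ hol D L.length) =
          (brt u ++ false :: brt (D - 1)) ++ hol D L.length := by simp
        rw [e, h4, List.append_assoc, h2, List.append_assoc]
      · rw [cl_append X1 X2, List.append_assoc (cl X1)]
        exact ExE.append h5 h3

theorem gprog_length (l D : ℕ) (hD : 2 * l + 10 ≤ D) : ∀ L : List (ℕ × Bool), (∀ x ∈ L, x.1 ≤ l) →
    (gprog l D L).length = 4 * (L.length * (D - 1)) := by
  intro L
  induction L with
  | nil => intro _; simp [gprog]
  | cons x L ih =>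
    obtain ⟨k, s⟩ := x
    intro hL
    have hk : k ≤ l := hL (k, s) (by simp)
    have hL' : ∀ x ∈ L, x.1 ≤ l := fun x hx => hL x (by simp [hx])
    have h1 : (gate (l + 2) s).length = 4 * (l + 6) := by
      cases s <;> simp [gate, seS, bgs_length, noS, bgS, haS] <;> omega
    have h2 : (L.length + 1) * (D - 1) = L.length * (D - 1) + (D - 1) := by ring
    simp only [gprog, List.length_append, bgs_length, h1, ih hL', List.length_cons, h2]
    omega

end P913
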