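import Pool.Agent.Lib.P913.YGate

/-!
# The laps of the system Y'
-/

set_option autoImplicit false

namespace P913

/-- transmitters with the distance `h` -/
def tz (h K : ℕ) : List Bool := (List.replicate K (true :: List.replicate (h - 1) false)).flatten

/-- the slots of transmitters (`true`) and background units (`false`) -/
def tp (B : List Bool) : List Bool := B.flatMap fun t => if t then teS else bgS

/-- the units emitted by transmitters and background units -/
def hx (B : List Bool) : List Bool := B.flatMap fun t => [!t, true]

theorem tp_append (A B : List Bool) : tp (A ++ B) = tp A ++ tp B := by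
  simp [tp]

theorem hx_append (A B : List Bool) : hx (A ++ B) = hx A ++ hx B := by
  simp [hx]

theorem tp_bgs (n : ℕ) : tp (List.replicate n false) = bgs n := by
  simp [tp, bgs, List.flatMap_replicate]

theorem tp_length (B : List Bool) : (tp B).length = 4 * B.length := by
  induction B with
  | nil => rfl
  | cons t B ih =>
    have : tp (t :: B) = (if t then teS else bgS) ++ tp B := rfl
    rw [this, List.length_append, ih]
    cases t <;> simp [teS, bgS] <;> omega

theorem dbl_append (e e' : List Bool) : dbl (e ++ e') = dbl e ++ dbl e' := by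
  simp [dbl]

theorem dbl_tp (B : List Bool) : dbl (tp B) = cl (hx B) := by
  induction B with
  | nil => rfl
  | cons t B ih =>
    have e1 : tp (t :: B) = (if t then teS else bgS) ++ tp B := rfl
    have e2 : hx (t :: B) = [!t, true] ++ hx B := rfl
    rw [e1, e2, dbl_append, cl_append, ih]
    cases t <;> rfl

theorem hx_rep (n : ℕ) : hx (List.replicate n false) = brt (2 * n) := by
  induction n with
  | zero => rfl
  | succ n ih =>
    have e1 : hx (List.replicate (n + 1) false) = [true, true] ++ hx (List.replicate n false) := rfl
    rw [e1, ih, brt_split 2 (2 * n) (2 * (n + 1)) (by omega)]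
    rfl

theorem hx_tz (h K : ℕ) (hh : 1 ≤ h) : hx (tz h K) = hol (2 * h) K := by
  induction K with
  | zero => rfl
  | succ K ih =>
    have e1 : tz h (K + 1) = (true :: List.replicate (h - 1) false) ++ tz h K := by
      simp [tz, List.replicate_succ]
    have e2 : hx (true :: List.replicate (h - 1) false) = false :: true :: hx (List.replicate (h - 1) false) := rfl
    rw [e1, hx_append, ih, e2, hx_rep, hol_succ, brt_split 1 (2 * (h - 1)) (2 * h - 1) (by omega)]
    rfl

theorem dbl_even (e : List Bool) : ∀ n, e.length = 2 * n → ∃ N, dbl e = dl N ∧ N.length = n := by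
  intro n
  induction n generalizing e with
  | zero =>
    intro h
    have : e = [] := List.length_eq_zero_iff.mp (by omega)
    subst this
    exact ⟨[], rfl, rfl⟩
  | succ n ih =>
    intro h
    match e, h with
    | x :: y :: e, h =>
      obtain ⟨N, h1, h2⟩ := ih e (by simp at h; omega)
      refine ⟨(x, y) :: N, ?_, by simp [h2]⟩
      have e1 : dbl (x :: y :: e) = [false, x, false, y] ++ dbl e := rfl
      rw [e1, h1]
      rfl

namespace YLapAux

open YUnitAux

theorem bgs_junk (J : List (Bool × Bool)) : ∀ m, ∃ m', Ex (bgs J.length) m (dl J) m' (bgs J.length) := by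
  induction J with
  | nil => intro m; exact ⟨m, Ex.nil m⟩
  | cons x J ih =>
    intro m
    obtain ⟨m', h⟩ := ih x.2
    refine ⟨m', ?_⟩
    rw [List.length_cons, bgs_succ]
    exact (bg0 m x.1 x.2).append h

theorem tp_clean : ∀ (B X : List Bool), B.length = X.length → Ex (tp B) false (cl X) false (tp B) := by
  intro B
  induction B with
  | nil =>
    intro X h
    have : X = [] := List.length_eq_zero_iff.mp (by simpa using h.symm)
    subst this
    exact Ex.nil _
  | cons t B ih =>
    intro X h
    cases X with
    | nil => simp at h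
    | cons x X =>
      have h1 := ih X (by simpa using h)
      have e1 : tp (t :: B) = (if t then teS else bgS) ++ tp B := rfl
      have e2 : cl (x :: X) = [false, x, false, false] ++ cl X := rfl
      rw [e1, e2]
      cases t with
      | true => exact (te0 x false).append h1
      | false => exact (bg0 false x false).append h1

theorem tp_junk (J : List (Bool × Bool)) (B X : List Bool) (h : B.length + 1 = X.length) (m : Bool) :
    Ex (tp (List.replicate J.length false ++ false :: B)) m (dl J ++ cl X) false
      (tp (List.replicate J.length false ++ false :: B)) := by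
  cases X with
  | nil => simp at h
  | cons x X =>
    obtain ⟨m', h1⟩ := bgs_junk J m
    have h2 := tp_clean B X (by simpa using h)
    have e1 : tp (false :: B) = bgS ++ tp B := rfl
    have e2 : cl (x :: X) = [false, x, false, false] ++ cl X := rfl
    rw [tp_append, tp_bgs, e1, e2]
    exact h1.append ((bg0 m' x false).append h2)

end YLapAux

open YLapAux

variable (S : MSys)

/-- a bound for the numbers `u` and the places of the moves -/
def MSys.l : ℕ := 3 * S.R + (S.L false).length + (S.L true).length + ((S.L false).map Prod.fst).sum +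
  ((S.L true).map Prod.fst).sum

/-- half the distance of the holes -/
def MSys.h : ℕ := S.l + 10

/-- half the number of units of the segments of all gates -/
def MSys.P (c : Bool) : ℕ := (S.L c).length * S.h

/-- the length of the gate zone -/
def MSys.γ : ℕ := 2 * S.P false + 2 * S.P true + 4 * S.h + S.κ false + S.κ true + S.R

/-- the place of the first hole is `2 * t` -/
def MSys.t (c : ℕ) : ℕ := 3 * S.γ + 3 * S.R + 1 + c

/-- the transmitters -/
def MSys.B (c : ℕ) : List Bool :=
  List.replicate (S.t c) false ++ (tz S.h (S.L false).length ++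
    (List.replicate (2 * S.γ + S.t c - S.P false) false ++ (tz S.h (S.L true).length ++
      List.replicate (S.γ - S.P true) false)))

/-- the number of background units after the gates -/
def MSys.n (c : Bool) : ℕ := S.γ + S.κ c - 2 * S.P c

/-- the gate zone -/
def MSys.gz (c : Bool) : List Bool := gprog S.l (2 * S.h) (S.L c) ++ bgs (S.n c)

/-- the program of a lap -/
def MSys.lap (p : ℕ) (c : Bool) : List Bool := tp (S.B p) ++ S.gz c

theorem MSys.l_le (c : Bool) : ∀ x ∈ S.L c, x.1 ≤ S.l := by
  intro x hx
  have h : x.1 ≤ ((S.L c).map Prod.fst).sum := List.single_le_sum (by simp) _ (List.mem_map_of_mem hx)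
  unfold MSys.l
  cases c <;> omega

theorem MSys.P_le (c : Bool) : 2 * S.P c + 4 * S.h + S.κ c + S.R ≤ S.γ := by
  unfold MSys.γ
  cases c <;> omega

theorem tz_length (h K : ℕ) (hh : 1 ≤ h) : (tz h K).length = K * h := by
  induction K with
  | zero => simp [tz]
  | succ K ih =>
    have e1 : tz h (K + 1) = (true :: List.replicate (h - 1) false) ++ tz h K := by
      simp [tz, List.replicate_succ]
    rw [e1, List.length_append, ih]
    simp only [List.length_cons, List.length_replicate]
    have : (K + 1) * h = K * h + h := by ring
    omega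

theorem MSys.B_length (c : ℕ) : (S.B c).length = 3 * S.γ + 2 * S.t c := by
  have h1 := tz_length S.h (S.L false).length (by unfold MSys.h; omega)
  have h2 := tz_length S.h (S.L true).length (by unfold MSys.h; omega)
  have h3 := S.P_le false
  have h4 := S.P_le true
  unfold MSys.B
  simp only [List.length_append, List.length_replicate, h1, h2]
  unfold MSys.P at *
  omega

theorem MSys.hx_B (c : ℕ) : hx (S.B c) = brt (2 * S.t c) ++ (hol (2 * S.h) (S.L false).length ++
    (brt (4 * S.γ + 2 * S.t c - 2 * S.P false) ++ (hol (2 * S.h) (S.L true).length ++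
      brt (2 * S.γ - 2 * S.P true)))) := by
  have hh : 1 ≤ S.h := by unfold MSys.h; omega
  unfold MSys.B
  rw [hx_append, hx_append, hx_append, hx_append, hx_rep, hx_rep, hx_rep, hx_tz _ _ hh, hx_tz _ _ hh]
  have e1 : 2 * (2 * S.γ + S.t c - S.P false) = 4 * S.γ + 2 * S.t c - 2 * S.P false := by omega
  have e2 : 2 * (S.γ - S.P true) = 2 * S.γ - 2 * S.P true := by omega
  rw [e1, e2]

/-- the gate zone and the background units after it -/
theorem MSys.gz_run (c : Bool) (u v w : ℕ) (hu : u ≤ 3 * S.R) (hv : gmv (S.L c) u = some v) :
    ∃ X, brt u ++ (hol (2 * S.h) (S.L c).length ++ brt (w + S.n c)) = X ++ brt (v + w) ∧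
      (∃ e, Ex (S.gz c) false (cl X) false e ∧ e.length = 4 * X.length) := by
  have hl := S.l_le c
  have hlen : u + (S.L c).length ≤ S.l := by
    unfold MSys.l
    cases c <;> omega
  obtain ⟨X, h1, h2⟩ := gates S.l (2 * S.h) (by unfold MSys.h; omega) (S.L c) u v hl hlen hv
  refine ⟨X ++ brt (S.n c), ?_, ?_⟩
  · rw [← List.append_assoc, h1, List.append_assoc, List.append_assoc, ← brt_split v (w + S.n c) _ rfl,
      ← brt_split (S.n c) (v + w) _ rfl]
    congr 2
    omega
  · have h3 := bgs_cl (brt (S.n c))
    rw [brt_length] at h3
    obtain ⟨e, he⟩ := h2.append h3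
    rw [← cl_append] at he
    exact ⟨e, he, by rw [he.length, cl_length]⟩

/-- the gate zone halts -/
theorem MSys.gz_halt (c : Bool) (u w : ℕ) (hu : u ≤ 3 * S.R) (hv : gmv (S.L c) u = none) :
    ∃ P1 P2 X1 X2, S.gz c = P1 ++ false :: P2 ∧
      brt u ++ (hol (2 * S.h) (S.L c).length ++ brt w) = X1 ++ true :: X2 ∧
      ∃ e, Ex P1 false (cl X1 ++ [false, true]) true e := by
  have hl := S.l_le c
  have hlen : u + (S.L c).length ≤ S.l := by
    unfold MSys.l
    cases c <;> omega
  obtain ⟨P1, P2, X1, X2, h1, h2, h3⟩ := gates_halt S.l (2 * S.h) (by unfold MSys.h; omega) (S.L c) u hl hlen hv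
  refine ⟨P1, P2 ++ bgs (S.n c), X1, X2 ++ brt w, ?_, ?_, h3⟩
  · unfold MSys.gz
    rw [h1]
    simp
  · rw [← List.append_assoc, h2]
    simp

end P913
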