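import Pool.Agent.Lib.P913.YLap

/-!
# The system Y' simulates the recursion (M)
-/

set_option autoImplicit false

namespace P913

variable (S : MSys)

/-- the first lap -/
theorem MSys.lap0 (p a b v : ℕ) (ha : a ≤ S.R) (hb : b ≤ S.R) (hv : gmv (S.L false) (2 * b + S.R - a) = some v)
    (h1 : v ≤ 2 * b + S.R + S.κ false) (h2 : 2 * b + S.R + S.κ false ≤ v + S.R) (J : List (Bool × Bool))
    (hJ : J.length = 3 * S.γ + S.R + 2 * b - a) :
    ∃ (X : List Bool) (e : List Bool), hx (S.B p) = X ++
        (brt ((S.B p).length + (2 * b + S.R - (2 * b + S.R + S.κ false - v))) ++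
          (hol (2 * S.h) (S.L true).length ++ brt (2 * S.γ - 2 * S.P true))) ∧
      Ex (S.lap p false) false (dl J ++ cl X) false (tp (S.B p) ++ e) ∧
      e.length = 4 * (S.γ + (2 * b + S.R + S.κ false - v) - a) := by
  have hP := S.P_le false
  have hB := S.B_length p
  have ht : S.t p = 3 * S.γ + 3 * S.R + 1 + p := rfl
  have hn : S.n false = S.γ + S.κ false - 2 * S.P false := rfl
  obtain ⟨X, hX, e, he, hel⟩ := S.gz_run false (2 * b + S.R - a) v (3 * S.γ + 2 * S.t p - S.κ false) (by omega) hv
  have hlen := congrArg List.length hX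
  simp only [List.length_append, brt_length] at hlen
  rw [hol_length _ _ (by unfold MSys.h; omega)] at hlen
  have hPe : (S.L false).length * (2 * S.h) = 2 * S.P false := by
    unfold MSys.P
    ring
  rw [hPe] at hlen
  refine ⟨brt (2 * S.t p - (2 * b + S.R - a)) ++ X, e, ?_, ?_, ?_⟩
  · rw [S.hx_B p, brt_split (2 * S.t p - (2 * b + S.R - a)) (2 * b + S.R - a) (2 * S.t p) (by omega)]
    have e1 : 4 * S.γ + 2 * S.t p - 2 * S.P false = 3 * S.γ + 2 * S.t p - S.κ false + S.n false := by omega
    have e2 : (S.B p).length + (2 * b + S.R - (2 * b + S.R + S.κ false - v)) =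
        v + (3 * S.γ + 2 * S.t p - S.κ false) := by omega
    rw [e1, e2]
    have h3 : ∀ Y : List Bool, brt (2 * b + S.R - a) ++ (hol (2 * S.h) (S.L false).length ++
        (brt (3 * S.γ + 2 * S.t p - S.κ false + S.n false) ++ Y)) =
        X ++ (brt (v + (3 * S.γ + 2 * S.t p - S.κ false)) ++ Y) := by
      intro Y
      rw [← List.append_assoc X, ← hX]
      simp only [List.append_assoc]
    rw [List.append_assoc, h3, List.append_assoc]
  · obtain ⟨B', hB'⟩ : ∃ B', S.B p = List.replicate J.length false ++ false :: B' := by
      unfold MSys.B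
      have e1 : List.replicate (S.t p) false = List.replicate J.length false ++
          false :: List.replicate (S.t p - J.length - 1) false := by
        rw [← List.replicate_succ, ← List.replicate_add]
        congr 1
        omega
      rw [e1]
      exact ⟨_, by rw [List.append_assoc, List.cons_append]⟩
    have h3 : B'.length + 1 = (brt (2 * S.t p - (2 * b + S.R - a))).length := by
      have := congrArg List.length hB'
      simp only [List.length_append, List.length_replicate, List.length_cons] at this
      rw [brt_length]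
      omega
    have h4 := YLapAux.tp_junk J B' _ h3 false
    rw [← hB'] at h4
    have h5 := h4.append he
    unfold MSys.lap
    rw [cl_append]
    rw [List.append_assoc (dl J)] at h5
    exact h5
  · rw [hel]
    omega

/-- the second lap -/
theorem MSys.lap1 (p a b v : ℕ) (ha : a ≤ S.R) (hb : b ≤ S.R) (hv : gmv (S.L true) (2 * b + S.R - a) = some v)
    (h1 : v ≤ 2 * b + S.R + S.κ true) (h2 : 2 * b + S.R + S.κ true ≤ v + S.R) :
    ∃ (X : List Bool) (e : List Bool),
      brt ((S.B p).length + (2 * b + S.R - a)) ++
          (hol (2 * S.h) (S.L true).length ++ brt (2 * S.γ - 2 * S.P true)) =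
        X ++ brt (S.γ + S.R + 2 * b - (2 * b + S.R + S.κ true - v)) ∧
      Ex (S.lap p true) false (cl X) false (tp (S.B p) ++ e) ∧
      e.length = 4 * (S.γ + (2 * b + S.R + S.κ true - v) - a) := by
  have hP := S.P_le true
  have hn : S.n true = S.γ + S.κ true - 2 * S.P true := rfl
  obtain ⟨X, hX, e, he, hel⟩ := S.gz_run true (2 * b + S.R - a) v (S.γ - S.κ true) (by omega) hv
  have hlen := congrArg List.length hX
  simp only [List.length_append, brt_length] at hlen
  rw [hol_length _ _ (by unfold MSys.h; omega)] at hlen
  have hPe : (S.L true).length * (2 * S.h) = 2 * S.P true := by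
    unfold MSys.P
    ring
  rw [hPe] at hlen
  refine ⟨brt (S.B p).length ++ X, e, ?_, ?_, ?_⟩
  · have e1 : 2 * S.γ - 2 * S.P true = S.γ - S.κ true + S.n true := by omega
    have e2 : S.γ + S.R + 2 * b - (2 * b + S.R + S.κ true - v) = v + (S.γ - S.κ true) := by omega
    rw [brt_split (S.B p).length (2 * b + S.R - a) _ rfl, e1, e2, List.append_assoc, hX, List.append_assoc]
  · have h4 := YLapAux.tp_clean (S.B p) (brt (S.B p).length) (by simp)
    unfold MSys.lap
    rw [cl_append]
    exact h4.append he
  · rw [hel]
    omega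

/-- the blocks of the queue between two letters of (M) -/
def MSys.TR (p : ℕ) : ℕ → List ℕ → List Bool → Prop
  | _, [], Q => Q = []
  | x, y :: ys, Q => ∃ (N : List (Bool × Bool)) (Q' : List Bool), N.length = 2 * (S.γ + y - x) ∧
      Q = cl (hx (S.B p)) ++ (dl N ++ Q') ∧ MSys.TR p y ys Q'

/-- the queue `Q` codes the letters `q` -/
def MSys.QR (p : ℕ) : List ℕ → List Bool → Prop
  | [], _ => False
  | x :: ys, Q => ∃ (J : List (Bool × Bool)) (Q' : List Bool),
      J.length = 3 * S.γ + S.R + 2 * x - (x :: ys).getLastD 0 ∧ Q = dl J ++ Q' ∧ S.TR p x ys Q'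

theorem MSys.TR_append (p : ℕ) (ys : List ℕ) : ∀ (x : ℕ) (Q : List Bool), S.TR p x ys Q →
    ∀ (y : ℕ) (N : List (Bool × Bool)), N.length = 2 * (S.γ + y - (x :: ys).getLastD 0) →
      S.TR p x (ys ++ [y]) (Q ++ (cl (hx (S.B p)) ++ dl N)) := by
  induction ys with
  | nil =>
    intro x Q h y N hN
    have h' : Q = [] := h
    subst h'
    exact ⟨N, [], by simpa using hN, by simp, rfl⟩
  | cons z ys ih =>
    intro x Q h y N hN
    obtain ⟨N', Q', h1, rfl, h3⟩ := h
    refine ⟨N', Q' ++ (cl (hx (S.B p)) ++ dl N), h1, by simp, ?_⟩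
    exact ih z Q' h3 y N (by simpa using hN)

theorem MSys.F_some {c : Bool} {a b x : ℕ} (h : S.F c a b = some x) :
    ∃ v, gmv (S.L c) (2 * b + S.R - a) = some v ∧ x = 2 * b + S.R + S.κ c - v := by
  unfold MSys.F at h
  cases hg : gmv (S.L c) (2 * b + S.R - a) with
  | none => simp [hg] at h
  | some v =>
    simp only [hg, Option.map_some, Option.some.injEq] at h
    exact ⟨v, rfl, h.symm⟩

theorem MSys.F_none {c : Bool} {a b : ℕ} (h : S.F c a b = none) :
    gmv (S.L c) (2 * b + S.R - a) = none := by
  unfold MSys.F at h
  simpa using h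

private theorem last_cons2 (b y : ℕ) (ys : List ℕ) : (b :: y :: ys).getLastD 0 = (y :: ys).getLastD 0 := by
  simp

/-- two laps: one step of (M) -/
theorem MSys.two_laps {I : List ℕ → Prop} (hI : S.Inv I) (p : ℕ) (q q' : List ℕ) (hq : I q)
    (hs : S.step q = some q') (Q : List Bool) (hQ : S.QR p q Q) :
    ∃ Q', S.QR p q' Q' ∧ Q.length < Q'.length ∧
      YT.Run (yc false (S.lap p false ++ S.lap p true) Q) (yc false (S.lap p false ++ S.lap p true) Q') := by
  have htwo := hI.two q hq
  match q, htwo with
  | b :: y :: ys, _ =>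
    obtain ⟨J, Q1, hJ, rfl, N, Q2, hN, rfl, hT⟩ := hQ
    have hle := hI.le _ hq
    have hb : b ≤ S.R := hle b (by simp)
    have hy : y ≤ S.R := hle y (by simp)
    have ha : (b :: y :: ys).getLastD 0 ≤ S.R := by
      apply hle
      rw [List.getLastD_eq_getLast?, List.getLast?_eq_getLast_of_ne_nil (List.cons_ne_nil b (y :: ys))]
      exact List.getLast_mem (List.cons_ne_nil b (y :: ys))
    set a := (b :: y :: ys).getLastD 0 with ha_def
    have hg0 := hI.good0 b (y :: ys) hq
    rw [← ha_def] at hg0
    simp only [MSys.step, ← ha_def] at hs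
    rcases hF0 : S.F false a b with _ | x1
    · simp [hF0] at hs
    · rw [hF0] at hs
      simp only [Option.bind_some] at hs
      have hg1 := hI.good1 b (y :: ys) x1 hq (by rw [← ha_def]; exact hF0)
      rcases hF1 : S.F true x1 b with _ | x2
      · simp [hF1] at hs
      · rw [hF1] at hs
        simp only [Option.map_some, Option.some.injEq] at hs
        subst hs
        obtain ⟨v, hv, rfl⟩ := S.F_some hF0
        obtain ⟨hv1, hv2⟩ := hg0 v hv
        obtain ⟨v', hv', rfl⟩ := S.F_some hF1
        obtain ⟨hv3, hv4⟩ := hg1 v' hv'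
        obtain ⟨X, e, h1, h2, h3⟩ := S.lap0 p a b v ha hb hv hv1 hv2 J hJ
        obtain ⟨X', e', h4, h5, h6⟩ := S.lap1 p (2 * b + S.R + S.κ false - v) b v' (by omega) hb hv' hv3 hv4
        have hγ := S.P_le false
        set x1 := 2 * b + S.R + S.κ false - v with hx1
        set x2 := 2 * b + S.R + S.κ true - v' with hx2
        obtain ⟨N1, hN1, hN1l⟩ := dbl_even e (2 * (S.γ + x1 - a)) (by omega)
        obtain ⟨N2, hN2, hN2l⟩ := dbl_even e' (2 * (S.γ + x2 - x1)) (by omega)
        have hEx := h2.append h5
        have hne : 2 ≤ ((S.lap p false ++ S.lap p true) ++ []).length := by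
          unfold MSys.lap
          simp only [List.length_append, tp_length, S.B_length p, List.length_nil, MSys.t]
          omega
        have hlast : (y :: (ys ++ [x1, x2])).getLastD 0 = x2 := by
          have e0 : y :: (ys ++ [x1, x2]) = (y :: (ys ++ [x1])) ++ [x2] := by simp
          rw [e0, List.getLastD_eq_getLast?, List.getLast?_append]
          rfl
        have hya : (y :: ys).getLastD 0 = a := by
          rw [ha_def, last_cons2]
        have hlast1 : (y :: (ys ++ [x1])).getLastD 0 = x1 := by
          have e0 : y :: (ys ++ [x1]) = (y :: ys) ++ [x1] := by simp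
          rw [e0, List.getLastD_eq_getLast?, List.getLast?_append]
          rfl
        set n := S.γ + S.R + 2 * b - x2 with hn
        have eQ : dl J ++ (cl (hx (S.B p)) ++ (dl N ++ Q2)) =
            (dl J ++ cl X ++ cl X') ++ (cl (brt n) ++ (dl N ++ Q2)) := by
          rw [h1, h4]
          simp only [cl_append, List.append_assoc]
        have hrun := hEx.run [] (cl (brt n) ++ (dl N ++ Q2)) hne
        rw [List.append_nil, List.nil_append] at hrun
        refine ⟨(cl (brt n) ++ (dl N ++ Q2)) ++ dbl ((tp (S.B p) ++ e) ++ (tp (S.B p) ++ e')), ?_, ?_, ?_⟩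
        · refine ⟨(brt n).map (fun x => (x, false)) ++ N, Q2 ++ (cl (hx (S.B p)) ++ dl N1) ++
            (cl (hx (S.B p)) ++ dl N2), ?_, ?_, ?_⟩
          · simp only [List.append_eq] at hlast ⊢
            rw [hlast, List.length_append, List.length_map, brt_length, hN]
            omega
          · rw [dl_append, ← cl_eq_dl, dbl_append, dbl_append, dbl_append, dbl_tp, hN1, hN2]
            simp only [List.append_assoc]
          · have h7 := S.TR_append p ys y Q2 hT x1 N1 (by rw [hya]; exact hN1l)
            have h8 := S.TR_append p (ys ++ [x1]) y _ h7 x2 N2 (by rw [hlast1]; exact hN2l)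
            simpa using h8
        · have hl := hEx.length
          have hd : ∀ z : List Bool, (dbl z).length = 2 * z.length := by
            intro z
            induction z with
            | nil => rfl
            | cons c z ih =>
              have : dbl (c :: z) = [false, c] ++ dbl z := rfl
              rw [this, List.length_append, ih]
              simp
              omega
          have hh : 10 ≤ S.h := by
            unfold MSys.h
            omega
          have hpos : 0 < (dl J ++ cl X ++ cl X').length := by
            rw [List.length_append, List.length_append, dl_length]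
            omega
          rw [eQ, List.length_append (as := dl J ++ cl X ++ cl X'),
            List.length_append (as := cl (brt n) ++ (dl N ++ Q2)), hd, hl]
          omega
        · rw [eQ]
          exact hrun

/-- a halting step of (M) -/
theorem MSys.two_laps_halt {I : List ℕ → Prop} (hI : S.Inv I) (p : ℕ) (q : List ℕ) (hq : I q)
    (hs : S.step q = none) (Q : List Bool) (hQ : S.QR p q Q) :
    YT.Halts (yc false (S.lap p false ++ S.lap p true) Q) := by
  have halts_of : ∀ (P1 P2 d e q : List Bool), Ex P1 false d true e → 2 ≤ (P1 ++ false :: P2).length →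
      YT.Halts (yc false (P1 ++ false :: P2) (d ++ q)) := by
    intro P1 P2 d e q h h0
    have h1 := h.run (false :: P2) q h0
    refine h1.halts_iff.mpr ⟨0, ?_⟩
    exact yc_halt _ _
  have hlen2 : 2 ≤ (S.lap p false ++ S.lap p true).length := by
    unfold MSys.lap
    simp only [List.length_append, tp_length, S.B_length p, MSys.t]
    omega
  have htwo := hI.two q hq
  match q, htwo with
  | b :: y :: ys, _ =>
    obtain ⟨J, Q1, hJ, rfl, N, Q2, hN, rfl, hT⟩ := hQ
    have hle := hI.le _ hq
    have hb : b ≤ S.R := hle b (by simp)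
    have ha : (b :: y :: ys).getLastD 0 ≤ S.R := by
      apply hle
      rw [List.getLastD_eq_getLast?, List.getLast?_eq_getLast_of_ne_nil (List.cons_ne_nil b (y :: ys))]
      exact List.getLast_mem (List.cons_ne_nil b (y :: ys))
    set a := (b :: y :: ys).getLastD 0 with ha_def
    have hg0 := hI.good0 b (y :: ys) hq
    rw [← ha_def] at hg0
    simp only [MSys.step, ← ha_def] at hs
    rcases hF0 : S.F false a b with _ | x1
    · have hv := S.F_none hF0
      obtain ⟨P1, P2, X1, X2, h1, h2, e, h3⟩ := S.gz_halt false (2 * b + S.R - a)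
        (4 * S.γ + 2 * S.t p - 2 * S.P false) (by omega) hv
      have hB := S.B_length p
      have ht : S.t p = 3 * S.γ + 3 * S.R + 1 + p := rfl
      obtain ⟨B', hB'⟩ : ∃ B', S.B p = List.replicate J.length false ++ false :: B' := by
        unfold MSys.B
        have e1 : List.replicate (S.t p) false = List.replicate J.length false ++
            false :: List.replicate (S.t p - J.length - 1) false := by
          rw [← List.replicate_succ, ← List.replicate_add]
          congr 1
          omega
        rw [e1]
        exact ⟨_, by rw [List.append_assoc, List.cons_append]⟩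
      have h4 : B'.length + 1 = (brt (2 * S.t p - (2 * b + S.R - a))).length := by
        have := congrArg List.length hB'
        simp only [List.length_append, List.length_replicate, List.length_cons] at this
        rw [brt_length]
        omega
      have h5 := YLapAux.tp_junk J B' _ h4 false
      rw [← hB'] at h5
      have h6 := h5.append h3
      have e1 : S.lap p false ++ S.lap p true = (tp (S.B p) ++ P1) ++ false :: (P2 ++ S.lap p true) := by
        unfold MSys.lap
        rw [h1]
        simp
      have e2 : dl J ++ (cl (hx (S.B p)) ++ (dl N ++ Q2)) =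
          (dl J ++ cl (brt (2 * S.t p - (2 * b + S.R - a))) ++ (cl X1 ++ [false, true])) ++
          ([false, false] ++ (cl X2 ++ (cl (hol (2 * S.h) (S.L true).length ++ brt (2 * S.γ - 2 * S.P true)) ++
            (dl N ++ Q2)))) := by
        have h7 : hx (S.B p) = brt (2 * S.t p - (2 * b + S.R - a)) ++ ((X1 ++ true :: X2) ++
            (hol (2 * S.h) (S.L true).length ++ brt (2 * S.γ - 2 * S.P true))) := by
          rw [← h2, S.hx_B p, brt_split (2 * S.t p - (2 * b + S.R - a)) (2 * b + S.R - a) (2 * S.t p) (by omega)]
          simp only [List.append_assoc]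
        have h8 : cl (X1 ++ true :: X2) = cl X1 ++ ([false, true] ++ ([false, false] ++ cl X2)) := by
          rw [cl_append]
          rfl
        rw [h7, cl_append, cl_append, h8]
        simp only [List.append_assoc]
      rw [e1, e2]
      refine halts_of _ _ _ _ _ h6 ?_
      rw [← e1]
      exact hlen2
    · rw [hF0] at hs
      simp only [Option.bind_some, Option.map_eq_none_iff] at hs
      have hg1 := hI.good1 b (y :: ys) x1 hq (by rw [← ha_def]; exact hF0)
      obtain ⟨v, hv, rfl⟩ := S.F_some hF0
      obtain ⟨hv1, hv2⟩ := hg0 v hv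
      have hv' := S.F_none hs
      obtain ⟨X, e, h1, h2, h3⟩ := S.lap0 p a b v ha hb hv hv1 hv2 J hJ
      obtain ⟨P1, P2, X1, X2, h4, h5, e', h6⟩ := S.gz_halt true
        (2 * b + S.R - (2 * b + S.R + S.κ false - v)) (2 * S.γ - 2 * S.P true) (by omega) hv'
      have h7 := (h2.append (YLapAux.tp_clean (S.B p) (brt (S.B p).length) (by simp))).append h6
      have e1 : S.lap p false ++ S.lap p true =
          (S.lap p false ++ tp (S.B p) ++ P1) ++ false :: P2 := by
        conv_lhs => rw [show S.lap p true = tp (S.B p) ++ S.gz true from rfl, h4]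
        simp only [List.append_assoc]
      have e2 : dl J ++ (cl (hx (S.B p)) ++ (dl N ++ Q2)) =
          (dl J ++ cl X ++ cl (brt (S.B p).length) ++ (cl X1 ++ [false, true])) ++
          ([false, false] ++ (cl X2 ++ (dl N ++ Q2))) := by
        have h8 : cl (X1 ++ true :: X2) = cl X1 ++ ([false, true] ++ ([false, false] ++ cl X2)) := by
          rw [cl_append]
          rfl
        rw [h1, brt_split (S.B p).length _ _ rfl, List.append_assoc (brt (S.B p).length), h5, cl_append, cl_append, h8]
        simp only [List.append_assoc]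
      rw [e1, e2]
      refine halts_of _ _ _ _ _ h7 ?_
      rw [← e1]
      exact hlen2

/-- The system Y' simulates the recursion (M). -/
theorem MSys.sim {I : List ℕ → Prop} (hI : S.Inv I) (p : ℕ) (q : List ℕ) (hq : I q) (Q : List Bool)
    (hQ : S.QR p q Q) : YT.Halts (yc false (S.lap p false ++ S.lap p true) Q) ↔ S.Halts q := by
  have hit : ∀ n q, S.iter (n + 1) q = (S.step (S.iter n q)).getD (S.iter n q) := by
    intro n q
    unfold MSys.iter
    rw [Function.iterate_succ_apply']
  have key : ∀ n, ∃ Q', I (S.iter n q) ∧ S.QR p (S.iter n q) Q' ∧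
      YT.Run (yc false (S.lap p false ++ S.lap p true) Q) (yc false (S.lap p false ++ S.lap p true) Q') := by
    intro n
    induction n with
    | zero => exact ⟨Q, hq, hQ, GTab.Run.refl _⟩
    | succ n ih =>
      obtain ⟨Q', h1, h2, h3⟩ := ih
      rw [hit]
      rcases hs : S.step (S.iter n q) with _ | q'
      · exact ⟨Q', h1, h2, h3⟩
      · obtain ⟨Q'', h4, _, h5⟩ := S.two_laps hI p _ _ h1 hs Q' h2
        exact ⟨Q'', hI.step _ _ h1 hs, h4, h3.trans h5⟩
  constructor
  · intro hH
    by_contra hno
    have hs : ∀ n, ∃ q', S.step (S.iter n q) = some q' := by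
      intro n
      rcases h : S.step (S.iter n q) with _ | q'
      · exact absurd ⟨n, h⟩ hno
      · exact ⟨q', rfl⟩
    -- a sequence of queues
    have hex : ∀ n (Q' : {Q' // S.QR p (S.iter n q) Q'}), ∃ Q'' : {Q'' // S.QR p (S.iter (n + 1) q) Q''},
        Q'.1.length < Q''.1.length ∧
        YT.Run (yc false (S.lap p false ++ S.lap p true) Q'.1) (yc false (S.lap p false ++ S.lap p true) Q''.1) := by
      rintro n ⟨Q', hQ'⟩
      obtain ⟨q', hq'⟩ := hs n
      obtain ⟨_, h1, _, _⟩ := key n
      obtain ⟨Q'', h4, h5, h6⟩ := S.two_laps hI p _ _ h1 hq' Q' hQ'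
      refine ⟨⟨Q'', ?_⟩, h5, h6⟩
      rw [hit, hq']
      exact h4
    choose nxt hn1 hn2 using hex
    let seq : (n : ℕ) → {Q' // S.QR p (S.iter n q) Q'} := fun n => Nat.rec ⟨Q, hQ⟩ (fun n Q' => nxt n Q') n
    have h0 : (seq 0).1 = Q := rfl
    have hstep : ∀ ps d, S.lap p false ++ S.lap p true = true :: ps →
        YT.step (yc false (S.lap p false ++ S.lap p true) d) ≠ none := by
      intro ps d h
      rw [h]
      exact yc_step ps d false
    have hps : ∃ ps, S.lap p false ++ S.lap p true = true :: ps := by
      have h1 : S.B p = false :: (S.B p).tail := by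
        unfold MSys.B MSys.t
        rw [show 3 * S.γ + 3 * S.R + 1 + p = (3 * S.γ + 3 * S.R + p) + 1 by omega, List.replicate_succ]
        rfl
      have h2 : tp (S.B p) = true :: ([false, true, false] ++ tp (S.B p).tail) := by
        conv_lhs => rw [h1]
        rfl
      unfold MSys.lap
      exact ⟨([false, true, false] ++ tp (S.B p).tail) ++ S.gz false ++
        ((true :: ([false, true, false] ++ tp (S.B p).tail)) ++ S.gz true), by rw [h2]; rfl⟩
    obtain ⟨ps, hps⟩ := hps
    have := GTab.no_halt (T := YT) (fun n => yc false (S.lap p false ++ S.lap p true) (seq n).1) (fun n => by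
      obtain ⟨k, hk⟩ := hn2 n (seq n)
      cases k with
      | zero =>
        exfalso
        have h1 := hn1 n (seq n)
        have h2 : yc false (S.lap p false ++ S.lap p true) (seq n).1 =
            yc false (S.lap p false ++ S.lap p true) (nxt n (seq n)).1 := hk
        rw [hps] at h2
        have h3 : (seq n).1 = (nxt n (seq n)).1 := congrArg GC.d h2
        rw [h3] at h1
        exact lt_irrefl _ h1
      | succ k => exact ⟨k, hk⟩) (fun n => hstep ps _ hps)
    exact this hH
  · rintro ⟨n, hn⟩
    obtain ⟨Q', h1, h2, h3⟩ := key n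
    exact h3.halts_iff.mpr (S.two_laps_halt hI p _ h1 hn Q' h2)

end P913
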