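import Pool.Agent.Lib.P913.YEx

/-!
# Units of the system Y'

Program units have 4 slots, units of the data ring 4 letters `0 x 0 y`.
-/

set_option autoImplicit false

namespace P913

/-- the background unit -/
def bgS : List Bool := [true, false, true, false]

/-- the transmitter -/
def teS : List Bool := [false, false, true, false]

/-- the sensor -/
def seS : List Bool := [true, true, true, false]

/-- the normaliser -/
def noS : List Bool := [true, false, true, true]

/-- the halting unit -/
def haS : List Bool := [true, false, false, false]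

/-- `n` background units -/
def bgs (n : ℕ) : List Bool := (List.replicate n bgS).flatten

/-- units of the data ring -/
def dl (D : List (Bool × Bool)) : List Bool := D.flatMap fun p => [false, p.1, false, p.2]

/-- clean units of the data ring -/
def cl (X : List Bool) : List Bool := X.flatMap fun x => [false, x, false, false]

/-- clean units, shifted by half a unit -/
def sh2 (X : List Bool) : List Bool := X.flatMap fun x => [false, false, false, x]

/-- execution of slots, the emitted letters are not specified -/
def ExE (P : List Bool) (m : Bool) (d : List Bool) (m' : Bool) : Prop := ∃ e, Ex P m d m' e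

theorem ExE.append {P P' d d' : List Bool} {m m1 m2 : Bool} (h : ExE P m d m1) (h' : ExE P' m1 d' m2) :
    ExE (P ++ P') m (d ++ d') m2 := by
  obtain ⟨e, he⟩ := h
  obtain ⟨e', he'⟩ := h'
  exact ⟨_, he.append he'⟩

theorem bgs_succ (n : ℕ) : bgs (n + 1) = bgS ++ bgs n := by
  simp [bgs, List.replicate_succ]

theorem bgs_add (m n : ℕ) : bgs (m + n) = bgs m ++ bgs n := by
  unfold bgs
  rw [← List.replicate_append_replicate, List.flatten_append]

theorem bgs_length (n : ℕ) : (bgs n).length = 4 * n := by
  induction n with
  | zero => rfl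
  | succ n ih =>
    rw [bgs_succ, List.length_append, ih]
    simp [bgS]
    omega

theorem cl_append (X Y : List Bool) : cl (X ++ Y) = cl X ++ cl Y := by
  simp [cl]

theorem cl_length (X : List Bool) : (cl X).length = 4 * X.length := by
  induction X with
  | nil => rfl
  | cons x X ih =>
    have : cl (x :: X) = [false, x, false, false] ++ cl X := rfl
    rw [this, List.length_append, ih]
    simp
    omega

theorem dl_append (X Y : List (Bool × Bool)) : dl (X ++ Y) = dl X ++ dl Y := by
  simp [dl]

theorem dl_length (X : List (Bool × Bool)) : (dl X).length = 4 * X.length := by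
  induction X with
  | nil => rfl
  | cons x X ih =>
    have : dl (x :: X) = [false, x.1, false, x.2] ++ dl X := rfl
    rw [this, List.length_append, ih]
    simp
    omega

theorem cl_eq_dl (X : List Bool) : cl X = dl (X.map fun x => (x, false)) := by
  simp [cl, dl, List.flatMap_map]

namespace YUnitAux

theorem bg0 (m x y : Bool) : Ex bgS m [false, x, false, y] y [true, false, true, false] :=
  Ex.z0 m (Ex.e0 x (Ex.z0 x (Ex.e0 y (Ex.nil y))))

theorem te0 (x y : Bool) : Ex teS false [false, x, false, y] y [false, false, true, false] :=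
  Ex.e0 false (Ex.e0 x (Ex.z0 x (Ex.e0 y (Ex.nil y))))

theorem se0 : Ex seS false [false, false, false, false] false [true, true, true, false] :=
  Ex.z0 _ (Ex.z0 _ (Ex.z0 _ (Ex.e0 false (Ex.nil _))))

theorem se1 : Ex seS false [false, true, false, false, false] false [true, true, false, true, false] :=
  Ex.z0 _ (Ex.z1 _ (Ex.z0 _ (Ex.e0 false (Ex.nil _))))

theorem no0 (x : Bool) : Ex noS false [false, x, false, false] false [true, false, true, true] :=
  Ex.z0 _ (Ex.e0 x (Ex.z0 _ (Ex.z0 _ (Ex.nil _))))

theorem bg1 (m x : Bool) : Ex bgS m [true, false, false, false, x] x [true, false, false, true, false] :=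
  Ex.z1 _ (Ex.e0 false (Ex.z0 _ (Ex.e0 x (Ex.nil _))))

theorem bg2 (m x : Bool) : Ex bgS m [false, false, false, x] x [true, false, true, false] :=
  Ex.z0 _ (Ex.e0 false (Ex.z0 _ (Ex.e0 x (Ex.nil _))))

theorem ha2 (m x : Bool) : Ex haS m [false, false, false, x] x [true, false, false, false] :=
  Ex.z0 _ (Ex.e0 false (Ex.e0 false (Ex.e0 x (Ex.nil _))))

theorem no2 (m : Bool) : Ex noS m [false, false, false, true, false] false [true, false, true, true, false] :=
  Ex.z0 _ (Ex.e0 false (Ex.z0 _ (Ex.z1 _ (Ex.nil _))))

theorem bg3 (m : Bool) : Ex bgS m [false, false, true, false, false] false [true, false, true, false, false] :=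
  Ex.z0 _ (Ex.e0 false (Ex.z1 _ (Ex.e0 false (Ex.nil _))))

theorem bgs2 (X : List Bool) : ∀ m, ∃ m', ExE (bgs X.length) m (sh2 X) m' := by
  induction X with
  | nil => intro m; exact ⟨m, [], Ex.nil m⟩
  | cons x X ih =>
    intro m
    obtain ⟨m', h⟩ := ih x
    refine ⟨m', ?_⟩
    rw [List.length_cons, bgs_succ]
    exact ExE.append ⟨_, bg2 m x⟩ h

theorem shift (X Y : List Bool) : [false, false] ++ cl (X ++ Y) = sh2 X ++ ([false, false] ++ cl Y) := by
  induction X with
  | nil => rfl
  | cons x X ih =>
    have e1 : [false, false] ++ cl (x :: X ++ Y) = [false, false, false, x] ++ ([false, false] ++ cl (X ++ Y)) := rfl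
    rw [e1, ih]
    rfl

end YUnitAux

open YUnitAux

/-- background units read clean units -/
theorem bgs_cl (X : List Bool) : ExE (bgs X.length) false (cl X) false := by
  induction X with
  | nil => exact ⟨[], Ex.nil _⟩
  | cons x X ih =>
    rw [List.length_cons, bgs_succ]
    exact ExE.append ⟨_, bg0 false x false⟩ ih

/-- the gate; `s = true`: halting gate -/
def gate (l : ℕ) (s : Bool) : List Bool := seS ++ (bgs l ++ ((if s then haS else bgS) ++ (noS ++ bgS)))

theorem gate_hit (l : ℕ) (X : List Bool) (hX : X.length = l + 3) :
    ExE (gate l false) false (cl (false :: X)) false := by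
  obtain ⟨X1, x, y, z, rfl, h1⟩ : ∃ X1 x y z, X = X1 ++ [x, y, z] ∧ X1.length = l := by
    refine ⟨X.take l, X[l], X[l+1], X[l+2], ?_, by simp; omega⟩
    apply List.ext_getElem
    · simp; omega
    · intro i h2 h3
      rcases Nat.lt_or_ge i l with h | h
      · rw [List.getElem_append_left (by simp; omega)]
        simp
      · rw [List.getElem_append_right (by simp; omega)]
        obtain ⟨j, rfl⟩ := Nat.exists_eq_add_of_le h
        have e : l + j - (X.take l).length = j := by simp; omega
        simp only [e]
        match j, h2 with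
        | 0, _ => rfl
        | 1, _ => rfl
        | 2, _ => rfl
        | j + 3, h2 => omega
  have e1 : cl (false :: (X1 ++ [x, y, z])) =
      [false, false, false, false] ++ (cl X1 ++ ([false, x, false, false] ++ ([false, y, false, false] ++
        [false, z, false, false]))) := by
    simp [cl]
  rw [e1]
  unfold gate
  refine ExE.append ⟨_, se0⟩ (ExE.append (m1 := false) ?_ (ExE.append (m1 := false) ?_
    (ExE.append ⟨_, no0 y⟩ ⟨_, bg0 false z false⟩)))
  · rw [← h1]
    exact bgs_cl X1
  · exact ⟨_, bg0 false x false⟩

/-- a gate which is not hit needs one unit more -/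
theorem gate_miss (l : ℕ) (s : Bool) (x1 x2 : Bool) (hx : x1 = true ∨ x2 = true) (X : List Bool)
    (hX : X.length = l + 2) :
    ExE (gate (l + 2) s) false (cl (true :: x1 :: x2 :: (X ++ [true, true]))) false := by
  unfold gate
  cases x1 with
  | true =>
    obtain ⟨X1, x, rfl⟩ : ∃ X1 x, X = X1 ++ [x] :=
      ⟨X.dropLast, X.getLast (by rintro rfl; simp at hX), (List.dropLast_append_getLast _).symm⟩
    have h1 : X1.length = l + 1 := by simpa using hX
    have e1 : cl (true :: true :: x2 :: (X1 ++ [x] ++ [true, true])) =
        [false, true, false, false, false] ++ ([true, false, false, false, x2] ++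
          ([false, false] ++ cl (X1 ++ ([x] ++ [true, true])))) := by
      simp [cl]
    have e2 : [false, false] ++ cl ([x] ++ [true, true]) = [false, false, false, x] ++
        ([false, false, false, true, false] ++ [false, false, true, false, false]) := rfl
    have e3 : bgs (l + 2) = bgS ++ bgs X1.length := by rw [h1, bgs_succ]
    obtain ⟨m', h2⟩ := bgs2 X1 x2
    rw [e1, shift, e2, e3, List.append_assoc]
    refine ExE.append ⟨_, se1⟩ (ExE.append ⟨_, bg1 false x2⟩ (ExE.append h2 (ExE.append (m1 := x) ?_
      (ExE.append ⟨_, no2 x⟩ ⟨_, bg3 false⟩))))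
    cases s with
    | true => exact ⟨_, ha2 m' x⟩
    | false => exact ⟨_, bg2 m' x⟩
  | false =>
    have hx2 : x2 = true := by simpa using hx
    subst hx2
    obtain ⟨x3, Y, rfl⟩ : ∃ x3 Y, X = x3 :: Y := by
      cases X with
      | nil => simp at hX
      | cons x3 Y => exact ⟨x3, Y, rfl⟩
    obtain ⟨X1, x, rfl⟩ : ∃ X1 x, Y = X1 ++ [x] :=
      ⟨Y.dropLast, Y.getLast (by rintro rfl; simp at hX), (List.dropLast_append_getLast _).symm⟩
    have h1 : X1.length = l := by simp at hX; omega
    have e1 : cl (true :: false :: true :: (x3 :: (X1 ++ [x]) ++ [true, true])) =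
        [false, true, false, false, false] ++ ([false, false, false, false] ++ ([true, false, false, false, x3] ++
          ([false, false] ++ cl (X1 ++ ([x] ++ [true, true]))))) := by
      simp [cl]
    have e2 : [false, false] ++ cl ([x] ++ [true, true]) = [false, false, false, x] ++
        ([false, false, false, true, false] ++ [false, false, true, false, false]) := rfl
    have e3 : bgs (l + 2) = bgS ++ (bgS ++ bgs X1.length) := by rw [h1, bgs_succ, bgs_succ]
    obtain ⟨m', h2⟩ := bgs2 X1 x3
    rw [e1, shift, e2, e3, List.append_assoc, List.append_assoc]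
    refine ExE.append ⟨_, se1⟩ (ExE.append (m1 := false) ⟨_, bg2 false false⟩ (ExE.append ⟨_, bg1 false x3⟩
      (ExE.append h2 (ExE.append (m1 := x) ?_ (ExE.append ⟨_, no2 x⟩ ⟨_, bg3 false⟩)))))
    cases s with
    | true => exact ⟨_, ha2 m' x⟩
    | false => exact ⟨_, bg2 m' x⟩

/-- the part of the halting gate before the halting slot -/
def gate1 (l : ℕ) : List Bool := seS ++ (bgs l ++ [true, false])

theorem gate_eq (l : ℕ) : gate l true = gate1 l ++ (false :: ([false] ++ (noS ++ bgS))) := by
  simp [gate, gate1, haS]

theorem gate_halt (l : ℕ) (X : List Bool) (hX : X.length = l) :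
    ExE (gate1 l) false (cl (false :: X) ++ [false, true]) true := by
  have e1 : cl (false :: X) ++ [false, true] = [false, false, false, false] ++ (cl X ++ [false, true]) := rfl
  rw [e1]
  unfold gate1
  refine ExE.append ⟨_, se0⟩ (ExE.append (m1 := false) ?_ ⟨_, Ex.z0 _ (Ex.e0 true (Ex.nil _))⟩)
  rw [← hX]
  exact bgs_cl X

end P913
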