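import Pool.Agent.Lib.P913.Unsh

/-!
# Module ZoneA: the reading of the zone A

PROOF of `zoneA`.  `rowA` and `pat` are concatenations of four parts of the same lengths (7; sum over the
letters, `len_ivk`, `len_iv`; 6; 2), so `rdv_append` and `rdv_flatMap` split the reading.  Head zone: `rdv_stk`
(`7 = (hd κ).length`).  Interval of the letter `a`: again a part of `len a` cells and `pad a` cells
(`rdv_append`, `rdv_stk`).  Cases: `a = η`, `t = true`: `stk 9` read with `ons 9` or `false :: ons 7 ++ [false]`;
`a = η`, `t = false`, `κ ≠ lt η`: `shf [] ++ stk 3` read with `ons 9`: `rdv_shf_ones`, `rdv_stk`.  `a ≠ η`,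
`t = true`, `a` odd: `stk (len a)`; otherwise `rdv_shf_ones`, `rdv_shf_gap` (`len a = (shf ..).length` by
`len_ivk`-like computations: `len_shf`, `cnt_lt`, `cnt_dk`).  y zone: `shf []` has length 6: `rdv_shf_ones`,
`rdv_shf_gap` with `l = []`.  Last zone: `rdv_stk`.
`zoneA_eta`: the same computation for `t = false`, `κ = lt η`: all intervals of the letters before `η` (the
list `List.finRange K` is split at `η`: `l₁ ++ η :: l₂`) give lines, the interval of `η` gives `rdv_shf_mis`.
-/

set_option autoImplicit false

namespace P913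

section

variable {K : ℕ} (pr : Fin K → List (Fin K)) (η : Fin K)

namespace ZoneAAux

lemma len_hd (κ : Kd K) : (hd κ).length = 7 := by cases κ <;> rfl

lemma len_yz (κ : Kd K) : (yz pr η κ).length = 6 := by
  unfold yz
  split_ifs <;> rfl

lemma len_stk (n : ℕ) : (stk pr η n).length = n := by simp [stk]

lemma len_shf_nil : (shf pr η []).length = 6 := by
  rw [len_shf]
  rfl

lemma rdv_stk_ons (n : ℕ) :
    rdv (stk pr η n) (ons n) = lbits pr η (List.replicate n Ln.str) := by
  have h := rdv_stk pr η (ons n)
  rw [List.length_replicate, List.count_replicate_self] at h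
  exact h

lemma rdv_stk' {n : ℕ} (v : List Bool) (h : n = v.length) :
    rdv (stk pr η n) v = lbits pr η (List.replicate (v.count true) Ln.str) := by
  rw [h]
  exact rdv_stk pr η v

lemma rdv_ones' {n : ℕ} (l : List (Kd K)) (h : (shf pr η l).length = n) :
    rdv (shf pr η l) (ons n) = lbits pr η (Ln.U1 :: l.map Ln.rot ++ [Ln.U2]) := by
  rw [← h]
  exact rdv_shf_ones pr η l

lemma rdv_gap' {n : ℕ} (l : List (Kd K)) (h : (shf pr η l).length = n) :
    rdv (shf pr η l) (false :: ons (n - 2) ++ [false]) =
      lbits pr η (Ln.base Kd.phi :: l.map Ln.base) := by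
  rw [← h]
  exact rdv_shf_gap pr η l

lemma rdv_hd (κ : Kd K) :
    rdv (stk pr η 7) (hd κ) = lbits pr η (List.replicate ((hd κ).count true) Ln.str) :=
  rdv_stk' pr η _ (len_hd κ).symm

lemma rdv_yz (κ : Kd K) :
    rdv (shf pr η []) (yz pr η κ) =
      lbits pr η (if hasY pr η κ then [Ln.base Kd.phi] else [Ln.U1, Ln.U2]) := by
  unfold yz
  split_ifs with h
  · exact rdv_gap' pr η [] (len_shf_nil pr η)
  · exact rdv_ones' pr η [] (len_shf_nil pr η)

lemma rdv_fi (κ : Kd K) :
    rdv (stk pr η 2) (fi κ) = lbits pr η (if κ = Kd.om then [] else [Ln.str, Ln.str]) := by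
  rw [rdv_stk' pr η (fi κ) (by unfold fi; split_ifs <;> rfl)]
  unfold fi
  split_ifs <;> rfl

lemma len_gap (n : ℕ) (h : 2 ≤ n) : (false :: ons (n - 2) ++ [false]).length = n := by
  simp
  omega

lemma cnt_gap (n : ℕ) : (false :: ons (n - 2) ++ [false]).count true = n - 2 := by
  simp

lemma len_eta : len pr η η = 9 := by simp [len]

/-- the first part of an interval -/
lemma len_X (t : Bool) (a : Fin K) :
    (if a = η then (if t then stk pr η 9 else shf pr η [] ++ stk pr η 3)
    else if t then (if oddL pr η a then stk pr η (len pr η a)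
        else shf pr η ((pr a).map (dk pr η)))
      else shf pr η ((pr a).map Kd.lt)).length = len pr η a := by
  have h := len_ivk pr η t a
  unfold ivk at h
  rw [List.length_append, len_stk] at h
  omega

lemma len_Y (κ : Kd K) (a : Fin K) :
    (if κ = Kd.lt a then false :: ons (len pr η a - 2) ++ [false] else ons (len pr η a)).length =
      len pr η a := by
  have h := len_iv pr η κ a
  unfold iv at h
  rw [List.length_append, List.length_replicate] at h
  omega

lemma rdv_iv (t : Bool) (κ : Kd K) (a : Fin K) (h : t = true ∨ κ ≠ Kd.lt η ∨ a ≠ η) :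
    rdv (ivk pr η t a) (iv pr η κ a) = lbits pr η (Fiv pr η t κ a) := by
  have hX := len_X pr η t a
  have hY := len_Y pr η κ a
  unfold ivk iv Fiv
  rw [rdv_append (hX.trans hY.symm), rdv_stk_ons, lbits_append]
  congr 1
  have h2 := two_le_len pr η a
  by_cases ha : a = η
  · rw [if_pos ha] at hX ⊢
    rw [if_pos ha]
    cases t with
    | true =>
      rw [if_pos rfl] at hX ⊢
      rw [if_pos rfl]
      have h9 : len pr η a = 9 := by rw [ha]; exact len_eta pr η
      by_cases hκ : κ = Kd.lt a
      · rw [if_pos hκ, if_pos hκ, h9]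
        exact rdv_stk pr η (false :: ons 7 ++ [false])
      · rw [if_neg hκ, if_neg hκ, h9]
        exact rdv_stk_ons pr η 9
    | false =>
      have hκ : κ ≠ Kd.lt a := by
        rcases h with h | h | h
        · cases h
        · rw [ha]; exact h
        · exact absurd ha h
      have h9 : len pr η a = 9 := by rw [ha]; exact len_eta pr η
      rw [if_neg Bool.false_ne_true, if_neg Bool.false_ne_true, if_neg hκ, h9]
      have e : ons 9 = ons 6 ++ ons 3 := rfl
      rw [e, rdv_append (by rw [len_shf_nil, List.length_replicate]), rdv_stk_ons,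
        rdv_ones' pr η [] (len_shf_nil pr η), ← lbits_append]
      rfl
  · rw [if_neg ha] at hX ⊢
    rw [if_neg ha]
    cases t with
    | true =>
      rw [if_pos rfl] at hX ⊢
      rw [if_pos rfl]
      by_cases ho : oddL pr η a = true
      · rw [if_pos ho, if_pos ho]
        by_cases hκ : κ = Kd.lt a
        · rw [if_pos hκ, if_pos hκ, rdv_stk' pr η _ (len_gap _ (by omega)).symm, cnt_gap]
        · rw [if_neg hκ, if_neg hκ, rdv_stk_ons]
      · rw [if_neg ho] at hX ⊢
        rw [if_neg ho]
        by_cases hκ : κ = Kd.lt a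
        · rw [if_pos hκ, if_pos hκ, rdv_gap' pr η _ hX]
        · rw [if_neg hκ, if_neg hκ, rdv_ones' pr η _ hX]
    | false =>
      rw [if_neg Bool.false_ne_true] at hX ⊢
      rw [if_neg Bool.false_ne_true]
      by_cases hκ : κ = Kd.lt a
      · rw [if_pos hκ, if_pos hκ, rdv_gap' pr η _ hX]
      · rw [if_neg hκ, if_neg hκ, rdv_ones' pr η _ hX]

lemma len_flat (t : Bool) (κ : Kd K) (l : List (Fin K)) :
    (l.flatMap (ivk pr η t)).length = (l.flatMap (iv pr η κ)).length := by
  induction l with
  | nil => rfl
  | cons a l ih =>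
    rw [List.flatMap_cons, List.flatMap_cons, List.length_append, List.length_append, ih,
      len_ivk, len_iv]

lemma rdv_flat (t : Bool) (κ : Kd K) (l : List (Fin K))
    (h : ∀ a ∈ l, t = true ∨ κ ≠ Kd.lt η ∨ a ≠ η) :
    rdv (l.flatMap (ivk pr η t)) (l.flatMap (iv pr η κ)) =
      lbits pr η (l.flatMap (Fiv pr η t κ)) := by
  induction l with
  | nil => rfl
  | cons a l ih =>
    rw [List.flatMap_cons, List.flatMap_cons, List.flatMap_cons,
      rdv_append (by rw [len_ivk, len_iv]), lbits_append,
      rdv_iv pr η t κ a (h a List.mem_cons_self),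
      ih (fun b hb => h b (List.mem_cons_of_mem _ hb))]

end ZoneAAux

open ZoneAAux in
theorem zoneA (t : Bool) (κ : Kd K) (h : t = true ∨ κ ≠ Kd.lt η) :
    rdv (rowA pr η t) (pat pr η κ) = lbits pr η (FA pr η t κ) := by
  have h1 : (stk pr η 7).length = (hd κ).length := by rw [len_stk, len_hd]
  have h2 := len_flat pr η t κ (List.finRange K)
  have h3 : (shf pr η []).length = (yz pr η κ).length := by rw [len_shf_nil, len_yz]
  unfold rowA pat FA
  rw [rdv_append (by simp only [List.length_append]; rw [h1, h2, h3]),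
    rdv_append (by simp only [List.length_append]; rw [h1, h2]),
    rdv_append h1, lbits_append, lbits_append, lbits_append, rdv_hd, rdv_yz, rdv_fi,
    rdv_flat pr η t κ _ (fun a _ => h.imp id Or.inl)]

open ZoneAAux in
theorem zoneA_eta : ∃ (M : List (Ln K)) (E : List Bool),
    rdv (rowA pr η false) (pat pr η (Kd.lt η)) =
      lbits pr η M ++ (ons (3 * KA pr η + 10) ++ [false]) ++ lbits pr η [Ln.str, Ln.str] ++ E := by
  obtain ⟨l₁, l₂, hl⟩ := List.append_of_mem (List.mem_finRange η)
  have hnd : (l₁ ++ η :: l₂).Nodup := hl ▸ List.nodup_finRange K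
  have hne : ∀ a ∈ l₁, a ≠ η := by
    rintro a ha rfl
    exact (List.nodup_append.1 hnd).2.2 _ ha _ List.mem_cons_self rfl
  set κ : Kd K := Kd.lt η with hκ
  have h1 : (stk pr η 7).length = (hd κ).length := by rw [len_stk, len_hd]
  have h2 := fun l => len_flat pr η false κ l
  have h3 : (shf pr η []).length = (yz pr η κ).length := by rw [len_shf_nil, len_yz]
  have h4 : (ivk pr η false η).length = (iv pr η κ η).length := by rw [len_ivk, len_iv]
  have hη : rdv (ivk pr η false η) (iv pr η κ η) =
      lbits pr η [Ln.base Kd.phi] ++ (ons (3 * KA pr η + 10) ++ [false]) ++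
        lbits pr η [Ln.str, Ln.str] ++ rdv (stk pr η (pad pr η η)) (ons (pad pr η η)) := by
    have hX := len_X pr η false η
    have hY := len_Y pr η κ η
    unfold ivk iv
    rw [rdv_append (hX.trans hY.symm), if_pos rfl, if_neg Bool.false_ne_true, if_pos hκ, len_eta,
      rdv_shf_mis]
  refine ⟨List.replicate ((hd κ).count true) Ln.str ++ l₁.flatMap (Fiv pr η false κ) ++
    [Ln.base Kd.phi], rdv (stk pr η (pad pr η η)) (ons (pad pr η η)) ++
      rdv (l₂.flatMap (ivk pr η false)) (l₂.flatMap (iv pr η κ)) ++
      rdv (shf pr η []) (yz pr η κ) ++ rdv (stk pr η 2) (fi κ), ?_⟩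
  unfold rowA pat
  rw [hl, rdv_append (by simp only [List.length_append]; rw [h1, h2, h3]),
    rdv_append (by simp only [List.length_append]; rw [h1, h2]),
    rdv_append h1, List.flatMap_append, List.flatMap_append, List.flatMap_cons, List.flatMap_cons,
    rdv_append (h2 l₁), rdv_append h4, hη, rdv_hd,
    rdv_flat pr η false κ l₁ (fun a ha => Or.inr (Or.inr (hne a ha))),
    lbits_append, lbits_append]
  simp only [List.append_assoc]

end

end P913
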